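import Pool.Agent.Lib_helper16.OCN.YcE2
import Pool.Agent.Lib_helper47.OCN.X0Def

/-!
# MP_aeb124_co: the class Yc, the entry from the class X0 (block E3)
-/

set_option autoImplicit false

namespace Pool.Agent.OCN.YC

variable {V : Type} {B W nl : ℕ} {K : Finset V} {R : Rep V}

/-- (block E3) the entry: a position of the class X0 with `e = 0` -/
theorem _root_.Pool.Agent.OCN.X0.yc {r : V → V → Prop} {s0 s b : ℤ} {c x M : ℕ}
    (h : X0 B K R s0 s b W 0 x M) (hr : Loc r K R) (hW : B + W ≤ K.card)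
    (hc : K.card + 2 ≤ B + c) (hcx : c ≤ x) (hnl : nl ≤ ua K R.dual (1 - s0)) :
    ∃ R' : Rep V, Loc r K R' ∧
      Yc B W nl K R' ⟨(Zs K R s).card, 0, 0, 0, x + M - c, 1, 0, Multiset.replicate c 0⟩ := by
  have h1 : E2F r B K R s0 s b W (Zs K R s).card (Ls K R s).card (x + M) c nl :=
    ⟨hr, h.lf, rfl, rfl, h.tc, h.sb, h.zb, h.al, fun p hp hb => by rw [h.ex p hp hb]; exact hcx,
      h.ir, hnl⟩
  have h2 := h.ge
  exact h1.yc (by omega) hW hc

end Pool.Agent.OCN.YC
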