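import Pool.Agent.Lib_helper16.OCN.P1t
import Pool.Agent.Lib_helper47.OCN.T1TT

/-!
# MP_aeb124_co: the end of phase 1 and the entry into the class T1
-/

set_option autoImplicit false

namespace Pool.Agent.OCN

variable {V : Type}

/-- the data at the end of phase 1: `s` is the boundary, all undecided elements are `[a, b]` -/
structure Flat (r : V → V → Prop) (K : Finset V) (R : Rep V) (s a b : ℤ) (o l t y c : ℕ) :
    Prop where
  loc : Loc r K R
  zc : (Zs K R s).card = o
  lc : (Ls K R s).card = l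
  tc : (Ts K R s).card = t
  as : a < s
  sb : s ≤ b
  z : ∀ z ∈ Zs K R s, R.lo z = a ∧ R.hi z = b
  al : ∀ z ∈ K, a ≤ R.lo z ∧ R.hi z ≤ b
  nT : ∀ p, s ≤ p → p ≤ b → c ≤ R.N (Ts K R s) p
  nL : ∀ p, a ≤ p → p < s → y ≤ R.N (Ls K R s) p
  ir : InjS K R s
  il : InjS K R.dual (1 - s)

section
variable {r : V → V → Prop} {K : Finset V} {R : Rep V} {s a b : ℤ} {o l t y c : ℕ}

theorem Flat.dual (h : Flat r K R s a b o l t y c) :
    Flat (flip r) K R.dual (1 - s) (-b) (-a) o t l c y where
  loc := h.loc.flip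
  zc := by rw [Zs_dual]; exact h.zc
  lc := by rw [Ls_dual]; exact h.tc
  tc := by rw [Ts_dual]; exact h.lc
  as := by have := h.sb; omega
  sb := by have := h.as; omega
  z z hz := by
    rw [Zs_dual] at hz
    obtain ⟨h1, h2⟩ := h.z z hz
    unfold Rep.dual
    simp only
    omega
  al z hz := by
    obtain ⟨h1, h2⟩ := h.al z hz
    unfold Rep.dual
    simp only
    omega
  nT p hp hp' := by
    rw [Ts_dual]
    have h1 := Rep.N_dual R (Ls K R s) (-p)
    rw [neg_neg] at h1
    rw [h1]
    exact h.nL (-p) (by omega) (by omega)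
  nL p hp hp' := by
    rw [Ls_dual]
    have h1 := Rep.N_dual R (Ts K R s) (-p)
    rw [neg_neg] at h1
    rw [h1]
    exact h.nT (-p) (by omega) (by omega)
  ir := h.il
  il := by rw [sub_sub_cancel, Rep.dual_dual]; exact h.ir

theorem Flat.weaken (h : Flat r K R s a b o l t y c) {y' c' : ℕ} (hy : y' ≤ y) (hc : c' ≤ c) :
    Flat r K R s a b o l t y' c' :=
  { h with
    nT := fun p h1 h2 => hc.trans (h.nT p h1 h2)
    nL := fun p h1 h2 => hy.trans (h.nL p h1 h2) }

/-- a surplus long element of the right part gets an own start -/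
theorem Flat.conv (h : Flat r K R s a b o l t y c) (hlt : ua K R s + c < t) :
    ∃ R' : Rep V, Flat r K R' s a (b + 1) o l t y c ∧ ua K R' s = ua K R s + 1 := by
  classical
  -- the elements which start at `s`
  obtain ⟨X, hX⟩ : ∃ X, X = (Ts K R s).filter fun w => R.lo w = s := ⟨_, rfl⟩
  have hXm : ∀ w, w ∈ X ↔ w ∈ K ∧ R.lo w = s := fun w => by
    rw [hX, Finset.mem_filter, mem_Ts]
    constructor
    · exact fun h => ⟨h.1.1, h.2⟩
    · exact fun h => ⟨⟨h.1, by omega⟩, h.2⟩
  have hXc : X.card + ua K R s = t := by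
    unfold ua
    rw [← h.tc, ← Finset.card_union_of_disjoint]
    · congr 1
      ext w
      rw [Finset.mem_union, Finset.mem_filter, hXm, mem_Ts]
      constructor
      · rintro (h1 | h1)
        · exact ⟨h1.1, by omega⟩
        · exact ⟨h1.1, by omega⟩
      · rintro ⟨h1, h2⟩
        by_cases h3 : R.lo w = s
        · exact Or.inl ⟨h1, h3⟩
        · exact Or.inr ⟨h1, by omega⟩
    · rw [Finset.disjoint_left]
      intro w hw hw'
      rw [hXm] at hw
      rw [Finset.mem_filter] at hw'
      omega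
  obtain ⟨w, hw⟩ := Finset.card_pos.1 (show 0 < X.card by omega)
  obtain ⟨hwK, hws⟩ := (hXm w).1 hw
  obtain ⟨R', hR'⟩ : ∃ R', R' = R.insL s (fun z => z ≠ w) := ⟨_, rfl⟩
  have hlo : ∀ z, (R.lo z < s ∧ R'.lo z = R.lo z) ∨ (R.lo z = s ∧ z ≠ w ∧ R'.lo z = s) ∨
      (s ≤ R.lo z ∧ (R.lo z = s → z = w) ∧ R'.lo z = R.lo z + 1) := by
    intro z
    rw [hR']
    unfold Rep.insL
    simp only
    by_cases h1 : R.lo z < s
    · rw [if_pos h1]
      exact Or.inl ⟨h1, rfl⟩
    · rw [if_neg h1]
      by_cases h2 : R.lo z = s ∧ z ≠ w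
      · rw [if_pos h2]
        exact Or.inr (Or.inl ⟨h2.1, h2.2, rfl⟩)
      · rw [if_neg h2]
        refine Or.inr (Or.inr ⟨by omega, fun h3 => ?_, rfl⟩)
        by_contra h4
        exact h2 ⟨h3, h4⟩
  have hhi : ∀ z, (R.hi z < s ∧ R'.hi z = R.hi z) ∨ (s ≤ R.hi z ∧ R'.hi z = R.hi z + 1) := by
    intro z
    rw [hR']
    unfold Rep.insL
    simp only
    by_cases h1 : R.hi z < s
    · rw [if_pos h1]
      exact Or.inl ⟨h1, rfl⟩
    · rw [if_neg h1]
      exact Or.inr ⟨by omega, rfl⟩
  have hZ : Zs K R' s = Zs K R s := by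
    ext z
    rw [mem_Zs, mem_Zs]
    have h1 := hlo z
    have h2 := hhi z
    constructor <;> rintro ⟨h3, h4, h5⟩ <;> refine ⟨h3, ?_, ?_⟩ <;> omega
  have hL : Ls K R' s = Ls K R s := by
    ext z
    rw [mem_Ls, mem_Ls]
    have h2 := hhi z
    constructor <;> rintro ⟨h3, h4⟩ <;> refine ⟨h3, ?_⟩ <;> omega
  have hT : Ts K R' s = Ts K R s := by
    ext z
    rw [mem_Ts, mem_Ts]
    have h1 := hlo z
    constructor <;> rintro ⟨h3, h4⟩ <;> refine ⟨h3, ?_⟩ <;> omega
  have hab := h.as
  have hsb := h.sb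
  refine ⟨R', ⟨⟨h.loc.so, h.loc.iso, fun u hu v hv => ?_⟩, by rw [hZ]; exact h.zc,
    by rw [hL]; exact h.lc, by rw [hT]; exact h.tc, hab, by omega, ?_, ?_, ?_, ?_, ?_, ?_⟩, ?_⟩
  · rw [h.loc.eq u hu v hv, hR', Rep.rel_insL]
  · intro z hz
    rw [hZ] at hz
    obtain ⟨h1, h2⟩ := h.z z hz
    have h3 := hlo z
    have h4 := hhi z
    omega
  · intro z hz
    have h1 := h.al z hz
    have h3 := hlo z
    have h4 := hhi z
    omega
  · -- the heights in the right part
    intro p hp hpb
    rw [hT]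
    rcases lt_trichotomy p (s + 1) with hlt' | heq | hgt
    · -- the new gap
      have hps : p = s := by omega
      have h1 : X.erase w ⊆ (Ts K R s).filter fun z => R'.Cr z p := by
        intro z hz
        obtain ⟨hzw, hzX⟩ := Finset.mem_erase.1 hz
        obtain ⟨hzK, hzs⟩ := (hXm z).1 hzX
        rw [Finset.mem_filter, mem_Ts]
        refine ⟨⟨hzK, by omega⟩, ?_⟩
        have h3 := hlo z
        have h4 := hhi z
        have h5 := R.le z
        unfold Rep.Cr
        rcases h3 with h3 | h3 | h3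
        · omega
        · omega
        · exact absurd (h3.2.1 hzs) hzw
      have h2 := Finset.card_le_card h1
      rw [Finset.card_erase_of_mem hw] at h2
      unfold Rep.N
      omega
    · subst heq
      refine (h.nT s le_rfl hsb).trans ?_
      unfold Rep.N
      refine Finset.card_le_card fun z hz => ?_
      rw [Finset.mem_filter, mem_Ts] at hz ⊢
      refine ⟨hz.1, ?_⟩
      have h3 := hlo z
      have h4 := hhi z
      have h5 := hz.2
      have h6 := hz.1.2
      unfold Rep.Cr at h5 ⊢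
      omega
    · refine (h.nT (p - 1) (by omega) (by omega)).trans ?_
      unfold Rep.N
      refine Finset.card_le_card fun z hz => ?_
      rw [Finset.mem_filter, mem_Ts] at hz ⊢
      refine ⟨hz.1, ?_⟩
      have h3 := hlo z
      have h4 := hhi z
      have h5 := hz.2
      have h6 := hz.1.2
      unfold Rep.Cr at h5 ⊢
      omega
  · intro p hp hps
    rw [hL]
    refine (h.nL p hp hps).trans ?_
    unfold Rep.N
    refine Finset.card_le_card fun z hz => ?_
    rw [Finset.mem_filter, mem_Ls] at hz ⊢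
    refine ⟨hz.1, ?_⟩
    have h3 := hlo z
    have h4 := hhi z
    have h5 := hz.2
    have h6 := hz.1.2
    unfold Rep.Cr at h5 ⊢
    omega
  · intro u hu v hv h1 h2
    have h3 := hlo u
    have h4 := hlo v
    by_cases hu' : R.lo u = s
    · have e1 : u = w := by
        rcases h3 with h3 | h3 | h3
        · omega
        · omega
        · exact h3.2.1 hu'
      have e2 : R.lo v = s := by
        rcases h3 with h3 | h3 | h3 <;> rcases h4 with h4 | h4 | h4 <;> omega
      have e3 : v = w := by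
        rcases h4 with h4 | h4 | h4
        · omega
        · rcases h3 with h3 | h3 | h3 <;> omega
        · exact h4.2.1 e2
      rw [e1, e3]
    · have e1 : s < R.lo u ∧ R'.lo u = R.lo u + 1 := by
        rcases h3 with h3 | h3 | h3 <;> omega
      have e2 : R.lo v = R.lo u := by
        rcases h4 with h4 | h4 | h4 <;> omega
      exact h.ir u hu v hv e1.1 e2.symm
  · intro u hu v hv h1 h2
    have h3 := hhi u
    have h4 := hhi v
    refine h.il u hu v hv ?_ ?_ <;> unfold Rep.dual at h1 h2 ⊢ <;> simp only at h1 h2 ⊢ <;> omega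
  · unfold ua
    have h1 : (K.filter fun z => s < R'.lo z) = insert w (K.filter fun z => s < R.lo z) := by
      ext z
      rw [Finset.mem_insert, Finset.mem_filter, Finset.mem_filter]
      have h3 := hlo z
      constructor
      · rintro ⟨h4, h5⟩
        by_cases hzw : z = w
        · exact Or.inl hzw
        · refine Or.inr ⟨h4, ?_⟩
          rcases h3 with h3 | h3 | h3
          · omega
          · omega
          · by_contra h6
            exact hzw (h3.2.1 (by omega))
      · rintro (rfl | ⟨h4, h5⟩)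
        · refine ⟨hwK, ?_⟩
          rcases h3 with h3 | h3 | h3
          · omega
          · exact absurd rfl h3.2.1
          · omega
        · exact ⟨h4, by omega⟩
    rw [h1, Finset.card_insert_of_notMem]
    rw [Finset.mem_filter]
    intro h2
    omega

theorem Flat.convs (m : ℕ) (h : Flat r K R s a b o l t y c) (hm : m + c ≤ t) :
    ∃ (R' : Rep V) (b' : ℤ), Flat r K R' s a b' o l t y c ∧ m ≤ ua K R' s := by
  obtain ⟨k, hk⟩ : ∃ k, k = m - ua K R s := ⟨_, rfl⟩
  induction k generalizing R b with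
  | zero => exact ⟨R, b, h, by omega⟩
  | succ k ih =>
    obtain ⟨R', h1, h2⟩ := h.conv (by omega)
    exact ih h1 (by omega)

/-- the end of phase 1 -/
theorem P1s.exit {n o y N x M : ℕ} (h : P1s r n (o + 1) y N x M) :
    ∃ (K : Finset V) (R : Rep V) (s a b : ℤ),
      Flat r K R s a b (o + 1) (y + N) (x + M) y x ∧ K.card = n := by
  classical
  obtain ⟨K, R, g, a, b, h, hn⟩ := h
  have hm := h.d.st.hg.mono
  obtain ⟨z0, hz0, hz1, hz2⟩ := h.d.exists_open (by omega)
  obtain ⟨ha, hb⟩ := h.fl z0 hz0 hz1 hz2 (fun h => h)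
  have ga : g a = 1 := by rw [← ha]; exact hz1
  have gb : g b = 2 := by rw [← hb]; exact hz2
  obtain ⟨s, hs1, hs2, hs3, hs4⟩ := exists_first (g := g) (ρ := 2) (a := a) (p := b)
    (by omega) gb hm
  have hlt : ∀ p, p < s → g p ≤ 1 := fun p hp => by
    have := hm (show p ≤ s - 1 by omega)
    omega
  have hge : ∀ p, s ≤ p → 2 ≤ g p := fun p hp => by
    have := hm hp
    omega
  have hg1 : ∀ p, a ≤ p → p < s → g p = 1 := fun p h1 h2 => by
    have := hm h1
    have := hlt p h2
    omega
  have hg2 : ∀ p, s ≤ p → p ≤ b → g p = 2 := fun p h1 h2 => by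
    have := hm h2
    have := hge p h1
    omega
  have tZ : ∀ z ∈ K, ((R.lo z < s ∧ s ≤ R.hi z) ↔ (g (R.lo z) = 1 ∧ g (R.hi z) = 2)) := by
    intro z hz
    constructor
    · rintro ⟨h1, h2⟩
      have e1 := hlt _ h1
      have e2 := hge _ h2
      rcases h.d.ty z hz with h3 | h3 | h3 <;> omega
    · rintro ⟨h1, h2⟩
      constructor
      · by_contra h3
        have := hge (R.lo z) (by omega)
        omega
      · by_contra h3
        have := hlt (R.hi z) (by omega)
        omega
  have tL : ∀ z ∈ K, (R.hi z < s ↔ (g (R.lo z) = 1 ∧ g (R.hi z) = 1)) := by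
    intro z hz
    constructor
    · intro h1
      have e1 := hlt _ h1
      rcases h.d.ty z hz with h3 | h3 | h3 <;> omega
    · rintro ⟨h1, h2⟩
      by_contra h3
      have := hge (R.hi z) (by omega)
      omega
  have tT : ∀ z ∈ K, (s ≤ R.lo z ↔ (g (R.lo z) = 2 ∧ g (R.hi z) = 2)) := by
    intro z hz
    constructor
    · intro h1
      have e1 := hge _ h1
      rcases h.d.ty z hz with h3 | h3 | h3 <;> omega
    · rintro ⟨h1, h2⟩
      by_contra h3
      have := hlt (R.lo z) (by omega)
      omega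
  have hZc : (Zs K R s).card = o + 1 := by
    rw [← h.d.co]
    unfold Zs
    exact card_filter_eq_cn fun z hz => tZ z hz
  have hLc : (Ls K R s).card = y + N := by
    rw [← h.d.cl]
    unfold Ls
    exact card_filter_eq_cn fun z hz => tL z hz
  have hTc : (Ts K R s).card = x + M := by
    rw [← h.d.cr]
    unfold Ts
    exact card_filter_eq_cn fun z hz => tT z hz
  refine ⟨K, R, s, a, b, ⟨h.d.st.loc, hZc, hLc, hTc, hs1, hs2, ?_, h.al, ?_, ?_, ?_, ?_⟩, hn⟩
  · intro z hz
    obtain ⟨h1, h2⟩ := mem_Zs.1 hz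
    obtain ⟨h3, h4⟩ := (tZ z h1).1 h2
    exact h.fl z h1 h3 h4 (fun h => h)
  · intro p hp hpb
    have e1 := h.d.st.hg.ht p ⟨z0, hz0, by rw [ha]; omega, by rw [hb]; exact hpb⟩
    rw [hg2 p hp hpb] at e1
    have e2 : H1 (o + 1) y x 2 = o + 1 + x := by
      unfold H1
      rw [if_neg (by norm_num), if_pos rfl]
    rw [e2] at e1
    have e3 : R.N K p ≤ (Zs K R s).card + R.N (Ts K R s) p := by
      unfold Rep.N
      refine le_trans (Finset.card_le_card ?_) (Finset.card_union_le _ _)
      intro w hw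
      rw [Finset.mem_filter] at hw
      rw [Finset.mem_union, Finset.mem_filter, mem_Zs, mem_Ts]
      obtain ⟨h1, h2, h3⟩ := hw
      by_cases h4 : s ≤ R.lo w
      · exact Or.inr ⟨⟨h1, h4⟩, h2, h3⟩
      · exact Or.inl ⟨h1, by omega, by omega⟩
    omega
  · intro p hp hps
    have e1 := h.d.st.hg.ht p ⟨z0, hz0, by rw [ha]; exact hp, by rw [hb]; omega⟩
    rw [hg1 p hp hps] at e1
    have e2 : H1 (o + 1) y x 1 = o + 1 + y := by
      unfold H1
      rw [if_pos rfl]
    rw [e2] at e1
    have e3 : R.N K p ≤ (Zs K R s).card + R.N (Ls K R s) p := by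
      unfold Rep.N
      refine le_trans (Finset.card_le_card ?_) (Finset.card_union_le _ _)
      intro w hw
      rw [Finset.mem_filter] at hw
      rw [Finset.mem_union, Finset.mem_filter, mem_Zs, mem_Ls]
      obtain ⟨h1, h2, h3⟩ := hw
      by_cases h4 : R.hi w < s
      · exact Or.inr ⟨⟨h1, h4⟩, h2, h3⟩
      · exact Or.inl ⟨h1, by omega, by omega⟩
    omega
  · intro u hu v hv h1 h2
    have e1 := h.al u hu
    have e2 := R.le u
    have e3 := h.d.st.hg.ul (R.lo u) (by
      unfold B1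
      exact ⟨hg2 _ (by omega) (by omega), hg2 _ (by omega) (by omega)⟩)
    rw [Finset.card_le_one] at e3
    exact e3 u (Finset.mem_filter.2 ⟨hu, rfl⟩) v (Finset.mem_filter.2 ⟨hv, h2.symm⟩)
  · intro u hu v hv h1 h2
    unfold Rep.dual at h1 h2
    simp only at h1 h2
    have e1 := h.al u hu
    have e2 := R.le u
    have e3 := h.d.st.hg.uh (R.hi u) (by
      unfold A1
      exact ⟨hg1 _ (by omega) (by omega), hg1 _ (by omega) (by omega)⟩)
    rw [Finset.card_le_one] at e3
    exact e3 u (Finset.mem_filter.2 ⟨hu, rfl⟩) v (Finset.mem_filter.2 ⟨hv, by omega⟩)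

/-- the entry into the class T1 -/
theorem Flat.t1 {B W : ℕ} (h : Flat r K R s a b o l t y c) (hl : K.card ≤ B + l)
    (ht : K.card ≤ B + t) (hy : K.card ≤ B + y + W) (hc : K.card ≤ B + c)
    (hch : W ≤ ua K R s) (hW : 2 * W + 1 ≤ o) : T1 B K R s W 0 := by
  classical
  have hUb : ∀ z ∈ Zs K R s, R.U K z = 0 := by
    intro z hz
    have h1 := (h.z z hz).2
    unfold Rep.U
    rw [Finset.card_eq_zero, Finset.filter_eq_empty_iff]
    intro w hw hzw
    unfold Rep.rel at hzw
    have h2 := h.al w hw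
    have h3 := R.le w
    omega
  refine ⟨⟨by rw [h.lc]; exact hl, by rw [h.tc]; exact ht, ?_, ?_, h.ir, h.il, ?_, ?_, hch, ?_⟩,
    ?_⟩
  · intro p hp z hz hzp w hw hwp hwz
    have h1 := h.nT p hp (by have := hzp.2; rw [(h.z z hz).2] at this; exact this)
    omega
  · intro p hp z hz hzp w hw hwp hwz
    rw [Zs_dual] at hz
    have h1 := h.nL (-p) (by
      have := (Rep.cr_dual R z (-p)).1 (by rw [neg_neg]; exact hzp)
      have := this.1
      rw [(h.z z hz).1] at this
      exact this) (by omega)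
    rw [Ts_dual]
    have h2 := Rep.N_dual R (Ls K R s) (-p)
    rw [neg_neg] at h2
    rw [h2]
    omega
  · intro z hz z' hz'
    rw [(h.z z hz).1, (h.z z' hz').1]
  · exact fun z _ => Nat.zero_le _
  · intro z hz z' hz'
    rw [hUb z hz]
    exact Nat.zero_le _
  · unfold Mass
    rw [h.zc, Finset.sum_congr rfl (g := fun _ => W) (fun z hz => by rw [hUb z hz, Nat.sub_zero]),
      Finset.sum_const, h.zc, smul_eq_mul]
    have h1 : 2 * W ≤ o - 1 := by omega
    calc 2 * (o * W) = o * (2 * W) := by ring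
      _ ≤ o * (o - 1) := Nat.mul_le_mul_left _ h1

end

/-- the exit of phase 1 into the class T1 -/
theorem P1s.t1 {r : V → V → Prop} {B n o y N x M : ℕ} (h : P1s r n (o + 1) y N x M)
    (h1 : n ≤ B + (y + N)) (h2 : n ≤ B + x) (h3 : n + (n - (B + y)) ≤ B + (x + M))
    (h4 : 2 * (n - (B + y)) ≤ o) : r ∈ Cls (V := V) (T1T B) := by
  obtain ⟨K, R, s, a, b, h5, hn⟩ := h.exit
  obtain ⟨g0, hg0⟩ : ∃ g0, g0 = n - B := ⟨_, rfl⟩
  have h6 : Flat r K R s a b (o + 1) (y + N) (x + M) y g0 := h5.weaken le_rfl (by omega)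
  obtain ⟨R', b', h7, h8⟩ := h6.convs (n - (B + y)) (by omega)
  exact ⟨K, R', h7.loc, Or.inr (Or.inl ⟨s, n - (B + y), 0, h7.t1 (by omega) (by omega) (by omega)
    (by omega) h8 (by omega)⟩)⟩

end Pool.Agent.OCN
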