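import Pool.Agent.Lib_helper16.OCN.YcG
import Pool.Agent.Lib_helper16.OCN.YcE3
import Pool.Agent.Lib_helper47.OCN.X0d
import Pool.Agent.Lib_helper87.OCN.P1eX

/-!
# MP_aeb124_co: the end class of the exact phase 1

`X` is the class of the ends of the class Yc, `EY` adds all classes Yc with a winning game of numbers,
`EX` adds the classes X0 which end in them.
-/

set_option autoImplicit false

namespace Pool.Agent.OCN

variable {V : Type}

/-- a union of classes which are closed over `X` -/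
theorem ClosedR.unionE [Fintype V] {B : ℕ} {X A : Set (V → V → Prop)} (hX : ClosedR B X)
    (h : ∀ r ∈ A, ∃ A' ⊆ A, r ∈ A' ∧ ClosedR B (X ∪ A')) : ClosedR B (X ∪ A) := by
  rintro r (hr | hr) x y hxy h1 h2
  · obtain ⟨r', g1, g2, g3, g4⟩ := hX r hr x y hxy h1 h2
    exact ⟨r', Or.inl g1, g2, g3, g4⟩
  · obtain ⟨A', hA, hrA, hc⟩ := h r hr
    obtain ⟨r', g1, g2, g3, g4⟩ := hc r (Or.inr hrA) x y hxy h1 h2
    exact ⟨r', g1.imp id (fun h3 => hA h3), g2, g3, g4⟩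

/-- the game of numbers is won -/
def NumOK (W nl : ℕ) (σ : YC.St) : Prop := ∃ G : YC.St → Prop, YC.Game W nl G ∧ G σ

/-- the class Yc with all winning games -/
def EY (B : ℕ) (X : Set (V → V → Prop)) : Set (V → V → Prop) :=
  X ∪ {r | ∃ (W nl : ℕ) (G : YC.St → Prop), YC.Game W nl G ∧ r ∈ YC.cYc B W nl G}

/-- the classes X0 in front of it -/
def EX (B : ℕ) (X : Set (V → V → Prop)) : Set (V → V → Prop) :=
  EY B X ∪ {r | ∃ W nl x M k o c : ℕ, k ≤ B + o + 1 ∧ W ≤ o ∧ B + W ≤ k ∧ k + 2 ≤ B + c ∧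
    c ≤ x ∧ NumOK W nl ⟨o, 0, 0, 0, x + M - c, 1, 0, Multiset.replicate c 0⟩ ∧
    r ∈ X0C B W nl x M k o}

/-- the ends of the class Yc are in `X` -/
def EndOK (B : ℕ) (X : Set (V → V → Prop)) : Prop :=
  ∀ (W nl : ℕ) (r : V → V → Prop) (K : Finset V) (R : Rep V) (σ : YC.St), Loc r K R →
    YC.Yc B W nl K R σ → YC.Ex W nl σ → r ∈ X

theorem EY_closed [Fintype V] {B : ℕ} {X : Set (V → V → Prop)} (hX : ClosedR B X)
    (hE : EndOK B X) : ClosedR B (EY B X) := by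
  refine hX.unionE ?_
  rintro r ⟨W, nl, G, hG, hr⟩
  exact ⟨YC.cYc B W nl G, fun r' h => ⟨W, nl, G, hG, h⟩, hr, hG.closed hX (hE W nl)⟩

theorem EX_closed [Fintype V] {B : ℕ} {X : Set (V → V → Prop)} (hX : ClosedR B X)
    (hE : EndOK B X) : ClosedR B (EX B X) := by
  refine (EY_closed hX hE).unionE ?_
  rintro r ⟨W, nl, x, M, k, o, c, h1, h2, h3, h4, h5, h6, hr⟩
  refine ⟨X0C B W nl x M k o, fun r' h => ⟨W, nl, x, M, k, o, c, h1, h2, h3, h4, h5, h6, h⟩, hr,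
    x0_closed (EY_closed hX hE) h1 h2 ?_⟩
  intro r' K R s0 s b g1 g2 g3 g4 g5
  obtain ⟨R', k1, k2⟩ := g2.yc g1 (by omega) (by omega) h5 g4
  rw [g5] at k2
  obtain ⟨G, hG, hσ⟩ := h6
  exact Or.inr ⟨W, nl, G, hG, K, R', _, k1, k2, hσ⟩

theorem EX_so {B : ℕ} {X : Set (V → V → Prop)} (hX : ∀ r ∈ X, SO r) : ∀ r ∈ EX B X, SO r := by
  rintro r ((hr | ⟨W, nl, G, _, K, R, σ, h1, _⟩) | ⟨W, nl, x, M, k, o, c, _, _, _, _, _, _, hr⟩)
  · exact hX r hr
  · exact h1.so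
  · obtain ⟨K, R, s0, s, b, e, h1, _⟩ := hr
    exact h1.so

/-- the exits of phase 1, the left part is large -/
theorem P1e.ex0 {B W n o y N x M c : ℕ} {r : V → V → Prop} {X : Set (V → V → Prop)}
    (h : P1e r n (o + 1) y N x M) (hW : n ≤ B + y + W) (hBW : B + W ≤ n) (hl : n ≤ B + (y + N))
    (hc : n + 2 ≤ B + c) (hcx : c ≤ x)
    (hnum : NumOK W N ⟨o + 1, 0, 0, 0, x + M - c, 1, 0, Multiset.replicate c 0⟩) :
    r ∈ EX B X := by
  obtain ⟨K, R, s, a, b, h1, h2, h3, h4⟩ := h.exit' hW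
  have h5 : Flat r K R s a b (o + 1) (y + N) (x + M) y c :=
    { h1 with nT := fun p hp hb => by rw [h2 p hp hb]; exact hcx }
  obtain ⟨R', k1, k2⟩ := h5.yc (B := B) (W := W) (nl := N) (by omega) (by omega) (by omega) (by omega) (by omega)
    (by omega)
  obtain ⟨G, hG, hσ⟩ := hnum
  exact Or.inl (Or.inr ⟨W, N, G, hG, K, R', _, k1, k2, hσ⟩)

end Pool.Agent.OCN
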