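import Pool.Agent.Lib_helper16.OCN.End
import Pool.Agent.Lib_helper87.OCN.X0E
import Pool.Agent.Lib_helper29.OCN.CellsX

/-!
# MP_aeb124_co: from the entry data to the end class
-/

set_option autoImplicit false

namespace Pool.Agent.OCN

/-- The theorem on the game of numbers: `o` undecided elements, `W` levels, `μ` starts, `c` base
elements, the last deficits are at most `f`. -/
def NumThm (p : XPar) : Prop :=
  ∀ den : ℕ, ∃ Q₀ : ℕ, ∀ Q, Q₀ ≤ Q → ∀ W nl o μ c f : ℕ, o ≤ Q → c ≤ Q → W ≤ o →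
    W - μ ≤ c → f ≤ W - μ → f ≤ nl →
    den * (p.A * f + p.B * (W - μ)) + Q ≤ den * (p.A' * (c - (W - μ))) →
    den * ((p.L : ℤ) * (2 * (o * W) + 4 * f ^ 2 +
      2 * (((W - μ : ℕ) - f) * (c - (W - μ : ℕ)))) + p.J * ((W - μ : ℕ) - f) ^ 2) +
      Q ^ 2 ≤ den * (p.L * o ^ 2) →
    den * ((p.L : ℤ) * (2 * (o * W)) + (p.a * f ^ 2 + 2 * (p.b * (f * ((W - μ : ℕ) - f))) +
      p.c * ((W - μ : ℕ) - f) ^ 2)) + Q ^ 2 ≤ den * (p.L * o ^ 2) →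
    NumOK W nl ⟨o, 0, 0, 0, μ, 1, 0, Multiset.replicate c 0⟩

/-- the part of the survivors and tops is monotone -/
theorem ent_mono {L J f D₁ D c gq : ℤ} (hL : 0 ≤ L) (hLJ : J ≤ L) (hf : f ≤ D) (hD : D ≤ D₁)
    (hc : c ≤ gq) (hm : (L - J) * (D₁ - f) ≤ L * (gq - D₁)) :
    L * (2 * ((D - f) * (c - D))) + J * (D - f) ^ 2 ≤
      L * (2 * ((D₁ - f) * (gq - D₁))) + J * (D₁ - f) ^ 2 := by
  have h1 : (D - f) * (c - D) ≤ (D - f) * (gq - D) :=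
    mul_le_mul_of_nonneg_left (by linarith) (by linarith)
  have h2 := mul_le_mul_of_nonneg_left h1 hL
  have h3 : L * (2 * ((D₁ - f) * (gq - D₁))) + J * (D₁ - f) ^ 2 -
      (L * (2 * ((D - f) * (gq - D))) + J * (D - f) ^ 2) =
      (D₁ - D) * (2 * (L * (gq - D₁) - (L - J) * (D₁ - f)) + (2 * L - J) * (D₁ - D)) := by
    ring
  have h4 : 0 ≤ (2 * L - J) * (D₁ - D) := mul_nonneg (by linarith) (by linarith)
  have h5 : 0 ≤ (D₁ - D) * (2 * (L * (gq - D₁) - (L - J) * (D₁ - f)) +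
      (2 * L - J) * (D₁ - D)) := mul_nonneg (by linarith) (by linarith)
  linarith

/-- the quadratic part without the elements -/
theorem ent_oW {o₀ o₁ W G₁ : ℤ} (k3 : o₁ + 1 ≤ o₀) (k4 : W ≤ o₁) (k5 : W ≤ G₁) (k6 : 0 ≤ o₁) :
    2 * (o₀ * W) - o₀ ^ 2 ≤ 2 * (o₁ * G₁) - o₁ ^ 2 := by
  have k8 : 0 ≤ (o₀ - o₁) * (o₀ + o₁ - 2 * W) := mul_nonneg (by linarith) (by linarith)
  have k9 : 0 ≤ o₁ * (G₁ - W) := mul_nonneg k6 (by linarith)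
  nlinarith

/-- the last step of the arithmetic -/
theorem ent_den {H q L X0 O0 Y0 X1 O1 Y1 : ℤ} (hL : 0 ≤ L)
    (k7 : X0 - O0 ≤ X1 - O1) (k13 : Y0 ≤ Y1)
    (h : 512 * (L * X1 + Y1) + q ^ 2 ≤ 512 * (L * O1)) :
    512 * H ^ 2 * (L * X0 + Y0) + (H * q) ^ 2 ≤ 512 * H ^ 2 * (L * O0) := by
  have m1 := mul_le_mul_of_nonneg_left k7 hL
  have m3 : 512 * (L * X0 + Y0) + q ^ 2 ≤ 512 * (L * O0) := by linarith
  have m4 := mul_le_mul_of_nonneg_left m3 (sq_nonneg H)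
  linarith

/-- the numbers of the entry -/
theorem ent_nums {R0 gq Kq Hq N M y x G' W c e o₀ D o₁ e₁ G₁ D₁ : ℕ} (hR : 2 ≤ R0)
    (hgq : R0 + 2 ≤ gq) (hHq : Hq = Kq + gq) (h1 : gq ≤ y + N + e₁) (h2 : gq ≤ x)
    (h3 : gq ≤ y + G₁) (h4 : 2 * gq ≤ y + M + x + D₁) (h7 : D₁ ≤ gq)
    (h9 : y + N + (x + M) + e₁ + o₁ + 1 = Hq) (h10 : gq ≤ o₁ + 1) (hG' : G' + R0 = gq)
    (hW : W = G' - y) (hc : c = G' + 2) (he : e = G' - (y + N))
    (ho : o₀ + (y + N + x + M) + e = Hq) (hD : D = W - (x + M - c)) :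
    o₁ + 1 ≤ o₀ ∧ W ≤ o₁ ∧ c ≤ gq ∧ c ≤ x ∧ D ≤ c ∧ D ≤ D₁ ∧ W ≤ G₁ ∧
      gq - D₁ ≤ c - D + R0 ∧ Hq ≤ (Kq + R0) + y + W ∧ (Kq + R0) + W ≤ Hq ∧
      Hq + 2 ≤ (Kq + R0) + c ∧ Hq ≤ (Kq + R0) + o₀ + 1 ∧ W ≤ o₀ ∧
      ((Hq ≤ (Kq + R0) + (y + N) ∧ y + N + x + M + o₀ = Hq) ∨
        (Hq = (Kq + R0) + (y + N) + e ∧ y + N + x + M + (o₀ + e) = Hq)) ∧
      1 ≤ o₀ ∧ o₀ ≤ Hq ∧ c ≤ Hq := by
  have k1 : e ≤ e₁ := by omega
  have k2 : W ≤ G' := by omega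
  have k3 : o₁ + 1 ≤ o₀ := by omega
  have k4 : W ≤ o₁ := by omega
  have k5 : c ≤ gq := by omega
  have k6 : c ≤ x := by omega
  have k7 : D ≤ c := by omega
  have k8 : D ≤ D₁ := by omega
  have k9 : W ≤ G₁ := by omega
  have k10 : gq - D₁ ≤ c - D + R0 := by omega
  have k11 : (Hq ≤ (Kq + R0) + (y + N) ∧ y + N + x + M + o₀ = Hq) ∨
      (Hq = (Kq + R0) + (y + N) + e ∧ y + N + x + M + (o₀ + e) = Hq) := by
    rcases Nat.eq_zero_or_pos e with h0 | h0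
    · left
      constructor <;> omega
    · right
      constructor <;> omega
  refine ⟨k3, k4, k5, k6, k7, k8, k9, k10, ?_, ?_, ?_, ?_, ?_, k11, ?_, ?_, ?_⟩ <;> omega

/-- the arithmetic of the entry -/
theorem ent_arith {p : XPar} {g K R0 q H : ℕ} (hκ : p.κ ≤ 1) (hJ : p.J ≤ p.L) (hR : 2 ≤ R0)
    (hH : H = K + g) (hgq : R0 + 2 ≤ g * q) (hq : 17 * (p.A' * R0) ≤ q) {N M y x : ℕ}
    (h : Ent p H g q N M y x) :
    ∃ o₀ W c e : ℕ, H * q ≤ (K * q + R0) + y + W ∧ (K * q + R0) + W ≤ H * q ∧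
      H * q + 2 ≤ (K * q + R0) + c ∧ c ≤ x ∧ H * q ≤ (K * q + R0) + o₀ + 1 ∧ W ≤ o₀ ∧
      ((H * q ≤ (K * q + R0) + (y + N) ∧ y + N + x + M + o₀ = H * q) ∨
        (H * q = (K * q + R0) + (y + N) + e ∧ y + N + x + M + (o₀ + e) = H * q)) ∧
      1 ≤ o₀ ∧
      ∃ f : ℕ, f ≤ N ∧ o₀ ≤ H * q ∧ c ≤ H * q ∧ W - (x + M - c) ≤ c ∧ f ≤ W - (x + M - c) ∧
        512 * H ^ 2 * (p.A * f + p.B * (W - (x + M - c))) + H * q ≤
          512 * H ^ 2 * (p.A' * (c - (W - (x + M - c)))) ∧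
        (512 * H ^ 2 : ℕ) * ((p.L : ℤ) * (2 * (o₀ * W) + 4 * f ^ 2 +
          2 * (((W - (x + M - c) : ℕ) - f) * (c - (W - (x + M - c) : ℕ)))) +
          p.J * ((W - (x + M - c) : ℕ) - f) ^ 2) + (H * q : ℕ) ^ 2 ≤
          (512 * H ^ 2 : ℕ) * (p.L * o₀ ^ 2) ∧
        (512 * H ^ 2 : ℕ) * ((p.L : ℤ) * (2 * (o₀ * W)) + (p.a * f ^ 2 +
          2 * (p.b * (f * ((W - (x + M - c) : ℕ) - f))) +
          p.c * ((W - (x + M - c) : ℕ) - f) ^ 2)) + (H * q : ℕ) ^ 2 ≤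
          (512 * H ^ 2 : ℕ) * (p.L * o₀ ^ 2) := by
  obtain ⟨o₁, e₁, G₁, D₁, f, h₁, h1, h2, h3, h4, h5, h6, h7, h8, h9, h10, _, h11, h14, h12, h13⟩ := h
  have hHq : H * q = K * q + g * q := by rw [hH]; ring
  have hH1 : 1 ≤ H := by
    rcases Nat.eq_zero_or_pos H with h0 | h0
    · exfalso
      have : g = 0 := by omega
      rw [this] at hgq
      omega
    · exact h0
  obtain ⟨gq, hgq'⟩ : ∃ z, z = g * q := ⟨_, rfl⟩
  have h12' : 512 * ((p.L : ℤ) * (2 * (o₁ * G₁) + 4 * f ^ 2 + 2 * ((D₁ - f) * (gq - D₁))) +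
      p.J * h₁ ^ 2) + q ^ 2 ≤ 512 * (p.L * o₁ ^ 2) := by
    rw [hgq']
    push_cast
    exact h12
  rw [← hgq'] at hHq h1 h2 h3 h4 h7 h10 h11 h14 hgq
  clear h12
  -- the numbers
  obtain ⟨G', hG'⟩ : ∃ z, z = gq - R0 := ⟨_, rfl⟩
  obtain ⟨W, hW⟩ : ∃ z, z = G' - y := ⟨_, rfl⟩
  obtain ⟨c, hc⟩ : ∃ z, z = G' + 2 := ⟨_, rfl⟩
  obtain ⟨e, he⟩ : ∃ z, z = G' - (y + N) := ⟨_, rfl⟩
  obtain ⟨o₀, ho⟩ : ∃ z, z = H * q - (y + N + x + M) - e := ⟨_, rfl⟩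
  obtain ⟨D, hD⟩ : ∃ z, z = W - (x + M - c) := ⟨_, rfl⟩
  have hall := ent_nums (Hq := H * q) (Kq := K * q) (o₀ := o₀) (e := e) hR hgq hHq h1 h2 h3 h4 h7
    h9 h10 (by omega) hW hc he (by omega) hD
  obtain ⟨ho1, hWo, hcgq, hcx, hDc, hDD, hWG, hcD, n1, n2, n3, n4, n5, n6, n7, n8, n9⟩ := hall
  refine ⟨o₀, W, c, e, n1, n2, n3, hcx, n4, n5, n6, n7, ?_⟩
  rw [← hD]
  obtain ⟨f', hf'⟩ : ∃ z, z = min f D := ⟨_, rfl⟩
  have hff : f' ≤ f := by omega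
  have hfD : f' ≤ D := by omega
  have hA : 512 * H ^ 2 * (p.A * f' + p.B * D) + H * q ≤ 512 * H ^ 2 * (p.A' * (c - D)) := by
    have k1 : 512 * H ^ 2 * (p.A * f' + p.B * D) ≤ 512 * H ^ 2 * (p.A * f + p.B * D₁) :=
      Nat.mul_le_mul_left _ (Nat.add_le_add (Nat.mul_le_mul_left _ hff)
        (Nat.mul_le_mul_left _ hDD))
    have k2 : 32 * H ^ 2 * (16 * (p.A * f + p.B * D₁) + q) ≤
        32 * H ^ 2 * (16 * (p.A' * (gq - D₁))) := Nat.mul_le_mul_left _ h11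
    have k3 : 32 * H ^ 2 * (16 * (p.A' * (gq - D₁))) ≤ 32 * H ^ 2 * (16 * (p.A' * (c - D + R0))) :=
      Nat.mul_le_mul_left _ (Nat.mul_le_mul_left _ (Nat.mul_le_mul_left _ hcD))
    have k4 : H ^ 2 * (17 * (p.A' * R0)) ≤ H ^ 2 * q := Nat.mul_le_mul_left _ hq
    have k5 : H * q ≤ H ^ 2 * q := by
      rw [pow_two]
      exact Nat.mul_le_mul_right _ (Nat.le_mul_of_pos_left _ hH1)
    have e1 : 32 * H ^ 2 * (16 * (p.A * f + p.B * D₁) + q) =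
        512 * H ^ 2 * (p.A * f + p.B * D₁) + 32 * (H ^ 2 * q) := by ring
    have e2 : 32 * H ^ 2 * (16 * (p.A' * (c - D + R0))) =
        512 * H ^ 2 * (p.A' * (c - D)) + 512 * (H ^ 2 * (p.A' * R0)) := by ring
    have e3 : H ^ 2 * (17 * (p.A' * R0)) = 17 * (H ^ 2 * (p.A' * R0)) := by ring
    rw [e1] at k2
    rw [e2] at k3
    rw [e3] at k4
    clear h12' h13 h14 h8 h11
    omega
  -- the quadratic parts
  have k7 := ent_oW (o₀ := (o₀ : ℤ)) (o₁ := o₁) (W := W) (G₁ := G₁) (by exact_mod_cast ho1)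
    (by exact_mod_cast hWo) (by exact_mod_cast hWG) (Nat.cast_nonneg _)
  have k10 : (4 * f' ^ 2 : ℤ) ≤ 4 * f ^ 2 := by
    have : ((f' : ℤ)) ^ 2 ≤ (f : ℤ) ^ 2 :=
      pow_le_pow_left₀ (Nat.cast_nonneg _) (by exact_mod_cast hff) 2
    linarith
  have c5 : (f : ℤ) ≤ D₁ := by exact_mod_cast h5
  have c7 : (D₁ : ℤ) ≤ gq := by exact_mod_cast h7
  have cDD : (D : ℤ) ≤ D₁ := by exact_mod_cast hDD
  have hL0 : (0 : ℤ) ≤ p.L := Nat.cast_nonneg _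
  have hJ0 : (0 : ℤ) ≤ p.J := Nat.cast_nonneg _
  have kh : ((D₁ : ℤ) - f) ^ 2 ≤ (h₁ : ℤ) ^ 2 := by
    refine pow_le_pow_left₀ (by linarith) ?_ 2
    have : p.κ * f ≤ 1 * f := Nat.mul_le_mul_right _ hκ
    have : D₁ ≤ f + h₁ := by omega
    have : (D₁ : ℤ) ≤ f + h₁ := by exact_mod_cast this
    linarith
  have khJ := mul_le_mul_of_nonneg_left kh hJ0
  have k11 : ((D : ℤ) - f') ^ 2 ≤ (D₁ - f) ^ 2 := by
    have c1 : (f' : ℤ) ≤ D := by exact_mod_cast hfD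
    refine pow_le_pow_left₀ (by linarith) ?_ 2
    rcases le_or_gt f D with k | k
    · have e1 : f' = f := by omega
      rw [e1]
      linarith
    · have e1 : f' = D := by omega
      rw [e1]
      linarith
  have k11J := mul_le_mul_of_nonneg_left k11 hJ0
  have k12 : (p.a * f' ^ 2 + 2 * (p.b * (f' * ((D : ℤ) - f'))) + p.c * ((D : ℤ) - f') ^ 2) ≤
      p.a * f ^ 2 + 2 * (p.b * (f * (D₁ - f))) + p.c * (D₁ - f) ^ 2 := by
    have a0 : (0 : ℤ) ≤ p.a := Nat.cast_nonneg _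
    have b0 : (0 : ℤ) ≤ p.b := Nat.cast_nonneg _
    have c0 : (0 : ℤ) ≤ p.c := Nat.cast_nonneg _
    have f0 : (0 : ℤ) ≤ f := Nat.cast_nonneg _
    have f0' : (0 : ℤ) ≤ f' := Nat.cast_nonneg _
    have e1 : (4 * f' ^ 2 : ℤ) ≤ 4 * f ^ 2 := k10
    have e2 : (p.a * f' ^ 2 : ℤ) ≤ p.a * f ^ 2 := mul_le_mul_of_nonneg_left (by linarith) a0
    have e3 := mul_le_mul_of_nonneg_left k11 c0
    have e4 : (f' : ℤ) * (D - f') ≤ f * (D₁ - f) := by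
      rcases le_or_gt f D with k | k
      · have e1 : f' = f := by omega
        rw [e1]
        exact mul_le_mul_of_nonneg_left (by linarith) f0
      · have e1 : f' = D := by omega
        rw [e1, sub_self, mul_zero]
        exact mul_nonneg f0 (by linarith)
    have e5 := mul_le_mul_of_nonneg_left e4 b0
    linarith
  have k13 : (p.L : ℤ) * (2 * (((D : ℤ) - f') * (c - D))) + p.J * ((D : ℤ) - f') ^ 2 ≤
      p.L * (2 * ((D₁ - f) * (gq - D₁))) + p.J * (D₁ - f) ^ 2 := by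
    rcases le_or_gt f D with k | k
    · have e1 : f' = f := by omega
      rw [e1]
      refine ent_mono hL0 (by exact_mod_cast hJ) (by exact_mod_cast k) cDD
        (by exact_mod_cast hcgq) ?_
      obtain ⟨d, hd⟩ := Nat.exists_eq_add_of_le hJ
      obtain ⟨t, ht⟩ := Nat.exists_eq_add_of_le h5
      obtain ⟨w, hw⟩ := Nat.exists_eq_add_of_le h7
      have e2 : p.L - p.J = d := by omega
      have e3 : D₁ - f = t := by omega
      have e4 : gq - D₁ = w := by omega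
      rw [e2, e3, e4] at h14
      have e5 : (p.L : ℤ) - p.J = d := by rw [hd]; push_cast; ring
      have e6 : (D₁ : ℤ) - f = t := by rw [ht]; push_cast; ring
      have e7 : (gq : ℤ) - D₁ = w := by rw [hw]; push_cast; ring
      rw [e5, e6, e7]
      exact_mod_cast h14
    · have e1 : f' = D := by omega
      have k14 : (0 : ℤ) ≤ (D₁ - f) * (gq - D₁) := mul_nonneg (by linarith) (by linarith)
      have k15 : (0 : ℤ) ≤ p.L * (2 * ((D₁ - f) * (gq - D₁))) :=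
        mul_nonneg hL0 (by linarith)
      have k16 : (0 : ℤ) ≤ p.J * (D₁ - f) ^ 2 := mul_nonneg hJ0 (sq_nonneg _)
      have k17 : (p.L : ℤ) * (2 * (((D : ℤ) - f') * (c - D))) + p.J * ((D : ℤ) - f') ^ 2 = 0 := by
        rw [e1]
        ring
      rw [k17]
      linarith
  refine ⟨f', by omega, n8, n9, hDc, hfD, hA, ?_, ?_⟩
  · have m2 := mul_le_mul_of_nonneg_left k10 hL0
    have := ent_den (H := (H : ℤ)) (q := q) (L := p.L) (X0 := 2 * (o₀ * W)) (O0 := o₀ ^ 2)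
      (Y0 := (p.L : ℤ) * (4 * f' ^ 2) + ((p.L : ℤ) * (2 * (((D : ℤ) - f') * (c - D))) +
        p.J * ((D : ℤ) - f') ^ 2))
      (X1 := 2 * (o₁ * G₁)) (O1 := o₁ ^ 2)
      (Y1 := (p.L : ℤ) * (4 * f ^ 2) + (p.L * (2 * ((D₁ - f) * (gq - D₁))) + p.J * h₁ ^ 2))
      hL0 k7 (by linarith) (by linarith)
    push_cast
    linarith
  · have := ent_den (H := (H : ℤ)) (q := q) (L := p.L) (X0 := 2 * (o₀ * W)) (O0 := o₀ ^ 2)
      (Y0 := p.a * f' ^ 2 + 2 * (p.b * (f' * ((D : ℤ) - f'))) + p.c * ((D : ℤ) - f') ^ 2)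
      (X1 := 2 * (o₁ * G₁)) (O1 := o₁ ^ 2)
      (Y1 := p.a * f ^ 2 + 2 * (p.b * (f * (D₁ - f))) + p.c * (D₁ - f) ^ 2)
      hL0 k7 k12 h13
    push_cast
    linarith

/-- the exits of phase 1 belong to the end class -/
theorem ent_mem {p : XPar} (hNum : NumThm p) (hκ : p.κ ≤ 1) (hJ : p.J ≤ p.L) {g K R0 H : ℕ}
    (hR : 2 ≤ R0) (hH : H = K + g) (hg : 1 ≤ g) :
    ∃ q₀ : ℕ, ∀ q, q₀ ≤ q → ∀ {V : Type} {r : V → V → Prop} {o N M y x : ℕ},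
      P1e r (H * q) o y N x M → y + N + x + M + o = H * q → Ent p H g q N M y x →
      ∀ X : Set (V → V → Prop), r ∈ EX (K * q + R0) X := by
  obtain ⟨Q₀, hQ⟩ := hNum (512 * H ^ 2)
  refine ⟨Q₀ + R0 + 2 + 17 * (p.A' * R0), fun q hq V r o N M y x hr hn h X => ?_⟩
  have h1 : q ≤ g * q := Nat.le_mul_of_pos_left _ hg
  have h2 : q ≤ H * q := Nat.le_mul_of_pos_left _ (by omega)
  obtain ⟨o₀, W, c, e, g1, g2, g3, g4, g5, g6, g7, g8, f, f1, f2, f3, f4, f5, f6, f7, f8⟩ :=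
    ent_arith hκ hJ hR hH (by omega) (by omega) h
  have hnum := hQ (H * q) (by omega) W N o₀ (x + M - c) c f f2 f3 g6 f4 f5 f1 f6 f7 f8
  obtain ⟨o', ho'⟩ : ∃ o', o = o' + 1 := ⟨o - 1, by omega⟩
  rw [ho'] at hr
  rcases g7 with ⟨k1, k2⟩ | ⟨k1, k2⟩
  · have e1 : o₀ = o' + 1 := by omega
    rw [e1] at hnum
    exact hr.ex0 g1 g2 k1 g3 g4 hnum
  · refine Or.inr ⟨W, N, x, M, H * q, o₀, c, g5, g6, g2, g3, g4, hnum, ?_⟩
    exact hr.x0 g1 k1 (by omega)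

end Pool.Agent.OCN
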