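import Pool.Agent.Lib_helper16.OCN.End3
import Pool.Agent.Lib_helper29.OCN.Assembly
import Pool.Agent.Lib_helper47.OCN.TG
import Pool.Agent.Lib_helper47.OCN.YcE1

/-!
# MP_aeb124_co: the assembly
-/

set_option autoImplicit false

namespace Pool.Agent.OCN

theorem endOK_TG {V : Type} (B : ℕ) : EndOK B (Cls (V := V) (TG B)) :=
  fun _ _ _ K R _ h1 h2 h3 => ⟨K, R, h1, h2.exit h3⟩

/-- The negation of the statement from a table and the theorem on the game of numbers. -/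
theorem final_of_num {K G g S C R0 : ℕ} {p : XPar} {T XT : BT} (hKG : 2 * (K * K) < G * G)
    (hG : G = K + g) (hg : 1 ≤ g)
    (hK : 1 ≤ K) (hκ : p.κ ≤ 1) (hJ : p.J ≤ p.L) (hR : 1 + S + S * S ≤ R0) (hR2 : 2 ≤ R0)
    (hC : 1 ≤ C)
    (tab : ∀ e < C, okCV K G S (cgetV T e) = true ∧ okNV (cgetV T) C e = true ∧
      okXT p G g C XT (cgetV T e) = true)
    (h0 : (cgetV T 0).N = 0 ∧ (cgetV T 0).M = 0 ∧ (cgetV T 0).y = 0 ∧ 1 ≤ (cgetV T 0).x ∧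
      (cgetV T 0).x ≤ G)
    (hNum : NumThm p) :
    ¬ (∀ ε : ℝ, 0 < ε → ∃ N : ℕ, ∀ n : ℕ, N ≤ n → ∀ b : ℕ, 1 ≤ b →
    (b : ℝ) ≤ (1 / Real.sqrt 2 - ε) * (n : ℝ) →
    ∀ WM WB : Set (Finset (Fin n × Fin n)),
      (∀ D : Finset (Fin n × Fin n),
          (∃ v : Fin n, Relation.TransGen (fun x y => (x, y) ∈ D) v v) →
            D ∈ WM ∧ D ∈ WB) →
      (∀ D : Finset (Fin n × Fin n),
          (∃ i j : Fin n, i ≠ j ∧ (i, j) ∉ D ∧ (j, i) ∉ D ∧ insert (i, j) D ∈ WB) →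
            D ∈ WM) →
      (∀ D : Finset (Fin n × Fin n),
          (∃ i j : Fin n, i ≠ j ∧ (i, j) ∉ D ∧ (j, i) ∉ D) →
          (∀ A : Finset (Fin n × Fin n), A.Nonempty → A.card ≤ b →
              (∀ p ∈ A, p.1 ≠ p.2 ∧ p ∉ D ∧ p.swap ∉ D ∧ p.swap ∉ A) →
                D ∪ A ∈ WM) →
            D ∈ WB) →
      (∅ : Finset (Fin n × Fin n)) ∈ WM) := by
  obtain ⟨q₀, hq⟩ := ent_mem hNum hκ hJ hR2 hG hg
  refine final_of_tab (q0 := q₀) hKG hK (by omega) hR hC tab h0 fun q hq0 => ?_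
  refine ⟨EX (K * q + R0) (Cls (TG (K * q + R0))), EX_so (fun r hr => cls_so hr),
    EX_closed (tg_closed _) (endOK_TG _), fun r o N M y x hr he => ?_⟩
  exact hq q hq0 hr (by have := hr.card; omega) he _

end Pool.Agent.OCN
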