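import Mathlib

/-!
# MP_aeb124_co: the frame of the negation

A class `G` of positions (OMaker to move) closed under attacks gives the negation of the statement.
-/

set_option autoImplicit false

namespace Pool.Agent.OCN

/-- a free pair of the position `D` -/
def Free {n : ℕ} (D : Finset (Fin n × Fin n)) (i j : Fin n) : Prop :=
  i ≠ j ∧ (i, j) ∉ D ∧ (j, i) ∉ D

/-- the position `D` has no directed cycle -/
def Acyc {n : ℕ} (D : Finset (Fin n × Fin n)) : Prop :=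
  ∀ v : Fin n, ¬ Relation.TransGen (fun x y => (x, y) ∈ D) v v

/-- `G` is closed under attacks, with bias `b` -/
def Closed {n : ℕ} (b : ℕ) (G : Set (Finset (Fin n × Fin n))) : Prop :=
  ∀ D ∈ G, ∀ i j, Free D i j → (Acyc (insert (i, j) D) ∧ ∀ k l, ¬ Free (insert (i, j) D) k l) ∨
    ∃ D' ∈ G, insert (i, j) D ⊆ D' ∧ (D' \ insert (i, j) D).Nonempty ∧
      (D' \ insert (i, j) D).card ≤ b

theorem Acyc.mono {n : ℕ} {D D' : Finset (Fin n × Fin n)} (h : Acyc D') (hD : D ⊆ D') : Acyc D :=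
  fun v hv => h v (Relation.TransGen.mono (r := fun x y => (x, y) ∈ D)
    (p := fun x y => (x, y) ∈ D') (fun _ _ hxy => hD hxy) v v hv)

theorem Acyc.anti {n : ℕ} {D : Finset (Fin n × Fin n)} (h : Acyc D) {i j : Fin n}
    (hij : (i, j) ∈ D) : (j, i) ∉ D :=
  fun hji => h i ((Relation.TransGen.single hij).tail hji)

theorem Acyc.irrefl {n : ℕ} {D : Finset (Fin n × Fin n)} (h : Acyc D) (i : Fin n) :
    (i, i) ∉ D := fun hii => h i (Relation.TransGen.single hii)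

/-- the negation of the statement, from closed classes -/
theorem frame (c : ℝ) (hc : c < 1 / Real.sqrt 2)
    (h : ∀ N : ℕ, ∃ n : ℕ, N ≤ n ∧ ∃ b : ℕ, 1 ≤ b ∧ (b : ℝ) ≤ c * n ∧
      ∃ G : Set (Finset (Fin n × Fin n)), ∅ ∈ G ∧ (∀ D ∈ G, Acyc D) ∧ Closed b G) :
    ¬ (∀ ε : ℝ, 0 < ε → ∃ N : ℕ, ∀ n : ℕ, N ≤ n → ∀ b : ℕ, 1 ≤ b →
    (b : ℝ) ≤ (1 / Real.sqrt 2 - ε) * (n : ℝ) →
    ∀ WM WB : Set (Finset (Fin n × Fin n)),
      (∀ D : Finset (Fin n × Fin n),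
          (∃ v : Fin n, Relation.TransGen (fun x y => (x, y) ∈ D) v v) →
            D ∈ WM ∧ D ∈ WB) →
      (∀ D : Finset (Fin n × Fin n),
          (∃ i j : Fin n, i ≠ j ∧ (i, j) ∉ D ∧ (j, i) ∉ D ∧ insert (i, j) D ∈ WB) →
            D ∈ WM) →
      (∀ D : Finset (Fin n × Fin n),
          (∃ i j : Fin n, i ≠ j ∧ (i, j) ∉ D ∧ (j, i) ∉ D) →
          (∀ A : Finset (Fin n × Fin n), A.Nonempty → A.card ≤ b →
              (∀ p ∈ A, p.1 ≠ p.2 ∧ p ∉ D ∧ p.swap ∉ D ∧ p.swap ∉ A) →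
                D ∪ A ∈ WM) →
            D ∈ WB) →
      (∅ : Finset (Fin n × Fin n)) ∈ WM) := by
  intro hmain
  obtain ⟨N, hN⟩ := hmain (1 / Real.sqrt 2 - c) (by linarith)
  obtain ⟨n, hn, b, hb, hbc, G, h0, hG, hcl⟩ := h N
  set H : Set (Finset (Fin n × Fin n)) := {D | Acyc D ∧ ((∀ k l, ¬ Free D k l) ∨
    ∃ D' ∈ G, D ⊆ D' ∧ (D' \ D).Nonempty ∧ (D' \ D).card ≤ b)} with hH
  have key := hN n hn b hb (by rw [sub_sub_cancel]; exact hbc) Gᶜ Hᶜ ?_ ?_ ?_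
  · exact key h0
  · rintro D ⟨v, hv⟩
    exact ⟨fun hD => hG D hD v hv, fun hD => hD.1 v hv⟩
  · rintro D ⟨i, j, hij, h1, h2, h3⟩ hD
    apply h3
    rcases hcl D hD i j ⟨hij, h1, h2⟩ with ⟨ha, hf⟩ | ⟨D', hD', hs, hne, hcard⟩
    · exact ⟨ha, Or.inl hf⟩
    · exact ⟨(hG D' hD').mono hs, Or.inr ⟨D', hD', hs, hne, hcard⟩⟩
  · rintro D ⟨i, j, hij, h1, h2⟩ hA hD
    rcases hD with ⟨_, hf | ⟨D', hD', hs, hne, hcard⟩⟩
    · exact hf i j ⟨hij, h1, h2⟩
    · have := hA (D' \ D) hne hcard (fun p hp => ?_)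
      · rw [Finset.union_sdiff_of_subset hs] at this
        exact this hD'
      · rw [Finset.mem_sdiff] at hp
        have hac := hG D' hD'
        refine ⟨fun he => ?_, hp.2, fun hsw => ?_, fun hsw => ?_⟩
        · apply hac.irrefl p.1
          have : p = (p.1, p.1) := Prod.ext rfl he.symm
          rw [← this]
          exact hp.1
        · exact hac.anti (i := p.1) (j := p.2) hp.1 (hs hsw)
        · exact hac.anti (i := p.1) (j := p.2) hp.1 (Finset.mem_sdiff.1 hsw).1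

end Pool.Agent.OCN
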