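import Pool.Agent.Lib_helper16.OCN.FrameR
import Pool.Agent.Lib_helper16.OCN.Exit

/-!
# MP_aeb124_co: the frame for positive statements (OBreaker wins), and the ends of phase 1
-/

set_option autoImplicit false

namespace Pool.Agent.OCN

/-- OBreaker wins, from closed classes of positions -/
theorem frameE' {n b : ℕ} {G : Set (Finset (Fin n × Fin n))} (h0 : ∅ ∈ G)
    (hG : ∀ D ∈ G, Acyc D) (hcl : Closed b G) :
    ∃ WM WB : Set (Finset (Fin n × Fin n)),
      (∀ D : Finset (Fin n × Fin n),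
          (∃ v : Fin n, Relation.TransGen (fun x y => (x, y) ∈ D) v v) →
            D ∈ WM ∧ D ∈ WB) ∧
      (∀ D : Finset (Fin n × Fin n),
          (∃ i j : Fin n, i ≠ j ∧ (i, j) ∉ D ∧ (j, i) ∉ D ∧ insert (i, j) D ∈ WB) →
            D ∈ WM) ∧
      (∀ D : Finset (Fin n × Fin n),
          (∃ i j : Fin n, i ≠ j ∧ (i, j) ∉ D ∧ (j, i) ∉ D) →
          (∀ A : Finset (Fin n × Fin n), A.Nonempty → A.card ≤ b →
              (∀ p ∈ A, p.1 ≠ p.2 ∧ p ∉ D ∧ p.swap ∉ D ∧ p.swap ∉ A) →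
                D ∪ A ∈ WM) →
            D ∈ WB) ∧
      (∅ : Finset (Fin n × Fin n)) ∉ WM := by
  set H : Set (Finset (Fin n × Fin n)) := {D | Acyc D ∧ ((∀ k l, ¬ Free D k l) ∨
    ∃ D' ∈ G, D ⊆ D' ∧ (D' \ D).Nonempty ∧ (D' \ D).card ≤ b)} with hH
  refine ⟨Gᶜ, Hᶜ, ?_, ?_, ?_, fun h => h h0⟩
  · rintro D ⟨v, hv⟩
    exact ⟨fun hD => hG D hD v hv, fun hD => hD.1 v hv⟩
  · rintro D ⟨i, j, hij, h1, h2, h3⟩ hD
    apply h3
    rcases hcl D hD i j ⟨hij, h1, h2⟩ with ⟨ha, hf⟩ | ⟨D', hD', hs, hne, hcard⟩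
    · exact ⟨ha, Or.inl hf⟩
    · exact ⟨(hG D' hD').mono hs, Or.inr ⟨D', hD', hs, hne, hcard⟩⟩
  · rintro D ⟨i, j, hij, h1, h2⟩ hA hD
    rcases hD with ⟨_, hf | ⟨D', hD', hs, hne, hcard⟩⟩
    · exact hf i j ⟨hij, h1, h2⟩
    · have := hA (D' \ D) hne hcard (fun p hp => ?_)
      · rw [Finset.union_sdiff_of_subset hs] at this
        exact this hD'
      · rw [Finset.mem_sdiff] at hp
        have hac := hG D' hD'
        refine ⟨fun he => ?_, hp.2, fun hsw => ?_, fun hsw => ?_⟩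
        · apply hac.irrefl p.1
          have : p = (p.1, p.1) := Prod.ext rfl he.symm
          rw [← this]
          exact hp.1
        · exact hac.anti (i := p.1) (j := p.2) hp.1 (hs hsw)
        · exact hac.anti (i := p.1) (j := p.2) hp.1 (Finset.mem_sdiff.1 hsw).1

/-- closed classes of strict orders give closed classes of positions -/
theorem closed_toF {V : Type} [Fintype V] {n b : ℕ} (e : V ≃ Fin n) {G : Set (V → V → Prop)}
    (hG : ∀ r ∈ G, SO r) (hcl : ClosedR b G) : Closed b {D | ∃ r ∈ G, D = toF e r} := by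
  rintro D ⟨r, hr, rfl⟩ i j ⟨hij, h1, h2⟩
  rw [mem_toF] at h1 h2
  obtain ⟨r', hr', hrr', hxy, hc'⟩ := hcl r hr (e.symm i) (e.symm j)
    (fun he => hij (e.symm.injective he)) h1 h2
  have hs : insert (i, j) (toF e r) ⊆ toF e r' := by
    rw [Finset.insert_subset_iff]
    exact ⟨(mem_toF e).2 hxy, toF_mono e hrr'⟩
  by_cases hne : (toF e r' \ insert (i, j) (toF e r)).Nonempty
  · refine Or.inr ⟨toF e r', ⟨r', hr', rfl⟩, hs, hne, ?_⟩
    refine le_trans (Finset.card_le_card ?_) ((card_sdiff e r r').trans_le hc')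
    exact Finset.sdiff_subset_sdiff (Finset.Subset.refl _) (Finset.subset_insert _ _)
  · have heq : toF e r' = insert (i, j) (toF e r) := by
      apply Finset.Subset.antisymm _ hs
      rw [← Finset.sdiff_eq_empty_iff_subset]
      exact Finset.not_nonempty_iff_eq_empty.1 hne
    by_cases hf : ∀ k l, ¬ Free (insert (i, j) (toF e r)) k l
    · refine Or.inl ⟨?_, hf⟩
      rw [← heq]
      exact toF_acyc e (hG r' hr')
    · push Not at hf
      obtain ⟨k, l, hkl, h3, h4⟩ := hf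
      rw [← heq, mem_toF] at h3 h4
      obtain ⟨r'', hr'', hrr'', hxy', hc''⟩ := hcl r' hr' (e.symm k) (e.symm l)
        (fun he => hkl (e.symm.injective he)) h3 h4
      refine Or.inr ⟨toF e r'', ⟨r'', hr'', rfl⟩, hs.trans (toF_mono e hrr''), ?_, ?_⟩
      · rw [← heq]
        exact ⟨(k, l), Finset.mem_sdiff.2 ⟨(mem_toF e).2 hxy', fun hm => h3 ((mem_toF e).1 hm)⟩⟩
      · rw [← heq]
        exact (card_sdiff e r' r'').trans_le hc''

/-- OBreaker wins, from closed classes of strict orders -/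
theorem frameE {n B b : ℕ} (hBb : B ≤ b) {G : Set (Fin n → Fin n → Prop)}
    (h0 : (fun _ _ => False) ∈ G) (hG : ∀ r ∈ G, SO r) (hcl : ClosedR B G) :
    ∃ WM WB : Set (Finset (Fin n × Fin n)),
      (∀ D : Finset (Fin n × Fin n),
          (∃ v : Fin n, Relation.TransGen (fun x y => (x, y) ∈ D) v v) →
            D ∈ WM ∧ D ∈ WB) ∧
      (∀ D : Finset (Fin n × Fin n),
          (∃ i j : Fin n, i ≠ j ∧ (i, j) ∉ D ∧ (j, i) ∉ D ∧ insert (i, j) D ∈ WB) →
            D ∈ WM) ∧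
      (∀ D : Finset (Fin n × Fin n),
          (∃ i j : Fin n, i ≠ j ∧ (i, j) ∉ D ∧ (j, i) ∉ D) →
          (∀ A : Finset (Fin n × Fin n), A.Nonempty → A.card ≤ b →
              (∀ p ∈ A, p.1 ≠ p.2 ∧ p ∉ D ∧ p.swap ∉ D ∧ p.swap ∉ A) →
                D ∪ A ∈ WM) →
            D ∈ WB) ∧
      (∅ : Finset (Fin n × Fin n)) ∉ WM := by
  have hcl' : ClosedR b G := by
    intro r hr x y h1 h2 h3
    obtain ⟨r', k1, k2, k3, k4⟩ := hcl r hr x y h1 h2 h3
    exact ⟨r', k1, k2, k3, k4.trans hBb⟩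
  refine frameE' (G := {D | ∃ r ∈ G, D = toF (Equiv.refl (Fin n)) r}) ⟨_, h0, ?_⟩ ?_
    (closed_toF _ hG hcl')
  · symm
    rw [Finset.eq_empty_iff_forall_notMem]
    rintro ⟨i, j⟩ hij
    exact (mem_toF _).1 hij
  · rintro D ⟨r, hr, rfl⟩
    exact toF_acyc _ (hG r hr)

section
variable {V : Type}

/-- the class of the ends: the flip of a relation of the class T1T belongs to it -/
theorem cls_T1T_flip {B : ℕ} {r : V → V → Prop} (h : r ∈ Cls (V := V) (T1T B)) :
    flip r ∈ Cls (V := V) (T1T B) := by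
  obtain ⟨K, R, h1, h2⟩ := h
  refine ⟨K, R.dual, h1.flip, ?_⟩
  rcases h2 with h2 | ⟨s, W, d, h2⟩ | ⟨s, W, d, h2⟩
  · exact Or.inl h2.dual
  · exact Or.inr (Or.inr ⟨_, _, _, h2.dual⟩)
  · exact Or.inr (Or.inl ⟨_, _, _, h2.dual⟩)

/-- the dual exit of phase 1 -/
theorem P1s.t1d {r : V → V → Prop} {B n o y N x M : ℕ} (h : P1s r n (o + 1) y N x M)
    (h1 : n ≤ B + (x + M)) (h2 : n ≤ B + y) (h3 : n + (n - (B + x)) ≤ B + (y + N))
    (h4 : 2 * (n - (B + x)) ≤ o) : r ∈ Cls (V := V) (T1T B) := by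
  have h5 := P1s.t1 h.flip h1 h2 h3 h4
  exact cls_T1T_flip h5

theorem cls_so {T : Finset V → Rep V → Prop} {r : V → V → Prop} (h : r ∈ Cls (V := V) T) :
    SO r := by
  obtain ⟨K, R, h1, _⟩ := h
  exact h1.so

theorem newP_zero {V : Type} [Fintype V] {r r' : V → V → Prop} (h : newP r r' = 0) {a b : V}
    (hab : r' a b) : r a b := by
  classical
  by_contra h1
  unfold newP at h
  rw [Finset.card_eq_zero, Finset.filter_eq_empty_iff] at h
  exact h (Finset.mem_univ (a, b)) ⟨hab, h1⟩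

/-- the start of phase 1 with `x` free columns -/
theorem P1s.startE {V : Type} [Fintype V] (x : ℕ) (hx : x ≤ Fintype.card V) :
    P1s (fun _ _ : V => False) (Fintype.card V) (Fintype.card V - x) 0 0 x 0 := by
  classical
  have h := P1s.init (V := V)
  have h1 : P1s (fun _ _ : V => False) (Fintype.card V) (Fintype.card V - x + 0 + x) 0 0 0 0 := by
    have e : Fintype.card V - x + 0 + x = Fintype.card V := by omega
    rw [e]
    exact h
  obtain ⟨r', k1, k2, k3⟩ := h1.buy 0 x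
  have hz : newP (fun _ _ : V => False) r' = 0 := by
    have e : 0 * (0 + 0) + x * (0 + 0) + 0 * x = 0 := by ring
    omega
  have hr : r' = fun _ _ => False := by
    funext a b
    apply propext
    constructor
    · exact fun hab => newP_zero hz hab
    · exact fun h => h.elim
  rw [hr] at k1
  have e1 : 0 + 0 = 0 := rfl
  have e2 : 0 + x = x := by omega
  rw [e2] at k1
  exact k1

end

end Pool.Agent.OCN
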