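import Pool.Agent.Lib_helper16.OCN.Frame

/-!
# MP_aeb124_co: the frame of the negation, for classes of strict orders on arbitrary finite types
-/

set_option autoImplicit false

namespace Pool.Agent.OCN

/-- a strict order -/
structure SO {V : Type} (r : V → V → Prop) : Prop where
  /-- irreflexive -/
  irr : ∀ x, ¬ r x x
  /-- transitive -/
  tr : ∀ x y z, r x y → r y z → r x z

open scoped Classical in
/-- the number of new pairs -/
noncomputable def newP {V : Type} [Fintype V] (r r' : V → V → Prop) : ℕ :=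
  (Finset.univ.filter (fun p : V × V => r' p.1 p.2 ∧ ¬ r p.1 p.2)).card

/-- closed under attacks with total budget `B` (the attacked pair included) -/
def ClosedR {V : Type} [Fintype V] (B : ℕ) (G : Set (V → V → Prop)) : Prop :=
  ∀ r ∈ G, ∀ x y, x ≠ y → ¬ r x y → ¬ r y x →
    ∃ r' ∈ G, (∀ a b, r a b → r' a b) ∧ r' x y ∧ newP r r' ≤ B

theorem SO.transGen {V : Type} {r : V → V → Prop} (h : SO r) {x y : V}
    (hxy : Relation.TransGen r x y) : r x y := by
  induction hxy with
  | single h1 => exact h1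
  | tail _ h2 ih => exact h.tr _ _ _ ih h2

section

variable {V : Type} {n : ℕ} (e : V ≃ Fin n)

open scoped Classical in
/-- the position of a relation -/
noncomputable def toF (r : V → V → Prop) : Finset (Fin n × Fin n) :=
  Finset.univ.filter fun p => r (e.symm p.1) (e.symm p.2)

theorem mem_toF {r : V → V → Prop} {i j : Fin n} :
    (i, j) ∈ toF e r ↔ r (e.symm i) (e.symm j) := by
  unfold toF
  simp

theorem toF_acyc {r : V → V → Prop} (h : SO r) : Acyc (toF e r) := by
  intro v hv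
  have h1 : ∀ w, Relation.TransGen (fun x y => (x, y) ∈ toF e r) v w →
      r (e.symm v) (e.symm w) := by
    intro w hw
    induction hw with
    | single h1 => exact (mem_toF e).1 h1
    | tail _ h2 ih => exact h.tr _ _ _ ih ((mem_toF e).1 h2)
  exact h.irr _ (h1 v hv)

theorem toF_mono {r r' : V → V → Prop} (h : ∀ a b, r a b → r' a b) : toF e r ⊆ toF e r' := by
  rintro ⟨i, j⟩ hij
  exact (mem_toF e).2 (h _ _ ((mem_toF e).1 hij))

theorem card_sdiff [Fintype V] (r r' : V → V → Prop) :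
    (toF e r' \ toF e r).card = newP r r' := by
  classical
  unfold newP
  rw [← Finset.card_map (Equiv.prodCongr e e).toEmbedding]
  congr 1
  ext ⟨i, j⟩
  rw [Finset.mem_sdiff, mem_toF, mem_toF, Finset.mem_map]
  constructor
  · rintro ⟨h1, h2⟩
    exact ⟨(e.symm i, e.symm j), Finset.mem_filter.2 ⟨Finset.mem_univ _, h1, h2⟩, by simp⟩
  · rintro ⟨⟨a, b⟩, hab, hx⟩
    have h1 := (Finset.mem_filter.1 hab).2
    simp only [Equiv.coe_toEmbedding, Equiv.prodCongr_apply, Prod.map_apply, Prod.mk.injEq] at hx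
    obtain ⟨rfl, rfl⟩ := hx
    simpa using h1

end

/-- the negation of the statement, from closed classes of strict orders -/
theorem frameR (c : ℝ) (hc : c < 1 / Real.sqrt 2)
    (h : ∀ N : ℕ, ∃ (V : Type) (_ : Fintype V) (b : ℕ), N ≤ Fintype.card V ∧ 1 ≤ b ∧
      (b : ℝ) ≤ c * Fintype.card V ∧ ∃ G : Set (V → V → Prop), (fun _ _ => False) ∈ G ∧
      (∀ r ∈ G, SO r) ∧ ClosedR b G) :
    ¬ (∀ ε : ℝ, 0 < ε → ∃ N : ℕ, ∀ n : ℕ, N ≤ n → ∀ b : ℕ, 1 ≤ b →
    (b : ℝ) ≤ (1 / Real.sqrt 2 - ε) * (n : ℝ) →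
    ∀ WM WB : Set (Finset (Fin n × Fin n)),
      (∀ D : Finset (Fin n × Fin n),
          (∃ v : Fin n, Relation.TransGen (fun x y => (x, y) ∈ D) v v) →
            D ∈ WM ∧ D ∈ WB) →
      (∀ D : Finset (Fin n × Fin n),
          (∃ i j : Fin n, i ≠ j ∧ (i, j) ∉ D ∧ (j, i) ∉ D ∧ insert (i, j) D ∈ WB) →
            D ∈ WM) →
      (∀ D : Finset (Fin n × Fin n),
          (∃ i j : Fin n, i ≠ j ∧ (i, j) ∉ D ∧ (j, i) ∉ D) →
          (∀ A : Finset (Fin n × Fin n), A.Nonempty → A.card ≤ b →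
              (∀ p ∈ A, p.1 ≠ p.2 ∧ p ∉ D ∧ p.swap ∉ D ∧ p.swap ∉ A) →
                D ∪ A ∈ WM) →
            D ∈ WB) →
      (∅ : Finset (Fin n × Fin n)) ∈ WM) := by
  apply frame c hc
  intro N
  obtain ⟨V, _, b, hV, hb, hbc, G, h0, hG, hcl⟩ := h N
  have e : V ≃ Fin (Fintype.card V) := Fintype.equivFin V
  refine ⟨Fintype.card V, hV, b, hb, hbc, {D | ∃ r ∈ G, D = toF e r}, ⟨_, h0, ?_⟩, ?_, ?_⟩
  · symm
    rw [Finset.eq_empty_iff_forall_notMem]
    rintro ⟨i, j⟩ hij
    exact (mem_toF e).1 hij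
  · rintro D ⟨r, hr, rfl⟩
    exact toF_acyc e (hG r hr)
  · rintro D ⟨r, hr, rfl⟩ i j ⟨hij, h1, h2⟩
    rw [mem_toF] at h1 h2
    obtain ⟨r', hr', hrr', hxy, hc'⟩ := hcl r hr (e.symm i) (e.symm j)
      (fun he => hij (e.symm.injective he)) h1 h2
    have hs : insert (i, j) (toF e r) ⊆ toF e r' := by
      rw [Finset.insert_subset_iff]
      exact ⟨(mem_toF e).2 hxy, toF_mono e hrr'⟩
    by_cases hne : (toF e r' \ insert (i, j) (toF e r)).Nonempty
    · refine Or.inr ⟨toF e r', ⟨r', hr', rfl⟩, hs, hne, ?_⟩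
      refine le_trans (Finset.card_le_card ?_) ((card_sdiff e r r').trans_le hc')
      exact Finset.sdiff_subset_sdiff (Finset.Subset.refl _) (Finset.subset_insert _ _)
    · have heq : toF e r' = insert (i, j) (toF e r) := by
        apply Finset.Subset.antisymm _ hs
        rw [← Finset.sdiff_eq_empty_iff_subset]
        exact Finset.not_nonempty_iff_eq_empty.1 hne
      by_cases hf : ∀ k l, ¬ Free (insert (i, j) (toF e r)) k l
      · refine Or.inl ⟨?_, hf⟩
        rw [← heq]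
        exact toF_acyc e (hG r' hr')
      · push Not at hf
        obtain ⟨k, l, hkl, h3, h4⟩ := hf
        rw [← heq, mem_toF] at h3 h4
        obtain ⟨r'', hr'', hrr'', hxy', hc''⟩ := hcl r' hr' (e.symm k) (e.symm l)
          (fun he => hkl (e.symm.injective he)) h3 h4
        refine Or.inr ⟨toF e r'', ⟨r'', hr'', rfl⟩, hs.trans (toF_mono e hrr''), ?_, ?_⟩
        · rw [← heq]
          exact ⟨(k, l), Finset.mem_sdiff.2 ⟨(mem_toF e).2 hxy', fun hm => h3 ((mem_toF e).1 hm)⟩⟩
        · rw [← heq]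
          exact (card_sdiff e r' r'').trans_le hc''

end Pool.Agent.OCN
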