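import Pool.Agent.Lib_helper16.OCN.HgBase

/-!
# MP_aeb124_co: the region calculus, the attack theorem
-/

set_option autoImplicit false

namespace Pool.Agent.OCN

variable {V : Type}

/-- incomparable elements which both touch the region `ρ` have a common gap in it -/
theorem common_reg {R : Rep V} {g : ℤ → ℤ} (hm : Monotone g) {x y : V} (h1 : ¬ R.rel x y)
    (h2 : ¬ R.rel y x) {ρ : ℤ} (hx1 : g (R.lo x) ≤ ρ) (hx2 : ρ ≤ g (R.hi x))
    (hy1 : g (R.lo y) ≤ ρ) (hy2 : ρ ≤ g (R.hi y)) (hρ : ∃ p, g p = ρ) :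
    ∃ p, g p = ρ ∧ R.Cr x p ∧ R.Cr y p := by
  obtain ⟨s, hs⟩ := hρ
  have lx := R.le x
  have ly := R.le y
  unfold Rep.rel at h1 h2
  have hM : max (R.lo x) (R.lo y) ≤ min (R.hi x) (R.hi y) := by omega
  by_cases c1 : s < max (R.lo x) (R.lo y)
  · refine ⟨max (R.lo x) (R.lo y), ?_, ⟨by omega, by omega⟩, by omega, by omega⟩
    have e1 : g s ≤ g (max (R.lo x) (R.lo y)) := hm (by omega)
    rcases le_total (R.lo x) (R.lo y) with h3 | h3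
    · rw [max_eq_right h3] at e1 ⊢
      omega
    · rw [max_eq_left h3] at e1 ⊢
      omega
  · by_cases c2 : min (R.hi x) (R.hi y) < s
    · refine ⟨min (R.hi x) (R.hi y), ?_, ⟨by omega, by omega⟩, by omega, by omega⟩
      have e1 : g (min (R.hi x) (R.hi y)) ≤ g s := hm (by omega)
      rcases le_total (R.hi x) (R.hi y) with h3 | h3
      · rw [min_eq_left h3] at e1 ⊢
        omega
      · rw [min_eq_right h3] at e1 ⊢
        omega
    · exact ⟨s, hs, ⟨by omega, by omega⟩, by omega, by omega⟩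

/-- the local data with regions -/
structure St (r : V → V → Prop) (K : Finset V) (R : Rep V) (g : ℤ → ℤ) (H : ℤ → ℕ)
    (A B : ℤ → ℤ → Prop) : Prop where
  /-- the order -/
  loc : Loc r K R
  /-- the regions -/
  hg : Hg K R g H A B

theorem St.dual {r : V → V → Prop} {K : Finset V} {R : Rep V} {g : ℤ → ℤ} {H : ℤ → ℕ}
    {A B : ℤ → ℤ → Prop} (h : St r K R g H A B) :
    St (flip r) K R.dual (dg g) (fun ρ => H (-ρ)) (dc B) (dc A) :=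
  ⟨h.loc.flip, h.hg.dual⟩

section

variable [Fintype V] {r : V → V → Prop} {K : Finset V} {R : Rep V} {g : ℤ → ℤ} {H : ℤ → ℕ}
  {A B : ℤ → ℤ → Prop}

/-- the region is not empty -/
def Ne (g : ℤ → ℤ) (ρ : ℤ) : Prop := ∃ p, g p = ρ

theorem Ne.dual {g : ℤ → ℤ} {ρ : ℤ} (h : Ne g ρ) : Ne (dg g) (-ρ) := by
  obtain ⟨p, hp⟩ := h
  refine ⟨-p, ?_⟩
  unfold dg
  rw [neg_neg, hp]

theorem ne_cg {g : ℤ → ℤ} {ρ : ℤ} (p : ℤ) : Ne (cg g p) ρ ↔ Ne g ρ := by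
  constructor
  · rintro ⟨q, hq⟩
    by_cases hqp : q ≤ p
    · exact ⟨q, by rw [← hq, cg_le hqp]⟩
    · exact ⟨q - 1, by rw [← hq, cg_gt (by omega)]⟩
  · rintro ⟨q, hq⟩
    by_cases hqp : q ≤ p
    · exact ⟨q, by rw [cg_le hqp, hq]⟩
    · refine ⟨q + 1, ?_⟩
      rw [cg_gt (by omega)]
      rw [← hq]
      congr 1
      ring

/-- the attack theorem: the attack `x → y` is answered in the region `ρ` -/
theorem St.attack (h : St r K R g H A B) {x y : V} (hxy : x ≠ y) (hn1 : ¬ r x y)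
    (hn2 : ¬ r y x) {ρ : ℤ} (hx1 : g (R.lo x) ≤ ρ) (hx2 : ρ ≤ g (R.hi x))
    (hy1 : g (R.lo y) ≤ ρ) (hy2 : ρ ≤ g (R.hi y)) (hρ : Ne g ρ) :
    ∃ (r' : V → V → Prop) (R' : Rep V) (g' : ℤ → ℤ),
      St r' K R' g' (fun s => H s - if g (R.lo y) ≤ s ∧ s ≤ g (R.hi x) then 1 else 0) A B ∧
      (∀ a b, r a b → r' a b) ∧ r' x y ∧
      newP r r' + H ρ + abv K R g (g (R.hi x)) + blw K R g (g (R.lo y)) ≤ K.card + 1 ∧
      (∀ z, z ≠ y → g' (R'.lo z) = g (R.lo z)) ∧ g' (R'.lo y) = ρ ∧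
      (∀ z, z ≠ x → g' (R'.hi z) = g (R.hi z)) ∧ g' (R'.hi x) = ρ ∧
      (∀ s, Ne g' s ↔ Ne g s) := by
  obtain ⟨hx, hy⟩ := h.loc.mem hxy hn1 hn2
  rw [h.loc.eq x hx y hy] at hn1
  rw [h.loc.eq y hy x hx] at hn2
  obtain ⟨p, hp, hp1, hp2⟩ := common_reg h.hg.mono hn1 hn2 hx1 hx2 hy1 hy2 hρ
  obtain ⟨r', h3, h4, h5, h6⟩ := op_cut h.loc p x y hxy hx hy hp1 hp2
  refine ⟨r', _, cg g p, ⟨h3, h.hg.cut hxy hp1 hp2⟩, h4, h5, ?_, ?_, ?_, ?_, ?_,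
    fun s => ne_cg p⟩
  · have e1 := h.hg.ht p ⟨x, hx, hp1⟩
    have e2 := h.hg.U_ge x
    have e3 := h.hg.D_ge y
    rw [hp] at e1
    omega
  · exact fun z hz => Rg.cut_lo_ne z hz
  · rw [← hp]
    exact Rg.cut_lo_y
  · exact fun z hz => Rg.cut_hi_ne z hz
  · rw [← hp]
    exact Rg.cut_hi_x

end

end Pool.Agent.OCN
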