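import Pool.Agent.Lib_helper16.OCN.RgOps

/-!
# MP_aeb124_co: the region calculus with heights

The gaps are divided into regions by a monotone map `g`. Every gap of the region `ρ` is crossed by
at least `H ρ` elements. The type of an element `z` is the pair `(g (lo z), g (hi z))`.

An attack `x → y`, where `y` starts in the region `c` and `x` ends in the region `b`, can be
answered in every (non-empty) region `ρ` which both elements touch. It lowers the heights of the
regions `c, ..., b` by one (for every `ρ`), and it costs at most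
`#K + 1 - H ρ - #{z : z starts behind b} - #{z : z ends before c}`.
-/

set_option autoImplicit false

namespace Pool.Agent.OCN

variable {V : Type}

open scoped Classical in
/-- a division into regions, all gaps of the region `ρ` have at least the height `H ρ` -/
structure Hg (K : Finset V) (R : Rep V) (g : ℤ → ℤ) (H : ℤ → ℕ) (A B : ℤ → ℤ → Prop) :
    Prop where
  /-- the regions are intervals -/
  mono : Monotone g
  /-- the heights -/
  ht : ∀ p, (∃ z ∈ K, R.Cr z p) → H (g p) ≤ R.N K p
  /-- at most one element ends at a gap (condition `A`) -/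
  uh : ∀ p, A (g p) (g (p + 1)) → (K.filter fun z => R.hi z = p).card ≤ 1
  /-- at most one element starts at a gap (condition `B`) -/
  ul : ∀ p, B (g (p - 1)) (g p) → (K.filter fun z => R.lo z = p).card ≤ 1

/-- the dual condition -/
def dc (A : ℤ → ℤ → Prop) : ℤ → ℤ → Prop := fun a b => A (-b) (-a)

theorem dc_dc (A : ℤ → ℤ → Prop) : dc (dc A) = A := by
  funext a b
  unfold dc
  rw [neg_neg, neg_neg]

namespace Rep

theorem N_le {R R' : Rep V} {K : Finset V} {s q : ℤ}
    (h : ∀ z ∈ K, R.Cr z s → R'.Cr z q) : R.N K s ≤ R'.N K q := by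
  classical
  unfold N
  refine Finset.card_le_card fun z hz => ?_
  rw [Finset.mem_filter] at hz ⊢
  exact ⟨hz.1, h z hz.1 hz.2⟩

theorem N_le_succ {R R' : Rep V} {K : Finset V} {s q : ℤ} {w : V}
    (h : ∀ z ∈ K, z ≠ w → R.Cr z s → R'.Cr z q) : R.N K s ≤ R'.N K q + 1 := by
  classical
  unfold N
  refine le_trans (Finset.card_le_card (t := insert w (K.filter fun z => R'.Cr z q)) ?_)
    (Finset.card_insert_le _ _)
  intro z hz
  rw [Finset.mem_insert, Finset.mem_filter]
  rw [Finset.mem_filter] at hz
  by_cases hw : z = w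
  · exact Or.inl hw
  · exact Or.inr ⟨hz.1, h z hz.1 hw hz.2⟩

end Rep

namespace Hg

variable {K : Finset V} {R : Rep V} {g : ℤ → ℤ} {H : ℤ → ℕ} {A B : ℤ → ℤ → Prop}

theorem dual (h : Hg K R g H A B) :
    Hg K R.dual (dg g) (fun ρ => H (-ρ)) (dc B) (dc A) where
  mono := dg_mono h.mono
  ht p hp := by
    have h1 : R.dual.N K p = R.N K (-p) := by
      have := Rep.N_dual R K (-p)
      rwa [neg_neg] at this
    rw [h1]
    have h2 : (∃ z ∈ K, R.Cr z (-p)) := by
      obtain ⟨z, hz, hc⟩ := hp
      refine ⟨z, hz, ?_⟩
      rw [← Rep.cr_dual, neg_neg]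
      exact hc
    have h3 := h.ht (-p) h2
    unfold dg
    rw [neg_neg]
    exact h3
  uh p hp := by
    classical
    unfold dg dc at hp
    rw [neg_neg, neg_neg] at hp
    have h1 : B (g (-p - 1)) (g (-p)) := by
      have : -(p + 1) = -p - 1 := by ring
      rw [this] at hp
      exact hp
    have h2 := h.ul (-p) h1
    convert h2 using 3
    unfold Rep.dual
    simp only
    constructor <;> intro h <;> omega
  ul p hp := by
    classical
    unfold dg dc at hp
    rw [neg_neg, neg_neg] at hp
    have h1 : A (g (-p)) (g (-p + 1)) := by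
      have : -(p - 1) = -p + 1 := by ring
      rw [this] at hp
      exact hp
    have h2 := h.uh (-p) h1
    convert h2 using 3
    unfold Rep.dual
    simp only
    constructor <;> intro h <;> omega

theorem weaken (h : Hg K R g H A B) {H' : ℤ → ℕ} (hH : ∀ r, H' r ≤ H r) {A' B' : ℤ → ℤ → Prop}
    (hA : ∀ a b, A' a b → A a b) (hB : ∀ a b, B' a b → B a b) : Hg K R g H' A' B' :=
  ⟨h.mono, fun p hp => (hH _).trans (h.ht p hp), fun p hp => h.uh p (hA _ _ hp),
    fun p hp => h.ul p (hB _ _ hp)⟩

theorem U_ge (h : Hg K R g H A B) (x : V) : abv K R g (g (R.hi x)) ≤ R.U K x := by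
  classical
  unfold abv Rep.U
  refine Finset.card_le_card fun z hz => ?_
  rw [Finset.mem_filter] at hz ⊢
  refine ⟨hz.1, ?_⟩
  unfold Rep.rel
  by_contra h1
  have := h.mono (show R.lo z ≤ R.hi x by omega)
  omega

theorem D_ge (h : Hg K R g H A B) (x : V) : blw K R g (g (R.lo x)) ≤ R.D K x := by
  classical
  unfold blw Rep.D
  refine Finset.card_le_card fun z hz => ?_
  rw [Finset.mem_filter] at hz ⊢
  refine ⟨hz.1, ?_⟩
  unfold Rep.rel
  by_contra h1
  have := h.mono (show R.lo x ≤ R.hi z by omega)
  omega

/-- the cut -/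
theorem cut (h : Hg K R g H A B) {x y : V} {p : ℤ} (hxy : x ≠ y)
    (hx : R.Cr x p) (hy : R.Cr y p) :
    Hg K (R.cut p x y hxy hx hy) (cg g p)
      (fun ρ => H ρ - if g (R.lo y) ≤ ρ ∧ ρ ≤ g (R.hi x) then 1 else 0) A B := by
  classical
  have hm := h.mono
  have hlo' := Zc.cut_lo' R hxy hx hy
  have hhi' := Zc.cut_hi' R hxy hx hy
  set R' := R.cut p x y hxy hx hy with hR'
  have ely : R'.lo y = p + 1 := by rw [hlo', if_pos rfl]
  have ehx : R'.hi x = p := by rw [hhi', if_pos rfl]
  have elz : ∀ z, z ≠ y → R'.lo z = if p < R.lo z then R.lo z + 1 else R.lo z := fun z hz => by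
    rw [hlo', if_neg hz]
  have ehz : ∀ z, z ≠ x → R'.hi z = if p ≤ R.hi z then R.hi z + 1 else R.hi z := fun z hz => by
    rw [hhi', if_neg hz]
  have hgx1 : g (R.lo x) ≤ g p := hm hx.1
  have hgx2 : g p ≤ g (R.hi x) := hm hx.2
  have hgy1 : g (R.lo y) ≤ g p := hm hy.1
  have hgy2 : g p ≤ g (R.hi y) := hm hy.2
  refine ⟨cg_mono hm p, ?_, ?_, ?_⟩
  · intro q hq
    by_cases hqp : q ≤ p
    · have e : cg g p q = g q := cg_le hqp
      -- crossing
      have hcr : ∀ z, z ≠ y → (R'.Cr z q ↔ R.Cr z q) := by
        intro z hzy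
        unfold Rep.Cr
        rw [elz z hzy]
        by_cases hzx : z = x
        · subst hzx
          rw [ehx]
          have h1 := hx.1
          have h2 := hx.2
          split_ifs <;> omega
        · rw [ehz z hzx]
          split_ifs <;> omega
      have hyq : ¬ R'.Cr y q := by
        rintro ⟨h1, _⟩
        rw [ely] at h1
        omega
      have hex : ∃ z ∈ K, R.Cr z q := by
        obtain ⟨z, hzK, hz⟩ := hq
        have hzy : z ≠ y := by
          rintro rfl
          exact hyq hz
        exact ⟨z, hzK, (hcr z hzy).1 hz⟩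
      have hold := h.ht q hex
      rw [e]
      by_cases hc : g (R.lo y) ≤ g q ∧ g q ≤ g (R.hi x)
      · rw [if_pos hc]
        have := Rep.N_le_succ (R := R) (R' := R') (K := K) (s := q) (q := q) (w := y)
          (fun z _ hzy hz => (hcr z hzy).2 hz)
        omega
      · rw [if_neg hc]
        have hgq : g q ≤ g p := hm hqp
        have hylo : ¬ R.Cr y q := by
          rintro ⟨h1, _⟩
          exact hc ⟨hm h1, by omega⟩
        have := Rep.N_le (R := R) (R' := R') (K := K) (s := q) (q := q)
          (fun z _ hz => by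
            have hzy : z ≠ y := by
              rintro rfl
              exact hylo hz
            exact (hcr z hzy).2 hz)
        omega
    · have hqp' : p < q := by omega
      have e : cg g p q = g (q - 1) := cg_gt hqp'
      have hpq : g p ≤ g (q - 1) := hm (by omega)
      have hcr : ∀ z, z ≠ x → (R'.Cr z q ↔ R.Cr z (q - 1)) := by
        intro z hzx
        unfold Rep.Cr
        rw [ehz z hzx]
        by_cases hzy : z = y
        · subst hzy
          rw [ely]
          have h1 := hy.1
          have h2 := hy.2
          split_ifs <;> omega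
        · rw [elz z hzy]
          split_ifs <;> omega
      have hxq : ¬ R'.Cr x q := by
        rintro ⟨_, h2⟩
        rw [ehx] at h2
        omega
      have hex : ∃ z ∈ K, R.Cr z (q - 1) := by
        obtain ⟨z, hzK, hz⟩ := hq
        have hzx : z ≠ x := by
          rintro rfl
          exact hxq hz
        exact ⟨z, hzK, (hcr z hzx).1 hz⟩
      have hold := h.ht (q - 1) hex
      rw [e]
      by_cases hc : g (R.lo y) ≤ g (q - 1) ∧ g (q - 1) ≤ g (R.hi x)
      · rw [if_pos hc]
        have := Rep.N_le_succ (R := R) (R' := R') (K := K) (s := q - 1) (q := q) (w := x)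
          (fun z _ hzx hz => (hcr z hzx).2 hz)
        omega
      · rw [if_neg hc]
        have hxhi : ¬ R.Cr x (q - 1) := by
          rintro ⟨_, h2⟩
          exact hc ⟨by omega, hm h2⟩
        have := Rep.N_le (R := R) (R' := R') (K := K) (s := q - 1) (q := q)
          (fun z _ hz => by
            have hzx : z ≠ x := by
              rintro rfl
              exact hxhi hz
            exact (hcr z hzx).2 hz)
        omega
  · intro q hq
    have key : ∀ (s : ℤ), (∀ z ∈ K, R'.hi z = q → R.hi z = s ∧ z ≠ x) → A (g s) (g (s + 1)) →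
        (K.filter fun z => R'.hi z = q).card ≤ 1 := by
      intro s hs hg
      refine le_trans (Finset.card_le_card fun z hz => ?_) (h.uh s hg)
      obtain ⟨hzK, hz1⟩ := Finset.mem_filter.1 hz
      exact Finset.mem_filter.2 ⟨hzK, (hs z hzK hz1).1⟩
    rcases lt_trichotomy q p with hqp | hqp | hqp
    · rw [cg_le (by omega), cg_le (by omega)] at hq
      refine key q (fun z _ hz => ?_) hq
      have hzx : z ≠ x := by rintro rfl; omega
      rw [ehz z hzx] at hz
      refine ⟨?_, hzx⟩
      split_ifs at hz <;> omega
    · refine le_trans (Finset.card_le_card (t := {x}) fun z hz => ?_)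
        (by rw [Finset.card_singleton])
      obtain ⟨hzK, hz1⟩ := Finset.mem_filter.1 hz
      rw [Finset.mem_singleton]
      by_contra hzx
      rw [ehz z hzx] at hz1
      split_ifs at hz1 <;> omega
    · rw [cg_gt (by omega), cg_gt (by omega)] at hq
      have e1 : q + 1 - 1 = q - 1 + 1 := by ring
      rw [e1] at hq
      refine key (q - 1) (fun z _ hz => ?_) hq
      have hzx : z ≠ x := by rintro rfl; omega
      rw [ehz z hzx] at hz
      refine ⟨?_, hzx⟩
      split_ifs at hz <;> omega
  · intro q hq
    have key : ∀ (s : ℤ), (∀ z ∈ K, R'.lo z = q → R.lo z = s) → B (g (s - 1)) (g s) →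
        (K.filter fun z => R'.lo z = q).card ≤ 1 := by
      intro s hs hg
      refine le_trans (Finset.card_le_card fun z hz => ?_) (h.ul s hg)
      obtain ⟨hzK, hz1⟩ := Finset.mem_filter.1 hz
      exact Finset.mem_filter.2 ⟨hzK, hs z hzK hz1⟩
    rcases lt_trichotomy q (p + 1) with hqp | hqp | hqp
    · rw [cg_le (by omega), cg_le (by omega)] at hq
      refine key q (fun z _ hz => ?_) hq
      have hzy : z ≠ y := by rintro rfl; omega
      rw [elz z hzy] at hz
      split_ifs at hz <;> omega
    · refine le_trans (Finset.card_le_card (t := {y}) fun z hz => ?_)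
        (by rw [Finset.card_singleton])
      obtain ⟨hzK, hz1⟩ := Finset.mem_filter.1 hz
      rw [Finset.mem_singleton]
      by_contra hzy
      rw [elz z hzy] at hz1
      split_ifs at hz1 <;> omega
    · rw [cg_gt (by omega), cg_gt (by omega)] at hq
      refine key (q - 1) (fun z _ hz => ?_) hq
      have hzy : z ≠ y := by rintro rfl; omega
      rw [elz z hzy] at hz
      split_ifs at hz <;> omega

end Hg

end Pool.Agent.OCN
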