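import Pool.Agent.Lib_helper16.OCN.HgDual

/-!
# MP_aeb124_co: the region calculus, counting, the first position
-/

set_option autoImplicit false

namespace Pool.Agent.OCN

variable {V : Type}

open scoped Classical in
/-- the number of elements of `K` whose type satisfies `P` -/
noncomputable def cn (K : Finset V) (R : Rep V) (g : ℤ → ℤ) (P : ℤ → ℤ → Prop) : ℕ :=
  (K.filter fun z => P (g (R.lo z)) (g (R.hi z))).card

section
variable {K : Finset V} {R R' : Rep V} {g g' : ℤ → ℤ}

theorem cn_le {P Q : ℤ → ℤ → Prop}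
    (h : ∀ z ∈ K, P (g (R.lo z)) (g (R.hi z)) → Q (g' (R'.lo z)) (g' (R'.hi z))) :
    cn K R g P ≤ cn K R' g' Q := by
  classical
  unfold cn
  refine Finset.card_le_card fun z hz => ?_
  rw [Finset.mem_filter] at hz ⊢
  exact ⟨hz.1, h z hz.1 hz.2⟩

theorem cn_congr {P Q : ℤ → ℤ → Prop}
    (h : ∀ z ∈ K, (P (g (R.lo z)) (g (R.hi z)) ↔ Q (g' (R'.lo z)) (g' (R'.hi z)))) :
    cn K R g P = cn K R' g' Q :=
  le_antisymm (cn_le fun z hz hP => (h z hz).1 hP) (cn_le fun z hz hQ => (h z hz).2 hQ)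

theorem cn_pos {P : ℤ → ℤ → Prop} (h : 0 < cn K R g P) :
    ∃ z ∈ K, P (g (R.lo z)) (g (R.hi z)) := by
  classical
  unfold cn at h
  obtain ⟨z, hz⟩ := Finset.card_pos.1 h
  exact ⟨z, (Finset.mem_filter.1 hz).1, (Finset.mem_filter.1 hz).2⟩

theorem pos_cn {P : ℤ → ℤ → Prop} (h : ∃ z ∈ K, P (g (R.lo z)) (g (R.hi z))) :
    0 < cn K R g P := by
  classical
  obtain ⟨z, hz, hP⟩ := h
  unfold cn
  exact Finset.card_pos.2 ⟨z, Finset.mem_filter.2 ⟨hz, hP⟩⟩

theorem card_filter_le_cn {P : ℤ → ℤ → Prop} {p : V → Prop} [DecidablePred p]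
    (h : ∀ z ∈ K, p z → P (g (R.lo z)) (g (R.hi z))) : (K.filter p).card ≤ cn K R g P := by
  classical
  unfold cn
  refine Finset.card_le_card fun z hz => ?_
  have h1 := Finset.mem_filter.1 hz
  exact Finset.mem_filter.2 ⟨h1.1, h z h1.1 h1.2⟩

theorem cn_le_card_filter {P : ℤ → ℤ → Prop} {p : V → Prop} [DecidablePred p]
    (h : ∀ z ∈ K, P (g (R.lo z)) (g (R.hi z)) → p z) : cn K R g P ≤ (K.filter p).card := by
  classical
  unfold cn
  refine Finset.card_le_card fun z hz => ?_
  have h1 := Finset.mem_filter.1 hz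
  exact Finset.mem_filter.2 ⟨h1.1, h z h1.1 h1.2⟩

theorem card_filter_eq_cn {P : ℤ → ℤ → Prop} {p : V → Prop} [DecidablePred p]
    (h : ∀ z ∈ K, (p z ↔ P (g (R.lo z)) (g (R.hi z)))) : (K.filter p).card = cn K R g P :=
  le_antisymm (card_filter_le_cn fun z hz => (h z hz).1)
    (cn_le_card_filter fun z hz => (h z hz).2)

theorem cn_true : cn K R g (fun _ _ => True) = K.card := by
  classical
  unfold cn
  simp

open scoped Classical in
/-- an element leaves `K` -/
theorem cn_erase {P : ℤ → ℤ → Prop} {x : V} (hx : x ∈ K) :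
    cn K R g P = cn (K.erase x) R g P + if P (g (R.lo x)) (g (R.hi x)) then 1 else 0 := by
  unfold cn
  rw [Finset.filter_erase]
  set F := K.filter fun z => P (g (R.lo z)) (g (R.hi z)) with hF
  split_ifs with h
  · have hxF : x ∈ F := by
      rw [hF, Finset.mem_filter]
      exact ⟨hx, h⟩
    rw [Finset.card_erase_of_mem hxF]
    have := Finset.card_pos.2 ⟨x, hxF⟩
    omega
  · have hxF : x ∉ F := by
      rw [hF, Finset.mem_filter]
      exact fun h1 => h h1.2
    rw [Finset.erase_eq_of_notMem hxF]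
    rfl

open scoped Classical in
/-- the type of one element changes -/
theorem cn_one {P : ℤ → ℤ → Prop} {x : V} (hx : x ∈ K)
    (h : ∀ z ∈ K, z ≠ x → g' (R'.lo z) = g (R.lo z) ∧ g' (R'.hi z) = g (R.hi z)) :
    cn K R' g' P + (if P (g (R.lo x)) (g (R.hi x)) then 1 else 0) =
      cn K R g P + if P (g' (R'.lo x)) (g' (R'.hi x)) then 1 else 0 := by
  rw [cn_erase (R := R) (g := g) hx, cn_erase (R := R') (g := g') hx]
  have : cn (K.erase x) R' g' P = cn (K.erase x) R g P := cn_congr fun z hz => by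
    obtain ⟨hzx, hzK⟩ := Finset.mem_erase.1 hz
    rw [(h z hzK hzx).1, (h z hzK hzx).2]
  omega

open scoped Classical in
/-- the types of two elements change -/
theorem cn_two {P : ℤ → ℤ → Prop} {x y : V} (hx : x ∈ K) (hy : y ∈ K) (hxy : x ≠ y)
    (h : ∀ z ∈ K, z ≠ x → z ≠ y →
      g' (R'.lo z) = g (R.lo z) ∧ g' (R'.hi z) = g (R.hi z)) :
    cn K R' g' P + (if P (g (R.lo x)) (g (R.hi x)) then 1 else 0) +
      (if P (g (R.lo y)) (g (R.hi y)) then 1 else 0) =
      cn K R g P + (if P (g' (R'.lo x)) (g' (R'.hi x)) then 1 else 0) +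
        if P (g' (R'.lo y)) (g' (R'.hi y)) then 1 else 0 := by
  have hy' : y ∈ K.erase x := Finset.mem_erase.2 ⟨hxy.symm, hy⟩
  rw [cn_erase (R := R) (g := g) hx, cn_erase (R := R') (g := g') hx,
    cn_erase (R := R) (g := g) hy', cn_erase (R := R') (g := g') hy']
  have : cn ((K.erase x).erase y) R' g' P = cn ((K.erase x).erase y) R g P :=
    cn_congr fun z hz => by
      obtain ⟨hzy, hz⟩ := Finset.mem_erase.1 hz
      obtain ⟨hzx, hzK⟩ := Finset.mem_erase.1 hz
      rw [(h z hzK hzx hzy).1, (h z hzK hzx hzy).2]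
  omega

end

/-! ### the first position -/

/-- all elements cross the gaps `0` and `1` -/
def R0 (V : Type) : Rep V where
  lo _ := 0
  hi _ := 1
  le _ := by omega

theorem R0_loc [Fintype V] : Loc (fun _ _ => False) (Finset.univ : Finset V) (R0 V) where
  so := ⟨fun _ h => h, fun _ _ _ h _ => h⟩
  iso z hz := absurd (Finset.mem_univ z) hz
  eq a _ b _ := by
    unfold Rep.rel R0
    simp

/-- the regions of the first position: `λ` at the gap `0`, `τ` at the gap `1`, `a` before, `b`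
behind -/
def g0 (a l t b : ℤ) : ℤ → ℤ := fun p => if p < 0 then a else if p = 0 then l
  else if p = 1 then t else b

theorem g0_mono {a l t b : ℤ} (h1 : a ≤ l) (h2 : l ≤ t) (h3 : t ≤ b) : Monotone (g0 a l t b) := by
  intro p q hpq
  unfold g0
  split_ifs <;> omega

/-- the first position -/
theorem R0_st [Fintype V] {a l t b : ℤ} (h1 : a ≤ l) (h2 : l ≤ t) (h3 : t ≤ b) {H : ℤ → ℕ}
    (hl : H l ≤ Fintype.card V) (ht : H t ≤ Fintype.card V) {A B : ℤ → ℤ → Prop}
    (hA1 : ¬ A t b) (hB1 : ¬ B a l) :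
    St (fun _ _ => False) (Finset.univ : Finset V) (R0 V) (g0 a l t b) H A B := by
  classical
  have e0 : g0 a l t b 0 = l := by unfold g0; simp
  have e1 : g0 a l t b 1 = t := by unfold g0; simp
  have e2 : g0 a l t b 2 = b := by unfold g0; simp
  have e3 : g0 a l t b (-1) = a := by unfold g0; simp
  refine ⟨R0_loc, g0_mono h1 h2 h3, ?_, ?_, ?_⟩
  · rintro p ⟨z, _, hc1, hc2⟩
    have hc1' : (0 : ℤ) ≤ p := hc1
    have hc2' : p ≤ 1 := hc2
    have hN : (R0 V).N Finset.univ p = Fintype.card V := by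
      unfold Rep.N
      rw [Finset.filter_true_of_mem, Finset.card_univ]
      intro w _
      exact ⟨hc1', hc2'⟩
    rw [hN]
    rcases (show p = 0 ∨ p = 1 by omega) with rfl | rfl
    · rw [e0]; exact hl
    · rw [e1]; exact ht
  · intro p hp
    by_cases hp1 : p = 1
    · exfalso
      subst hp1
      rw [e1, show (1 : ℤ) + 1 = 2 by norm_num, e2] at hp
      exact hA1 hp
    · have : (Finset.univ.filter fun z => (R0 V).hi z = p) = ∅ := by
        rw [Finset.filter_eq_empty_iff]
        intro z _ hz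
        exact hp1 hz.symm
      rw [this]
      simp
  · intro p hp
    by_cases hp1 : p = 0
    · exfalso
      subst hp1
      rw [e0, show (0 : ℤ) - 1 = -1 by norm_num, e3] at hp
      exact hB1 hp
    · have : (Finset.univ.filter fun z => (R0 V).lo z = p) = ∅ := by
        rw [Finset.filter_eq_empty_iff]
        intro z _ hz
        exact hp1 hz.symm
      rw [this]
      simp

end Pool.Agent.OCN
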