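import Pool.Agent.Lib_helper16.OCN.HgLevel

/-!
# MP_aeb124_co: the region calculus, the dual moves

`St.takeLast`: an element `w` which starts in the region `ρ` is taken out of the region to the
right (into the region `α`): the elements of `P` which end in `ρ` come below `w`.
`St.closeMax`, `St.closeLast`: closings at the top.
-/

set_option autoImplicit false

namespace Pool.Agent.OCN

variable {V : Type}

theorem dlo (R : Rep V) (g : ℤ → ℤ) (z : V) : dg g (R.dual.lo z) = -g (R.hi z) := by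
  unfold dg Rep.dual
  simp

theorem dhi (R : Rep V) (g : ℤ → ℤ) (z : V) : dg g (R.dual.hi z) = -g (R.lo z) := by
  unfold dg Rep.dual
  simp

theorem ne_dual {g : ℤ → ℤ} {s : ℤ} : Ne (dg g) s ↔ Ne g (-s) := by
  constructor
  · intro h
    have := h.dual
    rw [dg_dg] at this
    exact this
  · intro h
    have := h.dual
    rw [neg_neg] at this
    exact this

section
variable {K : Finset V} {R : Rep V} {g : ℤ → ℤ} {H : ℤ → ℕ} {A B : ℤ → ℤ → Prop}
variable {r : V → V → Prop}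

theorem St.of_dual' (h : St r K R g (fun s => H (-s)) (dc B) (dc A)) :
    St (flip r) K R.dual (dg g) H A B := by
  have h1 := h.dual
  rw [dc_dc, dc_dc] at h1
  have e : (fun s : ℤ => (fun s => H (-s)) (-s)) = H := by
    funext s
    simp only [neg_neg]
  rw [e] at h1
  exact h1

theorem neg_fun_eq {H : ℤ → ℕ} {s t : ℤ} (h : s = -t) : H (-s) = H t := by
  rw [h, neg_neg]

variable [Fintype V]

open scoped Classical in
/-- the dual of `takeFirst` -/
theorem St.takeLast (h : St r K R g H A B) {ρ α : ℤ} (hα : ρ < α)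
    (hgap : ∀ s, Ne g s → ρ < s → α ≤ s) (hρ : Ne g ρ) (hhigh : ∃ s, ρ < s ∧ Ne g s)
    (hB : B ρ ρ) (hA : ∀ a, ρ < a → ¬ A ρ a) (hend : ∃ z ∈ K, g (R.lo z) = ρ)
    (hH : H ρ < tch K R g ρ) (P : V → Prop) {H' : ℤ → ℕ} (hH1 : ∀ s, Ne g s → H' s ≤ H s)
    (hH3 : H' α + (K.filter fun z => P z ∧ g (R.hi z) = ρ).card ≤ H ρ ∨ H' α = 0)
    (hB2 : ∀ s, α ≤ s → B α s → B ρ s) (hA2 : ∀ s, α ≤ s → ¬ A α s) :
    ∃ (r' : V → V → Prop) (R' : Rep V) (g' : ℤ → ℤ) (w : V), w ∈ K ∧ g (R.lo w) = ρ ∧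
      St r' K R' g' H' A B ∧ (∀ a b, r a b → r' a b) ∧
      newP r r' ≤ (K.filter fun z => (P z ∧ g (R.hi z) = ρ) ∧ z ≠ w).card ∧
      g' (R'.lo w) = α ∧ (∀ z ∈ K, z ≠ w → g' (R'.lo z) = g (R.lo z)) ∧
      (∀ z ∈ K, g (R.hi z) ≠ ρ → g' (R'.hi z) = g (R.hi z)) ∧
      (∀ z ∈ K, g (R.hi z) = ρ → P z → z ≠ w → g' (R'.hi z) = ρ) ∧
      (∀ z ∈ K, g (R.hi z) = ρ → g' (R'.hi z) = ρ ∨ g' (R'.hi z) = α) ∧
      (g (R.hi w) = ρ → g' (R'.hi w) = α) ∧
      (∀ s, Ne g s → Ne g' s) ∧ Ne g' α := by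
  have e1 : ∀ z, (dg g (R.dual.lo z) = -ρ ↔ g (R.hi z) = ρ) := fun z => by rw [dlo]; omega
  have e2 : ∀ z, (dg g (R.dual.hi z) = -ρ ↔ g (R.lo z) = ρ) := fun z => by rw [dhi]; omega
  obtain ⟨r1, R1, g1, w, h1, h2, h3, h4, h5, h6, h7, h8, h9, h10, h11, h12, h13⟩ :=
    h.dual.takeFirst (ρ := -ρ) (α := -α) (by omega)
      (fun s hs hs1 => by
        have := hgap (-s) (ne_dual.1 hs) (by omega)
        omega)
      (ne_dual.2 (by rw [neg_neg]; exact hρ))
      (by
        obtain ⟨s, hs1, hs2⟩ := hhigh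
        exact ⟨-s, by omega, ne_dual.2 (by rw [neg_neg]; exact hs2)⟩)
      (by unfold dc; rw [neg_neg]; exact hB)
      (fun a ha hc => by
        unfold dc at hc
        rw [neg_neg] at hc
        exact hA (-a) (by omega) hc)
      (by
        obtain ⟨z, hz, hz1⟩ := hend
        exact ⟨z, hz, (e2 z).2 hz1⟩)
      (by
        rw [tch_dual]
        simp only [neg_neg]
        exact hH) P (H' := fun s => H' (-s))
      (fun s hs => hH1 (-s) (ne_dual.1 hs))
      (by
        simp only [neg_neg, e1]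
        exact hH3)
      (fun s hs hc => by
        unfold dc at hc ⊢
        rw [neg_neg] at hc ⊢
        exact hB2 (-s) (by omega) hc)
      (fun s hs hc => by
        unfold dc at hc
        rw [neg_neg] at hc
        exact hA2 (-s) (by omega) hc)
  have h3' := h3.of_dual'
  refine ⟨flip r1, R1.dual, dg g1, w, h1, (e2 w).1 h2, h3', fun a b hab => h4 b a hab, ?_, ?_,
    ?_, ?_, ?_, ?_, ?_, ?_, ?_⟩
  · rw [← newP_flip]
    simp only [e1] at h5
    exact h5
  · rw [dlo, h6, neg_neg]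
  · intro z hz hzw
    rw [dlo, h7 z hz hzw, dhi, neg_neg]
  · intro z hz hz1
    rw [dhi, h8 z hz (fun h => hz1 ((e1 z).1 h)), dlo, neg_neg]
  · intro z hz hz1 hz2 hz3
    rw [dhi, h9 z hz ((e1 z).2 hz1) hz2 hz3, neg_neg]
  · intro z hz hz1
    rw [dhi]
    rcases h10 z hz ((e1 z).2 hz1) with h | h
    · left; omega
    · right; omega
  · intro hw1
    rw [dhi, h11 ((e1 w).2 hw1), neg_neg]
  · intro s hs
    rw [ne_dual]
    exact h12 (-s) (ne_dual.2 (by rw [neg_neg]; exact hs))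
  · rw [ne_dual]
    exact h13

/-- `y` becomes the maximum and leaves -/
theorem St.closeMax [DecidableEq V] (h : St r K R g H A B) {y : V} (hy : y ∈ K)
    (hU : ∀ z ∈ K, ¬ R.rel y z) :
    ∃ r' : V → V → Prop, St r' (K.erase y) R g
      (fun s => H s - if g (R.lo y) ≤ s ∧ s ≤ g (R.hi y) then 1 else 0) A B ∧
      (∀ a b, r a b → r' a b) ∧ (∀ w ∈ K, w ≠ y → r' w y) ∧
      newP r r' + R.D K y + 1 = K.card := by
  obtain ⟨r1, h1, h2, h3, h4⟩ := h.dual.closeMin hy (fun z hz hc => hU z hz (by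
    rw [Rep.rel_dual] at hc
    exact hc))
  have h5 : St r1 (K.erase y) R.dual (dg g) (fun s => (fun t => H t -
      if g (R.lo y) ≤ t ∧ t ≤ g (R.hi y) then 1 else 0) (-s)) (dc B) (dc A) := by
    have e3 : (fun s => (fun t => H t - if g (R.lo y) ≤ t ∧ t ≤ g (R.hi y) then 1 else 0) (-s)) =
        (fun s => (fun ρ => H (-ρ)) s -
          if dg g (R.dual.lo y) ≤ s ∧ s ≤ dg g (R.dual.hi y) then 1 else 0) := by
      funext s
      simp only
      rw [dlo, dhi]
      congr 1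
      by_cases hc : g (R.lo y) ≤ -s ∧ -s ≤ g (R.hi y)
      · rw [if_pos hc, if_pos (by omega)]
      · rw [if_neg hc, if_neg (by omega)]
    rw [e3]
    exact h1
  have h6 := St.of_dual' (H := fun t => H t -
      if g (R.lo y) ≤ t ∧ t ≤ g (R.hi y) then 1 else 0) h5
  rw [dg_dg, Rep.dual_dual] at h6
  refine ⟨flip r1, h6, fun a b hab => h2 b a hab, fun w hw hwy => h3 w hw hwy, ?_⟩
  rw [Rep.U_dual] at h4
  rw [← newP_flip] at h4
  exact h4

open scoped Classical in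
/-- closing of an element which starts in the last region `ρ` (`α` is an unused region) -/
theorem St.closeLast (h : St r K R g H A B) {ρ α : ℤ} (hα : ρ < α)
    (hgap : ∀ s, Ne g s → ρ < s → α ≤ s) (hρ : Ne g ρ) (hhigh : ∃ s, ρ < s ∧ Ne g s)
    (hmax : ∀ z ∈ K, g (R.hi z) ≤ ρ) (hHα : H α = 0)
    (hB : B ρ ρ) (hA : ∀ a, ρ < a → ¬ A ρ a) (hend : ∃ z ∈ K, g (R.lo z) = ρ)
    (hH : H ρ < tch K R g ρ)
    (hB2 : ∀ s, α ≤ s → B α s → B ρ s) (hA2 : ∀ s, α ≤ s → ¬ A α s) :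
    ∃ (r' : V → V → Prop) (R' : Rep V) (g' : ℤ → ℤ) (w : V), w ∈ K ∧ g (R.lo w) = ρ ∧
      g (R.hi w) = ρ ∧ St r' (K.erase w) R' g' H A B ∧ (∀ a b, r a b → r' a b) ∧
      newP r r' ≤ (K.filter fun z => g (R.hi z) = ρ ∧ z ≠ w).card ∧
      (∀ z ∈ K, z ≠ w → g' (R'.lo z) = g (R.lo z)) ∧
      (∀ z ∈ K, z ≠ w → g' (R'.hi z) = g (R.hi z)) ∧
      (∀ s, Ne g s → Ne g' s) := by
  have e1 : ∀ z, (dg g (R.dual.lo z) = -ρ ↔ g (R.hi z) = ρ) := fun z => by rw [dlo]; omega
  have e2 : ∀ z, (dg g (R.dual.hi z) = -ρ ↔ g (R.lo z) = ρ) := fun z => by rw [dhi]; omega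
  obtain ⟨r1, R1, g1, w, h1, h2, h3, h4, h5, h6, h7, h8, h9⟩ :=
    h.dual.closeFirst (ρ := -ρ) (α := -α) (by omega)
      (fun s hs hs1 => by
        have := hgap (-s) (ne_dual.1 hs) (by omega)
        omega)
      (ne_dual.2 (by rw [neg_neg]; exact hρ))
      (by
        obtain ⟨s, hs1, hs2⟩ := hhigh
        exact ⟨-s, by omega, ne_dual.2 (by rw [neg_neg]; exact hs2)⟩)
      (fun z hz => by
        have := hmax z hz
        rw [dlo]
        omega)
      (by simp only [neg_neg]; exact hHα)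
      (by unfold dc; rw [neg_neg]; exact hB)
      (fun a ha hc => by
        unfold dc at hc
        rw [neg_neg] at hc
        exact hA (-a) (by omega) hc)
      (by
        obtain ⟨z, hz, hz1⟩ := hend
        exact ⟨z, hz, (e2 z).2 hz1⟩)
      (by
        rw [tch_dual]
        simp only [neg_neg]
        exact hH)
      (fun s hs hc => by
        unfold dc at hc ⊢
        rw [neg_neg] at hc ⊢
        exact hB2 (-s) (by omega) hc)
      (fun s hs hc => by
        unfold dc at hc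
        rw [neg_neg] at hc
        exact hA2 (-s) (by omega) hc)
  refine ⟨flip r1, R1.dual, dg g1, w, h1, (e2 w).1 h3, (e1 w).1 h2, h4.of_dual',
    fun a b hab => h5 b a hab, ?_, ?_, ?_, ?_⟩
  · rw [← newP_flip]
    simp only [e1] at h6
    exact h6
  · intro z hz hzw
    rw [dlo, h8 z hz hzw, dhi, neg_neg]
  · intro z hz hzw
    rw [dhi, h7 z hz hzw, dlo, neg_neg]
  · intro s hs
    rw [ne_dual]
    exact h9 (-s) (ne_dual.2 (by rw [neg_neg]; exact hs))

end

end Pool.Agent.OCN
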