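import Pool.Agent.Lib_helper16.OCN.HgTake

/-!
# MP_aeb124_co: the region calculus, levels and closings

`St.takeFirst`: an element `w` which ends in the region `ρ` is taken out of the region to the
left (into the region `α`): the elements of `P` which start in `ρ` come above `w`.
`St.closeFirst`: an element which ends in the first region is closed.
-/

set_option autoImplicit false

namespace Pool.Agent.OCN

variable {V : Type}

open scoped Classical in
/-- the elements of `S` are raised to the gap `q + 1` -/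
noncomputable def Rep.raiseS (R : Rep V) (S : Finset V) (q : ℤ) : Rep V where
  lo z := if z ∈ S ∧ q + 1 ≤ R.hi z then q + 1 else R.lo z
  hi := R.hi
  le z := by
    split_ifs with h
    · exact h.2
    · exact R.le z

/-- raise the elements of `S` above `w` -/
theorem op_raiseS [Fintype V] {r : V → V → Prop} {K : Finset V} {R : Rep V} (h : Loc r K R)
    {q : ℤ} {w : V} (hw : w ∈ K) (hw1 : R.hi w = q) (hu : ∀ z ∈ K, R.hi z = q → z = w)
    {S : Finset V} (hS : ∀ z ∈ S, z ∈ K ∧ R.lo z = q ∧ z ≠ w) :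
    ∃ r' : V → V → Prop, Loc r' K (R.raiseS S q) ∧ (∀ a b, r a b → r' a b) ∧
      newP r r' ≤ S.card ∧ ∀ z ∈ S, r' w z := by
  classical
  have hS' : ∀ z ∈ S, q + 1 ≤ R.hi z := by
    intro z hz
    obtain ⟨h1, h2, h3⟩ := hS z hz
    have := R.le z
    by_contra hlt
    exact h3 (hu z h1 (by omega))
  have elo : ∀ z ∈ S, (R.raiseS S q).lo z = q + 1 := fun z hz => if_pos ⟨hz, hS' z hz⟩
  have elo' : ∀ z, z ∉ S → (R.raiseS S q).lo z = R.lo z := fun z hz => if_neg fun h => hz h.1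
  have ehi : ∀ z, (R.raiseS S q).hi z = R.hi z := fun z => rfl
  have hrel : ∀ a ∈ K, ∀ b ∈ K, R.rel a b → (R.raiseS S q).rel a b := by
    intro a _ b _ hab
    unfold Rep.rel at hab ⊢
    rw [ehi]
    by_cases hb : b ∈ S
    · rw [elo b hb]
      have := (hS b hb).2.1
      omega
    · rw [elo' b hb]
      exact hab
  obtain ⟨r', h1, h2, h3⟩ := op_local h (R.raiseS S q) hrel
  refine ⟨r', h1, h2, ?_, ?_⟩
  · rw [h3]
    unfold Rep.newK
    rw [← Finset.card_image_of_injective S (Prod.mk_right_injective w)]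
    refine Finset.card_le_card ?_
    rintro ⟨a, b⟩ hab
    rw [Finset.mem_filter, Finset.mem_product] at hab
    obtain ⟨⟨ha, hb⟩, h4, h5⟩ := hab
    unfold Rep.rel at h4 h5
    rw [ehi] at h4
    simp only at h4 h5
    rw [Finset.mem_image]
    by_cases hbS : b ∈ S
    · rw [elo b hbS] at h4
      have h6 := (hS b hbS).2.1
      have h7 : a = w := hu a ha (by omega)
      exact ⟨b, hbS, by rw [h7]⟩
    · rw [elo' b hbS] at h4
      exact absurd h4 h5
  · intro z hz
    rw [h1.eq w hw z (hS z hz).1]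
    unfold Rep.rel
    rw [ehi, elo z hz]
    omega

/-- a new label for the gap `q` -/
def setg (g : ℤ → ℤ) (q α : ℤ) : ℤ → ℤ := fun s => if s = q then α else g s

theorem setg_eq {g : ℤ → ℤ} {q α : ℤ} : setg g q α q = α := if_pos rfl

theorem setg_ne {g : ℤ → ℤ} {q α s : ℤ} (h : s ≠ q) : setg g q α s = g s := if_neg h

theorem setg_mono {g : ℤ → ℤ} (h : Monotone g) {q α : ℤ} (h1 : g (q - 1) ≤ α)
    (h2 : α ≤ g (q + 1)) : Monotone (setg g q α) := by
  intro a b hab
  by_cases ha : a = q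
  · subst ha
    rw [setg_eq]
    by_cases hb : b = a
    · rw [hb, setg_eq]
    · rw [setg_ne hb]
      exact h2.trans (h (by omega))
  · rw [setg_ne ha]
    by_cases hb : b = q
    · subst hb
      rw [setg_eq]
      exact (h (by omega)).trans h1
    · rw [setg_ne hb]
      exact h hab

section
variable {K : Finset V} {R : Rep V} {g : ℤ → ℤ} {H : ℤ → ℕ} {A B : ℤ → ℤ → Prop}

open scoped Classical in
theorem Hg.level (h : Hg K R g H A B) {q α : ℤ} {w : V}
    (hu : ∀ z ∈ K, R.hi z = q → z = w) {S : Finset V}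
    (hS : ∀ z ∈ S, z ∈ K ∧ R.lo z = q ∧ z ≠ w) (h1 : g (q - 1) ≤ α) (h2 : α ≤ g (q + 1))
    {H' : ℤ → ℕ} (hH : ∀ s, Ne g s → H' s ≤ H s) (hN : H' α + S.card ≤ R.N K q ∨ H' α = 0)
    (hA : A (g (q - 1)) α → (K.filter fun z => R.hi z = q - 1).card ≤ 1)
    (hB1 : ¬ B (g (q - 1)) α) (hB2 : ¬ B α (g (q + 1))) :
    Hg K (R.raiseS S q) (setg g q α) H' A B := by
  have hS' : ∀ z ∈ S, q + 1 ≤ R.hi z := by
    intro z hz
    obtain ⟨h1, h2, h3⟩ := hS z hz
    have := R.le z
    by_contra hlt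
    exact h3 (hu z h1 (by omega))
  have elo : ∀ z ∈ S, (R.raiseS S q).lo z = q + 1 := fun z hz => if_pos ⟨hz, hS' z hz⟩
  have elo' : ∀ z, z ∉ S → (R.raiseS S q).lo z = R.lo z := fun z hz => if_neg fun h => hz h.1
  have ehi : ∀ z, (R.raiseS S q).hi z = R.hi z := fun z => rfl
  set R' := R.raiseS S q with hR'
  have hcr : ∀ z p, p ≠ q → (R'.Cr z p ↔ R.Cr z p) := by
    intro z p hp
    unfold Rep.Cr
    rw [ehi]
    by_cases hz : z ∈ S
    · rw [elo z hz, (hS z hz).2.1]
      omega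
    · rw [elo' z hz]
  have hcr' : ∀ z, z ∉ S → (R'.Cr z q ↔ R.Cr z q) := by
    intro z hz
    unfold Rep.Cr
    rw [ehi, elo' z hz]
  refine ⟨setg_mono h.mono h1 h2, ?_, ?_, ?_⟩
  · intro p hp
    by_cases hpq : p = q
    · subst hpq
      rw [setg_eq]
      rcases hN with hN | hN
      · have e1 : R.N K p ≤ R'.N K p + S.card := by
          unfold Rep.N
          refine le_trans (Finset.card_le_card (t := (K.filter fun z => R'.Cr z p) ∪ S) ?_)
            (Finset.card_union_le _ _)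
          intro z hz
          rw [Finset.mem_filter] at hz
          rw [Finset.mem_union, Finset.mem_filter]
          by_cases hzS : z ∈ S
          · exact Or.inr hzS
          · exact Or.inl ⟨hz.1, (hcr' z hzS).2 hz.2⟩
        omega
      · omega
    · rw [setg_ne hpq]
      obtain ⟨z, hz, hc⟩ := hp
      have e1 := h.ht p ⟨z, hz, (hcr z p hpq).1 hc⟩
      have e2 := Rep.N_le (R := R) (R' := R') (K := K) (s := p) (q := p)
        (fun z _ hz => (hcr z p hpq).2 hz)
      have e3 := hH (g p) ⟨p, rfl⟩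
      omega
  · intro p hp
    by_cases hpq : p = q
    · subst hpq
      refine le_trans (Finset.card_le_card (t := {w}) fun z hz => ?_)
        (by rw [Finset.card_singleton])
      rw [Finset.mem_filter] at hz
      rw [Finset.mem_singleton]
      exact hu z hz.1 hz.2
    · rw [setg_ne hpq] at hp
      by_cases hpq1 : p + 1 = q
      · rw [hpq1, setg_eq] at hp
        have e1 : p = q - 1 := by omega
        rw [e1] at hp ⊢
        exact hA hp
      · rw [setg_ne hpq1] at hp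
        exact h.uh p hp
  · intro p hp
    by_cases hpq : p = q
    · exfalso
      subst hpq
      rw [setg_eq, setg_ne (by omega)] at hp
      exact hB1 hp
    · rw [setg_ne hpq] at hp
      by_cases hpq1 : p - 1 = q
      · exfalso
        rw [hpq1, setg_eq] at hp
        have e1 : p = q + 1 := by omega
        rw [e1] at hp
        exact hB2 hp
      · rw [setg_ne hpq1] at hp
        refine le_trans (Finset.card_le_card fun z hz => ?_) (h.ul p hp)
        rw [Finset.mem_filter] at hz ⊢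
        refine ⟨hz.1, ?_⟩
        by_cases hzS : z ∈ S
        · rw [elo z hzS] at hz
          omega
        · rw [elo' z hzS] at hz
          exact hz.2

variable [Fintype V] {r : V → V → Prop}

open scoped Classical in
/-- the elements of `P` which start in the region `ρ` come above an element `w` which ends in the
region `ρ`, and `w` goes to the region `α` -/
theorem St.takeFirst (h : St r K R g H A B) {ρ α : ℤ} (hα : α < ρ)
    (hgap : ∀ s, Ne g s → s < ρ → s ≤ α) (hρ : Ne g ρ) (hlow : ∃ s, s < ρ ∧ Ne g s)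
    (hA : A ρ ρ) (hB : ∀ a, a < ρ → ¬ B a ρ) (hend : ∃ z ∈ K, g (R.hi z) = ρ)
    (hH : H ρ < tch K R g ρ) (P : V → Prop) {H' : ℤ → ℕ} (hH1 : ∀ s, Ne g s → H' s ≤ H s)
    (hH3 : H' α + (K.filter fun z => P z ∧ g (R.lo z) = ρ).card ≤ H ρ ∨ H' α = 0)
    (hA2 : ∀ s, s ≤ α → A s α → A s ρ) (hB2 : ∀ s, s ≤ α → ¬ B s α) :
    ∃ (r' : V → V → Prop) (R' : Rep V) (g' : ℤ → ℤ) (w : V), w ∈ K ∧ g (R.hi w) = ρ ∧
      St r' K R' g' H' A B ∧ (∀ a b, r a b → r' a b) ∧
      newP r r' ≤ (K.filter fun z => (P z ∧ g (R.lo z) = ρ) ∧ z ≠ w).card ∧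
      g' (R'.hi w) = α ∧ (∀ z ∈ K, z ≠ w → g' (R'.hi z) = g (R.hi z)) ∧
      (∀ z ∈ K, g (R.lo z) ≠ ρ → g' (R'.lo z) = g (R.lo z)) ∧
      (∀ z ∈ K, g (R.lo z) = ρ → P z → z ≠ w → g' (R'.lo z) = ρ) ∧
      (∀ z ∈ K, g (R.lo z) = ρ → g' (R'.lo z) = ρ ∨ g' (R'.lo z) = α) ∧
      (g (R.lo w) = ρ → g' (R'.lo w) = α) ∧
      (∀ s, Ne g s → Ne g' s) ∧ Ne g' α := by
  obtain ⟨s, hs1, a, ha⟩ := hlow
  obtain ⟨p, hp⟩ := hρ
  obtain ⟨q, hq1, hq2, hq3, hq4⟩ := exists_first (a := a) (by rw [ha]; exact hs1) hp h.hg.mono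
  obtain ⟨R1, g1, w, h1, h2, h3, h4, h5, h6, h7, h8, h9, h10, h11⟩ :=
    h.nf hB hA hq3 hq4 hend hH
  have hm := h1.hg.mono
  set S : Finset V := K.filter fun z => R1.lo z = q ∧ P z ∧ z ≠ w with hSdef
  have hS : ∀ z ∈ S, z ∈ K ∧ R1.lo z = q ∧ z ≠ w := by
    intro z hz
    rw [hSdef, Finset.mem_filter] at hz
    exact ⟨hz.1, hz.2.1, hz.2.2.2⟩
  have hScard : S.card ≤ (K.filter fun z => (P z ∧ g (R.lo z) = ρ) ∧ z ≠ w).card := by
    refine Finset.card_le_card fun z hz => ?_
    rw [hSdef, Finset.mem_filter] at hz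
    rw [Finset.mem_filter]
    refine ⟨hz.1, ⟨hz.2.2.1, ?_⟩, hz.2.2.2⟩
    rw [← h2.lo z hz.1, hz.2.1, h4]
  have hScard2 : S.card ≤ (K.filter fun z => P z ∧ g (R.lo z) = ρ).card := by
    refine hScard.trans (Finset.card_le_card fun z hz => ?_)
    rw [Finset.mem_filter] at hz ⊢
    exact ⟨hz.1, hz.2.1⟩
  have hS' : ∀ z ∈ S, q + 1 ≤ R1.hi z := by
    intro z hz
    obtain ⟨k1, k2, k3⟩ := hS z hz
    have := R1.le z
    by_contra hlt
    exact k3 (h8 z k1 (by omega))
  obtain ⟨r', h12, h13, h14, h15⟩ := op_raiseS h1.loc h6 h7 h8 hS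
  have hgq : g (q - 1) ≤ α := hgap _ ⟨q - 1, rfl⟩ hq3
  -- non-empty regions of `g1`
  have hcrw : R1.Cr w q := ⟨by have := R1.le w; omega, by omega⟩
  have h16 : Hg K (R1.raiseS S q) (setg g1 q α) H' A B := by
    refine Hg.level (w := w) ⟨hm, ?_, h1.hg.uh, h1.hg.ul⟩ h8 hS (by rw [h3]; exact hgq)
      (by rw [h5]; omega) (H := fun s => max (H s) (H' s)) (fun s _ => le_max_right _ _) ?_ ?_
      ?_ ?_
    · intro p hp
      have e1 := h1.hg.ht p hp
      exact max_le e1 ((hH1 _ ((h2.ne _).1 ⟨p, rfl⟩)).trans e1)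
    · rcases hH3 with hH3 | hH3
      · left
        have := h1.hg.ht q ⟨w, h6, hcrw⟩
        rw [h4] at this
        omega
      · exact Or.inr hH3
    · intro hA3
      rw [h3] at hA3
      have h17 := hA2 _ hgq hA3
      rw [← h3] at h17
      have e1 : q - 1 + 1 = q := by ring
      refine h1.hg.uh (q - 1) ?_
      rw [e1, h4]
      exact h17
    · rw [h3]
      exact hB2 _ hgq
    · rw [h5]
      exact hB _ hα
  have elo : ∀ z ∈ S, (R1.raiseS S q).lo z = q + 1 := fun z hz => if_pos ⟨hz, hS' z hz⟩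
  have elo' : ∀ z, z ∉ S → (R1.raiseS S q).lo z = R1.lo z := fun z hz => if_neg fun h => hz h.1
  have ehi : ∀ z, (R1.raiseS S q).hi z = R1.hi z := fun z => rfl
  refine ⟨r', _, setg g1 q α, w, h6, ?_, ⟨h12, h16⟩, h13, h14.trans hScard, ?_, ?_, ?_, ?_, ?_,
    ?_, ?_, ?_⟩
  · rw [← h2.hi w h6, h7, h4]
  · rw [ehi, h7, setg_eq]
  · intro z hz hzw
    have hne : R1.hi z ≠ q := fun h => hzw (h8 z hz h)
    rw [ehi, setg_ne hne, h2.hi z hz]
  · intro z hz hz1
    have e1 := h2.lo z hz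
    have hne : R1.lo z ≠ q := by
      intro he
      rw [he, h4] at e1
      exact hz1 e1.symm
    have hzS : z ∉ S := fun h => hne (hS z h).2.1
    rw [elo' z hzS, setg_ne hne, e1]
  · intro z hz hz1 hz2 hz3
    by_cases hzq : R1.lo z = q
    · have hzS : z ∈ S := by
        rw [hSdef, Finset.mem_filter]
        exact ⟨hz, hzq, hz2, hz3⟩
      rw [elo z hzS, setg_ne (by omega), h5]
    · have hzS : z ∉ S := fun h => hzq (hS z h).2.1
      rw [elo' z hzS, setg_ne hzq, h2.lo z hz, hz1]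
  · intro z hz hz1
    by_cases hzS : z ∈ S
    · left
      rw [elo z hzS, setg_ne (by omega), h5]
    · rw [elo' z hzS]
      by_cases hzq : R1.lo z = q
      · right
        rw [hzq, setg_eq]
      · left
        rw [setg_ne hzq, h2.lo z hz, hz1]
  · intro hw1
    have hzq : R1.lo w = q := by
      have e1 := h2.lo w h6
      rw [hw1] at e1
      have e2 := hcrw.1
      by_contra hne
      have e3 := hm (show R1.lo w ≤ q - 1 by omega)
      rw [h3, e1] at e3
      omega
    have hzS : w ∉ S := fun h => (hS w h).2.2 rfl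
    rw [elo' w hzS, hzq, setg_eq]
  · intro s hs
    rw [← h2.ne] at hs
    obtain ⟨t, ht⟩ := hs
    by_cases htq : t = q
    · refine ⟨q + 1, ?_⟩
      rw [setg_ne (by omega), h5, ← ht, htq, h4]
    · exact ⟨t, by rw [setg_ne htq, ht]⟩
  · exact ⟨q, setg_eq⟩

open scoped Classical in
/-- closing of an element which ends in the first region `ρ` (`α` is an unused region) -/
theorem St.closeFirst (h : St r K R g H A B) {ρ α : ℤ} (hα : α < ρ)
    (hgap : ∀ s, Ne g s → s < ρ → s ≤ α) (hρ : Ne g ρ) (hlow : ∃ s, s < ρ ∧ Ne g s)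
    (hmin : ∀ z ∈ K, ρ ≤ g (R.lo z)) (hHα : H α = 0)
    (hA : A ρ ρ) (hB : ∀ a, a < ρ → ¬ B a ρ) (hend : ∃ z ∈ K, g (R.hi z) = ρ)
    (hH : H ρ < tch K R g ρ)
    (hA2 : ∀ s, s ≤ α → A s α → A s ρ) (hB2 : ∀ s, s ≤ α → ¬ B s α) :
    ∃ (r' : V → V → Prop) (R' : Rep V) (g' : ℤ → ℤ) (w : V), w ∈ K ∧ g (R.lo w) = ρ ∧
      g (R.hi w) = ρ ∧ St r' (K.erase w) R' g' H A B ∧ (∀ a b, r a b → r' a b) ∧
      newP r r' ≤ (K.filter fun z => g (R.lo z) = ρ ∧ z ≠ w).card ∧
      (∀ z ∈ K, z ≠ w → g' (R'.lo z) = g (R.lo z)) ∧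
      (∀ z ∈ K, z ≠ w → g' (R'.hi z) = g (R.hi z)) ∧
      (∀ s, Ne g s → Ne g' s) := by
  obtain ⟨r1, R1, g1, w, hw, hw1, h1, h2, h3, h4, h5, h6, h7, h8, h9, h10, h11⟩ :=
    h.takeFirst hα hgap hρ hlow hA hB hend hH (fun _ => True) (H' := H) (fun _ _ => le_rfl)
      (Or.inr hHα) hA2 hB2
  have hw2 : g (R.lo w) = ρ := by
    have e1 := hmin w hw
    have e2 := h.hg.mono (R.le w)
    omega
  have hw3 : g1 (R1.lo w) = α := h9 hw2
  have hlo : ∀ z ∈ K, z ≠ w → g1 (R1.lo z) = g (R.lo z) := by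
    intro z hz hzw
    by_cases hz1 : g (R.lo z) = ρ
    · rw [hz1]
      exact h7 z hz hz1 trivial hzw
    · exact h6 z hz hz1
  have hmin' : ∀ z ∈ K, ¬ R1.rel z w := by
    intro z hz hzw
    unfold Rep.rel at hzw
    by_cases hzw' : z = w
    · subst hzw'
      have := R1.le z
      omega
    · have e1 := h1.hg.mono hzw.le
      rw [h5 z hz hzw', hw3] at e1
      have e2 := hmin z hz
      have e3 := h.hg.mono (R.le z)
      omega
  obtain ⟨r2, k1, k2, k3, k4⟩ := h1.closeMin hw hmin'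
  have hU : K.card ≤ R1.U K w + 1 := by
    unfold Rep.U
    have e1 : K ⊆ insert w (K.filter fun z => R1.rel w z) := by
      intro z hz
      rw [Finset.mem_insert, Finset.mem_filter]
      by_cases hzw : z = w
      · exact Or.inl hzw
      · right
        refine ⟨hz, ?_⟩
        unfold Rep.rel
        by_contra hlt
        have e2 := h1.hg.mono (show R1.lo z ≤ R1.hi w by omega)
        rw [h4, hlo z hz hzw] at e2
        have e3 := hmin z hz
        omega
    exact (Finset.card_le_card e1).trans (Finset.card_insert_le _ _)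
  refine ⟨r2, R1, g1, w, hw, hw2, hw1, ⟨k1.loc, k1.hg.weaken ?_ (fun _ _ h => h)
    (fun _ _ h => h)⟩, fun a b hab => k2 a b (h2 a b hab), ?_, hlo, h5, h10⟩
  · intro s
    rw [hw3, h4]
    split_ifs with hs
    · have : s = α := by omega
      rw [this, hHα]
    · exact le_rfl
  · have e1 := newP_trans (r := r) (r' := r1) (r'' := r2)
    have e2 : newP r r1 ≤ (K.filter fun z => g (R.lo z) = ρ ∧ z ≠ w).card := by
      refine h3.trans (Finset.card_le_card fun z hz => ?_)
      simp only [Finset.mem_filter, true_and] at hz ⊢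
      exact hz
    omega

end

end Pool.Agent.OCN
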