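import Pool.Agent.Lib_helper16.OCN.HgAtk

/-!
# MP_aeb124_co: the region calculus, elementary moves

`raiseTo`, `lowerTo` (shrink a type), `insL`, `insR` (a new gap), `delL`, `delR` (delete a gap),
`relab` (new labels), `closeMin`, `closeMax`.
-/

set_option autoImplicit false

namespace Pool.Agent.OCN

variable {V : Type}

/-! ### raise and lower -/

section
variable {K : Finset V} {R : Rep V} {g : ℤ → ℤ} {H : ℤ → ℕ} {A B : ℤ → ℤ → Prop}

theorem Hg.raise (h : Hg K R g H A B) {z : V} {q : ℤ} (hq : g (q - 1) < g q) (h1 : q ≤ R.hi z)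
    (h2 : R.lo z ≤ q) (hB : ¬ B (g (q - 1)) (g q)) :
    Hg K (R.raise z q h1) g (fun s => H s - if g (R.lo z) ≤ s ∧ s < g q then 1 else 0) A B := by
  classical
  have hlo : ∀ w, w ≠ z → (R.raise z q h1).lo w = R.lo w := fun w hw => if_neg hw
  have hloz : (R.raise z q h1).lo z = q := if_pos rfl
  have hhi : ∀ w, (R.raise z q h1).hi w = R.hi w := fun w => rfl
  set R' := R.raise z q h1 with hR'
  have hfirst : ∀ p, p < q → g p < g q := fun p hp =>
    lt_of_le_of_lt (h.mono (show p ≤ q - 1 by omega)) hq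
  have hcr : ∀ w p, w ≠ z → (R'.Cr w p ↔ R.Cr w p) := by
    intro w p hw
    unfold Rep.Cr
    rw [hlo w hw, hhi]
  have hcrz : ∀ p, R'.Cr z p ↔ q ≤ p ∧ p ≤ R.hi z := by
    intro p
    unfold Rep.Cr
    rw [hloz, hhi]
  refine ⟨h.mono, ?_, ?_, ?_⟩
  · intro p hp
    have hex : ∃ w ∈ K, R.Cr w p := by
      obtain ⟨w, hw, hc⟩ := hp
      refine ⟨w, hw, ?_⟩
      by_cases hwz : w = z
      · subst hwz
        have := (hcrz p).1 hc
        exact ⟨by omega, this.2⟩
      · exact (hcr w p hwz).1 hc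
    have hold := h.ht p hex
    by_cases hc : g (R.lo z) ≤ g p ∧ g p < g q
    · rw [if_pos hc]
      have := Rep.N_le_succ (R := R) (R' := R') (K := K) (s := p) (q := p) (w := z)
        (fun w _ hwz hw => (hcr w p hwz).2 hw)
      omega
    · rw [if_neg hc]
      have := Rep.N_le (R := R) (R' := R') (K := K) (s := p) (q := p)
        (fun w _ hw => by
          by_cases hwz : w = z
          · subst hwz
            rw [hcrz]
            refine ⟨?_, hw.2⟩
            by_contra hlt
            have e1 := h.mono hw.1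
            have e2 := hfirst p (by omega)
            exact hc ⟨e1, e2⟩
          · exact (hcr w p hwz).2 hw)
      omega
  · exact h.uh
  · intro p hp
    refine le_trans (Finset.card_le_card fun w hw => ?_) (h.ul p hp)
    rw [Finset.mem_filter] at hw ⊢
    refine ⟨hw.1, ?_⟩
    by_cases hwz : w = z
    · exfalso
      rw [hwz, hloz] at hw
      rw [← hw.2] at hp
      exact hB hp
    · rw [hlo w hwz] at hw
      exact hw.2

variable [Fintype V] {r : V → V → Prop}

open scoped Classical in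
/-- raise the first gap of `z` to the region `ρ` -/
theorem St.raiseTo (h : St r K R g H A B) {z : V} (hz : z ∈ K) {ρ : ℤ} (h1 : g (R.lo z) < ρ)
    (h2 : ρ ≤ g (R.hi z)) (hρ : Ne g ρ) (hB : ∀ a, a < ρ → ¬ B a ρ) :
    ∃ (r' : V → V → Prop) (R' : Rep V),
      St r' K R' g (fun s => H s - if g (R.lo z) ≤ s ∧ s < ρ then 1 else 0) A B ∧
      (∀ a b, r a b → r' a b) ∧
      newP r r' ≤ (K.filter fun a => g (R.lo z) ≤ g (R.hi a) ∧ g (R.hi a) < ρ).card ∧
      (∀ w, w ≠ z → R'.lo w = R.lo w) ∧ g (R'.lo z) = ρ ∧ (∀ w, R'.hi w = R.hi w) := by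
  obtain ⟨p, hp⟩ := hρ
  obtain ⟨q, hq1, hq2, hq3, hq4⟩ := exists_first h1 hp h.hg.mono
  have h3 : q ≤ R.hi z := by
    by_contra hlt
    have := h.hg.mono (show R.hi z ≤ q - 1 by omega)
    omega
  have h4 : R.lo z ≤ q := by omega
  obtain ⟨r', h5, h6, h7⟩ := op_raise h.loc z hz q h3 h4
  have h8 := h.hg.raise (z := z) (q := q) (by omega) h3 h4 (by rw [hq4]; exact hB _ hq3)
  rw [hq4] at h8
  refine ⟨r', _, ⟨h5, h8⟩, h6, ?_, fun w hw => if_neg hw, ?_, fun w => rfl⟩
  · rw [h7]
    refine Finset.card_le_card fun w hw => ?_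
    rw [Finset.mem_filter] at hw ⊢
    refine ⟨hw.1, h.hg.mono hw.2.1,
      lt_of_le_of_lt (h.hg.mono (show R.hi w ≤ q - 1 by omega)) hq3⟩
  · have : (R.raise z q h3).lo z = q := if_pos rfl
    rw [this, hq4]

omit [Fintype V] in
/-- back from the dual -/
theorem St.of_dual {K : Finset V} {R : Rep V} {g : ℤ → ℤ} {H : ℤ → ℕ} {A B : ℤ → ℤ → Prop}
    {r' : V → V → Prop} (h : St r' K R (dg g) (fun s => H (-s)) (dc B) (dc A)) :
    St (flip r') K R.dual g H A B := by
  have h1 := h.dual
  rw [dg_dg, dc_dc, dc_dc] at h1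
  have e : (fun s : ℤ => (fun s => H (-s)) (-s)) = H := by
    funext s
    simp only [neg_neg]
  rw [e] at h1
  exact h1

open scoped Classical in
/-- lower the last gap of `z` to the region `ρ` -/
theorem St.lowerTo (h : St r K R g H A B) {z : V} (hz : z ∈ K) {ρ : ℤ} (h1 : ρ < g (R.hi z))
    (h2 : g (R.lo z) ≤ ρ) (hρ : Ne g ρ) (hA : ∀ a, ρ < a → ¬ A ρ a) :
    ∃ (r' : V → V → Prop) (R' : Rep V),
      St r' K R' g (fun s => H s - if ρ < s ∧ s ≤ g (R.hi z) then 1 else 0) A B ∧
      (∀ a b, r a b → r' a b) ∧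
      newP r r' ≤ (K.filter fun a => ρ < g (R.lo a) ∧ g (R.lo a) ≤ g (R.hi z)).card ∧
      (∀ w, w ≠ z → R'.hi w = R.hi w) ∧ g (R'.hi z) = ρ ∧ (∀ w, R'.lo w = R.lo w) := by
  have e1 : ∀ w, dg g (R.dual.lo w) = -g (R.hi w) := fun w => by
    unfold dg Rep.dual
    simp
  have e2 : ∀ w, dg g (R.dual.hi w) = -g (R.lo w) := fun w => by
    unfold dg Rep.dual
    simp
  obtain ⟨r', R', h3, h4, h5, h6, h7, h8⟩ := h.dual.raiseTo hz (ρ := -ρ)
    (by rw [e1]; omega) (by rw [e2]; omega) hρ.dual (fun a ha hc => by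
      unfold dc at hc
      rw [neg_neg] at hc
      exact hA _ (by omega) hc)
  have h9 : St r' K R' (dg g) (fun s => (fun t => H t -
      if ρ < t ∧ t ≤ g (R.hi z) then 1 else 0) (-s)) (dc B) (dc A) := by
    have e3 : (fun s => (fun t => H t - if ρ < t ∧ t ≤ g (R.hi z) then 1 else 0) (-s)) =
        (fun s => (fun ρ => H (-ρ)) s -
          if dg g (R.dual.lo z) ≤ s ∧ s < -ρ then 1 else 0) := by
      funext s
      simp only
      rw [e1]
      congr 1
      by_cases hc : ρ < -s ∧ -s ≤ g (R.hi z)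
      · rw [if_pos hc, if_pos (by omega)]
      · rw [if_neg hc, if_neg (by omega)]
    rw [e3]
    exact h3
  refine ⟨flip r', R'.dual, h9.of_dual, fun a b hab => h4 b a hab, ?_, ?_, ?_, ?_⟩
  · rw [← newP_flip]
    refine h5.trans (le_of_eq ?_)
    congr 1
    refine Finset.filter_congr fun a _ => ?_
    rw [e1, e2]
    constructor
    · rintro ⟨h10, h11⟩
      exact ⟨by omega, by omega⟩
    · rintro ⟨h10, h11⟩
      exact ⟨by omega, by omega⟩
  · intro w hw
    have := h6 w hw
    unfold Rep.dual at this ⊢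
    simp only at this ⊢
    omega
  · unfold dg at h7
    unfold Rep.dual
    simp only
    omega
  · intro w
    have := h8 w
    unfold Rep.dual at this ⊢
    simp only at this ⊢
    omega

end

/-! ### a new gap -/

open scoped Classical in
/-- a new gap before `q`; the elements of `E` which start at `q` cross it -/
noncomputable def Rep.insL (R : Rep V) (q : ℤ) (E : V → Prop) : Rep V where
  lo z := if R.lo z < q then R.lo z else if R.lo z = q ∧ E z then q else R.lo z + 1
  hi z := if R.hi z < q then R.hi z else R.hi z + 1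
  le z := by
    have := R.le z
    split_ifs <;> omega

/-- the regions with a new gap at `q` -/
def insg (g : ℤ → ℤ) (q ρ : ℤ) : ℤ → ℤ := fun s => if s < q then g s else if s = q then ρ
  else g (s - 1)

theorem Rep.rel_insL (R : Rep V) (q : ℤ) (E : V → Prop) (a b : V) :
    (R.insL q E).rel a b ↔ R.rel a b := by
  unfold Rep.rel Rep.insL
  simp only
  split_ifs <;> omega

theorem insg_lt {g : ℤ → ℤ} {q ρ s : ℤ} (h : s < q) : insg g q ρ s = g s := if_pos h

theorem insg_eq {g : ℤ → ℤ} {q ρ : ℤ} : insg g q ρ q = ρ := by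
  unfold insg
  rw [if_neg (by omega), if_pos rfl]

theorem insg_gt {g : ℤ → ℤ} {q ρ s : ℤ} (h : q < s) : insg g q ρ s = g (s - 1) := by
  unfold insg
  rw [if_neg (by omega), if_neg (by omega)]

theorem insg_mono {g : ℤ → ℤ} (h : Monotone g) {q ρ : ℤ} (h1 : g (q - 1) ≤ ρ) (h2 : ρ ≤ g q) :
    Monotone (insg g q ρ) := by
  intro a b hab
  rcases lt_trichotomy b q with hb | hb | hb
  · rw [insg_lt hb, insg_lt (by omega)]
    exact h hab
  · subst hb
    rw [insg_eq]
    rcases lt_or_eq_of_le hab with ha | ha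
    · rw [insg_lt ha]
      exact (h (by omega)).trans h1
    · rw [ha, insg_eq]
  · rw [insg_gt hb]
    rcases lt_trichotomy a q with ha | ha | ha
    · rw [insg_lt ha]
      exact h (by omega)
    · subst ha
      rw [insg_eq]
      exact h2.trans (h (by omega))
    · rw [insg_gt ha]
      exact h (by omega)

section
variable {K : Finset V} {R : Rep V} {g : ℤ → ℤ} {H : ℤ → ℕ} {A B : ℤ → ℤ → Prop}
variable {q ρ : ℤ} {E : V → Prop}

theorem insL_lo_E {z : V} (h1 : R.lo z = q) (h2 : E z) : (R.insL q E).lo z = q := by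
  unfold Rep.insL
  simp only
  rw [if_neg (by omega), if_pos ⟨h1, h2⟩]

theorem insL_tlo_E {z : V} (h1 : R.lo z = q) (h2 : E z) :
    insg g q ρ ((R.insL q E).lo z) = ρ := by
  rw [insL_lo_E h1 h2, insg_eq]

theorem insL_tlo {z : V} (h1 : ¬ (R.lo z = q ∧ E z)) :
    insg g q ρ ((R.insL q E).lo z) = g (R.lo z) := by
  unfold Rep.insL
  simp only
  by_cases h2 : R.lo z < q
  · rw [if_pos h2, insg_lt h2]
  · rw [if_neg h2, if_neg h1, insg_gt (by omega)]
    congr 1
    ring

theorem insL_thi (z : V) : insg g q ρ ((R.insL q E).hi z) = g (R.hi z) := by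
  unfold Rep.insL
  simp only
  by_cases h2 : R.hi z < q
  · rw [if_pos h2, insg_lt h2]
  · rw [if_neg h2, insg_gt (by omega)]
    congr 1
    ring

open scoped Classical in
theorem Hg.insL (h : Hg K R g H A B) (h1 : g (q - 1) ≤ ρ) (h2 : ρ ≤ g q) {H' : ℤ → ℕ}
    (hH : ∀ s, Ne g s → H' s ≤ H s)
    (hN : H' ρ ≤ (K.filter fun z => (R.lo z < q ∧ q ≤ R.hi z) ∨ (R.lo z = q ∧ E z)).card)
    (hA : A (g (q - 1)) ρ → (K.filter fun z => R.hi z = q - 1).card ≤ 1)
    (hB1 : B (g (q - 1)) ρ → (K.filter fun z => R.lo z = q ∧ E z).card ≤ 1)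
    (hB2 : B ρ (g q) → (K.filter fun z => R.lo z = q ∧ ¬ E z).card ≤ 1) :
    Hg K (R.insL q E) (insg g q ρ) H' A B := by
  have elo : ∀ z, (R.insL q E).lo z =
    if R.lo z < q then R.lo z else if R.lo z = q ∧ E z then q else R.lo z + 1 := fun z => rfl
  have ehi : ∀ z, (R.insL q E).hi z = if R.hi z < q then R.hi z else R.hi z + 1 := fun z => rfl
  set R' := R.insL q E with hR'
  refine ⟨insg_mono h.mono h1 h2, ?_, ?_, ?_⟩
  · intro p hp
    rcases lt_trichotomy p q with hpq | hpq | hpq
    · rw [insg_lt hpq]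
      have hcr : ∀ z, R'.Cr z p ↔ R.Cr z p := by
        intro z
        unfold Rep.Cr
        rw [elo, ehi]
        split_ifs <;> omega
      obtain ⟨z, hz, hc⟩ := hp
      have e1 := h.ht p ⟨z, hz, (hcr z).1 hc⟩
      have e2 := Rep.N_le (R := R) (R' := R') (K := K) (s := p) (q := p)
        (fun w _ hw => (hcr w).2 hw)
      have e3 := hH (g p) ⟨p, rfl⟩
      omega
    · subst hpq
      rw [insg_eq]
      refine hN.trans ?_
      unfold Rep.N
      refine Finset.card_le_card fun z hz => ?_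
      rw [Finset.mem_filter] at hz ⊢
      refine ⟨hz.1, ?_⟩
      have := R.le z
      unfold Rep.Cr
      rw [elo, ehi]
      rcases hz.2 with h3 | ⟨h3, h4⟩
      · split_ifs <;> omega
      · rw [if_neg (by omega), if_pos ⟨h3, h4⟩]
        split_ifs <;> omega
    · rw [insg_gt hpq]
      have hcr : ∀ z, R'.Cr z p ↔ R.Cr z (p - 1) := by
        intro z
        unfold Rep.Cr
        rw [elo, ehi]
        split_ifs <;> omega
      obtain ⟨z, hz, hc⟩ := hp
      have e1 := h.ht (p - 1) ⟨z, hz, (hcr z).1 hc⟩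
      have e2 := Rep.N_le (R := R) (R' := R') (K := K) (s := p - 1) (q := p)
        (fun w _ hw => (hcr w).2 hw)
      have e3 := hH (g (p - 1)) ⟨p - 1, rfl⟩
      omega
  · intro p hp
    rcases lt_trichotomy (p + 1) q with hpq | hpq | hpq
    · rw [insg_lt (by omega), insg_lt hpq] at hp
      refine le_trans (Finset.card_le_card fun z hz => ?_) (h.uh p hp)
      rw [Finset.mem_filter] at hz ⊢
      refine ⟨hz.1, ?_⟩
      have h3 := hz.2
      rw [ehi] at h3
      split_ifs at h3 <;> omega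
    · subst hpq
      rw [insg_lt (by omega), insg_eq] at hp
      have e1 : p + 1 - 1 = p := by ring
      rw [e1] at hA
      refine le_trans (Finset.card_le_card fun z hz => ?_) (hA hp)
      rw [Finset.mem_filter] at hz ⊢
      refine ⟨hz.1, ?_⟩
      have h3 := hz.2
      rw [ehi] at h3
      split_ifs at h3 <;> omega
    · by_cases hpq2 : p = q
      · subst hpq2
        have : (K.filter fun z => R'.hi z = p) = ∅ := by
          rw [Finset.filter_eq_empty_iff]
          intro z _ h3
          rw [ehi] at h3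
          split_ifs at h3 <;> omega
        rw [this]
        simp
      · rw [insg_gt (by omega), insg_gt (by omega)] at hp
        have e1 : p + 1 - 1 = p - 1 + 1 := by ring
        rw [e1] at hp
        refine le_trans (Finset.card_le_card fun z hz => ?_) (h.uh (p - 1) hp)
        rw [Finset.mem_filter] at hz ⊢
        refine ⟨hz.1, ?_⟩
        have h3 := hz.2
        rw [ehi] at h3
        split_ifs at h3 <;> omega
  · intro p hp
    rcases lt_trichotomy p q with hpq | hpq | hpq
    · rw [insg_lt hpq, insg_lt (by omega)] at hp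
      refine le_trans (Finset.card_le_card fun z hz => ?_) (h.ul p hp)
      rw [Finset.mem_filter] at hz ⊢
      refine ⟨hz.1, ?_⟩
      have h3 := hz.2
      rw [elo] at h3
      split_ifs at h3 <;> omega
    · subst hpq
      rw [insg_lt (by omega), insg_eq] at hp
      refine le_trans (Finset.card_le_card fun z hz => ?_) (hB1 hp)
      rw [Finset.mem_filter] at hz ⊢
      refine ⟨hz.1, ?_⟩
      have h3 := hz.2
      rw [elo] at h3
      split_ifs at h3 with h4 h5
      · omega
      · exact h5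
      · omega
    · by_cases hpq2 : p = q + 1
      · subst hpq2
        have e1 : q + 1 - 1 = q := by ring
        have e2 : insg g q ρ (q + 1) = g q := by rw [insg_gt (by omega), e1]
        rw [e1, insg_eq, e2] at hp
        refine le_trans (Finset.card_le_card fun z hz => ?_) (hB2 hp)
        rw [Finset.mem_filter] at hz ⊢
        refine ⟨hz.1, ?_⟩
        have h3 := hz.2
        rw [elo] at h3
        split_ifs at h3 with h4 h5
        · omega
        · omega
        · have h6 : R.lo z = q := by omega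
          exact ⟨h6, fun h7 => h5 ⟨h6, h7⟩⟩
      · rw [insg_gt (by omega), insg_gt (by omega)] at hp
        refine le_trans (Finset.card_le_card fun z hz => ?_) (h.ul (p - 1) hp)
        rw [Finset.mem_filter] at hz ⊢
        refine ⟨hz.1, ?_⟩
        have h3 := hz.2
        rw [elo] at h3
        split_ifs at h3 <;> omega

end

/-! ### deletion of a gap -/

section
variable {K : Finset V} {R : Rep V} {g : ℤ → ℤ} {H : ℤ → ℕ} {A B : ℤ → ℤ → Prop}

theorem Hg.congr {R' : Rep V} (h : Hg K R g H A B) (h1 : ∀ z ∈ K, R'.lo z = R.lo z)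
    (h2 : ∀ z ∈ K, R'.hi z = R.hi z) : Hg K R' g H A B := by
  classical
  have hcr : ∀ z ∈ K, ∀ p, (R'.Cr z p ↔ R.Cr z p) := by
    intro z hz p
    unfold Rep.Cr
    rw [h1 z hz, h2 z hz]
  refine ⟨h.mono, ?_, ?_, ?_⟩
  · rintro p ⟨w, hw, hc⟩
    refine (h.ht p ⟨w, hw, (hcr w hw p).1 hc⟩).trans ?_
    exact Rep.N_le fun z hz hc => (hcr z hz p).2 hc
  · intro p hp
    refine le_trans (Finset.card_le_card fun w hw => ?_) (h.uh p hp)
    rw [Finset.mem_filter] at hw ⊢
    exact ⟨hw.1, (h2 w hw.1) ▸ hw.2⟩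
  · intro p hp
    refine le_trans (Finset.card_le_card fun w hw => ?_) (h.ul p hp)
    rw [Finset.mem_filter] at hw ⊢
    exact ⟨hw.1, (h1 w hw.1) ▸ hw.2⟩

theorem delg_lt {g : ℤ → ℤ} {p q : ℤ} (h : q < p) : delg g p q = g q := if_pos h

theorem delg_ge {g : ℤ → ℤ} {p q : ℤ} (h : p ≤ q) : delg g p q = g (q + 1) := if_neg (by omega)

/-- deletion of the gap `p`, if no element ends there -/
theorem Hg.del (h : Hg K R g H A B) {p : ℤ} (hp : ∀ z, R.hi z ≠ p)
    (h2 : g p = g (p + 1)) (hB : ¬ B (g (p - 1)) (g p)) :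
    Hg K (R.del p hp) (delg g p) H A B ∧
      (∀ z, delg g p ((R.del p hp).lo z) = g (R.lo z)) ∧
      (∀ z, delg g p ((R.del p hp).hi z) = g (R.hi z)) ∧ (∀ s, Ne (delg g p) s ↔ Ne g s) := by
  classical
  have hm := h.mono
  have elo : ∀ z, (R.del p hp).lo z = if p < R.lo z then R.lo z - 1 else R.lo z := fun z => rfl
  have ehi : ∀ z, (R.del p hp).hi z = if p < R.hi z then R.hi z - 1 else R.hi z := fun z => rfl
  set R' := R.del p hp with hR'
  have tlo : ∀ z, delg g p (R'.lo z) = g (R.lo z) := by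
    intro z
    rw [elo]
    unfold delg
    split_ifs with h3 h4 h5
    · omega
    · congr 1; ring
    · rfl
    · have : R.lo z = p := by omega
      rw [this, h2]
  have thi : ∀ z, delg g p (R'.hi z) = g (R.hi z) := by
    intro z
    have h3 := hp z
    rw [ehi]
    unfold delg
    split_ifs with h4 h5 h6
    · omega
    · congr 1; ring
    · rfl
    · omega
  -- the old gap
  have key : ∀ q, ∃ s, delg g p q = g s ∧ (∀ z, R'.Cr z q ↔ R.Cr z s) := by
    intro q
    by_cases hq : q < p
    · refine ⟨q, if_pos hq, fun z => ?_⟩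
      have h3 := hp z
      unfold Rep.Cr
      rw [elo, ehi]
      split_ifs <;> omega
    · refine ⟨q + 1, if_neg hq, fun z => ?_⟩
      have h3 := hp z
      unfold Rep.Cr
      rw [elo, ehi]
      split_ifs <;> omega
  refine ⟨⟨delg_mono hm p, ?_, ?_, ?_⟩, tlo, thi, ?_⟩
  · intro q hq
    obtain ⟨s, hs1, hs2⟩ := key q
    have hex : ∃ w ∈ K, R.Cr w s := by
      obtain ⟨w, hw, hc⟩ := hq
      exact ⟨w, hw, (hs2 w).1 hc⟩
    rw [hs1]
    exact (h.ht s hex).trans (Rep.N_le fun z _ hz => (hs2 z).2 hz)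
  · intro q hq
    by_cases hq1 : q + 1 < p
    · rw [delg_lt (by omega), delg_lt hq1] at hq
      refine le_trans (Finset.card_le_card fun w hw => ?_) (h.uh q hq)
      rw [Finset.mem_filter] at hw ⊢
      refine ⟨hw.1, ?_⟩
      have h3 := hw.2
      rw [ehi] at h3
      split_ifs at h3 <;> omega
    · by_cases hq2 : q + 1 = p
      · rw [delg_lt (by omega), delg_ge (by omega), hq2, ← h2] at hq
        rw [← hq2] at hq
        refine le_trans (Finset.card_le_card fun w hw => ?_) (h.uh q hq)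
        rw [Finset.mem_filter] at hw ⊢
        refine ⟨hw.1, ?_⟩
        have h3 := hw.2
        have := hp w
        rw [ehi] at h3
        split_ifs at h3 <;> omega
      · rw [delg_ge (by omega), delg_ge (by omega)] at hq
        refine le_trans (Finset.card_le_card fun w hw => ?_) (h.uh (q + 1) hq)
        rw [Finset.mem_filter] at hw ⊢
        refine ⟨hw.1, ?_⟩
        have h3 := hw.2
        rw [ehi] at h3
        have := hp w
        split_ifs at h3 <;> omega
  · intro q hq
    by_cases hq1 : q < p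
    · rw [delg_lt hq1, delg_lt (by omega)] at hq
      refine le_trans (Finset.card_le_card fun w hw => ?_) (h.ul q hq)
      rw [Finset.mem_filter] at hw ⊢
      refine ⟨hw.1, ?_⟩
      have h3 := hw.2
      rw [elo] at h3
      split_ifs at h3 <;> omega
    · by_cases hq2 : q = p
      · exfalso
        subst hq2
        rw [delg_ge le_rfl, delg_lt (by omega), ← h2] at hq
        exact hB hq
      · rw [delg_ge (by omega), delg_ge (by omega)] at hq
        have hq' : B (g (q + 1 - 1)) (g (q + 1)) := by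
          have e1 : q - 1 + 1 = q + 1 - 1 := by ring
          rw [← e1]
          exact hq
        refine le_trans (Finset.card_le_card fun w hw => ?_) (h.ul (q + 1) hq')
        rw [Finset.mem_filter] at hw ⊢
        refine ⟨hw.1, ?_⟩
        have h3 := hw.2
        rw [elo] at h3
        split_ifs at h3 <;> omega
  · intro s
    constructor
    · rintro ⟨q, hq⟩
      by_cases hq1 : q < p
      · exact ⟨q, by rw [← hq, delg_lt hq1]⟩
      · exact ⟨q + 1, by rw [← hq, delg_ge (by omega)]⟩
    · rintro ⟨q, hq⟩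
      by_cases hq1 : q < p
      · exact ⟨q, by rw [delg_lt hq1, hq]⟩
      · by_cases hq2 : q = p
        · refine ⟨p, ?_⟩
          rw [delg_ge le_rfl, ← h2, ← hq, hq2]
        · refine ⟨q - 1, ?_⟩
          rw [delg_ge (by omega), ← hq]
          congr 1
          ring

/-- deletion of the gap `p`, if no element of `K` ends there -/
theorem St.del {r : V → V → Prop} (h : St r K R g H A B) {p : ℤ} (hp : ∀ z ∈ K, R.hi z ≠ p)
    (h2 : g p = g (p + 1)) (hB : ¬ B (g (p - 1)) (g p)) :
    ∃ (R' : Rep V), St r K R' (delg g p) H A B ∧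
      (∀ z ∈ K, R'.lo z = if p < R.lo z then R.lo z - 1 else R.lo z) ∧
      (∀ z ∈ K, R'.hi z = if p < R.hi z then R.hi z - 1 else R.hi z) ∧
      (∀ z ∈ K, delg g p (R'.lo z) = g (R.lo z)) ∧
      (∀ z ∈ K, delg g p (R'.hi z) = g (R.hi z)) ∧ (∀ s, Ne (delg g p) s ↔ Ne g s) := by
  classical
  have e1 : ∀ z ∈ K, (R.res K (p + 1)).lo z = R.lo z := fun z hz => if_pos hz
  have e2 : ∀ z ∈ K, (R.res K (p + 1)).hi z = R.hi z := fun z hz => if_pos hz
  have hp' : ∀ z, (R.res K (p + 1)).hi z ≠ p := by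
    intro z
    by_cases hz : z ∈ K
    · rw [e2 z hz]; exact hp z hz
    · have : (R.res K (p + 1)).hi z = p + 1 := if_neg hz
      rw [this]
      omega
  have h3 : Hg K (R.res K (p + 1)) g H A B := h.hg.congr e1 e2
  obtain ⟨h4, h5, h6, h7⟩ := h3.del hp' h2 hB
  refine ⟨_, ⟨?_, h4⟩, ?_, ?_, ?_, ?_, h7⟩
  · refine h.loc.congr fun a ha b hb => ?_
    rw [Rep.rel_del]
    unfold Rep.rel
    rw [e2 a ha, e1 b hb]
  · intro z hz
    have : ((R.res K (p + 1)).del p hp').lo z =
      if p < (R.res K (p + 1)).lo z then (R.res K (p + 1)).lo z - 1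
      else (R.res K (p + 1)).lo z := rfl
    rw [this, e1 z hz]
  · intro z hz
    have : ((R.res K (p + 1)).del p hp').hi z =
      if p < (R.res K (p + 1)).hi z then (R.res K (p + 1)).hi z - 1
      else (R.res K (p + 1)).hi z := rfl
    rw [this, e2 z hz]
  · intro z hz
    rw [h5, e1 z hz]
  · intro z hz
    rw [h6, e2 z hz]

/-! ### new labels -/

/-- new labels -/
theorem Hg.relab (h : Hg K R g H A B) {φ : ℤ → ℤ} (hφ : Monotone φ) {H' : ℤ → ℕ}
    {A' B' : ℤ → ℤ → Prop} (hH : ∀ s, Ne g s → H' (φ s) ≤ H s)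
    (hA : ∀ a b, a ≤ b → A' (φ a) (φ b) → A a b) (hB : ∀ a b, a ≤ b → B' (φ a) (φ b) → B a b) :
    Hg K R (fun p => φ (g p)) H' A' B' where
  mono := hφ.comp h.mono
  ht p hp := (hH (g p) ⟨p, rfl⟩).trans (h.ht p hp)
  uh p hp := h.uh p (hA _ _ (h.mono (by omega)) hp)
  ul p hp := h.ul p (hB _ _ (h.mono (by omega)) hp)

/-! ### closings -/

variable [Fintype V] [DecidableEq V]

/-- `x` becomes the minimum and leaves -/
theorem St.closeMin {r : V → V → Prop} (h : St r K R g H A B) {x : V} (hx : x ∈ K)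
    (hD : ∀ z ∈ K, ¬ R.rel z x) :
    ∃ r' : V → V → Prop, St r' (K.erase x) R g
      (fun s => H s - if g (R.lo x) ≤ s ∧ s ≤ g (R.hi x) then 1 else 0) A B ∧
      (∀ a b, r a b → r' a b) ∧ (∀ w ∈ K, w ≠ x → r' x w) ∧
      newP r r' + R.U K x + 1 = K.card := by
  classical
  obtain ⟨r', h1, h2, h3, h4⟩ := op_closeMin h.loc x hx hD
  refine ⟨r', ⟨h1, ⟨h.hg.mono, ?_, ?_, ?_⟩⟩, h2, h3, h4⟩
  · rintro p ⟨z, hz, hc⟩
    have e1 := h.hg.ht p ⟨z, (Finset.mem_erase.1 hz).2, hc⟩
    have e2 : R.N K p ≤ R.N (K.erase x) p + if g (R.lo x) ≤ g p ∧ g p ≤ g (R.hi x) then 1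
        else 0 := by
      unfold Rep.N
      by_cases hcx : R.Cr x p
      · have hin : g (R.lo x) ≤ g p ∧ g p ≤ g (R.hi x) :=
          ⟨h.hg.mono hcx.1, h.hg.mono hcx.2⟩
        rw [if_pos hin]
        refine le_trans (Finset.card_le_card (t := insert x
          ((K.erase x).filter fun z => R.Cr z p)) ?_) (Finset.card_insert_le _ _)
        intro w hw
        rw [Finset.mem_insert, Finset.mem_filter, Finset.mem_erase]
        rw [Finset.mem_filter] at hw
        by_cases hwx : w = x
        · exact Or.inl hwx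
        · exact Or.inr ⟨⟨hwx, hw.1⟩, hw.2⟩
      · refine le_trans (Finset.card_le_card fun w hw => ?_) (Nat.le_add_right _ _)
        rw [Finset.mem_filter] at hw ⊢
        refine ⟨Finset.mem_erase.2 ⟨?_, hw.1⟩, hw.2⟩
        rintro rfl
        exact hcx hw.2
    omega
  · intro p hp
    refine le_trans (Finset.card_le_card fun w hw => ?_) (h.hg.uh p hp)
    rw [Finset.mem_filter, Finset.mem_erase] at hw
    rw [Finset.mem_filter]
    exact ⟨hw.1.2, hw.2⟩
  · intro p hp
    refine le_trans (Finset.card_le_card fun w hw => ?_) (h.hg.ul p hp)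
    rw [Finset.mem_filter, Finset.mem_erase] at hw
    rw [Finset.mem_filter]
    exact ⟨hw.1.2, hw.2⟩

end

end Pool.Agent.OCN
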