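import Pool.Agent.Lib_helper16.OCN.HgOps

/-!
# MP_aeb124_co: the region calculus, levels and closings

`St.nf`: in a region in which some element ends, we may assume (same order, same types) that at
the first gap of the region exactly one element `w` ends, and that this gap is not the last one.
`St.level`: the elements of `S`, which start at this gap, are raised above `w`, and the gap gets
a new label.
`St.closeFirst`: `w` becomes the minimum and leaves.
-/

set_option autoImplicit false

namespace Pool.Agent.OCN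

variable {V : Type}

open scoped Classical in
/-- the gap `q` becomes two gaps, the elements of `F` which end at `q` do not cross the second -/
noncomputable def Rep.dup (R : Rep V) (q : ℤ) (F : V → Prop) : Rep V where
  lo z := if R.lo z ≤ q then R.lo z else R.lo z + 1
  hi z := if R.hi z < q then R.hi z else if R.hi z = q ∧ F z then q else R.hi z + 1
  le z := by
    have := R.le z
    split_ifs <;> omega

theorem Rep.rel_dup (R : Rep V) (q : ℤ) (F : V → Prop) (a b : V) :
    (R.dup q F).rel a b ↔ R.rel a b := by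
  unfold Rep.rel Rep.dup
  simp only
  split_ifs <;> omega

section
variable {K : Finset V} {R : Rep V} {g : ℤ → ℤ} {H : ℤ → ℕ} {A B : ℤ → ℤ → Prop}
variable {q : ℤ} {F : V → Prop}

theorem dup_tlo (z : V) : cg g q ((R.dup q F).lo z) = g (R.lo z) := by
  unfold Rep.dup
  simp only
  by_cases h2 : R.lo z ≤ q
  · rw [if_pos h2, cg_le h2]
  · rw [if_neg h2, cg_gt (by omega)]
    congr 1
    ring

theorem dup_thi (z : V) : cg g q ((R.dup q F).hi z) = g (R.hi z) := by
  unfold Rep.dup
  simp only
  by_cases h2 : R.hi z < q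
  · rw [if_pos h2, cg_le (by omega)]
  · rw [if_neg h2]
    by_cases h3 : R.hi z = q ∧ F z
    · rw [if_pos h3, cg_le le_rfl, h3.1]
    · rw [if_neg h3, cg_gt (by omega)]
      congr 1
      ring

open scoped Classical in
theorem Hg.dup (h : Hg K R g H A B)
    (hN : H (g q) ≤ (K.filter fun z => R.Cr z q ∧ ¬ (R.hi z = q ∧ F z)).card)
    (hF : (K.filter fun z => R.hi z = q ∧ F z).card ≤ 1) :
    Hg K (R.dup q F) (cg g q) H A B := by
  have elo : ∀ z, (R.dup q F).lo z = if R.lo z ≤ q then R.lo z else R.lo z + 1 := fun z => rfl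
  have ehi : ∀ z, (R.dup q F).hi z =
    if R.hi z < q then R.hi z else if R.hi z = q ∧ F z then q else R.hi z + 1 := fun z => rfl
  set R' := R.dup q F with hR'
  refine ⟨cg_mono h.mono q, ?_, ?_, ?_⟩
  · intro p hp
    rcases lt_trichotomy p (q + 1) with hpq | hpq | hpq
    · rw [cg_le (by omega)]
      have hcr : ∀ z, R'.Cr z p ↔ R.Cr z p := by
        intro z
        unfold Rep.Cr
        rw [elo, ehi]
        split_ifs <;> omega
      obtain ⟨z, hz, hc⟩ := hp
      exact (h.ht p ⟨z, hz, (hcr z).1 hc⟩).trans (Rep.N_le fun w _ hw => (hcr w).2 hw)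
    · subst hpq
      rw [cg_gt (by omega)]
      have e1 : q + 1 - 1 = q := by ring
      rw [e1]
      refine hN.trans ?_
      unfold Rep.N
      refine Finset.card_le_card fun z hz => ?_
      rw [Finset.mem_filter] at hz ⊢
      refine ⟨hz.1, ?_⟩
      obtain ⟨⟨h3, h4⟩, h5⟩ := hz.2
      unfold Rep.Cr
      rw [elo, ehi, if_pos h3, if_neg (by omega), if_neg h5]
      omega
    · rw [cg_gt (by omega)]
      have hcr : ∀ z, R'.Cr z p ↔ R.Cr z (p - 1) := by
        intro z
        unfold Rep.Cr
        rw [elo, ehi]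
        split_ifs <;> omega
      obtain ⟨z, hz, hc⟩ := hp
      exact (h.ht (p - 1) ⟨z, hz, (hcr z).1 hc⟩).trans (Rep.N_le fun w _ hw => (hcr w).2 hw)
  · intro p hp
    rcases lt_trichotomy p q with hpq | hpq | hpq
    · rw [cg_le (by omega), cg_le (by omega)] at hp
      refine le_trans (Finset.card_le_card fun z hz => ?_) (h.uh p hp)
      rw [Finset.mem_filter] at hz ⊢
      refine ⟨hz.1, ?_⟩
      have h3 := hz.2
      rw [ehi] at h3
      split_ifs at h3 <;> omega
    · subst hpq
      refine le_trans (Finset.card_le_card fun z hz => ?_) hF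
      rw [Finset.mem_filter] at hz ⊢
      refine ⟨hz.1, ?_⟩
      have h3 := hz.2
      rw [ehi] at h3
      split_ifs at h3 with h4 h5
      · omega
      · exact h5
      · omega
    · rw [cg_gt (by omega), cg_gt (by omega)] at hp
      have e1 : p + 1 - 1 = p - 1 + 1 := by ring
      rw [e1] at hp
      refine le_trans (Finset.card_le_card fun z hz => ?_) (h.uh (p - 1) hp)
      rw [Finset.mem_filter] at hz ⊢
      refine ⟨hz.1, ?_⟩
      have h3 := hz.2
      rw [ehi] at h3
      split_ifs at h3 <;> omega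
  · intro p hp
    rcases lt_trichotomy p (q + 1) with hpq | hpq | hpq
    · rw [cg_le (by omega), cg_le (by omega)] at hp
      refine le_trans (Finset.card_le_card fun z hz => ?_) (h.ul p hp)
      rw [Finset.mem_filter] at hz ⊢
      refine ⟨hz.1, ?_⟩
      have h3 := hz.2
      rw [elo] at h3
      split_ifs at h3 <;> omega
    · have : (K.filter fun z => R'.lo z = p) = ∅ := by
        rw [Finset.filter_eq_empty_iff]
        intro z _ h3
        rw [elo] at h3
        split_ifs at h3 <;> omega
      rw [this]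
      simp
    · rw [cg_gt (by omega), cg_gt (by omega)] at hp
      refine le_trans (Finset.card_le_card fun z hz => ?_) (h.ul (p - 1) hp)
      rw [Finset.mem_filter] at hz ⊢
      refine ⟨hz.1, ?_⟩
      have h3 := hz.2
      rw [elo] at h3
      split_ifs at h3 <;> omega

/-- same order, same types -/
structure Same (K : Finset V) (R : Rep V) (g : ℤ → ℤ) (R' : Rep V) (g' : ℤ → ℤ) : Prop where
  /-- the first regions -/
  lo : ∀ z ∈ K, g' (R'.lo z) = g (R.lo z)
  /-- the last regions -/
  hi : ∀ z ∈ K, g' (R'.hi z) = g (R.hi z)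
  /-- the non-empty regions -/
  ne : ∀ s, Ne g' s ↔ Ne g s

theorem Same.rfl' (K : Finset V) (R : Rep V) (g : ℤ → ℤ) : Same K R g R g :=
  ⟨fun _ _ => rfl, fun _ _ => rfl, fun _ => Iff.rfl⟩

theorem Same.trans {R' R'' : Rep V} {g' g'' : ℤ → ℤ} (h : Same K R g R' g')
    (h' : Same K R' g' R'' g'') : Same K R g R'' g'' :=
  ⟨fun z hz => (h'.lo z hz).trans (h.lo z hz), fun z hz => (h'.hi z hz).trans (h.hi z hz),
    fun s => (h'.ne s).trans (h.ne s)⟩

variable {r : V → V → Prop}

/-- there is an element which ends at the first gap -/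
theorem St.nf1 {ρ : ℤ} (hB : ∀ a, a < ρ → ¬ B a ρ) (n : ℕ) :
    ∀ (R : Rep V) (g : ℤ → ℤ), St r K R g H A B → ∀ q, g (q - 1) < ρ → g q = ρ →
      ∀ w ∈ K, R.hi w = q + n → g (R.hi w) = ρ →
      ∃ (R' : Rep V) (g' : ℤ → ℤ) (w' : V), St r K R' g' H A B ∧ Same K R g R' g' ∧
        g' (q - 1) = g (q - 1) ∧ g' q = ρ ∧ w' ∈ K ∧ R'.hi w' = q ∧
        (∀ z ∈ K, R'.hi z < q ↔ R.hi z < q) ∧ (∀ z ∈ K, R'.hi z < q → R'.hi z = R.hi z) ∧
        (∀ z ∈ K, R.lo z ≤ q → R'.lo z = R.lo z) := by
  induction n with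
  | zero =>
    intro R g h q hq1 hq2 w hw hw1 _
    exact ⟨R, g, w, h, Same.rfl' K R g, rfl, hq2, hw, by rw [hw1]; simp, fun _ _ => Iff.rfl,
      fun _ _ _ => rfl, fun _ _ _ => rfl⟩
  | succ n ih =>
    intro R g h q hq1 hq2 w hw hw1 hw2
    by_cases hex : ∃ z ∈ K, R.hi z = q
    · obtain ⟨z, hz, hz1⟩ := hex
      exact ⟨R, g, z, h, Same.rfl' K R g, rfl, hq2, hz, hz1, fun _ _ => Iff.rfl,
        fun _ _ _ => rfl, fun _ _ _ => rfl⟩
    · push Not at hex
      have h1 : g (q + 1) = ρ := by
        have e1 := h.hg.mono (show q ≤ q + 1 by omega)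
        have e2 := h.hg.mono (show q + 1 ≤ R.hi w by rw [hw1]; push_cast; omega)
        omega
      obtain ⟨R1, h2, h3, h4, h5, h6, h7⟩ := h.del hex (by rw [hq2, h1])
        (by rw [hq2]; exact hB _ hq1)
      obtain ⟨R', g', w', h8, h9, h10, h11, h12, h13, h14, h15, h16⟩ := ih R1 (delg g q) h2 q
        (by rw [delg_lt (by omega)]; exact hq1) (by rw [delg_ge le_rfl, h1]) w hw
        (by rw [h4 w hw, if_pos (by rw [hw1]; push_cast; omega), hw1]; push_cast; ring)
        (by rw [h6 w hw, hw2])
      refine ⟨R', g', w', h8, (Same.mk h5 h6 h7).trans h9, ?_, h11, h12, h13, ?_, ?_, ?_⟩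
      · rw [h10, delg_lt (by omega)]
      · intro z hz
        rw [h14 z hz, h4 z hz]
        have := hex z hz
        split_ifs <;> omega
      · intro z hz hz1
        rw [h15 z hz hz1, h4 z hz]
        rw [h14 z hz, h4 z hz] at hz1
        have := hex z hz
        split_ifs at hz1 ⊢ <;> omega
      · intro z hz hz1
        rw [h16 z hz (by rw [h3 z hz, if_neg (by omega)]; exact hz1), h3 z hz,
          if_neg (by omega)]

open scoped Classical in
/-- the normal form of a region: exactly one element ends at the first gap, and this is not the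
last gap -/
theorem St.nf (h : St r K R g H A B) {ρ : ℤ} (hB : ∀ a, a < ρ → ¬ B a ρ) (hA : A ρ ρ)
    {q : ℤ} (hq1 : g (q - 1) < ρ) (hq2 : g q = ρ) (hend : ∃ z ∈ K, g (R.hi z) = ρ)
    (hH : H ρ < tch K R g ρ) :
    ∃ (R' : Rep V) (g' : ℤ → ℤ) (w : V), St r K R' g' H A B ∧ Same K R g R' g' ∧
      g' (q - 1) = g (q - 1) ∧ g' q = ρ ∧ g' (q + 1) = ρ ∧ w ∈ K ∧ R'.hi w = q ∧
      (∀ z ∈ K, R'.hi z = q → z = w) ∧
      (∀ z ∈ K, R'.hi z < q ↔ R.hi z < q) ∧ (∀ z ∈ K, R'.hi z < q → R'.hi z = R.hi z) ∧
      (∀ z ∈ K, R.lo z ≤ q → R'.lo z = R.lo z) := by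
  obtain ⟨w0, hw0, hw1⟩ := hend
  have hw2 : q ≤ R.hi w0 := by
    by_contra hlt
    have := h.hg.mono (show R.hi w0 ≤ q - 1 by omega)
    omega
  obtain ⟨R1, g1, w, h1, h2, h3, h4, h5, h6, h7, h8, h9⟩ := St.nf1 hB (R.hi w0 - q).toNat R g h
    q hq1 hq2 w0 hw0 (by omega) hw1
  have hm := h1.hg.mono
  rcases eq_or_lt_of_le (hm (show q ≤ q + 1 by omega)) with h10 | h10
  · -- not the last gap
    refine ⟨R1, g1, w, h1, h2, h3, h4, by rw [← h10, h4], h5, h6, fun z hz hz1 => ?_, h7, h8,
      h9⟩
    have h11 := h1.hg.uh q (by rw [← h10, h4]; exact hA)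
    by_contra hne
    have h12 : ({z, w} : Finset V) ⊆ K.filter fun z => R1.hi z = q := by
      intro v hv
      rw [Finset.mem_insert, Finset.mem_singleton] at hv
      rcases hv with rfl | rfl
      · exact Finset.mem_filter.2 ⟨hz, hz1⟩
      · exact Finset.mem_filter.2 ⟨h5, h6⟩
    have h13 := Finset.card_le_card h12
    rw [Finset.card_pair hne] at h13
    omega
  · -- the region has one gap
    rw [h4] at h10
    have htch : tch K R g ρ = tch K R1 g1 ρ := by
      unfold tch
      congr 1
      refine Finset.filter_congr fun z hz => ?_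
      rw [h2.lo z hz, h2.hi z hz]
    have hcross : ∀ z ∈ K, g1 (R1.lo z) ≤ ρ → ρ ≤ g1 (R1.hi z) → R1.Cr z q := by
      intro z _ hz1 hz2
      constructor
      · by_contra hlt
        have := hm (show q + 1 ≤ R1.lo z by omega)
        omega
      · by_contra hlt
        have := hm (show R1.hi z ≤ q - 1 by omega)
        rw [h3] at this
        omega
    have hN : tch K R1 g1 ρ ≤
        (K.filter fun z => R1.Cr z q ∧ ¬ (R1.hi z = q ∧ z = w)).card + 1 := by
      unfold tch
      refine le_trans (Finset.card_le_card (t := insert w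
        (K.filter fun z => R1.Cr z q ∧ ¬ (R1.hi z = q ∧ z = w))) ?_)
        (Finset.card_insert_le _ _)
      intro z hz
      rw [Finset.mem_filter] at hz
      rw [Finset.mem_insert, Finset.mem_filter]
      by_cases hzw : z = w
      · exact Or.inl hzw
      · exact Or.inr ⟨hz.1, hcross z hz.1 hz.2.1 hz.2.2, fun h => hzw h.2⟩
    have hF : (K.filter fun z => R1.hi z = q ∧ z = w).card ≤ 1 := by
      refine le_trans (Finset.card_le_card (t := {w}) fun z hz => ?_)
        (by rw [Finset.card_singleton])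
      rw [Finset.mem_filter] at hz
      rw [Finset.mem_singleton]
      exact hz.2.2
    have h11 := h1.hg.dup (q := q) (F := fun z => z = w) (by rw [h4]; omega) hF
    have elo : ∀ z, (R1.dup q fun z => z = w).lo z =
      if R1.lo z ≤ q then R1.lo z else R1.lo z + 1 := fun z => rfl
    have ehi : ∀ z, (R1.dup q fun z => z = w).hi z =
      if R1.hi z < q then R1.hi z else if R1.hi z = q ∧ z = w then q else R1.hi z + 1 :=
      fun z => rfl
    refine ⟨R1.dup q fun z => z = w, cg g1 q, w, ⟨h1.loc.congr fun a _ b _ =>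
      R1.rel_dup q _ a b, h11⟩, h2.trans ⟨fun z _ => dup_tlo z, fun z _ => dup_thi z,
        fun s => ne_cg q⟩, ?_, ?_, ?_, h5, ?_, ?_, ?_, ?_, ?_⟩
    · rw [cg_le (by omega), h3]
    · rw [cg_le (by omega), h4]
    · rw [cg_gt (by omega)]
      have e1 : q + 1 - 1 = q := by ring
      rw [e1, h4]
    · rw [ehi, if_neg (by omega), if_pos ⟨h6, rfl⟩]
    · intro z hz hz1
      rw [ehi] at hz1
      split_ifs at hz1 with h12 h13
      · omega
      · exact h13.2
      · omega
    · intro z hz
      rw [← h7 z hz, ehi]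
      split_ifs <;> omega
    · intro z hz hz1
      rw [ehi] at hz1 ⊢
      split_ifs at hz1 ⊢ with h12 h13
      · exact h8 z hz h12
      · omega
      · omega
    · intro z hz hz1
      rw [elo, h9 z hz hz1, if_pos hz1]

end

end Pool.Agent.OCN
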