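import Pool.Agent.Lib_helper16.OCN.FrameR

/-!
# MP_aeb124_co: interval orders, local positions and the elementary replies

A position `r` (a strict order) has the local data `(K, R)` if every element outside of `K` is
comparable with all others and `r` is on `K` the interval order `R` (`Loc r K R`). The element `z`
crosses the gaps `lo z, ..., hi z`, and `x < y` if `hi x < lo y`.

The elementary replies: `op_cut` (an attack `x → y` at a common gap `p`; it costs exactly
`#K + 1 - N p - U x - D y` pairs), `op_raise`, `op_lower`, `op_closeMin`, `op_closeMax`.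
-/

set_option autoImplicit false

namespace Pool.Agent.OCN

/-- an interval representation -/
structure Rep (V : Type) where
  /-- the first gap -/
  lo : V → ℤ
  /-- the last gap -/
  hi : V → ℤ
  /-- they are in the right order -/
  le : ∀ z, lo z ≤ hi z

section

variable {V : Type}

theorem newP_trans [Fintype V] {r r' r'' : V → V → Prop} :
    newP r r'' ≤ newP r r' + newP r' r'' := by
  classical
  unfold newP
  refine le_trans (Finset.card_le_card ?_) (Finset.card_union_le _ _)
  intro p hp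
  rw [Finset.mem_union, Finset.mem_filter, Finset.mem_filter]
  have h := (Finset.mem_filter.1 hp).2
  by_cases h1 : r' p.1 p.2
  · exact Or.inl ⟨Finset.mem_univ _, h1, h.2⟩
  · exact Or.inr ⟨Finset.mem_univ _, h.1, h1⟩

theorem newP_self [Fintype V] (r : V → V → Prop) : newP r r = 0 := by
  classical
  unfold newP
  rw [Finset.card_eq_zero, Finset.filter_eq_empty_iff]
  rintro p _ ⟨h1, h2⟩
  exact h2 h1

theorem newP_flip [Fintype V] (r r' : V → V → Prop) : newP (flip r) (flip r') = newP r r' := by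
  classical
  unfold newP
  rw [← Finset.card_map (Equiv.prodComm V V).toEmbedding]
  congr 1
  ext ⟨a, b⟩
  simp only [Finset.mem_map, Finset.mem_filter, Finset.mem_univ, true_and,
    Equiv.coe_toEmbedding, Equiv.prodComm_apply, Prod.exists, Prod.swap_prod_mk, Prod.mk.injEq]
  constructor
  · rintro ⟨x, y, h, rfl, rfl⟩
    exact h
  · intro h
    exact ⟨b, a, h, rfl, rfl⟩

theorem SO.flip {r : V → V → Prop} (h : SO r) : SO (flip r) :=
  ⟨h.irr, fun x y z h1 h2 => h.tr z y x h2 h1⟩

theorem SO.asymm {r : V → V → Prop} (h : SO r) {x y : V} (h1 : r x y) : ¬ r y x :=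
  fun h2 => h.irr x (h.tr x y x h1 h2)

namespace Rep

/-- the strict order of the representation -/
def rel (R : Rep V) (x y : V) : Prop := R.hi x < R.lo y

theorem so (R : Rep V) : SO R.rel := by
  refine ⟨fun x h => ?_, fun x y z h1 h2 => ?_⟩
  · have := R.le x
    unfold rel at h
    omega
  · have := R.le y
    unfold rel at *
    omega

/-- the dual representation -/
def dual (R : Rep V) : Rep V where
  lo z := -R.hi z
  hi z := -R.lo z
  le z := by have := R.le z; omega

theorem rel_dual (R : Rep V) : R.dual.rel = flip R.rel := by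
  funext a b
  unfold rel dual flip
  simp only [eq_iff_iff]
  constructor <;> intro h <;> omega

theorem dual_dual (R : Rep V) : R.dual.dual = R := by
  unfold dual
  simp

/-- the element crosses the gap -/
def Cr (R : Rep V) (z : V) (p : ℤ) : Prop := R.lo z ≤ p ∧ p ≤ R.hi z

open scoped Classical in
/-- the number of elements of `K` that cross the gap `p` -/
noncomputable def N (R : Rep V) (K : Finset V) (p : ℤ) : ℕ := (K.filter fun z => R.Cr z p).card

open scoped Classical in
/-- the number of elements of `K` above `x` -/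
noncomputable def U (R : Rep V) (K : Finset V) (x : V) : ℕ := (K.filter fun z => R.rel x z).card

open scoped Classical in
/-- the number of elements of `K` below `y` -/
noncomputable def D (R : Rep V) (K : Finset V) (y : V) : ℕ := (K.filter fun z => R.rel z y).card

open scoped Classical in
/-- the number of new pairs in `K` -/
noncomputable def newK (K : Finset V) (R R' : Rep V) : ℕ :=
  ((K ×ˢ K).filter fun p => R'.rel p.1 p.2 ∧ ¬ R.rel p.1 p.2).card

theorem U_dual (R : Rep V) (K : Finset V) (x : V) : R.dual.U K x = R.D K x := by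
  unfold U D
  rw [rel_dual]
  rfl

theorem D_dual (R : Rep V) (K : Finset V) (x : V) : R.dual.D K x = R.U K x := by
  unfold U D
  rw [rel_dual]
  rfl

theorem cr_dual (R : Rep V) (z : V) (p : ℤ) : R.dual.Cr z (-p) ↔ R.Cr z p := by
  unfold Cr dual
  simp only
  constructor <;> rintro ⟨h1, h2⟩ <;> constructor <;> omega

theorem N_dual (R : Rep V) (K : Finset V) (p : ℤ) : R.dual.N K (-p) = R.N K p := by
  classical
  unfold N
  congr 1
  ext z
  rw [Finset.mem_filter, Finset.mem_filter, cr_dual]

/-- incomparable elements have a common gap -/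
theorem common (R : Rep V) {x y : V} (h1 : ¬ R.rel x y) (h2 : ¬ R.rel y x) :
    ∃ p, R.Cr x p ∧ R.Cr y p := by
  have := R.le x
  have := R.le y
  unfold rel at h1 h2
  exact ⟨max (R.lo x) (R.lo y), ⟨le_max_left _ _, by omega⟩, le_max_right _ _, by omega⟩

open scoped Classical in
/-- the cut at the gap `p`: `x` stays to the left and `y` to the right of the cut; `p` becomes
the two gaps `p` and `p + 1` -/
noncomputable def cut (R : Rep V) (p : ℤ) (x y : V) (hxy : x ≠ y)
    (hx : R.Cr x p) (hy : R.Cr y p) : Rep V where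
  lo z := if z = y then p + 1 else if p < R.lo z then R.lo z + 1 else R.lo z
  hi z := if z = x then p else if p ≤ R.hi z then R.hi z + 1 else R.hi z
  le z := by
    have h0 := R.le z
    by_cases h1 : z = y
    · have h2 : z ≠ x := fun h => hxy (h.symm.trans h1)
      have h3 : p ≤ R.hi z := by rw [h1]; exact hy.2
      rw [if_pos h1, if_neg h2, if_pos h3]
      omega
    · rw [if_neg h1]
      by_cases h2 : z = x
      · have h3 : R.lo z ≤ p := by rw [h2]; exact hx.1
        rw [if_pos h2, if_neg (by omega)]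
        exact h3
      · rw [if_neg h2]
        split_ifs <;> omega

theorem rel_cut (R : Rep V) (p : ℤ) (x y : V) (hxy : x ≠ y)
    (hx : R.Cr x p) (hy : R.Cr y p) (a b : V) :
    (R.cut p x y hxy hx hy).rel a b ↔
      R.rel a b ∨ (a = x ∧ p < R.lo b) ∨ (b = y ∧ R.hi a < p) ∨ (a = x ∧ b = y) := by
  have hla := R.le a
  have hlb := R.le b
  unfold rel cut
  obtain ⟨hx1, hx2⟩ := hx
  obtain ⟨hy1, hy2⟩ := hy
  simp only
  by_cases ha : a = x
  · subst ha
    by_cases hb : b = y
    · subst hb
      simp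
    · rw [if_pos rfl, if_neg hb]
      simp only [true_and, hb, false_and, and_false, or_false]
      by_cases h1 : p < R.lo b
      · rw [if_pos h1]
        constructor <;> intro <;> omega
      · rw [if_neg h1]
        constructor <;> intro <;> omega
  · by_cases hb : b = y
    · subst hb
      rw [if_pos rfl, if_neg ha]
      simp only [ha, false_and, false_or, true_and, or_false]
      by_cases h1 : p ≤ R.hi a
      · rw [if_pos h1]
        constructor <;> intro <;> omega
      · rw [if_neg h1]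
        constructor <;> intro <;> omega
    · rw [if_neg ha, if_neg hb]
      simp only [ha, hb, false_and, or_false]
      by_cases h1 : p ≤ R.hi a <;> by_cases h2 : p < R.lo b <;>
        simp only [h1, h2, if_true, if_false] <;>
        constructor <;> intro <;> omega

/-- the exact cost of a cut -/
theorem newK_cut (R : Rep V) (K : Finset V) (p : ℤ) (x y : V) (hxy : x ≠ y) (hxK : x ∈ K)
    (hyK : y ∈ K) (hx : R.Cr x p) (hy : R.Cr y p) :
    newK K R (R.cut p x y hxy hx hy) + R.U K x + R.D K y + R.N K p = K.card + 1 := by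
  classical
  have hx' := hx
  have hy' := hy
  obtain ⟨hx1, hx2⟩ := hx'
  obtain ⟨hy1, hy2⟩ := hy'
  have e1 : (K.filter fun b => p < R.lo b).card =
      (K.filter fun b => p < R.lo b ∧ ¬ R.rel x b).card + R.U K x := by
    unfold U
    rw [← Finset.card_union_of_disjoint]
    · congr 1
      ext b
      simp only [Finset.mem_union, Finset.mem_filter]
      unfold rel
      constructor
      · rintro ⟨hb, h1⟩
        by_cases h2 : R.hi x < R.lo b
        · exact Or.inr ⟨hb, h2⟩
        · exact Or.inl ⟨hb, h1, h2⟩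
      · rintro (⟨hb, h1, _⟩ | ⟨hb, h1⟩)
        · exact ⟨hb, h1⟩
        · exact ⟨hb, by omega⟩
    · rw [Finset.disjoint_left]
      intro b hb hb'
      exact (Finset.mem_filter.1 hb).2.2 (Finset.mem_filter.1 hb').2
  have e2 : (K.filter fun a => R.hi a < p).card =
      (K.filter fun a => R.hi a < p ∧ ¬ R.rel a y).card + R.D K y := by
    unfold D
    rw [← Finset.card_union_of_disjoint]
    · congr 1
      ext b
      simp only [Finset.mem_union, Finset.mem_filter]
      unfold rel
      constructor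
      · rintro ⟨hb, h1⟩
        by_cases h2 : R.hi b < R.lo y
        · exact Or.inr ⟨hb, h2⟩
        · exact Or.inl ⟨hb, h1, h2⟩
      · rintro (⟨hb, h1, _⟩ | ⟨hb, h1⟩)
        · exact ⟨hb, h1⟩
        · exact ⟨hb, by omega⟩
    · rw [Finset.disjoint_left]
      intro b hb hb'
      exact (Finset.mem_filter.1 hb).2.2 (Finset.mem_filter.1 hb').2
  have e3 : (K.filter fun b => p < R.lo b).card +
      (K.filter fun a => R.hi a < p).card + R.N K p = K.card := by
    unfold N
    rw [← Finset.card_union_of_disjoint, ← Finset.card_union_of_disjoint]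
    · congr 1
      ext b
      have := R.le b
      simp only [Finset.mem_union, Finset.mem_filter]
      unfold Cr
      constructor
      · rintro ((h | h) | h) <;> exact h.1
      · intro hb
        by_cases h1 : p < R.lo b
        · exact Or.inl (Or.inl ⟨hb, h1⟩)
        · by_cases h2 : R.hi b < p
          · exact Or.inl (Or.inr ⟨hb, h2⟩)
          · exact Or.inr ⟨hb, by omega, by omega⟩
    · rw [Finset.disjoint_left]
      intro b hb hb'
      have h1 := (Finset.mem_filter.1 hb').2
      unfold Cr at h1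
      rcases Finset.mem_union.1 hb with h | h
      · have := (Finset.mem_filter.1 h).2
        omega
      · have := (Finset.mem_filter.1 h).2
        omega
    · rw [Finset.disjoint_left]
      intro b hb hb'
      have := R.le b
      have h1 := (Finset.mem_filter.1 hb).2
      have h2 := (Finset.mem_filter.1 hb').2
      omega
  have e4 : newK K R (R.cut p x y hxy hx hy) =
      (K.filter fun b => p < R.lo b ∧ ¬ R.rel x b).card +
        (K.filter fun a => R.hi a < p ∧ ¬ R.rel a y).card + 1 := by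
    unfold newK
    have h1 : (K.filter fun b => p < R.lo b ∧ ¬ R.rel x b).card =
        ((K.filter fun b => p < R.lo b ∧ ¬ R.rel x b).image fun b => (x, b)).card :=
      (Finset.card_image_of_injective _ (Prod.mk_right_injective x)).symm
    have h2 : (K.filter fun a => R.hi a < p ∧ ¬ R.rel a y).card =
        ((K.filter fun a => R.hi a < p ∧ ¬ R.rel a y).image fun a => (a, y)).card :=
      (Finset.card_image_of_injective _ (Prod.mk_left_injective y)).symm
    have h3 : 1 = ({(x, y)} : Finset (V × V)).card := by simp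
    rw [h1, h2, h3, ← Finset.card_union_of_disjoint, ← Finset.card_union_of_disjoint]
    · congr 1
      ext ⟨a, b⟩
      rw [Finset.mem_filter, rel_cut, Finset.mem_product]
      simp only [Finset.mem_union, Finset.mem_image,
        Finset.mem_filter, Prod.mk.injEq, Finset.mem_singleton]
      constructor
      · rintro ⟨⟨ha, hb⟩, h | ⟨rfl, h⟩ | ⟨rfl, h⟩ | ⟨rfl, rfl⟩, h'⟩
        · exact absurd h h'
        · exact Or.inl (Or.inl ⟨b, ⟨hb, h, h'⟩, rfl, rfl⟩)
        · exact Or.inl (Or.inr ⟨a, ⟨ha, h, h'⟩, rfl, rfl⟩)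
        · exact Or.inr ⟨rfl, rfl⟩
      · rintro ((⟨b', ⟨hb, h, h'⟩, rfl, rfl⟩ | ⟨a', ⟨ha, h, h'⟩, rfl, rfl⟩) | ⟨rfl, rfl⟩)
        · exact ⟨⟨hxK, hb⟩, Or.inr (Or.inl ⟨rfl, h⟩), h'⟩
        · exact ⟨⟨ha, hyK⟩, Or.inr (Or.inr (Or.inl ⟨rfl, h⟩)), h'⟩
        · refine ⟨⟨hxK, hyK⟩, Or.inr (Or.inr (Or.inr ⟨rfl, rfl⟩)), ?_⟩
          unfold rel
          omega
    · rw [Finset.disjoint_left]
      rintro ⟨a, b⟩ hb hb'
      simp only [Finset.mem_union, Finset.mem_image, Finset.mem_filter,
        Prod.mk.injEq, Finset.mem_singleton] at hb hb'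
      obtain ⟨rfl, rfl⟩ := hb'
      rcases hb with ⟨b', ⟨_, h, _⟩, _, rfl⟩ | ⟨a', ⟨_, h, _⟩, rfl, _⟩ <;> omega
    · rw [Finset.disjoint_left]
      rintro ⟨a, b⟩ hb hb'
      simp only [Finset.mem_image, Finset.mem_filter,
        Prod.mk.injEq] at hb hb'
      obtain ⟨b', ⟨_, h, _⟩, rfl, rfl⟩ := hb
      obtain ⟨a', ⟨_, h', _⟩, rfl, rfl⟩ := hb'
      omega
  rw [e4]
  omega

open scoped Classical in
/-- the first gap of `z` becomes `q` -/
noncomputable def raise (R : Rep V) (z : V) (q : ℤ) (h : q ≤ R.hi z) : Rep V where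
  lo w := if w = z then q else R.lo w
  hi := R.hi
  le w := by
    by_cases hw : w = z
    · rw [if_pos hw, hw]
      exact h
    · rw [if_neg hw]
      exact R.le w

open scoped Classical in
/-- the last gap of `z` becomes `q` -/
noncomputable def lower (R : Rep V) (z : V) (q : ℤ) (h : R.lo z ≤ q) : Rep V where
  lo := R.lo
  hi w := if w = z then q else R.hi w
  le w := by
    by_cases hw : w = z
    · rw [if_pos hw, hw]
      exact h
    · rw [if_neg hw]
      exact R.le w

theorem rel_raise (R : Rep V) (z : V) (q : ℤ) (h : q ≤ R.hi z) (h' : R.lo z ≤ q) (a b : V) :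
    (R.raise z q h).rel a b ↔ R.rel a b ∨ (b = z ∧ R.hi a < q) := by
  unfold rel raise
  simp only
  by_cases hb : b = z
  · subst hb
    simp only [if_true, true_and]
    omega
  · simp [hb]

theorem rel_lower (R : Rep V) (z : V) (q : ℤ) (h : R.lo z ≤ q) (h' : q ≤ R.hi z) (a b : V) :
    (R.lower z q h).rel a b ↔ R.rel a b ∨ (a = z ∧ q < R.lo b) := by
  unfold rel lower
  simp only
  by_cases ha : a = z
  · subst ha
    simp only [if_true, true_and]
    omega
  · simp [ha]

open scoped Classical in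
/-- the cost of raising `z` -/
theorem newK_raise (R : Rep V) (K : Finset V) (z : V) (hz : z ∈ K) (q : ℤ) (h : q ≤ R.hi z)
    (h' : R.lo z ≤ q) :
    newK K R (R.raise z q h) = (K.filter fun a => R.lo z ≤ R.hi a ∧ R.hi a < q).card := by
  unfold newK
  rw [← Finset.card_image_of_injective (K.filter fun a => R.lo z ≤ R.hi a ∧ R.hi a < q)
    (Prod.mk_left_injective z)]
  congr 1
  ext ⟨a, b⟩
  rw [Finset.mem_filter, rel_raise R z q h h', Finset.mem_product]
  simp only [Finset.mem_image, Finset.mem_filter, Prod.mk.injEq]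
  constructor
  · rintro ⟨⟨ha, hb⟩, h1 | ⟨rfl, h1⟩, h2⟩
    · exact absurd h1 h2
    · refine ⟨a, ⟨ha, ?_, h1⟩, rfl, rfl⟩
      unfold rel at h2
      omega
  · rintro ⟨a', ⟨ha, h1, h2⟩, rfl, rfl⟩
    refine ⟨⟨ha, hz⟩, Or.inr ⟨rfl, h2⟩, ?_⟩
    unfold rel
    omega

open scoped Classical in
/-- the cost of lowering `z` -/
theorem newK_lower (R : Rep V) (K : Finset V) (z : V) (hz : z ∈ K) (q : ℤ) (h : R.lo z ≤ q)
    (h' : q ≤ R.hi z) :
    newK K R (R.lower z q h) = (K.filter fun b => q < R.lo b ∧ R.lo b ≤ R.hi z).card := by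
  unfold newK
  rw [← Finset.card_image_of_injective (K.filter fun b => q < R.lo b ∧ R.lo b ≤ R.hi z)
    (Prod.mk_right_injective z)]
  congr 1
  ext ⟨a, b⟩
  rw [Finset.mem_filter, rel_lower R z q h h', Finset.mem_product]
  simp only [Finset.mem_image, Finset.mem_filter, Prod.mk.injEq]
  constructor
  · rintro ⟨⟨ha, hb⟩, h1 | ⟨rfl, h1⟩, h2⟩
    · exact absurd h1 h2
    · refine ⟨b, ⟨hb, h1, ?_⟩, rfl, rfl⟩
      unfold rel at h2
      omega
  · rintro ⟨b', ⟨hb, h1, h2⟩, rfl, rfl⟩
    refine ⟨⟨hz, hb⟩, Or.inr ⟨rfl, h1⟩, ?_⟩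
    unfold rel
    omega

end Rep

/-! ### local data of a position -/

/-- the elements outside of `K` are comparable with everything, and `r` is on `K` the interval
order `R` -/
structure Loc (r : V → V → Prop) (K : Finset V) (R : Rep V) : Prop where
  /-- strict order -/
  so : SO r
  /-- outside of `K` everything is decided -/
  iso : ∀ z, z ∉ K → ∀ w, w ≠ z → r z w ∨ r w z
  /-- inside of `K` -/
  eq : ∀ a ∈ K, ∀ b ∈ K, (r a b ↔ R.rel a b)

theorem Loc.flip {r : V → V → Prop} {K : Finset V} {R : Rep V} (h : Loc r K R) :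
    Loc (flip r) K R.dual where
  so := h.so.flip
  iso z hz w hw := (h.iso z hz w hw).symm
  eq a ha b hb := by
    rw [Rep.rel_dual]
    exact h.eq b hb a ha

/-- incomparable elements are in `K` -/
theorem Loc.mem {r : V → V → Prop} {K : Finset V} {R : Rep V} (h : Loc r K R) {x y : V}
    (hxy : x ≠ y) (h1 : ¬ r x y) (h2 : ¬ r y x) : x ∈ K ∧ y ∈ K := by
  constructor
  · by_contra hx
    rcases h.iso x hx y hxy.symm with h3 | h3
    · exact h1 h3
    · exact h2 h3
  · by_contra hy
    rcases h.iso y hy x hxy with h3 | h3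
    · exact h2 h3
    · exact h1 h3

/-- a refinement inside of `K` -/
theorem op_local [Fintype V] {r : V → V → Prop} {K : Finset V} {R : Rep V} (h : Loc r K R)
    (R' : Rep V) (hR : ∀ a ∈ K, ∀ b ∈ K, R.rel a b → R'.rel a b) :
    ∃ r' : V → V → Prop, Loc r' K R' ∧ (∀ a b, r a b → r' a b) ∧
      newP r r' = Rep.newK K R R' := by
  classical
  let r' : V → V → Prop := fun a b => if a ∈ K ∧ b ∈ K then R'.rel a b else r a b
  have hin : ∀ a ∈ K, ∀ b ∈ K, (r' a b ↔ R'.rel a b) := fun a ha b hb => by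
    simp only [r', ha, hb, and_self, if_true]
  have hout : ∀ a b, ¬ (a ∈ K ∧ b ∈ K) → (r' a b ↔ r a b) := fun a b hab => by
    simp only [r', if_neg hab]
  have hle : ∀ a b, r a b → r' a b := by
    intro a b hab
    by_cases h1 : a ∈ K ∧ b ∈ K
    · exact (hin a h1.1 b h1.2).2 (hR a h1.1 b h1.2 ((h.eq a h1.1 b h1.2).1 hab))
    · exact (hout a b h1).2 hab
  -- transitivity through an element outside
  have hkey : ∀ a ∈ K, ∀ b ∈ K, R'.rel a b → ∀ c, c ∉ K → (r b c → r a c) ∧ (r c a → r c b) := by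
    intro a ha b hb hab c hc
    have hac : a ≠ c := fun he => hc (he ▸ ha)
    have hbc : b ≠ c := fun he => hc (he ▸ hb)
    refine ⟨fun h1 => ?_, fun h1 => ?_⟩
    · rcases h.iso c hc a hac with h2 | h2
      · have h3 : r b a := h.so.tr b c a h1 h2
        have h4 := hR b hb a ha ((h.eq b hb a ha).1 h3)
        exact absurd hab (R'.so.asymm h4)
      · exact h2
    · rcases h.iso c hc b hbc with h2 | h2
      · exact h2
      · have h3 : r b a := h.so.tr b c a h2 h1
        have h4 := hR b hb a ha ((h.eq b hb a ha).1 h3)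
        exact absurd hab (R'.so.asymm h4)
  refine ⟨r', ⟨⟨?_, ?_⟩, ?_, hin⟩, hle, ?_⟩
  · intro x hx
    by_cases hxK : x ∈ K
    · exact R'.so.irr x ((hin x hxK x hxK).1 hx)
    · exact h.so.irr x ((hout x x fun h1 => hxK h1.1).1 hx)
  · intro a b c hab hbc
    by_cases ha : a ∈ K
    · by_cases hb : b ∈ K
      · by_cases hc : c ∈ K
        · exact (hin a ha c hc).2 (R'.so.tr a b c ((hin a ha b hb).1 hab) ((hin b hb c hc).1 hbc))
        · rw [hout a c fun h1 => hc h1.2]
          rw [hout b c fun h1 => hc h1.2] at hbc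
          exact (hkey a ha b hb ((hin a ha b hb).1 hab) c hc).1 hbc
      · rw [hout a b fun h1 => hb h1.2] at hab
        rw [hout b c fun h1 => hb h1.1] at hbc
        exact hle a c (h.so.tr a b c hab hbc)
    · rw [hout a b fun h1 => ha h1.1] at hab
      by_cases hbc' : b ∈ K ∧ c ∈ K
      · rw [hout a c fun h1 => ha h1.1]
        exact (hkey b hbc'.1 c hbc'.2 ((hin b hbc'.1 c hbc'.2).1 hbc) a ha).2 hab
      · rw [hout b c hbc'] at hbc
        exact hle a c (h.so.tr a b c hab hbc)
  · intro z hz w hw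
    rcases h.iso z hz w hw with h1 | h1
    · exact Or.inl (hle _ _ h1)
    · exact Or.inr (hle _ _ h1)
  · unfold newP Rep.newK
    congr 1
    ext ⟨a, b⟩
    simp only [Finset.mem_filter, Finset.mem_univ, true_and, Finset.mem_product]
    constructor
    · rintro ⟨h1, h2⟩
      by_cases hab : a ∈ K ∧ b ∈ K
      · exact ⟨hab, (hin a hab.1 b hab.2).1 h1, fun h3 => h2 ((h.eq a hab.1 b hab.2).2 h3)⟩
      · exact absurd ((hout a b hab).1 h1) h2
    · rintro ⟨⟨ha, hb⟩, h1, h2⟩
      exact ⟨(hin a ha b hb).2 h1, fun h3 => h2 ((h.eq a ha b hb).1 h3)⟩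

/-- the reply `cut` -/
theorem op_cut [Fintype V] {r : V → V → Prop} {K : Finset V} {R : Rep V} (h : Loc r K R)
    (p : ℤ) (x y : V) (hxy : x ≠ y) (hxK : x ∈ K) (hyK : y ∈ K) (hx : R.Cr x p)
    (hy : R.Cr y p) :
    ∃ r' : V → V → Prop, Loc r' K (R.cut p x y hxy hx hy) ∧ (∀ a b, r a b → r' a b) ∧
      r' x y ∧ newP r r' + R.U K x + R.D K y + R.N K p = K.card + 1 := by
  obtain ⟨r', h1, h2, h3⟩ := op_local h (R.cut p x y hxy hx hy)
    (fun a _ b _ hab => (R.rel_cut p x y hxy hx hy a b).2 (Or.inl hab))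
  refine ⟨r', h1, h2, ?_, ?_⟩
  · rw [h1.eq x hxK y hyK, R.rel_cut]
    exact Or.inr (Or.inr (Or.inr ⟨rfl, rfl⟩))
  · rw [h3]
    exact R.newK_cut K p x y hxy hxK hyK hx hy

open scoped Classical in
/-- the reply `raise` -/
theorem op_raise [Fintype V] {r : V → V → Prop} {K : Finset V} {R : Rep V} (h : Loc r K R)
    (z : V) (hz : z ∈ K) (q : ℤ) (h1 : q ≤ R.hi z) (h2 : R.lo z ≤ q) :
    ∃ r' : V → V → Prop, Loc r' K (R.raise z q h1) ∧ (∀ a b, r a b → r' a b) ∧
      newP r r' = (K.filter fun a => R.lo z ≤ R.hi a ∧ R.hi a < q).card := by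
  obtain ⟨r', h3, h4, h5⟩ := op_local h (R.raise z q h1)
    (fun a _ b _ hab => (R.rel_raise z q h1 h2 a b).2 (Or.inl hab))
  exact ⟨r', h3, h4, h5.trans (R.newK_raise K z hz q h1 h2)⟩

open scoped Classical in
/-- the reply `lower` -/
theorem op_lower [Fintype V] {r : V → V → Prop} {K : Finset V} {R : Rep V} (h : Loc r K R)
    (z : V) (hz : z ∈ K) (q : ℤ) (h1 : R.lo z ≤ q) (h2 : q ≤ R.hi z) :
    ∃ r' : V → V → Prop, Loc r' K (R.lower z q h1) ∧ (∀ a b, r a b → r' a b) ∧
      newP r r' = (K.filter fun b => q < R.lo b ∧ R.lo b ≤ R.hi z).card := by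
  obtain ⟨r', h3, h4, h5⟩ := op_local h (R.lower z q h1)
    (fun a _ b _ hab => (R.rel_lower z q h1 h2 a b).2 (Or.inl hab))
  exact ⟨r', h3, h4, h5.trans (R.newK_lower K z hz q h1 h2)⟩

/-- the reply `close` at the bottom: `x` becomes the minimum of `K` and leaves `K` -/
theorem op_closeMin [Fintype V] [DecidableEq V] {r : V → V → Prop} {K : Finset V} {R : Rep V}
    (h : Loc r K R) (x : V) (hx : x ∈ K) (hD : ∀ z ∈ K, ¬ R.rel z x) :
    ∃ r' : V → V → Prop, Loc r' (K.erase x) R ∧ (∀ a b, r a b → r' a b) ∧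
      (∀ w ∈ K, w ≠ x → r' x w) ∧ newP r r' + R.U K x + 1 = K.card := by
  classical
  let r' : V → V → Prop := fun a b => r a b ∨ (a = x ∧ b ∈ K ∧ b ≠ x)
  -- an element below `x` is below all of `K`
  have hbelow : ∀ z, r z x → ∀ w ∈ K, r z w := by
    intro z hz w hw
    by_cases hwx : w = x
    · rw [hwx]; exact hz
    have hzK : z ∉ K := fun hzK => hD z hzK ((h.eq z hzK x hx).1 hz)
    have hwz : w ≠ z := fun he => hzK (he ▸ hw)
    rcases h.iso z hzK w hwz with h1 | h1
    · exact h1
    · exact absurd ((h.eq w hw x hx).1 (h.so.tr w z x h1 hz)) (hD w hw)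
  -- an element above something of `K`, outside of `K`, is above `x`
  have habove : ∀ w ∈ K, ∀ z, r w z → z ∉ K → r x z := by
    intro w hw z hwz hz
    have hxz : x ≠ z := fun he => hz (he ▸ hx)
    rcases h.iso z hz x hxz with h1 | h1
    · exact absurd (h.so.tr w z w hwz (hbelow z h1 w hw)) (h.so.irr w)
    · exact h1
  refine ⟨r', ⟨⟨?_, ?_⟩, ?_, ?_⟩, fun a b hab => Or.inl hab,
    fun w hw hwx => Or.inr ⟨rfl, hw, hwx⟩, ?_⟩
  · rintro a (ha | ⟨rfl, _, h1⟩)
    · exact h.so.irr a ha
    · exact h1 rfl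
  · rintro a b c (hab | ⟨rfl, hb, hbx⟩) (hbc | ⟨rfl, hc, hcx⟩)
    · exact Or.inl (h.so.tr a b c hab hbc)
    · exact Or.inl (hbelow a hab c hc)
    · by_cases hc : c ∈ K
      · refine Or.inr ⟨rfl, hc, ?_⟩
        rintro rfl
        exact hD b hb ((h.eq b hb _ hx).1 hbc)
      · exact Or.inl (habove b hb c hbc hc)
    · exact absurd rfl hbx
  · intro z hz w hw
    by_cases hzx : z = x
    · subst hzx
      by_cases hwK : w ∈ K
      · exact Or.inl (Or.inr ⟨rfl, hwK, hw⟩)
      · rcases h.iso w hwK z hw.symm with h1 | h1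
        · exact Or.inr (Or.inl h1)
        · exact Or.inl (Or.inl h1)
    · have hzK : z ∉ K := fun h1 => hz (Finset.mem_erase.2 ⟨hzx, h1⟩)
      rcases h.iso z hzK w hw with h1 | h1
      · exact Or.inl (Or.inl h1)
      · exact Or.inr (Or.inl h1)
  · intro a ha b hb
    obtain ⟨hax, haK⟩ := Finset.mem_erase.1 ha
    obtain ⟨hbx, hbK⟩ := Finset.mem_erase.1 hb
    rw [← h.eq a haK b hbK]
    constructor
    · rintro (h1 | ⟨h1, _⟩)
      · exact h1
      · exact absurd h1 hax
    · exact Or.inl
  · have e1 : newP r r' = ((K.erase x).filter fun b => ¬ R.rel x b).card := by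
      unfold newP
      rw [← Finset.card_image_of_injective ((K.erase x).filter fun b => ¬ R.rel x b)
        (Prod.mk_right_injective x)]
      congr 1
      ext ⟨a, b⟩
      simp only [Finset.mem_filter, Finset.mem_univ, true_and, Finset.mem_image, Prod.mk.injEq,
        Finset.mem_erase]
      constructor
      · rintro ⟨h1 | ⟨rfl, hbK, hbx⟩, h2⟩
        · exact absurd h1 h2
        · exact ⟨b, ⟨⟨hbx, hbK⟩, fun h3 => h2 ((h.eq _ hx b hbK).2 h3)⟩, rfl, rfl⟩
      · rintro ⟨b', ⟨⟨hbx, hbK⟩, h2⟩, rfl, rfl⟩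
        exact ⟨Or.inr ⟨rfl, hbK, hbx⟩, fun h3 => h2 ((h.eq _ hx b' hbK).1 h3)⟩
    have e2 : ((K.erase x).filter fun b => ¬ R.rel x b).card + R.U K x = (K.erase x).card := by
      have e3 : R.U K x = ((K.erase x).filter fun b => R.rel x b).card := by
        unfold Rep.U
        congr 1
        ext b
        simp only [Finset.mem_filter, Finset.mem_erase]
        constructor
        · rintro ⟨hb, h1⟩
          refine ⟨⟨?_, hb⟩, h1⟩
          rintro rfl
          exact R.so.irr _ h1
        · rintro ⟨⟨_, hb⟩, h1⟩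
          exact ⟨hb, h1⟩
      rw [e3, add_comm]
      exact Finset.card_filter_add_card_filter_not _
    rw [e1]
    have e4 := Finset.card_erase_of_mem hx
    have e5 := Finset.card_pos.2 ⟨x, hx⟩
    omega

/-- the reply `close` at the top: `y` becomes the maximum of `K` and leaves `K` -/
theorem op_closeMax [Fintype V] [DecidableEq V] {r : V → V → Prop} {K : Finset V} {R : Rep V}
    (h : Loc r K R) (y : V) (hy : y ∈ K) (hU : ∀ z ∈ K, ¬ R.rel y z) :
    ∃ r' : V → V → Prop, Loc r' (K.erase y) R ∧ (∀ a b, r a b → r' a b) ∧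
      (∀ w ∈ K, w ≠ y → r' w y) ∧ newP r r' + R.D K y + 1 = K.card := by
  obtain ⟨r', h1, h2, h3, h4⟩ := op_closeMin h.flip y hy (fun z hz h1 => hU z hz (by
    rw [Rep.rel_dual] at h1; exact h1))
  refine ⟨flip r', ?_, fun a b hab => h2 b a hab, fun w hw hwy => h3 w hw hwy, ?_⟩
  · have := h1.flip
    rwa [Rep.dual_dual] at this
  · rw [Rep.U_dual] at h4
    rw [← newP_flip] at h4
    exact h4

end

/-! ### closed classes -/

section

variable {V : Type} [Fintype V]

/-- every attack on `r` has a reply in `G` with at most `B` new pairs -/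
def Ans (B : ℕ) (G : Set (V → V → Prop)) (r : V → V → Prop) : Prop :=
  ∀ x y, x ≠ y → ¬ r x y → ¬ r y x →
    ∃ r' ∈ G, (∀ a b, r a b → r' a b) ∧ r' x y ∧ newP r r' ≤ B

theorem closedR_iff (B : ℕ) (G : Set (V → V → Prop)) :
    ClosedR B G ↔ ∀ r ∈ G, Ans B G r := Iff.rfl

theorem Ans.mono {B : ℕ} {G G' : Set (V → V → Prop)} {r : V → V → Prop} (h : Ans B G r)
    (hG : G ⊆ G') : Ans B G' r := fun x y hxy h1 h2 => by
  obtain ⟨r', h3, h4⟩ := h x y hxy h1 h2
  exact ⟨r', hG h3, h4⟩

/-- the class of a local condition -/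
def Cls (P : Finset V → Rep V → Prop) : Set (V → V → Prop) :=
  {r | ∃ K R, Loc r K R ∧ P K R}

end

end Pool.Agent.OCN
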