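import Pool.Agent.Lib_helper16.OCN.HgCnt

/-!
# MP_aeb124_co: the two-region positions (phase 1)

`P1 r o y N x M`: two regions `1 < 2`, `o` open elements of type `[1,2]`, `y + N` elements of type
`[1,1]` and `x + M` elements of type `[2,2]`; the heights are at least `o + y` and `o + x`.

* `P1.attack`: an attack is answered by `N + 1` (cost `#K + 1 - o - y`) or by `M + 1`
  (cost `#K + 1 - o - x`), one open element is lost;
* `P1.row`: an open element goes to the left part (cost `x + M`);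
* `P1.col`: an open element goes to the right part (cost `y + N`).
-/

set_option autoImplicit false

namespace Pool.Agent.OCN

variable {V : Type}

/-- the heights -/
def H1 (o y x : ℕ) : ℤ → ℕ := fun s => if s = 1 then o + y else if s = 2 then o + x else 0

/-- uniqueness of the ends in region 1 -/
def A1 : ℤ → ℤ → Prop := fun a b => a = 1 ∧ b = 1

/-- uniqueness of the starts in region 2 -/
def B1 : ℤ → ℤ → Prop := fun a b => a = 2 ∧ b = 2

/-- the data of a two-region position -/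
structure P1d (r : V → V → Prop) (K : Finset V) (R : Rep V) (g : ℤ → ℤ) (o y N x M : ℕ) :
    Prop where
  /-- regions and heights -/
  st : St r K R g (H1 o y x) A1 B1
  /-- the types -/
  ty : ∀ z ∈ K, (g (R.lo z) = 1 ∧ g (R.hi z) = 2) ∨ (g (R.lo z) = 1 ∧ g (R.hi z) = 1) ∨
    (g (R.lo z) = 2 ∧ g (R.hi z) = 2)
  /-- the open elements -/
  co : cn K R g (fun a b => a = 1 ∧ b = 2) = o
  /-- the left part -/
  cl : cn K R g (fun a b => a = 1 ∧ b = 1) = y + N
  /-- the right part -/
  cr : cn K R g (fun a b => a = 2 ∧ b = 2) = x + M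
  /-- the regions -/
  n0 : Ne g 0
  /-- the regions -/
  n1 : Ne g 1
  /-- the regions -/
  n2 : Ne g 2
  /-- the regions -/
  n3 : Ne g 3

/-- a two-region position -/
def P1 (r : V → V → Prop) (n o y N x M : ℕ) : Prop :=
  ∃ K R g, P1d r K R g o y N x M ∧ K.card = n

section
variable {r : V → V → Prop} {K : Finset V} {R : Rep V} {g : ℤ → ℤ} {o y N x M : ℕ}

theorem P1d.card (h : P1d r K R g o y N x M) : K.card = o + y + N + x + M := by
  classical
  have e : K.card = cn K R g (fun a b => a = 1 ∧ b = 2) +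
      cn K R g (fun a b => a = 1 ∧ b = 1) + cn K R g (fun a b => a = 2 ∧ b = 2) := by
    unfold cn
    rw [← Finset.card_union_of_disjoint, ← Finset.card_union_of_disjoint]
    · congr 1
      ext z
      simp only [Finset.mem_union, Finset.mem_filter]
      constructor
      · intro hz
        rcases h.ty z hz with h1 | h1 | h1
        · exact Or.inl (Or.inl ⟨hz, h1⟩)
        · exact Or.inl (Or.inr ⟨hz, h1⟩)
        · exact Or.inr ⟨hz, h1⟩
      · rintro ((h1 | h1) | h1) <;> exact h1.1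
    · rw [Finset.disjoint_left]
      intro z hz hz'
      simp only [Finset.mem_union, Finset.mem_filter] at hz hz'
      rcases hz with hz | hz <;> omega
    · rw [Finset.disjoint_left]
      intro z hz hz'
      simp only [Finset.mem_filter] at hz hz'
      omega
  rw [e, h.co, h.cl, h.cr]
  omega

theorem P1d.abv1 (h : P1d r K R g o y N x M) : abv K R g 1 = x + M := by
  rw [← h.cr]
  unfold abv
  refine card_filter_eq_cn fun z hz => ?_
  rcases h.ty z hz with h1 | h1 | h1 <;> omega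

theorem P1d.blw2 (h : P1d r K R g o y N x M) : blw K R g 2 = y + N := by
  rw [← h.cl]
  unfold blw
  refine card_filter_eq_cn fun z hz => ?_
  rcases h.ty z hz with h1 | h1 | h1 <;> omega

theorem P1d.exists_open (h : P1d r K R g o y N x M) (ho : 1 ≤ o) :
    ∃ z ∈ K, g (R.lo z) = 1 ∧ g (R.hi z) = 2 := by
  exact cn_pos (P := fun a b => a = 1 ∧ b = 2) (by rw [h.co]; exact ho)

variable [Fintype V]

/-- lower an open element, the height of region 1 may be one less than in the definition -/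
theorem P1d.row' (hst : St r K R g (fun s => if s = 1 then o + y else if s = 2 then o + 1 + x
      else 0) A1 B1)
    (ty : ∀ z ∈ K, (g (R.lo z) = 1 ∧ g (R.hi z) = 2) ∨ (g (R.lo z) = 1 ∧ g (R.hi z) = 1) ∨
    (g (R.lo z) = 2 ∧ g (R.hi z) = 2))
    (co : cn K R g (fun a b => a = 1 ∧ b = 2) = o + 1)
    (cl : cn K R g (fun a b => a = 1 ∧ b = 1) + 1 = y + N)
    (cr : cn K R g (fun a b => a = 2 ∧ b = 2) = x + M)
    (n0 : Ne g 0) (n1 : Ne g 1) (n2 : Ne g 2) (n3 : Ne g 3) :
    ∃ (r' : V → V → Prop) (R' : Rep V), P1d r' K R' g o y N x M ∧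
      (∀ a b, r a b → r' a b) ∧ newP r r' ≤ x + M := by
  classical
  obtain ⟨z, hz, hz1, hz2⟩ : ∃ z ∈ K, g (R.lo z) = 1 ∧ g (R.hi z) = 2 :=
    cn_pos (P := fun a b => a = 1 ∧ b = 2) (by omega)
  obtain ⟨r', R', h1, h2, h3, h4, h5, h6⟩ := hst.lowerTo hz (ρ := 1) (by omega) (by omega) n1
    (fun a ha hc => by unfold A1 at hc; omega)
  have ht : ∀ w ∈ K, w ≠ z → g (R'.lo w) = g (R.lo w) ∧ g (R'.hi w) = g (R.hi w) :=
    fun w _ hw => ⟨by rw [h6], by rw [h4 w hw]⟩
  have hone := fun P => cn_one (P := P) hz ht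
  refine ⟨r', R', ⟨⟨h1.loc, h1.hg.weaken ?_ (fun _ _ h => h) (fun _ _ h => h)⟩, ?_, ?_, ?_, ?_,
    n0, n1, n2, n3⟩, h2, ?_⟩
  · intro s
    unfold H1
    split_ifs <;> omega
  · intro w hw
    by_cases hwz : w = z
    · subst hwz
      rw [h5, h6]
      omega
    · rw [(ht w hw hwz).1, (ht w hw hwz).2]
      exact ty w hw
  · have := hone (fun a b => a = 1 ∧ b = 2)
    simp only [h5, h6, hz1, hz2] at this
    norm_num at this
    omega
  · have := hone (fun a b => a = 1 ∧ b = 1)
    simp only [h5, h6, hz1, hz2] at this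
    norm_num at this
    omega
  · have := hone (fun a b => a = 2 ∧ b = 2)
    simp only [h5, h6, hz1, hz2] at this
    norm_num at this
    omega
  · refine h3.trans ?_
    rw [← cr]
    refine card_filter_le_cn fun w hw h7 => ?_
    rcases ty w hw with h8 | h8 | h8 <;> omega

/-- raise an open element, the height of region 2 may be one less than in the definition -/
theorem P1d.col' (hst : St r K R g (fun s => if s = 1 then o + 1 + y else if s = 2 then o + x
      else 0) A1 B1)
    (ty : ∀ z ∈ K, (g (R.lo z) = 1 ∧ g (R.hi z) = 2) ∨ (g (R.lo z) = 1 ∧ g (R.hi z) = 1) ∨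
    (g (R.lo z) = 2 ∧ g (R.hi z) = 2))
    (co : cn K R g (fun a b => a = 1 ∧ b = 2) = o + 1)
    (cl : cn K R g (fun a b => a = 1 ∧ b = 1) = y + N)
    (cr : cn K R g (fun a b => a = 2 ∧ b = 2) + 1 = x + M)
    (n0 : Ne g 0) (n1 : Ne g 1) (n2 : Ne g 2) (n3 : Ne g 3) :
    ∃ (r' : V → V → Prop) (R' : Rep V), P1d r' K R' g o y N x M ∧
      (∀ a b, r a b → r' a b) ∧ newP r r' ≤ y + N := by
  classical
  obtain ⟨z, hz, hz1, hz2⟩ : ∃ z ∈ K, g (R.lo z) = 1 ∧ g (R.hi z) = 2 :=
    cn_pos (P := fun a b => a = 1 ∧ b = 2) (by omega)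
  obtain ⟨r', R', h1, h2, h3, h4, h5, h6⟩ := hst.raiseTo hz (ρ := 2) (by omega) (by omega) n2
    (fun a ha hc => by unfold B1 at hc; omega)
  have ht : ∀ w ∈ K, w ≠ z → g (R'.lo w) = g (R.lo w) ∧ g (R'.hi w) = g (R.hi w) :=
    fun w _ hw => ⟨by rw [h4 w hw], by rw [h6]⟩
  have hone := fun P => cn_one (P := P) hz ht
  refine ⟨r', R', ⟨⟨h1.loc, h1.hg.weaken ?_ (fun _ _ h => h) (fun _ _ h => h)⟩, ?_, ?_, ?_, ?_,
    n0, n1, n2, n3⟩, h2, ?_⟩
  · intro s
    unfold H1
    split_ifs <;> omega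
  · intro w hw
    by_cases hwz : w = z
    · subst hwz
      rw [h5, h6]
      omega
    · rw [(ht w hw hwz).1, (ht w hw hwz).2]
      exact ty w hw
  · have := hone (fun a b => a = 1 ∧ b = 2)
    simp only [h5, h6, hz1, hz2] at this
    norm_num at this
    omega
  · have := hone (fun a b => a = 1 ∧ b = 1)
    simp only [h5, h6, hz1, hz2] at this
    norm_num at this
    omega
  · have := hone (fun a b => a = 2 ∧ b = 2)
    simp only [h5, h6, hz1, hz2] at this
    norm_num at this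
    omega
  · refine h3.trans ?_
    rw [← cl]
    refine card_filter_le_cn fun w hw h7 => ?_
    rcases ty w hw with h8 | h8 | h8 <;> omega

/-- an open element goes to the left part -/
theorem P1.row {n : ℕ} (h : P1 r n (o + 1) y N x M) :
    ∃ r' : V → V → Prop, P1 r' n o (y + 1) N x M ∧ (∀ a b, r a b → r' a b) ∧
      newP r r' ≤ x + M := by
  obtain ⟨K, R, g, h, hn⟩ := h
  obtain ⟨r', R', h1, h2, h3⟩ := P1d.row' (o := o) (y := y + 1) (N := N) (x := x) (M := M)
    ⟨h.st.loc, h.st.hg.weaken (fun s => by unfold H1; split_ifs <;> omega) (fun _ _ h => h)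
      (fun _ _ h => h)⟩ h.ty h.co (by have := h.cl; omega) h.cr h.n0 h.n1 h.n2 h.n3
  exact ⟨r', ⟨K, R', g, h1, hn⟩, h2, h3⟩

/-- an open element goes to the right part -/
theorem P1.col {n : ℕ} (h : P1 r n (o + 1) y N x M) :
    ∃ r' : V → V → Prop, P1 r' n o y N (x + 1) M ∧ (∀ a b, r a b → r' a b) ∧
      newP r r' ≤ y + N := by
  obtain ⟨K, R, g, h, hn⟩ := h
  obtain ⟨r', R', h1, h2, h3⟩ := P1d.col' (o := o) (y := y) (N := N) (x := x + 1) (M := M)
    ⟨h.st.loc, h.st.hg.weaken (fun s => by unfold H1; split_ifs <;> omega) (fun _ _ h => h)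
      (fun _ _ h => h)⟩ h.ty h.co h.cl (by have := h.cr; omega) h.n0 h.n1 h.n2 h.n3
  exact ⟨r', ⟨K, R', g, h1, hn⟩, h2, h3⟩

/-- the attacks -/
theorem P1.attack {n : ℕ} (h : P1 r n (o + 1) y N x M) {u v : V} (huv : u ≠ v)
    (hn1 : ¬ r u v) (hn2 : ¬ r v u) :
    (∃ r' : V → V → Prop, P1 r' n o y (N + 1) x M ∧ (∀ a b, r a b → r' a b) ∧ r' u v ∧
      newP r r' + (o + y) ≤ n) ∨
    (∃ r' : V → V → Prop, P1 r' n o y N x (M + 1) ∧ (∀ a b, r a b → r' a b) ∧ r' u v ∧
      newP r r' + (o + x) ≤ n) := by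
  classical
  obtain ⟨K, R, g, h, hn⟩ := h
  obtain ⟨hu, hv⟩ := h.st.loc.mem huv hn1 hn2
  have hm := h.st.hg.mono
  -- comparable pairs
  have hcmp : ∀ a ∈ K, ∀ b ∈ K, g (R.hi a) < g (R.lo b) → r a b := by
    intro a ha b hb hab
    rw [h.st.loc.eq a ha b hb]
    unfold Rep.rel
    by_contra hlt
    have := hm (show R.lo b ≤ R.hi a by omega)
    omega
  have key : ∀ ρ : ℤ, (ρ = 1 ∨ ρ = 2) → g (R.lo u) ≤ ρ → ρ ≤ g (R.hi u) → g (R.lo v) ≤ ρ →
      ρ ≤ g (R.hi v) → ∃ (r' : V → V → Prop) (R' : Rep V) (g' : ℤ → ℤ),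
      St r' K R' g' (fun s => H1 (o + 1) y x s - if g (R.lo v) ≤ s ∧ s ≤ g (R.hi u) then 1
        else 0) A1 B1 ∧
      (∀ a b, r a b → r' a b) ∧ r' u v ∧
      newP r r' + H1 (o + 1) y x ρ + abv K R g (g (R.hi u)) + blw K R g (g (R.lo v)) ≤
        K.card + 1 ∧
      (∀ z, z ≠ v → g' (R'.lo z) = g (R.lo z)) ∧ g' (R'.lo v) = ρ ∧
      (∀ z, z ≠ u → g' (R'.hi z) = g (R.hi z)) ∧ g' (R'.hi u) = ρ ∧
      (∀ s, Ne g' s ↔ Ne g s) := fun ρ hρ h1 h2 h3 h4 =>
    h.st.attack huv hn1 hn2 h1 h2 h3 h4 (by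
      rcases hρ with rfl | rfl
      · exact h.n1
      · exact h.n2)
  -- the cases
  have hlo : ∀ z ∈ K, g (R.lo z) = 1 ∨ g (R.lo z) = 2 := fun z hz => by
    rcases h.ty z hz with h1 | h1 | h1 <;> omega
  have caseL : g (R.hi u) = 2 → g (R.lo u) = 1 → g (R.lo v) = 1 →
      ∃ r' : V → V → Prop, P1 r' n o y (N + 1) x M ∧ (∀ a b, r a b → r' a b) ∧ r' u v ∧
      newP r r' + (o + y) ≤ n := by
    intro hu2 hu1 hv1
    have hv2 : 1 ≤ g (R.hi v) := by rw [← hv1]; exact hm (R.le v)
    obtain ⟨r', R', g', k1, k2, k3, k4, k5, k6, k7, k8, k9⟩ :=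
      key 1 (Or.inl rfl) (by omega) (by omega) (by omega) hv2
    have hty : ∀ z ∈ K, z ≠ u → z ≠ v → g' (R'.lo z) = g (R.lo z) ∧
        g' (R'.hi z) = g (R.hi z) := fun z _ hzu hzv => ⟨k5 z hzv, k7 z hzu⟩
    have htwo := fun P => cn_two (P := P) hu hv huv hty
    have eul : g' (R'.lo u) = 1 := by rw [k5 u huv, hu1]
    have evh : g' (R'.hi v) = g (R.hi v) := k7 v huv.symm
    refine ⟨r', ⟨K, R', g', ⟨⟨k1.loc, k1.hg.weaken ?_ (fun _ _ h => h) (fun _ _ h => h)⟩, ?_,
      ?_, ?_, ?_, (k9 0).2 h.n0, (k9 1).2 h.n1, (k9 2).2 h.n2, (k9 3).2 h.n3⟩, hn⟩, k2, k3, ?_⟩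
    · intro s
      rw [hv1, hu2]
      unfold H1
      split_ifs <;> omega
    · intro z hz
      by_cases hzu : z = u
      · subst hzu
        rw [eul, k8]
        omega
      · by_cases hzv : z = v
        · subst hzv
          rw [k6, evh]
          rcases h.ty z hz with h1 | h1 | h1 <;> omega
        · rw [(hty z hz hzu hzv).1, (hty z hz hzu hzv).2]
          exact h.ty z hz
    · have e1 := htwo (fun a b => a = 1 ∧ b = 2)
      have e2 := h.co
      rcases h.ty v hv with h1 | h1 | h1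
      · simp only [eul, k8, k6, evh, hu1, hu2, hv1, h1.2] at e1
        norm_num at e1
        omega
      · simp only [eul, k8, k6, evh, hu1, hu2, hv1, h1.2] at e1
        norm_num at e1
        omega
      · omega
    · have e1 := htwo (fun a b => a = 1 ∧ b = 1)
      have e2 := h.cl
      rcases h.ty v hv with h1 | h1 | h1
      · simp only [eul, k8, k6, evh, hu1, hu2, hv1, h1.2] at e1
        norm_num at e1
        omega
      · simp only [eul, k8, k6, evh, hu1, hu2, hv1, h1.2] at e1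
        norm_num at e1
        omega
      · omega
    · have e1 := htwo (fun a b => a = 2 ∧ b = 2)
      have e2 := h.cr
      rcases h.ty v hv with h1 | h1 | h1
      · simp only [eul, k8, k6, evh, hu1, hu2, hv1, h1.2] at e1
        norm_num at e1
        omega
      · simp only [eul, k8, k6, evh, hu1, hu2, hv1, h1.2] at e1
        norm_num at e1
        omega
      · omega
    · unfold H1 at k4
      rw [if_pos rfl] at k4
      omega
  have caseT : g (R.lo u) = 2 → g (R.lo v) = 1 → g (R.hi v) = 2 →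
      ∃ r' : V → V → Prop, P1 r' n o y N x (M + 1) ∧ (∀ a b, r a b → r' a b) ∧ r' u v ∧
      newP r r' + (o + x) ≤ n := by
    intro hu1 hv1 hv2
    have hu2 : g (R.hi u) = 2 := by
      rcases h.ty u hu with h1 | h1 | h1 <;> omega
    obtain ⟨r', R', g', k1, k2, k3, k4, k5, k6, k7, k8, k9⟩ :=
      key 2 (Or.inr rfl) (by omega) (by omega) (by omega) (by omega)
    have hty : ∀ z ∈ K, z ≠ u → z ≠ v → g' (R'.lo z) = g (R.lo z) ∧
        g' (R'.hi z) = g (R.hi z) := fun z _ hzu hzv => ⟨k5 z hzv, k7 z hzu⟩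
    have htwo := fun P => cn_two (P := P) hu hv huv hty
    have eul : g' (R'.lo u) = 2 := by rw [k5 u huv, hu1]
    have evh : g' (R'.hi v) = 2 := by rw [k7 v huv.symm, hv2]
    refine ⟨r', ⟨K, R', g', ⟨⟨k1.loc, k1.hg.weaken ?_ (fun _ _ h => h) (fun _ _ h => h)⟩, ?_,
      ?_, ?_, ?_, (k9 0).2 h.n0, (k9 1).2 h.n1, (k9 2).2 h.n2, (k9 3).2 h.n3⟩, hn⟩, k2, k3, ?_⟩
    · intro s
      rw [hv1, hu2]
      unfold H1
      split_ifs <;> omega
    · intro z hz
      by_cases hzu : z = u
      · subst hzu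
        rw [eul, k8]
        omega
      · by_cases hzv : z = v
        · subst hzv
          rw [k6, evh]
          omega
        · rw [(hty z hz hzu hzv).1, (hty z hz hzu hzv).2]
          exact h.ty z hz
    · have e1 := htwo (fun a b => a = 1 ∧ b = 2)
      have e2 := h.co
      simp only [eul, k8, k6, evh, hu1, hu2, hv1, hv2] at e1
      norm_num at e1
      omega
    · have e1 := htwo (fun a b => a = 1 ∧ b = 1)
      have e2 := h.cl
      simp only [eul, k8, k6, evh, hu1, hu2, hv1, hv2] at e1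
      norm_num at e1
      omega
    · have e1 := htwo (fun a b => a = 2 ∧ b = 2)
      have e2 := h.cr
      simp only [eul, k8, k6, evh, hu1, hu2, hv1, hv2] at e1
      norm_num at e1
      omega
    · unfold H1 at k4
      rw [if_neg (by norm_num), if_pos rfl] at k4
      omega
  -- attacks inside of the left part
  have caseL' : g (R.hi u) = 1 → g (R.lo v) = 1 →
      ∃ r' : V → V → Prop, P1 r' n o y (N + 1) x M ∧ (∀ a b, r a b → r' a b) ∧ r' u v ∧
      newP r r' + (o + y) ≤ n := by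
    intro hu2 hv1
    have hu1 : g (R.lo u) = 1 := by
      rcases h.ty u hu with h1 | h1 | h1 <;> omega
    have hv2 : 1 ≤ g (R.hi v) := by rw [← hv1]; exact hm (R.le v)
    obtain ⟨r', R', g', k1, k2, k3, k4, k5, k6, k7, k8, k9⟩ :=
      key 1 (Or.inl rfl) (by omega) (by omega) (by omega) hv2
    have hty : ∀ z, g' (R'.lo z) = g (R.lo z) ∧ g' (R'.hi z) = g (R.hi z) := by
      intro z
      constructor
      · by_cases hzv : z = v
        · rw [hzv, k6, hv1]
        · exact k5 z hzv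
      · by_cases hzu : z = u
        · rw [hzu, k8, hu2]
        · exact k7 z hzu
    have hcn : ∀ P, cn K R' g' P = cn K R g P := fun P => cn_congr fun z _ => by
      rw [(hty z).1, (hty z).2]
    obtain ⟨r'', R'', m1, m2, m3⟩ := P1d.row' (r := r') (K := K) (R := R') (g := g') (o := o)
      (y := y) (N := N + 1) (x := x) (M := M)
      ⟨k1.loc, k1.hg.weaken (fun s => by
        rw [hv1, hu2]
        unfold H1
        split_ifs <;> omega) (fun _ _ h => h) (fun _ _ h => h)⟩
      (fun z hz => by rw [(hty z).1, (hty z).2]; exact h.ty z hz)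
      (by rw [hcn]; exact h.co) (by rw [hcn, h.cl]; ring) (by rw [hcn]; exact h.cr)
      ((k9 0).2 h.n0) ((k9 1).2 h.n1) ((k9 2).2 h.n2) ((k9 3).2 h.n3)
    refine ⟨r'', ⟨K, R'', g', m1, hn⟩, fun a b hab => m2 a b (k2 a b hab), m2 u v k3, ?_⟩
    have e1 := newP_trans (r := r) (r' := r') (r'' := r'')
    have e2 := h.abv1
    rw [hu2, e2] at k4
    unfold H1 at k4
    rw [if_pos rfl] at k4
    omega
  -- attacks inside of the right part
  have caseT' : g (R.hi u) = 2 → g (R.lo v) = 2 →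
      ∃ r' : V → V → Prop, P1 r' n o y N x (M + 1) ∧ (∀ a b, r a b → r' a b) ∧ r' u v ∧
      newP r r' + (o + x) ≤ n := by
    intro hu2 hv1
    have hv2 : g (R.hi v) = 2 := by
      rcases h.ty v hv with h1 | h1 | h1 <;> omega
    have hu1 : g (R.lo u) ≤ 2 := by rw [← hu2]; exact hm (R.le u)
    obtain ⟨r', R', g', k1, k2, k3, k4, k5, k6, k7, k8, k9⟩ :=
      key 2 (Or.inr rfl) hu1 (by omega) (by omega) (by omega)
    have hty : ∀ z, g' (R'.lo z) = g (R.lo z) ∧ g' (R'.hi z) = g (R.hi z) := by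
      intro z
      constructor
      · by_cases hzv : z = v
        · rw [hzv, k6, hv1]
        · exact k5 z hzv
      · by_cases hzu : z = u
        · rw [hzu, k8, hu2]
        · exact k7 z hzu
    have hcn : ∀ P, cn K R' g' P = cn K R g P := fun P => cn_congr fun z _ => by
      rw [(hty z).1, (hty z).2]
    obtain ⟨r'', R'', m1, m2, m3⟩ := P1d.col' (r := r') (K := K) (R := R') (g := g') (o := o)
      (y := y) (N := N) (x := x) (M := M + 1)
      ⟨k1.loc, k1.hg.weaken (fun s => by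
        rw [hv1, hu2]
        unfold H1
        split_ifs <;> omega) (fun _ _ h => h) (fun _ _ h => h)⟩
      (fun z hz => by rw [(hty z).1, (hty z).2]; exact h.ty z hz)
      (by rw [hcn]; exact h.co) (by rw [hcn]; exact h.cl) (by rw [hcn, h.cr]; ring)
      ((k9 0).2 h.n0) ((k9 1).2 h.n1) ((k9 2).2 h.n2) ((k9 3).2 h.n3)
    refine ⟨r'', ⟨K, R'', g', m1, hn⟩, fun a b hab => m2 a b (k2 a b hab), m2 u v k3, ?_⟩
    have e1 := newP_trans (r := r) (r' := r') (r'' := r'')
    have e2 := h.blw2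
    rw [hu2, hv1, e2] at k4
    unfold H1 at k4
    rw [if_neg (by norm_num), if_pos rfl] at k4
    omega
  -- all cases
  rcases hlo v hv with hv1 | hv1
  · rcases h.ty u hu with h1 | h1 | h1
    · exact Or.inl (caseL h1.2 h1.1 hv1)
    · exact Or.inl (caseL' h1.2 hv1)
    · -- `u` in the right part
      have hv2 : g (R.hi v) = 2 := by
        rcases h.ty v hv with h2 | h2 | h2
        · exact h2.2
        · exact absurd (hcmp v hv u hu (by omega)) hn2
        · omega
      exact Or.inr (caseT h1.1 hv1 hv2)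
  · rcases h.ty u hu with h1 | h1 | h1
    · exact Or.inr (caseT' h1.2 hv1)
    · exact absurd (hcmp u hu v hv (by omega)) hn1
    · exact Or.inr (caseT' h1.2 hv1)

end

end Pool.Agent.OCN
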