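import Pool.Agent.Lib_helper16.OCN.P1

/-!
# MP_aeb124_co: the two-region positions (phase 1), the number game

`P1.buy`: `i` rows and `j` columns cost `i (x + M) + j (y + N) + i j`.
`P1.closed`: the number game of phase 1.
-/

set_option autoImplicit false

namespace Pool.Agent.OCN

variable {V : Type} [Fintype V]

theorem P1.so {r : V → V → Prop} {n o y N x M : ℕ} (h : P1 r n o y N x M) : SO r := by
  obtain ⟨K, R, g, h, _⟩ := h
  exact h.st.loc.so

theorem P1.card {r : V → V → Prop} {n o y N x M : ℕ} (h : P1 r n o y N x M) :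
    n = o + y + N + x + M := by
  obtain ⟨K, R, g, h, hn⟩ := h
  rw [← hn]
  exact h.card

/-- the first position -/
theorem P1.init : P1 (fun _ _ : V => False) (Fintype.card V) (Fintype.card V) 0 0 0 0 := by
  classical
  have e0 : g0 0 1 2 3 0 = 1 := by unfold g0; simp
  have e1 : g0 0 1 2 3 1 = 2 := by unfold g0; simp
  have e2 : g0 0 1 2 3 2 = 3 := by unfold g0; simp
  have e3 : g0 0 1 2 3 (-1) = 0 := by unfold g0; simp
  have hlo : ∀ z : V, g0 0 1 2 3 ((R0 V).lo z) = 1 := fun z => e0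
  have hhi : ∀ z : V, g0 0 1 2 3 ((R0 V).hi z) = 2 := fun z => e1
  refine ⟨Finset.univ, R0 V, g0 0 1 2 3, ⟨R0_st (by norm_num) (by norm_num) (by norm_num) ?_ ?_
    ?_ ?_, ?_, ?_, ?_, ?_, ⟨-1, e3⟩, ⟨0, e0⟩, ⟨1, e1⟩, ⟨2, e2⟩⟩, Finset.card_univ⟩
  · unfold H1; simp
  · unfold H1; simp
  · unfold A1; omega
  · unfold B1; omega
  · intro z _
    exact Or.inl ⟨hlo z, hhi z⟩
  · rw [← Finset.card_univ, ← cn_true (K := (Finset.univ : Finset V)) (R := R0 V)
      (g := g0 0 1 2 3)]
    refine cn_congr fun z _ => ?_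
    rw [hlo, hhi]
    simp
  · by_contra hne
    obtain ⟨z, _, hz⟩ := cn_pos (Nat.pos_of_ne_zero hne)
    rw [hlo, hhi] at hz
    omega
  · by_contra hne
    obtain ⟨z, _, hz⟩ := cn_pos (Nat.pos_of_ne_zero hne)
    rw [hlo, hhi] at hz
    omega

/-- the dual position -/
theorem P1.flip {r : V → V → Prop} {n o y N x M : ℕ} (h : P1 r n o y N x M) :
    P1 (flip r) n o x M y N := by
  obtain ⟨K, R, g, h, hn⟩ := h
  have hd := h.st.dual
  have hφ : Monotone (fun s : ℤ => s + 3) := fun a b hab => by simp only; omega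
  have hg : Hg K R.dual (fun p => dg g p + 3) (H1 o x y) A1 B1 := by
    refine hd.hg.relab hφ ?_ ?_ ?_
    · intro s _
      unfold H1
      split_ifs <;> omega
    · intro a b _ hab
      unfold A1 at hab
      unfold dc B1
      omega
    · intro a b _ hab
      unfold B1 at hab
      unfold dc A1
      omega
  have hne : ∀ s, Ne g s → Ne (fun p => dg g p + 3) (3 - s) := by
    rintro s ⟨p, hp⟩
    refine ⟨-p, ?_⟩
    unfold dg
    simp only [neg_neg]
    omega
  refine ⟨K, R.dual, fun p => dg g p + 3, ⟨⟨hd.loc, hg⟩, ?_, ?_, ?_, ?_, ?_, ?_, ?_, ?_⟩, hn⟩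
  · intro z hz
    simp only [dlo, dhi]
    rcases h.ty z hz with h1 | h1 | h1 <;> omega
  · rw [← h.co]
    refine cn_congr fun z hz => ?_
    simp only [dlo, dhi]
    omega
  · rw [← h.cr]
    refine cn_congr fun z hz => ?_
    simp only [dlo, dhi]
    omega
  · rw [← h.cl]
    refine cn_congr fun z hz => ?_
    simp only [dlo, dhi]
    omega
  · exact hne 3 h.n3
  · exact hne 2 h.n2
  · exact hne 1 h.n1
  · exact hne 0 h.n0

theorem P1.rows {r : V → V → Prop} {n o y N x M : ℕ} (i : ℕ) (h : P1 r n (o + i) y N x M) :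
    ∃ r' : V → V → Prop, P1 r' n o (y + i) N x M ∧ (∀ a b, r a b → r' a b) ∧
      newP r r' ≤ i * (x + M) := by
  induction i generalizing o y r with
  | zero => exact ⟨r, h, fun _ _ h => h, by rw [newP_self]; exact Nat.zero_le _⟩
  | succ i ih =>
    have h' : P1 r n ((o + 1) + i) y N x M := by
      have : o + 1 + i = o + (i + 1) := by ring
      rw [this]; exact h
    obtain ⟨r', h1, h2, h3⟩ := ih h'
    obtain ⟨r'', h4, h5, h6⟩ := h1.row
    refine ⟨r'', h4, fun a b hab => h5 a b (h2 a b hab), ?_⟩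
    have e1 := newP_trans (r := r) (r' := r') (r'' := r'')
    calc newP r r'' ≤ i * (x + M) + (x + M) := by omega
      _ = (i + 1) * (x + M) := by ring

theorem P1.cols {r : V → V → Prop} {n o y N x M : ℕ} (i : ℕ) (h : P1 r n (o + i) y N x M) :
    ∃ r' : V → V → Prop, P1 r' n o y N (x + i) M ∧ (∀ a b, r a b → r' a b) ∧
      newP r r' ≤ i * (y + N) := by
  induction i generalizing o x r with
  | zero => exact ⟨r, h, fun _ _ h => h, by rw [newP_self]; exact Nat.zero_le _⟩
  | succ i ih =>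
    have h' : P1 r n ((o + 1) + i) y N x M := by
      have : o + 1 + i = o + (i + 1) := by ring
      rw [this]; exact h
    obtain ⟨r', h1, h2, h3⟩ := ih h'
    obtain ⟨r'', h4, h5, h6⟩ := h1.col
    refine ⟨r'', h4, fun a b hab => h5 a b (h2 a b hab), ?_⟩
    have e1 := newP_trans (r := r) (r' := r') (r'' := r'')
    calc newP r r'' ≤ i * (y + N) + (y + N) := by omega
      _ = (i + 1) * (y + N) := by ring

/-- `i` rows and `j` columns -/
theorem P1.buy {r : V → V → Prop} {n o y N x M : ℕ} (i j : ℕ)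
    (h : P1 r n (o + i + j) y N x M) :
    ∃ r' : V → V → Prop, P1 r' n o (y + i) N (x + j) M ∧ (∀ a b, r a b → r' a b) ∧
      newP r r' ≤ i * (x + M) + j * (y + N) + i * j := by
  have h' : P1 r n ((o + j) + i) y N x M := by
    have : o + j + i = o + i + j := by ring
    rw [this]; exact h
  obtain ⟨r', h1, h2, h3⟩ := h'.rows i
  obtain ⟨r'', h4, h5, h6⟩ := h1.cols j
  refine ⟨r'', h4, fun a b hab => h5 a b (h2 a b hab), ?_⟩
  have e1 := newP_trans (r := r) (r' := r') (r'' := r'')
  calc newP r r'' ≤ i * (x + M) + j * (y + i + N) := by omega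
    _ = i * (x + M) + j * (y + N) + i * j := by ring

/-- the number game of phase 1: `Φ o y N x M` is a region of the numbers, `E` is the class of the
next phase -/
theorem P1.closed {B n : ℕ} {E : Set (V → V → Prop)} (Φ : ℕ → ℕ → ℕ → ℕ → ℕ → Prop)
    (hΦ : ∀ o y N x M, Φ o y N x M → n = o + y + N + x + M →
      (∀ r : V → V → Prop, P1 r n o y N x M → r ∈ E) ∨
      (1 ≤ o ∧
        (∃ i j o', o = o' + i + j + 1 ∧
          n + i * (x + M) + j * (y + N + 1) + i * j ≤ B + (o - 1 + y) ∧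
          Φ o' (y + i) (N + 1) (x + j) M) ∧
        (∃ i j o', o = o' + i + j + 1 ∧
          n + i * (x + M + 1) + j * (y + N) + i * j ≤ B + (o - 1 + x) ∧
          Φ o' (y + i) N (x + j) (M + 1))))
    (hE : ∀ r ∈ E, Ans B (E ∪ {r | ∃ o y N x M, P1 r n o y N x M ∧ Φ o y N x M}) r) :
    ClosedR B (E ∪ {r : V → V → Prop | ∃ o y N x M, P1 r n o y N x M ∧ Φ o y N x M}) := by
  rw [closedR_iff]
  rintro r (hr | ⟨o, y, N, x, M, h, hs⟩)
  · exact hE r hr
  · have hn := h.card
    rcases hΦ o y N x M hs hn with h1 | ⟨ho, ⟨i, j, o', h1, h2, h3⟩, ⟨i', j', o'', h4, h5, h6⟩⟩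
    · exact hE r (h1 r h)
    · intro u v huv hn1 hn2
      obtain ⟨o1, rfl⟩ : ∃ o1, o = o1 + 1 := ⟨o - 1, by omega⟩
      rcases h.attack huv hn1 hn2 with ⟨r', k1, k2, k3, k4⟩ | ⟨r', k1, k2, k3, k4⟩
      · have e1 : o1 = o' + i + j := by omega
        rw [e1] at k1
        obtain ⟨r'', m1, m2, m3⟩ := k1.buy i j
        refine ⟨r'', Or.inr ⟨_, _, _, _, _, m1, h3⟩, fun a b hab => m2 a b (k2 a b hab),
          m2 u v k3, ?_⟩
        have e2 := newP_trans (r := r) (r' := r') (r'' := r'')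
        have e3 : y + (N + 1) = y + N + 1 := by ring
        rw [e3] at m3
        have e4 : o1 + 1 - 1 = o1 := by omega
        rw [e4] at h2
        omega
      · have e1 : o1 = o'' + i' + j' := by omega
        rw [e1] at k1
        obtain ⟨r'', m1, m2, m3⟩ := k1.buy i' j'
        refine ⟨r'', Or.inr ⟨_, _, _, _, _, m1, h6⟩, fun a b hab => m2 a b (k2 a b hab),
          m2 u v k3, ?_⟩
        have e2 := newP_trans (r := r) (r' := r') (r'' := r'')
        have e3 : x + (M + 1) = x + M + 1 := by ring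
        rw [e3] at m3
        have e4 : o1 + 1 - 1 = o1 := by omega
        rw [e4] at h5
        omega

end Pool.Agent.OCN
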