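import Pool.Agent.Lib_helper16.OCN.P1b

/-!
# MP_aeb124_co: phase 1 with flat undecided elements

`P1sd` is `P1d` with the additional information that all undecided elements (type `[1,2]`) have
the same first gap `a` and the same last gap `b` (with the exceptions `E`), and that `a` is the
first and `b` the last gap of all elements.

Only the attacks `z → z'` of two undecided elements produce an exception, and the exception can
be used for the next row or column.
-/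

set_option autoImplicit false

namespace Pool.Agent.OCN

variable {V : Type}

/-- the attack theorem with the cut -/
theorem St.attackP [Fintype V] {r : V → V → Prop} {K : Finset V} {R : Rep V} {g : ℤ → ℤ}
    {H : ℤ → ℕ} {A B : ℤ → ℤ → Prop} (h : St r K R g H A B) {x y : V} (hxy : x ≠ y)
    (hn1 : ¬ r x y) (hn2 : ¬ r y x) {ρ : ℤ} (hx1 : g (R.lo x) ≤ ρ) (hx2 : ρ ≤ g (R.hi x))
    (hy1 : g (R.lo y) ≤ ρ) (hy2 : ρ ≤ g (R.hi y)) (hρ : Ne g ρ) :
    ∃ (r' : V → V → Prop) (R' : Rep V) (p : ℤ), g p = ρ ∧ R.Cr x p ∧ R.Cr y p ∧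
      St r' K R' (cg g p) (fun s => H s - if g (R.lo y) ≤ s ∧ s ≤ g (R.hi x) then 1 else 0) A B ∧
      (∀ a b, r a b → r' a b) ∧ r' x y ∧
      newP r r' + H ρ + abv K R g (g (R.hi x)) + blw K R g (g (R.lo y)) ≤ K.card + 1 ∧
      R'.lo y = p + 1 ∧ R'.hi x = p ∧
      (∀ z, z ≠ y → (p < R.lo z ∧ R'.lo z = R.lo z + 1) ∨ (R.lo z ≤ p ∧ R'.lo z = R.lo z)) ∧
      (∀ z, z ≠ x → (p ≤ R.hi z ∧ R'.hi z = R.hi z + 1) ∨ (R.hi z < p ∧ R'.hi z = R.hi z)) := by
  classical
  obtain ⟨hx, hy⟩ := h.loc.mem hxy hn1 hn2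
  rw [h.loc.eq x hx y hy] at hn1
  rw [h.loc.eq y hy x hx] at hn2
  obtain ⟨p, hp, hp1, hp2⟩ := common_reg h.hg.mono hn1 hn2 hx1 hx2 hy1 hy2 hρ
  obtain ⟨r', h3, h4, h5, h6⟩ := op_cut h.loc p x y hxy hx hy hp1 hp2
  have hlo := Zc.cut_lo' R hxy hp1 hp2
  have hhi := Zc.cut_hi' R hxy hp1 hp2
  refine ⟨r', _, p, hp, hp1, hp2, ⟨h3, h.hg.cut hxy hp1 hp2⟩, h4, h5, ?_, ?_, ?_, ?_, ?_⟩
  · have e1 := h.hg.ht p ⟨x, hx, hp1⟩
    have e2 := h.hg.U_ge x
    have e3 := h.hg.D_ge y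
    rw [hp] at e1
    omega
  · rw [hlo, if_pos rfl]
  · rw [hhi, if_pos rfl]
  · intro z hz
    rw [hlo, if_neg hz]
    split_ifs <;> omega
  · intro z hz
    rw [hhi, if_neg hz]
    split_ifs <;> omega

/-- the data of phase 1 with flat undecided elements, `E` are the exceptions -/
structure P1sd (r : V → V → Prop) (K : Finset V) (R : Rep V) (g : ℤ → ℤ) (a b : ℤ)
    (E : V → Prop) (o y N x M : ℕ) : Prop where
  /-- the data of phase 1 -/
  d : P1d r K R g o y N x M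
  /-- the undecided elements are flat -/
  fl : ∀ z ∈ K, g (R.lo z) = 1 → g (R.hi z) = 2 → ¬ E z → R.lo z = a ∧ R.hi z = b
  /-- the first and the last gap -/
  al : ∀ z ∈ K, a ≤ R.lo z ∧ R.hi z ≤ b

/-- a position of phase 1 with flat undecided elements -/
def P1s (r : V → V → Prop) (n o y N x M : ℕ) : Prop :=
  ∃ K R g a b, P1sd r K R g a b (fun _ => False) o y N x M ∧ K.card = n

/-- a position of phase 1 with one exception -/
def P1x (r : V → V → Prop) (n o y N x M : ℕ) : Prop :=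
  ∃ K R g a b z, z ∈ K ∧ g (R.lo z) = 1 ∧ g (R.hi z) = 2 ∧
    P1sd r K R g a b (fun w => w = z) o y N x M ∧ K.card = n

section
variable {r : V → V → Prop} {K : Finset V} {R : Rep V} {g : ℤ → ℤ} {a b : ℤ} {E : V → Prop}
  {o y N x M n : ℕ}

theorem P1s.p1 (h : P1s r n o y N x M) : P1 r n o y N x M := by
  obtain ⟨K, R, g, a, b, h, hn⟩ := h
  exact ⟨K, R, g, h.d, hn⟩

theorem P1sd.weaken (h : P1sd r K R g a b E o y N x M) {y' N' x' M' : ℕ} (hy : y' ≤ y)
    (hN : y' + N' = y + N) (hx : x' ≤ x) (hM : x' + M' = x + M) :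
    P1sd r K R g a b E o y' N' x' M' :=
  ⟨⟨⟨h.d.st.loc, h.d.st.hg.weaken (fun s => by unfold H1; split_ifs <;> omega)
    (fun _ _ h => h) (fun _ _ h => h)⟩, h.d.ty, h.d.co, by rw [hN]; exact h.d.cl,
    by rw [hM]; exact h.d.cr, h.d.n0, h.d.n1, h.d.n2, h.d.n3⟩, h.fl, h.al⟩

variable [Fintype V]

/-- lower the undecided element `z`, the height of region 1 may be one less than in the
definition -/
theorem P1sd.row' (hst : St r K R g (fun s => if s = 1 then o + y else if s = 2 then o + 1 + x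
      else 0) A1 B1)
    (ty : ∀ z ∈ K, (g (R.lo z) = 1 ∧ g (R.hi z) = 2) ∨ (g (R.lo z) = 1 ∧ g (R.hi z) = 1) ∨
    (g (R.lo z) = 2 ∧ g (R.hi z) = 2))
    (co : cn K R g (fun a b => a = 1 ∧ b = 2) = o + 1)
    (cl : cn K R g (fun a b => a = 1 ∧ b = 1) + 1 = y + N)
    (cr : cn K R g (fun a b => a = 2 ∧ b = 2) = x + M)
    (n0 : Ne g 0) (n1 : Ne g 1) (n2 : Ne g 2) (n3 : Ne g 3)
    (fl : ∀ z ∈ K, g (R.lo z) = 1 → g (R.hi z) = 2 → ¬ E z → R.lo z = a ∧ R.hi z = b)
    (al : ∀ z ∈ K, a ≤ R.lo z ∧ R.hi z ≤ b) {z : V} (hz : z ∈ K) (hz1 : g (R.lo z) = 1)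
    (hz2 : g (R.hi z) = 2) :
    ∃ (r' : V → V → Prop) (R' : Rep V), P1sd r' K R' g a b (fun w => E w ∧ w ≠ z) o y N x M ∧
      (∀ a b, r a b → r' a b) ∧ newP r r' ≤ x + M ∧ R'.hi z < R.hi z ∧ g (R'.hi z) = 1 ∧
      (∀ w ∈ K, 2 ≤ g (R.lo w) → r' z w) := by
  classical
  obtain ⟨r', R', h1, h2, h3, h4, h5, h6⟩ := hst.lowerTo hz (ρ := 1) (by omega) (by omega) n1
    (fun a ha hc => by unfold A1 at hc; omega)
  have hm := hst.hg.mono
  have ht : ∀ w ∈ K, w ≠ z → g (R'.lo w) = g (R.lo w) ∧ g (R'.hi w) = g (R.hi w) :=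
    fun w _ hw => ⟨by rw [h6], by rw [h4 w hw]⟩
  have hone := fun P => cn_one (P := P) hz ht
  have hlt : R'.hi z < R.hi z := by
    by_contra hle
    have := hm (show R.hi z ≤ R'.hi z by omega)
    omega
  refine ⟨r', R', ⟨⟨⟨h1.loc, h1.hg.weaken ?_ (fun _ _ h => h) (fun _ _ h => h)⟩, ?_, ?_, ?_, ?_,
    n0, n1, n2, n3⟩, ?_, ?_⟩, h2, ?_, hlt, h5, ?_⟩
  · intro s
    unfold H1
    split_ifs <;> omega
  · intro w hw
    by_cases hwz : w = z
    · subst hwz
      rw [h5, h6]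
      omega
    · rw [(ht w hw hwz).1, (ht w hw hwz).2]
      exact ty w hw
  · have := hone (fun a b => a = 1 ∧ b = 2)
    simp only [h5, h6, hz1, hz2] at this
    norm_num at this
    omega
  · have := hone (fun a b => a = 1 ∧ b = 1)
    simp only [h5, h6, hz1, hz2] at this
    norm_num at this
    omega
  · have := hone (fun a b => a = 2 ∧ b = 2)
    simp only [h5, h6, hz1, hz2] at this
    norm_num at this
    omega
  · intro w hw hw1 hw2 hw3
    by_cases hwz : w = z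
    · subst hwz
      omega
    · rw [h6, h4 w hwz]
      rw [(ht w hw hwz).1] at hw1
      rw [(ht w hw hwz).2] at hw2
      exact fl w hw hw1 hw2 fun h => hw3 ⟨h, hwz⟩
  · intro w hw
    by_cases hwz : w = z
    · subst hwz
      have := al w hw
      rw [h6]
      omega
    · rw [h6, h4 w hwz]
      exact al w hw
  · refine h3.trans ?_
    rw [← cr]
    refine card_filter_le_cn fun w hw h7 => ?_
    rcases ty w hw with h8 | h8 | h8 <;> omega
  · intro w hw hw1
    rw [h1.loc.eq z hz w hw]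
    unfold Rep.rel
    rw [h6]
    by_contra hle
    have := hm (show R.lo w ≤ R'.hi z by omega)
    omega

/-- raise the undecided element `z`, the height of region 2 may be one less than in the
definition -/
theorem P1sd.col' (hst : St r K R g (fun s => if s = 1 then o + 1 + y else if s = 2 then o + x
      else 0) A1 B1)
    (ty : ∀ z ∈ K, (g (R.lo z) = 1 ∧ g (R.hi z) = 2) ∨ (g (R.lo z) = 1 ∧ g (R.hi z) = 1) ∨
    (g (R.lo z) = 2 ∧ g (R.hi z) = 2))
    (co : cn K R g (fun a b => a = 1 ∧ b = 2) = o + 1)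
    (cl : cn K R g (fun a b => a = 1 ∧ b = 1) = y + N)
    (cr : cn K R g (fun a b => a = 2 ∧ b = 2) + 1 = x + M)
    (n0 : Ne g 0) (n1 : Ne g 1) (n2 : Ne g 2) (n3 : Ne g 3)
    (fl : ∀ z ∈ K, g (R.lo z) = 1 → g (R.hi z) = 2 → ¬ E z → R.lo z = a ∧ R.hi z = b)
    (al : ∀ z ∈ K, a ≤ R.lo z ∧ R.hi z ≤ b) {z : V} (hz : z ∈ K) (hz1 : g (R.lo z) = 1)
    (hz2 : g (R.hi z) = 2) :
    ∃ (r' : V → V → Prop) (R' : Rep V), P1sd r' K R' g a b (fun w => E w ∧ w ≠ z) o y N x M ∧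
      (∀ a b, r a b → r' a b) ∧ newP r r' ≤ y + N ∧
      (∀ w ∈ K, g (R.hi w) ≤ 1 → r' w z) := by
  classical
  obtain ⟨r', R', h1, h2, h3, h4, h5, h6⟩ := hst.raiseTo hz (ρ := 2) (by omega) (by omega) n2
    (fun a ha hc => by unfold B1 at hc; omega)
  have hm := hst.hg.mono
  have ht : ∀ w ∈ K, w ≠ z → g (R'.lo w) = g (R.lo w) ∧ g (R'.hi w) = g (R.hi w) :=
    fun w _ hw => ⟨by rw [h4 w hw], by rw [h6]⟩
  have hone := fun P => cn_one (P := P) hz ht
  have hlt : R.lo z < R'.lo z := by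
    by_contra hle
    have := hm (show R'.lo z ≤ R.lo z by omega)
    omega
  refine ⟨r', R', ⟨⟨⟨h1.loc, h1.hg.weaken ?_ (fun _ _ h => h) (fun _ _ h => h)⟩, ?_, ?_, ?_, ?_,
    n0, n1, n2, n3⟩, ?_, ?_⟩, h2, ?_, ?_⟩
  · intro s
    unfold H1
    split_ifs <;> omega
  · intro w hw
    by_cases hwz : w = z
    · subst hwz
      rw [h5, h6]
      omega
    · rw [(ht w hw hwz).1, (ht w hw hwz).2]
      exact ty w hw
  · have := hone (fun a b => a = 1 ∧ b = 2)
    simp only [h5, h6, hz1, hz2] at this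
    norm_num at this
    omega
  · have := hone (fun a b => a = 1 ∧ b = 1)
    simp only [h5, h6, hz1, hz2] at this
    norm_num at this
    omega
  · have := hone (fun a b => a = 2 ∧ b = 2)
    simp only [h5, h6, hz1, hz2] at this
    norm_num at this
    omega
  · intro w hw hw1 hw2 hw3
    by_cases hwz : w = z
    · subst hwz
      omega
    · rw [h6, h4 w hwz]
      rw [(ht w hw hwz).1] at hw1
      rw [(ht w hw hwz).2] at hw2
      exact fl w hw hw1 hw2 fun h => hw3 ⟨h, hwz⟩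
  · intro w hw
    by_cases hwz : w = z
    · subst hwz
      have := al w hw
      rw [h6]
      omega
    · rw [h6, h4 w hwz]
      exact al w hw
  · refine h3.trans ?_
    rw [← cl]
    refine card_filter_le_cn fun w hw h7 => ?_
    rcases ty w hw with h8 | h8 | h8 <;> omega
  · intro w hw hw1
    rw [h1.loc.eq w hw z hz]
    unfold Rep.rel
    rw [h6]
    by_contra hle
    have := hm (show R'.lo z ≤ R.hi w by omega)
    omega

/-- a row with the element `z` -/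
theorem P1sd.row (h : P1sd r K R g a b E (o + 1) y N x M) {z : V} (hz : z ∈ K)
    (hz1 : g (R.lo z) = 1) (hz2 : g (R.hi z) = 2) :
    ∃ (r' : V → V → Prop) (R' : Rep V),
      P1sd r' K R' g a b (fun w => E w ∧ w ≠ z) o (y + 1) N x M ∧
      (∀ a b, r a b → r' a b) ∧ newP r r' ≤ x + M ∧ R'.hi z < R.hi z ∧ g (R'.hi z) = 1 ∧
      (∀ w ∈ K, 2 ≤ g (R.lo w) → r' z w) :=
  P1sd.row' (o := o) (y := y + 1) (N := N) (x := x) (M := M)
    ⟨h.d.st.loc, h.d.st.hg.weaken (fun s => by unfold H1; split_ifs <;> omega) (fun _ _ h => h)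
      (fun _ _ h => h)⟩ h.d.ty h.d.co (by have := h.d.cl; omega) h.d.cr h.d.n0 h.d.n1 h.d.n2
      h.d.n3 h.fl h.al hz hz1 hz2

/-- a column with the element `z` -/
theorem P1sd.col (h : P1sd r K R g a b E (o + 1) y N x M) {z : V} (hz : z ∈ K)
    (hz1 : g (R.lo z) = 1) (hz2 : g (R.hi z) = 2) :
    ∃ (r' : V → V → Prop) (R' : Rep V),
      P1sd r' K R' g a b (fun w => E w ∧ w ≠ z) o y N (x + 1) M ∧
      (∀ a b, r a b → r' a b) ∧ newP r r' ≤ y + N ∧
      (∀ w ∈ K, g (R.hi w) ≤ 1 → r' w z) :=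
  P1sd.col' (o := o) (y := y) (N := N) (x := x + 1) (M := M)
    ⟨h.d.st.loc, h.d.st.hg.weaken (fun s => by unfold H1; split_ifs <;> omega) (fun _ _ h => h)
      (fun _ _ h => h)⟩ h.d.ty h.d.co h.d.cl (by have := h.d.cr; omega) h.d.n0 h.d.n1 h.d.n2
      h.d.n3 h.fl h.al hz hz1 hz2

omit [Fintype V] in
theorem P1sd.mono_E (h : P1sd r K R g a b E o y N x M) {E' : V → Prop} (hE : ∀ z, E z → E' z) :
    P1sd r K R g a b E' o y N x M :=
  ⟨h.d, fun z hz h1 h2 h3 => h.fl z hz h1 h2 fun h4 => h3 (hE z h4), h.al⟩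

theorem P1s.row (h : P1s r n (o + 1) y N x M) :
    ∃ r' : V → V → Prop, P1s r' n o (y + 1) N x M ∧ (∀ a b, r a b → r' a b) ∧
      newP r r' ≤ x + M := by
  obtain ⟨K, R, g, a, b, h, hn⟩ := h
  obtain ⟨z, hz, hz1, hz2⟩ := h.d.exists_open (by omega)
  obtain ⟨r', R', h1, h2, h3, _⟩ := h.row hz hz1 hz2
  exact ⟨r', ⟨K, R', g, a, b, h1.mono_E fun _ h => h.1, hn⟩, h2, h3⟩

theorem P1s.col (h : P1s r n (o + 1) y N x M) :
    ∃ r' : V → V → Prop, P1s r' n o y N (x + 1) M ∧ (∀ a b, r a b → r' a b) ∧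
      newP r r' ≤ y + N := by
  obtain ⟨K, R, g, a, b, h, hn⟩ := h
  obtain ⟨z, hz, hz1, hz2⟩ := h.d.exists_open (by omega)
  obtain ⟨r', R', h1, h2, h3, _⟩ := h.col hz hz1 hz2
  exact ⟨r', ⟨K, R', g, a, b, h1.mono_E fun _ h => h.1, hn⟩, h2, h3⟩

theorem P1x.row (h : P1x r n (o + 1) y N x M) :
    ∃ r' : V → V → Prop, P1s r' n o (y + 1) N x M ∧ (∀ a b, r a b → r' a b) ∧
      newP r r' ≤ x + M := by
  obtain ⟨K, R, g, a, b, z, hz, hz1, hz2, h, hn⟩ := h
  obtain ⟨r', R', h1, h2, h3, _⟩ := h.row hz hz1 hz2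
  exact ⟨r', ⟨K, R', g, a, b, h1.mono_E fun _ h => h.2 h.1, hn⟩, h2, h3⟩

theorem P1x.col (h : P1x r n (o + 1) y N x M) :
    ∃ r' : V → V → Prop, P1s r' n o y N (x + 1) M ∧ (∀ a b, r a b → r' a b) ∧
      newP r r' ≤ y + N := by
  obtain ⟨K, R, g, a, b, z, hz, hz1, hz2, h, hn⟩ := h
  obtain ⟨r', R', h1, h2, h3, _⟩ := h.col hz hz1 hz2
  exact ⟨r', ⟨K, R', g, a, b, h1.mono_E fun _ h => h.2 h.1, hn⟩, h2, h3⟩

theorem P1s.rows (i : ℕ) (h : P1s r n (o + i) y N x M) :
    ∃ r' : V → V → Prop, P1s r' n o (y + i) N x M ∧ (∀ a b, r a b → r' a b) ∧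
      newP r r' ≤ i * (x + M) := by
  induction i generalizing o y r with
  | zero => exact ⟨r, h, fun _ _ h => h, by rw [newP_self]; exact Nat.zero_le _⟩
  | succ i ih =>
    have h' : P1s r n ((o + 1) + i) y N x M := by
      have : o + 1 + i = o + (i + 1) := by ring
      rw [this]; exact h
    obtain ⟨r', h1, h2, h3⟩ := ih h'
    obtain ⟨r'', h4, h5, h6⟩ := h1.row
    refine ⟨r'', h4, fun a b hab => h5 a b (h2 a b hab), ?_⟩
    have e1 := newP_trans (r := r) (r' := r') (r'' := r'')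
    calc newP r r'' ≤ i * (x + M) + (x + M) := by omega
      _ = (i + 1) * (x + M) := by ring

theorem P1s.cols (i : ℕ) (h : P1s r n (o + i) y N x M) :
    ∃ r' : V → V → Prop, P1s r' n o y N (x + i) M ∧ (∀ a b, r a b → r' a b) ∧
      newP r r' ≤ i * (y + N) := by
  induction i generalizing o x r with
  | zero => exact ⟨r, h, fun _ _ h => h, by rw [newP_self]; exact Nat.zero_le _⟩
  | succ i ih =>
    have h' : P1s r n ((o + 1) + i) y N x M := by
      have : o + 1 + i = o + (i + 1) := by ring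
      rw [this]; exact h
    obtain ⟨r', h1, h2, h3⟩ := ih h'
    obtain ⟨r'', h4, h5, h6⟩ := h1.col
    refine ⟨r'', h4, fun a b hab => h5 a b (h2 a b hab), ?_⟩
    have e1 := newP_trans (r := r) (r' := r') (r'' := r'')
    calc newP r r'' ≤ i * (y + N) + (y + N) := by omega
      _ = (i + 1) * (y + N) := by ring

/-- `i` rows and `j` columns -/
theorem P1s.buy (i j : ℕ) (h : P1s r n (o + i + j) y N x M) :
    ∃ r' : V → V → Prop, P1s r' n o (y + i) N (x + j) M ∧ (∀ a b, r a b → r' a b) ∧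
      newP r r' ≤ i * (x + M) + j * (y + N) + i * j := by
  have h' : P1s r n ((o + j) + i) y N x M := by
    have : o + j + i = o + i + j := by ring
    rw [this]; exact h
  obtain ⟨r', h1, h2, h3⟩ := h'.rows i
  obtain ⟨r'', h4, h5, h6⟩ := h1.cols j
  refine ⟨r'', h4, fun a b hab => h5 a b (h2 a b hab), ?_⟩
  have e1 := newP_trans (r := r) (r' := r') (r'' := r'')
  calc newP r r'' ≤ i * (x + M) + j * (y + i + N) := by omega
    _ = i * (x + M) + j * (y + N) + i * j := by ring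

/-- `i` rows and `j` columns, at least one operation, with an exceptional element -/
theorem P1x.buy (i j : ℕ) (hij : 1 ≤ i + j) (h : P1x r n (o + i + j) y N x M) :
    ∃ r' : V → V → Prop, P1s r' n o (y + i) N (x + j) M ∧ (∀ a b, r a b → r' a b) ∧
      newP r r' ≤ i * (x + M) + j * (y + N) + i * j := by
  by_cases hi : 1 ≤ i
  · obtain ⟨i', rfl⟩ : ∃ i', i = i' + 1 := ⟨i - 1, by omega⟩
    have h' : P1x r n ((o + i' + j) + 1) y N x M := by
      have : o + i' + j + 1 = o + (i' + 1) + j := by ring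
      rw [this]; exact h
    obtain ⟨r', h1, h2, h3⟩ := h'.row
    obtain ⟨r'', h4, h5, h6⟩ := h1.buy i' j
    refine ⟨r'', ?_, fun a b hab => h5 a b (h2 a b hab), ?_⟩
    · have : y + (i' + 1) = y + 1 + i' := by ring
      rw [this]; exact h4
    · have e1 := newP_trans (r := r) (r' := r') (r'' := r'')
      calc newP r r'' ≤ (x + M) + (i' * (x + M) + j * (y + 1 + N) + i' * j) := by omega
        _ = (i' + 1) * (x + M) + j * (y + N) + (i' + 1) * j := by ring
  · obtain ⟨j', rfl⟩ : ∃ j', j = j' + 1 := ⟨j - 1, by omega⟩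
    obtain rfl : i = 0 := by omega
    have h' : P1x r n ((o + 0 + j') + 1) y N x M := by
      have : o + 0 + j' + 1 = o + 0 + (j' + 1) := by ring
      rw [this]; exact h
    obtain ⟨r', h1, h2, h3⟩ := h'.col
    obtain ⟨r'', h4, h5, h6⟩ := h1.buy 0 j'
    refine ⟨r'', ?_, fun a b hab => h5 a b (h2 a b hab), ?_⟩
    · have : x + (j' + 1) = x + 1 + j' := by ring
      rw [this]; exact h4
    · have e1 := newP_trans (r := r) (r' := r') (r'' := r'')
      calc newP r r'' ≤ (y + N) + (0 * (x + 1 + M) + j' * (y + N) + 0 * j') := by omega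
        _ = 0 * (x + M) + (j' + 1) * (y + N) + 0 * (j' + 1) := by ring

end

end Pool.Agent.OCN
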