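import Pool.Agent.Lib_helper16.OCN.P1s

/-!
# MP_aeb124_co: phase 1 with flat undecided elements, the attacks
-/

set_option autoImplicit false

namespace Pool.Agent.OCN

variable {V : Type} {r : V → V → Prop} {K : Finset V} {R : Rep V} {g : ℤ → ℤ} {a b : ℤ}
  {o y N x M n : ℕ}

/-- the types and the flatness after a cut at `p` -/
theorem P1sd.after (h : P1sd r K R g a b (fun _ => False) o y N x M) {R' : Rep V} {p : ℤ}
    {u v : V} (hu : u ∈ K) (hcu : R.Cr u p)
    (e1 : R'.lo v = p + 1) (e2 : R'.hi u = p)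
    (e3 : ∀ z, z ≠ v → (p < R.lo z ∧ R'.lo z = R.lo z + 1) ∨ (R.lo z ≤ p ∧ R'.lo z = R.lo z))
    (e4 : ∀ z, z ≠ u → (p ≤ R.hi z ∧ R'.hi z = R.hi z + 1) ∨ (R.hi z < p ∧ R'.hi z = R.hi z)) :
    cg g p (R'.lo v) = g p ∧ cg g p (R'.hi u) = g p ∧
    (∀ z, z ≠ v → cg g p (R'.lo z) = g (R.lo z)) ∧
    (∀ z, z ≠ u → cg g p (R'.hi z) = g (R.hi z)) ∧
    (∀ w ∈ K, cg g p (R'.lo w) = 1 → cg g p (R'.hi w) = 2 → w ≠ u → w ≠ v →
      R'.lo w = a ∧ R'.hi w = b + 1) ∧
    (∀ w ∈ K, a ≤ R'.lo w ∧ R'.hi w ≤ b + 1) := by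
  have t1 : cg g p (R'.lo v) = g p := by
    rw [e1, cg_gt (by omega)]
    congr 1
    ring
  have t2 : cg g p (R'.hi u) = g p := by rw [e2, cg_le le_rfl]
  have t3 : ∀ z, z ≠ v → cg g p (R'.lo z) = g (R.lo z) := fun z hz => by
    rcases e3 z hz with ⟨h1, h2⟩ | ⟨h1, h2⟩
    · rw [h2, cg_gt (by omega)]
      congr 1
      ring
    · rw [h2, cg_le h1]
  have t4 : ∀ z, z ≠ u → cg g p (R'.hi z) = g (R.hi z) := fun z hz => by
    rcases e4 z hz with ⟨h1, h2⟩ | ⟨h1, h2⟩
    · rw [h2, cg_gt (by omega)]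
      congr 1
      ring
    · rw [h2, cg_le (by omega)]
  have hau := h.al u hu
  have hcu1 := hcu.1
  have hcu2 := hcu.2
  refine ⟨t1, t2, t3, t4, fun w hw hw1 hw2 hwu hwv => ?_, fun w hw => ?_⟩
  · rw [t3 w hwv] at hw1
    rw [t4 w hwu] at hw2
    obtain ⟨h1, h2⟩ := h.fl w hw hw1 hw2 (fun h => h)
    rcases e3 w hwv with ⟨h3, h4⟩ | ⟨h3, h4⟩ <;> rcases e4 w hwu with ⟨h5, h6⟩ | ⟨h5, h6⟩ <;>
      constructor <;> omega
  · have haw := h.al w hw
    constructor
    · by_cases hwv : w = v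
      · rw [hwv, e1]
        omega
      · rcases e3 w hwv with ⟨h3, h4⟩ | ⟨h3, h4⟩ <;> omega
    · by_cases hwu : w = u
      · rw [hwu, e2]
        omega
      · rcases e4 w hwu with ⟨h5, h6⟩ | ⟨h5, h6⟩ <;> omega

variable [Fintype V]

/-- the attacks in phase 1 -/
theorem P1s.attack (h : P1s r n (o + 1) y N x M) {u v : V} (huv : u ≠ v)
    (hn1 : ¬ r u v) (hn2 : ¬ r v u) :
    (∃ r' : V → V → Prop, P1s r' n o y (N + 1) x M ∧ (∀ a b, r a b → r' a b) ∧ r' u v ∧
      newP r r' + (o + y) ≤ n) ∨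
    (∃ r' : V → V → Prop, P1s r' n o y N x (M + 1) ∧ (∀ a b, r a b → r' a b) ∧ r' u v ∧
      newP r r' + (o + x) ≤ n) ∨
    ((∃ r' : V → V → Prop, P1x r' n o y (N + 1) x M ∧ (∀ a b, r a b → r' a b) ∧ r' u v ∧
      newP r r' + (o + y) ≤ n) ∧
    (∃ r' : V → V → Prop, P1x r' n o y N x (M + 1) ∧ (∀ a b, r a b → r' a b) ∧ r' u v ∧
      newP r r' + (o + x) ≤ n)) := by
  classical
  obtain ⟨K, R, g, a, b, h, hn⟩ := h
  have hcard := h.d.card
  obtain ⟨hu, hv⟩ := h.d.st.loc.mem huv hn1 hn2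
  have hm := h.d.st.hg.mono
  -- comparable pairs
  have hcmp : ∀ a ∈ K, ∀ b ∈ K, g (R.hi a) < g (R.lo b) → r a b := by
    intro a ha b hb hab
    rw [h.d.st.loc.eq a ha b hb]
    unfold Rep.rel
    by_contra hlt
    have := hm (show R.lo b ≤ R.hi a by omega)
    omega
  have hlu := hm (R.le u)
  have hlv := hm (R.le v)
  have hne : ∀ {p : ℤ} {s : ℤ}, Ne g s → Ne (cg g p) s := fun h => (ne_cg _).2 h
  -- the left answer
  have caseL : g (R.hi u) = 2 → g (R.lo u) = 1 → g (R.lo v) = 1 →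
      ∃ (r' : V → V → Prop) (R' : Rep V) (g' : ℤ → ℤ),
        P1sd r' K R' g' a (b + 1) (fun w => w = v) o y (N + 1) x M ∧
        (∀ a b, r a b → r' a b) ∧ r' u v ∧ newP r r' + (o + y) ≤ n ∧
        g' (R'.lo v) = 1 ∧ g' (R'.hi v) = g (R.hi v) := by
    intro hu2 hu1 hv1
    obtain ⟨r', R', p, k1, k2, k3, k4, k5, k6, k7, k8, k9, k10, k11⟩ :=
      h.d.st.attackP huv hn1 hn2 (ρ := 1) (by omega) (by omega) (by omega) (by omega) h.d.n1
    obtain ⟨t1, t2, t3, t4, t5, t6⟩ := h.after hu k2 k8 k9 k10 k11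
    rw [k1] at t1 t2
    have hty : ∀ z ∈ K, z ≠ u → z ≠ v → cg g p (R'.lo z) = g (R.lo z) ∧
        cg g p (R'.hi z) = g (R.hi z) := fun z _ hzu hzv => ⟨t3 z hzv, t4 z hzu⟩
    have htwo := fun P => cn_two (P := P) hu hv huv hty
    have eul : cg g p (R'.lo u) = 1 := by rw [t3 u huv, hu1]
    have evh : cg g p (R'.hi v) = g (R.hi v) := t4 v huv.symm
    refine ⟨r', R', cg g p, ⟨⟨⟨k4.loc, k4.hg.weaken ?_ (fun _ _ h => h) (fun _ _ h => h)⟩, ?_,
      ?_, ?_, ?_, hne h.d.n0, hne h.d.n1, hne h.d.n2, hne h.d.n3⟩, ?_, t6⟩, k5, k6, ?_, t1, evh⟩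
    · intro s
      rw [hv1, hu2]
      unfold H1
      split_ifs <;> omega
    · intro z hz
      by_cases hzu : z = u
      · subst hzu
        rw [eul, t2]
        omega
      · by_cases hzv : z = v
        · subst hzv
          rw [t1, evh]
          rcases h.d.ty z hz with h1 | h1 | h1 <;> omega
        · rw [(hty z hz hzu hzv).1, (hty z hz hzu hzv).2]
          exact h.d.ty z hz
    · have e1 := htwo (fun a b => a = 1 ∧ b = 2)
      have e2 := h.d.co
      rcases h.d.ty v hv with h1 | h1 | h1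
      · simp only [eul, t2, t1, evh, hu1, hu2, hv1, h1.2] at e1
        norm_num at e1
        omega
      · simp only [eul, t2, t1, evh, hu1, hu2, hv1, h1.2] at e1
        norm_num at e1
        omega
      · omega
    · have e1 := htwo (fun a b => a = 1 ∧ b = 1)
      have e2 := h.d.cl
      rcases h.d.ty v hv with h1 | h1 | h1
      · simp only [eul, t2, t1, evh, hu1, hu2, hv1, h1.2] at e1
        norm_num at e1
        omega
      · simp only [eul, t2, t1, evh, hu1, hu2, hv1, h1.2] at e1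
        norm_num at e1
        omega
      · omega
    · have e1 := htwo (fun a b => a = 2 ∧ b = 2)
      have e2 := h.d.cr
      rcases h.d.ty v hv with h1 | h1 | h1
      · simp only [eul, t2, t1, evh, hu1, hu2, hv1, h1.2] at e1
        norm_num at e1
        omega
      · simp only [eul, t2, t1, evh, hu1, hu2, hv1, h1.2] at e1
        norm_num at e1
        omega
      · omega
    · intro w hw hw1 hw2 hwv
      have hwu : w ≠ u := by
        rintro rfl
        rw [t2] at hw2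
        omega
      exact t5 w hw hw1 hw2 hwu hwv
    · unfold H1 at k7
      rw [if_pos rfl] at k7
      omega
  -- the right answer
  have caseT : g (R.hi u) = 2 → g (R.lo v) = 1 → g (R.hi v) = 2 →
      ∃ (r' : V → V → Prop) (R' : Rep V) (g' : ℤ → ℤ),
        P1sd r' K R' g' a (b + 1) (fun w => w = u) o y N x (M + 1) ∧
        (∀ a b, r a b → r' a b) ∧ r' u v ∧ newP r r' + (o + x) ≤ n ∧
        g' (R'.lo u) = g (R.lo u) ∧ g' (R'.hi u) = 2 := by
    intro hu2 hv1 hv2
    obtain ⟨r', R', p, k1, k2, k3, k4, k5, k6, k7, k8, k9, k10, k11⟩ :=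
      h.d.st.attackP huv hn1 hn2 (ρ := 2) (by omega) (by omega) (by omega) (by omega) h.d.n2
    obtain ⟨t1, t2, t3, t4, t5, t6⟩ := h.after hu k2 k8 k9 k10 k11
    rw [k1] at t1 t2
    have hty : ∀ z ∈ K, z ≠ u → z ≠ v → cg g p (R'.lo z) = g (R.lo z) ∧
        cg g p (R'.hi z) = g (R.hi z) := fun z _ hzu hzv => ⟨t3 z hzv, t4 z hzu⟩
    have htwo := fun P => cn_two (P := P) hu hv huv hty
    have eul : cg g p (R'.lo u) = g (R.lo u) := t3 u huv
    have evh : cg g p (R'.hi v) = 2 := by rw [t4 v huv.symm, hv2]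
    refine ⟨r', R', cg g p, ⟨⟨⟨k4.loc, k4.hg.weaken ?_ (fun _ _ h => h) (fun _ _ h => h)⟩, ?_,
      ?_, ?_, ?_, hne h.d.n0, hne h.d.n1, hne h.d.n2, hne h.d.n3⟩, ?_, t6⟩, k5, k6, ?_, eul, t2⟩
    · intro s
      rw [hv1, hu2]
      unfold H1
      split_ifs <;> omega
    · intro z hz
      by_cases hzu : z = u
      · subst hzu
        rw [eul, t2]
        rcases h.d.ty z hz with h1 | h1 | h1 <;> omega
      · by_cases hzv : z = v
        · subst hzv
          rw [t1, evh]
          omega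
        · rw [(hty z hz hzu hzv).1, (hty z hz hzu hzv).2]
          exact h.d.ty z hz
    · have e1 := htwo (fun a b => a = 1 ∧ b = 2)
      have e2 := h.d.co
      rcases h.d.ty u hu with h1 | h1 | h1
      · simp only [eul, t2, t1, evh, h1.1, hu2, hv1, hv2] at e1
        norm_num at e1
        omega
      · omega
      · simp only [eul, t2, t1, evh, h1.1, hu2, hv1, hv2] at e1
        norm_num at e1
        omega
    · have e1 := htwo (fun a b => a = 1 ∧ b = 1)
      have e2 := h.d.cl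
      rcases h.d.ty u hu with h1 | h1 | h1
      · simp only [eul, t2, t1, evh, h1.1, hu2, hv1, hv2] at e1
        norm_num at e1
        omega
      · omega
      · simp only [eul, t2, t1, evh, h1.1, hu2, hv1, hv2] at e1
        norm_num at e1
        omega
    · have e1 := htwo (fun a b => a = 2 ∧ b = 2)
      have e2 := h.d.cr
      rcases h.d.ty u hu with h1 | h1 | h1
      · simp only [eul, t2, t1, evh, h1.1, hu2, hv1, hv2] at e1
        norm_num at e1
        omega
      · omega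
      · simp only [eul, t2, t1, evh, h1.1, hu2, hv1, hv2] at e1
        norm_num at e1
        omega
    · intro w hw hw1 hw2 hwu
      have hwv : w ≠ v := by
        rintro rfl
        rw [t1] at hw1
        omega
      exact t5 w hw hw1 hw2 hwu hwv
    · unfold H1 at k7
      rw [if_neg (by norm_num), if_pos rfl] at k7
      omega
  -- attacks inside of the left part
  have caseL' : g (R.hi u) = 1 → g (R.hi v) = 1 →
      ∃ r' : V → V → Prop, P1s r' n o y (N + 1) x M ∧ (∀ a b, r a b → r' a b) ∧ r' u v ∧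
      newP r r' + (o + y) ≤ n := by
    intro hu2 hv2
    have hu1 : g (R.lo u) = 1 := by
      rcases h.d.ty u hu with h1 | h1 | h1 <;> omega
    have hv1 : g (R.lo v) = 1 := by
      rcases h.d.ty v hv with h1 | h1 | h1 <;> omega
    obtain ⟨r', R', p, k1, k2, k3, k4, k5, k6, k7, k8, k9, k10, k11⟩ :=
      h.d.st.attackP huv hn1 hn2 (ρ := 1) (by omega) (by omega) (by omega) (by omega) h.d.n1
    obtain ⟨t1, t2, t3, t4, t5, t6⟩ := h.after hu k2 k8 k9 k10 k11
    rw [k1] at t1 t2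
    have hty : ∀ z, cg g p (R'.lo z) = g (R.lo z) ∧ cg g p (R'.hi z) = g (R.hi z) := by
      intro z
      constructor
      · by_cases hzv : z = v
        · rw [hzv, t1, hv1]
        · exact t3 z hzv
      · by_cases hzu : z = u
        · rw [hzu, t2, hu2]
        · exact t4 z hzu
    have hcn : ∀ P, cn K R' (cg g p) P = cn K R g P := fun P => cn_congr fun z _ => by
      rw [(hty z).1, (hty z).2]
    obtain ⟨z, hz, hz1, hz2⟩ := h.d.exists_open (by omega)
    obtain ⟨r'', R'', m1, m2, m3, _⟩ := P1sd.row' (r := r') (K := K) (R := R') (g := cg g p)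
      (a := a) (b := b + 1) (E := fun _ => False) (z := z)
      (o := o) (y := y) (N := N + 1) (x := x) (M := M)
      ⟨k4.loc, k4.hg.weaken (fun s => by
        rw [hv1, hu2]
        unfold H1
        split_ifs <;> omega) (fun _ _ h => h) (fun _ _ h => h)⟩
      (fun z hz => by rw [(hty z).1, (hty z).2]; exact h.d.ty z hz)
      (by rw [hcn]; exact h.d.co) (by rw [hcn, h.d.cl]; ring) (by rw [hcn]; exact h.d.cr)
      (hne h.d.n0) (hne h.d.n1) (hne h.d.n2) (hne h.d.n3)
      (fun w hw hw1 hw2 _ => by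
        refine t5 w hw hw1 hw2 ?_ ?_
        · rintro rfl
          rw [t2] at hw2
          omega
        · rintro rfl
          rw [(hty w).2, hv2] at hw2
          omega)
      t6 hz (by rw [(hty z).1]; exact hz1) (by rw [(hty z).2]; exact hz2)
    refine ⟨r'', ⟨K, R'', cg g p, a, b + 1, m1.mono_E fun _ h => h.1, hn⟩,
      fun a b hab => m2 a b (k5 a b hab), m2 u v k6, ?_⟩
    have e1 := newP_trans (r := r) (r' := r') (r'' := r'')
    have e2 := h.d.abv1
    rw [hu2, e2] at k7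
    unfold H1 at k7
    rw [if_pos rfl] at k7
    omega
  -- attacks inside of the right part
  have caseT' : g (R.lo u) = 2 → g (R.lo v) = 2 →
      ∃ r' : V → V → Prop, P1s r' n o y N x (M + 1) ∧ (∀ a b, r a b → r' a b) ∧ r' u v ∧
      newP r r' + (o + x) ≤ n := by
    intro hu1 hv1
    have hu2 : g (R.hi u) = 2 := by
      rcases h.d.ty u hu with h1 | h1 | h1 <;> omega
    have hv2 : g (R.hi v) = 2 := by
      rcases h.d.ty v hv with h1 | h1 | h1 <;> omega
    obtain ⟨r', R', p, k1, k2, k3, k4, k5, k6, k7, k8, k9, k10, k11⟩ :=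
      h.d.st.attackP huv hn1 hn2 (ρ := 2) (by omega) (by omega) (by omega) (by omega) h.d.n2
    obtain ⟨t1, t2, t3, t4, t5, t6⟩ := h.after hu k2 k8 k9 k10 k11
    rw [k1] at t1 t2
    have hty : ∀ z, cg g p (R'.lo z) = g (R.lo z) ∧ cg g p (R'.hi z) = g (R.hi z) := by
      intro z
      constructor
      · by_cases hzv : z = v
        · rw [hzv, t1, hv1]
        · exact t3 z hzv
      · by_cases hzu : z = u
        · rw [hzu, t2, hu2]
        · exact t4 z hzu
    have hcn : ∀ P, cn K R' (cg g p) P = cn K R g P := fun P => cn_congr fun z _ => by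
      rw [(hty z).1, (hty z).2]
    obtain ⟨z, hz, hz1, hz2⟩ := h.d.exists_open (by omega)
    obtain ⟨r'', R'', m1, m2, m3, _⟩ := P1sd.col' (r := r') (K := K) (R := R') (g := cg g p)
      (a := a) (b := b + 1) (E := fun _ => False) (z := z)
      (o := o) (y := y) (N := N) (x := x) (M := M + 1)
      ⟨k4.loc, k4.hg.weaken (fun s => by
        rw [hv1, hu2]
        unfold H1
        split_ifs <;> omega) (fun _ _ h => h) (fun _ _ h => h)⟩
      (fun z hz => by rw [(hty z).1, (hty z).2]; exact h.d.ty z hz)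
      (by rw [hcn]; exact h.d.co) (by rw [hcn]; exact h.d.cl) (by rw [hcn, h.d.cr]; ring)
      (hne h.d.n0) (hne h.d.n1) (hne h.d.n2) (hne h.d.n3)
      (fun w hw hw1 hw2 _ => by
        refine t5 w hw hw1 hw2 ?_ ?_
        · rintro rfl
          rw [(hty w).1, hu1] at hw1
          omega
        · rintro rfl
          rw [t1] at hw1
          omega)
      t6 hz (by rw [(hty z).1]; exact hz1) (by rw [(hty z).2]; exact hz2)
    refine ⟨r'', ⟨K, R'', cg g p, a, b + 1, m1.mono_E fun _ h => h.1, hn⟩,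
      fun a b hab => m2 a b (k5 a b hab), m2 u v k6, ?_⟩
    have e1 := newP_trans (r := r) (r' := r') (r'' := r'')
    have e2 := h.d.blw2
    rw [hu2, hv1, e2] at k7
    unfold H1 at k7
    rw [if_neg (by norm_num), if_pos rfl] at k7
    omega
  -- all cases
  rcases h.d.ty u hu with ⟨hu1, hu2⟩ | ⟨hu1, hu2⟩ | ⟨hu1, hu2⟩
  · rcases h.d.ty v hv with ⟨hv1, hv2⟩ | ⟨hv1, hv2⟩ | ⟨hv1, hv2⟩
    · -- both undecided
      obtain ⟨r1, R1, g1, a1, a2, a3, a4, a5, a6⟩ := caseL hu2 hu1 hv1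
      obtain ⟨r2, R2, g2, b1, b2, b3, b4, b5, b6⟩ := caseT hu2 hv1 hv2
      exact Or.inr (Or.inr ⟨⟨r1, ⟨K, R1, g1, a, b + 1, v, hv, a5, by rw [a6, hv2], a1, hn⟩, a2, a3,
        a4⟩, r2, ⟨K, R2, g2, a, b + 1, u, hu, by rw [b5, hu1], b6, b1, hn⟩, b2, b3, b4⟩)
    · -- an undecided element attacks the left part
      obtain ⟨r1, R1, g1, a1, a2, a3, a4, a5, a6⟩ := caseL hu2 hu1 hv1
      refine Or.inl ⟨r1, ⟨K, R1, g1, a, b + 1, ⟨a1.d, fun z hz h1 h2 _ => ?_, a1.al⟩, hn⟩, a2,
        a3, a4⟩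
      refine a1.fl z hz h1 h2 ?_
      rintro rfl
      rw [a6, hv2] at h2
      omega
    · -- an undecided element attacks the right part
      obtain ⟨r1, R1, a1, a2, a3, a4, a5, a6⟩ := h.row hu hu1 hu2
      refine Or.inl ⟨r1, ⟨K, R1, g, a, b, (a1.mono_E fun _ h => h.1).weaken (by omega) (by omega)
        le_rfl rfl, hn⟩, a2, a6 v hv (by omega), ?_⟩
      omega
  · rcases h.d.ty v hv with ⟨hv1, hv2⟩ | ⟨hv1, hv2⟩ | ⟨hv1, hv2⟩
    · -- the left part attacks an undecided element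
      obtain ⟨r1, R1, a1, a2, a3, a4⟩ := h.col hv hv1 hv2
      refine Or.inr (Or.inl ⟨r1, ⟨K, R1, g, a, b, (a1.mono_E fun _ h => h.1).weaken le_rfl rfl
        (by omega) (by omega), hn⟩, a2, a4 u hu (by omega), ?_⟩)
      omega
    · exact Or.inl (caseL' hu2 hv2)
    · exact absurd (hcmp u hu v hv (by omega)) hn1
  · rcases h.d.ty v hv with ⟨hv1, hv2⟩ | ⟨hv1, hv2⟩ | ⟨hv1, hv2⟩
    · -- the right part attacks an undecided element
      obtain ⟨r2, R2, g2, b1, b2, b3, b4, b5, b6⟩ := caseT hu2 hv1 hv2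
      refine Or.inr (Or.inl ⟨r2, ⟨K, R2, g2, a, b + 1, ⟨b1.d, fun z hz h1 h2 _ => ?_, b1.al⟩,
        hn⟩, b2, b3, b4⟩)
      refine b1.fl z hz h1 h2 ?_
      rintro rfl
      rw [b5, hu1] at h1
      omega
    · exact absurd (hcmp v hv u hu (by omega)) hn2
    · exact Or.inr (Or.inl (caseT' hu1 hv1))

omit [Fintype V] in
theorem P1s.so (h : P1s r n o y N x M) : SO r := by
  obtain ⟨K, R, g, a, b, h, _⟩ := h
  exact h.d.st.loc.so

omit [Fintype V] in
theorem P1s.card (h : P1s r n o y N x M) : n = o + y + N + x + M := by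
  obtain ⟨K, R, g, a, b, h, hn⟩ := h
  rw [← hn]
  exact h.d.card

/-- the first position -/
theorem P1s.init : P1s (fun _ _ : V => False) (Fintype.card V) (Fintype.card V) 0 0 0 0 := by
  classical
  have e0 : g0 0 1 2 3 0 = 1 := by unfold g0; simp
  have e1 : g0 0 1 2 3 1 = 2 := by unfold g0; simp
  have e2 : g0 0 1 2 3 2 = 3 := by unfold g0; simp
  have e3 : g0 0 1 2 3 (-1) = 0 := by unfold g0; simp
  have hlo : ∀ z : V, g0 0 1 2 3 ((R0 V).lo z) = 1 := fun z => e0
  have hhi : ∀ z : V, g0 0 1 2 3 ((R0 V).hi z) = 2 := fun z => e1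
  refine ⟨Finset.univ, R0 V, g0 0 1 2 3, 0, 1, ⟨⟨R0_st (by norm_num) (by norm_num) (by norm_num)
    ?_ ?_ ?_ ?_, ?_, ?_, ?_, ?_, ⟨-1, e3⟩, ⟨0, e0⟩, ⟨1, e1⟩, ⟨2, e2⟩⟩, ?_, ?_⟩, Finset.card_univ⟩
  · unfold H1; simp
  · unfold H1; simp
  · unfold A1; omega
  · unfold B1; omega
  · intro z _
    exact Or.inl ⟨hlo z, hhi z⟩
  · rw [← Finset.card_univ, ← cn_true (K := (Finset.univ : Finset V)) (R := R0 V)
      (g := g0 0 1 2 3)]
    refine cn_congr fun z _ => ?_
    rw [hlo, hhi]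
    simp
  · by_contra hne
    obtain ⟨z, _, hz⟩ := cn_pos (Nat.pos_of_ne_zero hne)
    rw [hlo, hhi] at hz
    omega
  · by_contra hne
    obtain ⟨z, _, hz⟩ := cn_pos (Nat.pos_of_ne_zero hne)
    rw [hlo, hhi] at hz
    omega
  · exact fun z _ _ _ _ => ⟨rfl, rfl⟩
  · exact fun z _ => ⟨le_rfl, le_rfl⟩

omit [Fintype V] in
/-- the dual position -/
theorem P1s.flip (h : P1s r n o y N x M) : P1s (flip r) n o x M y N := by
  obtain ⟨K, R, g, a, b, hs, hn⟩ := h
  have h := hs.d
  have hd := h.st.dual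
  have hφ : Monotone (fun s : ℤ => s + 3) := fun a b hab => by simp only; omega
  have hg : Hg K R.dual (fun p => dg g p + 3) (H1 o x y) A1 B1 := by
    refine hd.hg.relab hφ ?_ ?_ ?_
    · intro s _
      unfold H1
      split_ifs <;> omega
    · intro a b _ hab
      unfold A1 at hab
      unfold dc B1
      omega
    · intro a b _ hab
      unfold B1 at hab
      unfold dc A1
      omega
  have hne : ∀ s, Ne g s → Ne (fun p => dg g p + 3) (3 - s) := by
    rintro s ⟨p, hp⟩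
    refine ⟨-p, ?_⟩
    unfold dg
    simp only [neg_neg]
    omega
  refine ⟨K, R.dual, fun p => dg g p + 3, -b, -a, ⟨⟨⟨hd.loc, hg⟩, ?_, ?_, ?_, ?_, ?_, ?_, ?_, ?_⟩,
    ?_, ?_⟩, hn⟩
  · intro z hz
    simp only [dlo, dhi]
    rcases h.ty z hz with h1 | h1 | h1 <;> omega
  · rw [← h.co]
    refine cn_congr fun z hz => ?_
    simp only [dlo, dhi]
    omega
  · rw [← h.cr]
    refine cn_congr fun z hz => ?_
    simp only [dlo, dhi]
    omega
  · rw [← h.cl]
    refine cn_congr fun z hz => ?_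
    simp only [dlo, dhi]
    omega
  · exact hne 3 h.n3
  · exact hne 2 h.n2
  · exact hne 1 h.n1
  · exact hne 0 h.n0
  · intro z hz h1 h2 _
    simp only [dlo, dhi] at h1 h2
    obtain ⟨h3, h4⟩ := hs.fl z hz (by omega) (by omega) (fun h => h)
    unfold Rep.dual
    simp only
    omega
  · intro z hz
    have := hs.al z hz
    unfold Rep.dual
    simp only
    omega

/-- the number game of phase 1 with flat undecided elements: at least one of the two steps has to
contain a row or a column -/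
theorem P1s.closed {B n : ℕ} {E : Set (V → V → Prop)} (Φ : ℕ → ℕ → ℕ → ℕ → ℕ → Prop)
    (hΦ : ∀ o y N x M, Φ o y N x M → n = o + y + N + x + M →
      (∀ r : V → V → Prop, P1s r n o y N x M → r ∈ E) ∨
      (1 ≤ o ∧ ∃ i j o' i' j' o'', 1 ≤ i + j + i' + j' ∧
        (o = o' + i + j + 1 ∧
          n + i * (x + M) + j * (y + N + 1) + i * j ≤ B + (o - 1 + y) ∧
          Φ o' (y + i) (N + 1) (x + j) M) ∧
        (o = o'' + i' + j' + 1 ∧
          n + i' * (x + M + 1) + j' * (y + N) + i' * j' ≤ B + (o - 1 + x) ∧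
          Φ o'' (y + i') N (x + j') (M + 1))))
    (hE : ∀ r ∈ E, Ans B (E ∪ {r | ∃ o y N x M, P1s r n o y N x M ∧ Φ o y N x M}) r) :
    ClosedR B (E ∪ {r : V → V → Prop | ∃ o y N x M, P1s r n o y N x M ∧ Φ o y N x M}) := by
  rw [closedR_iff]
  rintro r (hr | ⟨o, y, N, x, M, h, hs⟩)
  · exact hE r hr
  · have hn := h.card
    rcases hΦ o y N x M hs hn with h1 | ⟨ho, i, j, o', i', j', o'', hij, ⟨h1, h2, h3⟩,
      ⟨h4, h5, h6⟩⟩
    · exact hE r (h1 r h)
    · intro u v huv hn1 hn2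
      obtain ⟨o1, rfl⟩ : ∃ o1, o = o1 + 1 := ⟨o - 1, by omega⟩
      have e3 : y + (N + 1) = y + N + 1 := by ring
      have e3' : x + (M + 1) = x + M + 1 := by ring
      have e4 : o1 + 1 - 1 = o1 := by omega
      rw [e4] at h2 h5
      have e1 : o1 = o' + i + j := by omega
      have e1' : o1 = o'' + i' + j' := by omega
      have finL : ∀ (r' r'' : V → V → Prop), (∀ a b, r a b → r' a b) → r' u v →
          newP r r' + (o1 + y) ≤ n → P1s r'' n o' (y + i) (N + 1) (x + j) M →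
          (∀ a b, r' a b → r'' a b) → newP r' r'' ≤ i * (x + M) + j * (y + N + 1) + i * j →
          ∃ r'' ∈ (E ∪ {r : V → V → Prop | ∃ o y N x M, P1s r n o y N x M ∧ Φ o y N x M}),
            (∀ a b, r a b → r'' a b) ∧ r'' u v ∧ newP r r'' ≤ B := by
        intro r' r'' k2 k3 k4 m1 m2 m3
        refine ⟨r'', Or.inr ⟨_, _, _, _, _, m1, h3⟩, fun a b hab => m2 a b (k2 a b hab),
          m2 u v k3, ?_⟩
        have e2 := newP_trans (r := r) (r' := r') (r'' := r'')
        omega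
      have finT : ∀ (r' r'' : V → V → Prop), (∀ a b, r a b → r' a b) → r' u v →
          newP r r' + (o1 + x) ≤ n → P1s r'' n o'' (y + i') N (x + j') (M + 1) →
          (∀ a b, r' a b → r'' a b) →
          newP r' r'' ≤ i' * (x + M + 1) + j' * (y + N) + i' * j' →
          ∃ r'' ∈ (E ∪ {r : V → V → Prop | ∃ o y N x M, P1s r n o y N x M ∧ Φ o y N x M}),
            (∀ a b, r a b → r'' a b) ∧ r'' u v ∧ newP r r'' ≤ B := by
        intro r' r'' k2 k3 k4 m1 m2 m3
        refine ⟨r'', Or.inr ⟨_, _, _, _, _, m1, h6⟩, fun a b hab => m2 a b (k2 a b hab),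
          m2 u v k3, ?_⟩
        have e2 := newP_trans (r := r) (r' := r') (r'' := r'')
        omega
      rcases h.attack huv hn1 hn2 with ⟨r', k1, k2, k3, k4⟩ | ⟨r', k1, k2, k3, k4⟩ |
        ⟨⟨r1, k1, k2, k3, k4⟩, ⟨r2, l1, l2, l3, l4⟩⟩
      · rw [e1] at k1
        obtain ⟨r'', m1, m2, m3⟩ := k1.buy i j
        rw [e3] at m3
        exact finL r' r'' k2 k3 k4 m1 m2 m3
      · rw [e1'] at k1
        obtain ⟨r'', m1, m2, m3⟩ := k1.buy i' j'
        rw [e3'] at m3
        exact finT r' r'' k2 k3 k4 m1 m2 m3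
      · by_cases hij1 : 1 ≤ i + j
        · rw [e1] at k1
          obtain ⟨r'', m1, m2, m3⟩ := k1.buy i j hij1
          rw [e3] at m3
          exact finL r1 r'' k2 k3 k4 m1 m2 m3
        · rw [e1'] at l1
          obtain ⟨r'', m1, m2, m3⟩ := l1.buy i' j' (by omega)
          rw [e3'] at m3
          exact finT r2 r'' l2 l3 l4 m1 m2 m3

end Pool.Agent.OCN
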