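import Pool.Agent.Lib_helper16.OCN.ZClass

/-!
# MP_aeb124_co: the region calculus

The gaps are divided into regions by a monotone map `g`. The type of an element `z` is the pair of
the regions of its first and its last gap. Every gap of the region `r` is crossed by all but `j r`
of the elements which touch the region.
-/

set_option autoImplicit false

namespace Pool.Agent.OCN

variable {V : Type}

open scoped Classical in
/-- the number of elements which touch the region of `p` and do not cross `p` -/
noncomputable def ncr (K : Finset V) (R : Rep V) (g : ℤ → ℤ) (p : ℤ) : ℕ :=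
  (K.filter fun z => (g (R.lo z) ≤ g p ∧ g p ≤ g (R.hi z)) ∧ ¬ R.Cr z p).card

open scoped Classical in
/-- the number of elements which touch the region `r` -/
noncomputable def tch (K : Finset V) (R : Rep V) (g : ℤ → ℤ) (r : ℤ) : ℕ :=
  (K.filter fun z => g (R.lo z) ≤ r ∧ r ≤ g (R.hi z)).card

open scoped Classical in
/-- the number of elements which start behind the region `r` -/
noncomputable def abv (K : Finset V) (R : Rep V) (g : ℤ → ℤ) (r : ℤ) : ℕ :=
  (K.filter fun z => r < g (R.lo z)).card

open scoped Classical in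
/-- the number of elements which end before the region `r` -/
noncomputable def blw (K : Finset V) (R : Rep V) (g : ℤ → ℤ) (r : ℤ) : ℕ :=
  (K.filter fun z => g (R.hi z) < r).card

open scoped Classical in
/-- a division into regions, `j r` cuts in the region `r` -/
structure Rg (K : Finset V) (R : Rep V) (g : ℤ → ℤ) (j : ℤ → ℕ) : Prop where
  /-- the regions are intervals -/
  mono : Monotone g
  /-- the heights -/
  cr : ∀ p, (∃ z ∈ K, R.Cr z p) → ncr K R g p ≤ j (g p)
  /-- at most one element ends at an inner gap -/
  uh : ∀ p, g p = g (p + 1) → (K.filter fun z => R.hi z = p).card ≤ 1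
  /-- at most one element starts at an inner gap -/
  ul : ∀ p, g (p - 1) = g p → (K.filter fun z => R.lo z = p).card ≤ 1

/-- the dual regions -/
def dg (g : ℤ → ℤ) : ℤ → ℤ := fun p => -g (-p)

theorem dg_dg (g : ℤ → ℤ) : dg (dg g) = g := by
  funext p
  unfold dg
  rw [neg_neg, neg_neg]

theorem dg_mono {g : ℤ → ℤ} (h : Monotone g) : Monotone (dg g) := by
  intro p q hpq
  unfold dg
  have := h (show -q ≤ -p by omega)
  omega

section
variable {K : Finset V} {R : Rep V} {g : ℤ → ℤ}

theorem ncr_dual (p : ℤ) : ncr K R.dual (dg g) (-p) = ncr K R g p := by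
  classical
  unfold ncr
  congr 1
  refine Finset.filter_congr fun z _ => ?_
  rw [Rep.cr_dual]
  unfold dg Rep.dual
  simp only [neg_neg]
  constructor
  · rintro ⟨⟨h1, h2⟩, h3⟩
    exact ⟨⟨by omega, by omega⟩, h3⟩
  · rintro ⟨⟨h1, h2⟩, h3⟩
    exact ⟨⟨by omega, by omega⟩, h3⟩

theorem tch_dual (r : ℤ) : tch K R.dual (dg g) (-r) = tch K R g r := by
  classical
  unfold tch
  congr 1
  refine Finset.filter_congr fun z _ => ?_
  unfold dg Rep.dual
  simp only [neg_neg]
  constructor
  · rintro ⟨h1, h2⟩
    exact ⟨by omega, by omega⟩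
  · rintro ⟨h1, h2⟩
    exact ⟨by omega, by omega⟩

theorem abv_dual (r : ℤ) : abv K R.dual (dg g) (-r) = blw K R g r := by
  classical
  unfold abv blw
  congr 1
  refine Finset.filter_congr fun z _ => ?_
  unfold dg Rep.dual
  simp only [neg_neg]
  constructor <;> intro h <;> omega

theorem blw_dual (r : ℤ) : blw K R.dual (dg g) (-r) = abv K R g r := by
  classical
  unfold abv blw
  congr 1
  refine Finset.filter_congr fun z _ => ?_
  unfold dg Rep.dual
  simp only [neg_neg]
  constructor <;> intro h <;> omega

end

namespace Rg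

variable {K : Finset V} {R : Rep V} {g : ℤ → ℤ} {j : ℤ → ℕ}

theorem dual (h : Rg K R g j) : Rg K R.dual (dg g) (fun r => j (-r)) where
  mono := dg_mono h.mono
  cr p hp := by
    have h1 : ncr K R.dual (dg g) p = ncr K R g (-p) := by
      have := ncr_dual (K := K) (R := R) (g := g) (-p)
      rwa [neg_neg] at this
    rw [h1]
    have h2 : (∃ z ∈ K, R.Cr z (-p)) := by
      obtain ⟨z, hz, hc⟩ := hp
      refine ⟨z, hz, ?_⟩
      rw [← Rep.cr_dual, neg_neg]
      exact hc
    have h3 := h.cr (-p) h2
    unfold dg
    rw [neg_neg]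
    exact h3
  uh p hp := by
    classical
    unfold dg at hp
    have h1 : g (-p - 1) = g (-p) := by
      have : -(p + 1) = -p - 1 := by ring
      rw [this] at hp
      omega
    have h2 := h.ul (-p) h1
    convert h2 using 3
    unfold Rep.dual
    simp only
    constructor <;> intro h <;> omega
  ul p hp := by
    classical
    unfold dg at hp
    have h1 : g (-p) = g (-p + 1) := by
      have : -(p - 1) = -p + 1 := by ring
      rw [this] at hp
      omega
    have h2 := h.uh (-p) h1
    convert h2 using 3
    unfold Rep.dual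
    simp only
    constructor <;> intro h <;> omega

theorem weaken (h : Rg K R g j) {j' : ℤ → ℕ} (hj : ∀ r, j r ≤ j' r) : Rg K R g j' :=
  ⟨h.mono, fun p hp => (h.cr p hp).trans (hj _), h.uh, h.ul⟩

/-- the height of a gap -/
theorem N_ge (h : Rg K R g j) {p : ℤ} (hp : ∃ z ∈ K, R.Cr z p) :
    tch K R g (g p) ≤ R.N K p + j (g p) := by
  classical
  refine le_trans ?_ (Nat.add_le_add_left (h.cr p hp) _)
  unfold tch Rep.N ncr
  refine le_trans (Finset.card_le_card (t := (K.filter fun z => R.Cr z p) ∪
    (K.filter fun z => (g (R.lo z) ≤ g p ∧ g p ≤ g (R.hi z)) ∧ ¬ R.Cr z p)) ?_)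
    (Finset.card_union_le _ _)
  intro z hz
  rw [Finset.mem_union, Finset.mem_filter, Finset.mem_filter]
  obtain ⟨hzK, h1⟩ := Finset.mem_filter.1 hz
  by_cases h2 : R.Cr z p
  · exact Or.inl ⟨hzK, h2⟩
  · exact Or.inr ⟨hzK, h1, h2⟩

theorem U_ge (h : Rg K R g j) (x : V) : abv K R g (g (R.hi x)) ≤ R.U K x := by
  classical
  unfold abv Rep.U
  refine Finset.card_le_card fun z hz => ?_
  rw [Finset.mem_filter] at hz ⊢
  refine ⟨hz.1, ?_⟩
  unfold Rep.rel
  by_contra h1
  have := h.mono (show R.lo z ≤ R.hi x by omega)
  omega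

theorem D_ge (h : Rg K R g j) (x : V) : blw K R g (g (R.lo x)) ≤ R.D K x := by
  classical
  unfold blw Rep.D
  refine Finset.card_le_card fun z hz => ?_
  rw [Finset.mem_filter] at hz ⊢
  refine ⟨hz.1, ?_⟩
  unfold Rep.rel
  by_contra h1
  have := h.mono (show R.lo x ≤ R.hi z by omega)
  omega

end Rg

/-- the regions after a cut at `p` -/
def cg (g : ℤ → ℤ) (p : ℤ) : ℤ → ℤ := fun q => if q ≤ p then g q else g (q - 1)

theorem cg_le {g : ℤ → ℤ} {p q : ℤ} (h : q ≤ p) : cg g p q = g q := if_pos h

theorem cg_gt {g : ℤ → ℤ} {p q : ℤ} (h : p < q) : cg g p q = g (q - 1) := if_neg (by omega)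

theorem cg_mono {g : ℤ → ℤ} (h : Monotone g) (p : ℤ) : Monotone (cg g p) := by
  intro a b hab
  by_cases h1 : b ≤ p
  · rw [cg_le h1, cg_le (by omega)]
    exact h hab
  · rw [cg_gt (q := b) (by omega)]
    by_cases h2 : a ≤ p
    · rw [cg_le h2]
      exact h (by omega)
    · rw [cg_gt (by omega)]
      exact h (by omega)

namespace Rg

variable {K : Finset V} {R : Rep V} {g : ℤ → ℤ} {j : ℤ → ℕ}

section cutsec

variable {p : ℤ} {x y : V} {hxy : x ≠ y} {hx : R.Cr x p} {hy : R.Cr y p}

theorem cut_lo_ne (z : V) (hz : z ≠ y) :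
    cg g p ((R.cut p x y hxy hx hy).lo z) = g (R.lo z) := by
  classical
  have h1 := Zc.cut_lo' R hxy hx hy
  rw [h1, if_neg hz]
  split_ifs with h2
  · rw [cg_gt (by omega)]
    congr 1
    ring
  · rw [cg_le (by omega)]

theorem cut_lo_y : cg g p ((R.cut p x y hxy hx hy).lo y) = g p := by
  classical
  have h1 := Zc.cut_lo' R hxy hx hy
  rw [h1, if_pos rfl, cg_gt (by omega)]
  congr 1
  ring

theorem cut_hi_ne (z : V) (hz : z ≠ x) :
    cg g p ((R.cut p x y hxy hx hy).hi z) = g (R.hi z) := by
  classical
  have h1 := Zc.cut_hi' R hxy hx hy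
  rw [h1, if_neg hz]
  split_ifs with h2
  · rw [cg_gt (by omega)]
    congr 1
    ring
  · rw [cg_le (by omega)]

theorem cut_hi_x : cg g p ((R.cut p x y hxy hx hy).hi x) = g p := by
  classical
  have h1 := Zc.cut_hi' R hxy hx hy
  rw [h1, if_pos rfl, cg_le le_rfl]

end cutsec

/-- the cut -/
theorem cut (h : Rg K R g j) {x y : V} {p : ℤ} (hxy : x ≠ y)
    (hxK : x ∈ K) (hx : R.Cr x p) (hy : R.Cr y p) :
    Rg K (R.cut p x y hxy hx hy) (cg g p) (fun r => j r + if r = g p then 1 else 0) := by
  classical
  have hm := h.mono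
  have hlo' := Zc.cut_lo' R hxy hx hy
  have hhi' := Zc.cut_hi' R hxy hx hy
  set R' := R.cut p x y hxy hx hy with hR'
  have ely : R'.lo y = p + 1 := by rw [hlo', if_pos rfl]
  have ehx : R'.hi x = p := by rw [hhi', if_pos rfl]
  have elz : ∀ z, z ≠ y → R'.lo z = if p < R.lo z then R.lo z + 1 else R.lo z := fun z hz => by
    rw [hlo', if_neg hz]
  have ehz : ∀ z, z ≠ x → R'.hi z = if p ≤ R.hi z then R.hi z + 1 else R.hi z := fun z hz => by
    rw [hhi', if_neg hz]
  have tlz : ∀ z, z ≠ y → cg g p (R'.lo z) = g (R.lo z) := fun z hz => cut_lo_ne z hz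
  have tly : cg g p (R'.lo y) = g p := cut_lo_y
  have thz : ∀ z, z ≠ x → cg g p (R'.hi z) = g (R.hi z) := fun z hz => cut_hi_ne z hz
  have thx : cg g p (R'.hi x) = g p := cut_hi_x
  have hgx1 : g (R.lo x) ≤ g p := hm hx.1
  have hgx2 : g p ≤ g (R.hi x) := hm hx.2
  have hgy1 : g (R.lo y) ≤ g p := hm hy.1
  have hgy2 : g p ≤ g (R.hi y) := hm hy.2
  refine ⟨cg_mono hm p, ?_, ?_, ?_⟩
  · intro q hq
    by_cases hqp : q ≤ p
    · have e : cg g p q = g q := cg_le hqp
      have hex : ∃ z ∈ K, R.Cr z q := by
        obtain ⟨z, hzK, hz1, hz2⟩ := hq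
        refine ⟨z, hzK, ?_, ?_⟩
        · by_cases hzy : z = y
          · rw [hzy, ely] at hz1; omega
          · rw [elz z hzy] at hz1
            split_ifs at hz1 <;> omega
        · by_cases hzx : z = x
          · rw [hzx]; exact hqp.trans hx.2
          · rw [ehz z hzx] at hz2
            split_ifs at hz2 <;> omega
      have hold := h.cr q hex
      have hstep : ncr K R' (cg g p) q ≤ ncr K R g q + if g q = g p then 1 else 0 := by
        unfold ncr
        rw [e]
        by_cases hgq : g q = g p
        · rw [if_pos hgq]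
          refine le_trans (Finset.card_le_card (t := insert y (K.filter fun z =>
            (g (R.lo z) ≤ g q ∧ g q ≤ g (R.hi z)) ∧ ¬ R.Cr z q)) ?_)
            (Finset.card_insert_le _ _)
          intro z hz
          rw [Finset.mem_insert, Finset.mem_filter]
          obtain ⟨hzK, ⟨hz1, hz2⟩, hz3⟩ := Finset.mem_filter.1 hz
          by_cases hzy : z = y
          · exact Or.inl hzy
          right
          rw [tlz z hzy] at hz1
          refine ⟨hzK, ⟨hz1, ?_⟩, ?_⟩
          · by_cases hzx : z = x
            · rw [hzx]; omega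
            · rw [thz z hzx] at hz2; exact hz2
          · rintro ⟨h1, h2⟩
            apply hz3
            refine ⟨?_, ?_⟩
            · rw [elz z hzy, if_neg (by omega)]; exact h1
            · by_cases hzx : z = x
              · rw [hzx, ehx]; exact hqp
              · rw [ehz z hzx]; split_ifs <;> omega
        · rw [if_neg hgq, add_zero]
          have hgq' : g q < g p := lt_of_le_of_ne (hm hqp) hgq
          refine Finset.card_le_card ?_
          intro z hz
          rw [Finset.mem_filter]
          obtain ⟨hzK, ⟨hz1, hz2⟩, hz3⟩ := Finset.mem_filter.1 hz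
          have hzy : z ≠ y := by
            rintro rfl
            rw [tly] at hz1
            omega
          rw [tlz z hzy] at hz1
          refine ⟨hzK, ⟨hz1, ?_⟩, ?_⟩
          · by_cases hzx : z = x
            · rw [hzx]; omega
            · rw [thz z hzx] at hz2; exact hz2
          · rintro ⟨h1, h2⟩
            apply hz3
            refine ⟨?_, ?_⟩
            · rw [elz z hzy, if_neg (by omega)]; exact h1
            · by_cases hzx : z = x
              · rw [hzx, ehx]; exact hqp
              · rw [ehz z hzx]; split_ifs <;> omega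
      rw [e]
      refine hstep.trans (Nat.add_le_add hold ?_)
      exact le_rfl
    · have hqp' : p < q := by omega
      have e : cg g p q = g (q - 1) := cg_gt hqp'
      have hpq : g p ≤ g (q - 1) := hm (by omega)
      have hex : ∃ z ∈ K, R.Cr z (q - 1) := by
        obtain ⟨z, hzK, hz1, hz2⟩ := hq
        have hzx : z ≠ x := by
          rintro rfl
          rw [ehx] at hz2
          omega
        rw [ehz z hzx] at hz2
        refine ⟨z, hzK, ?_, ?_⟩
        · by_cases hzy : z = y
          · rw [hzy]
            have := hy.1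
            omega
          · rw [elz z hzy] at hz1
            split_ifs at hz1 <;> omega
        · split_ifs at hz2 <;> omega
      have hold := h.cr (q - 1) hex
      have hstep : ncr K R' (cg g p) q ≤
          ncr K R g (q - 1) + if g (q - 1) = g p then 1 else 0 := by
        unfold ncr
        rw [e]
        by_cases hgq : g (q - 1) = g p
        · rw [if_pos hgq]
          refine le_trans (Finset.card_le_card (t := insert x (K.filter fun z =>
            (g (R.lo z) ≤ g (q - 1) ∧ g (q - 1) ≤ g (R.hi z)) ∧ ¬ R.Cr z (q - 1))) ?_)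
            (Finset.card_insert_le _ _)
          intro z hz
          rw [Finset.mem_insert, Finset.mem_filter]
          obtain ⟨hzK, ⟨hz1, hz2⟩, hz3⟩ := Finset.mem_filter.1 hz
          by_cases hzx : z = x
          · exact Or.inl hzx
          right
          rw [thz z hzx] at hz2
          refine ⟨hzK, ⟨?_, hz2⟩, ?_⟩
          · by_cases hzy : z = y
            · rw [hzy]; omega
            · rw [tlz z hzy] at hz1; exact hz1
          · rintro ⟨h1, h2⟩
            apply hz3
            refine ⟨?_, ?_⟩
            · by_cases hzy : z = y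
              · rw [hzy, ely]; omega
              · rw [elz z hzy]; split_ifs <;> omega
            · rw [ehz z hzx, if_pos (by omega)]; omega
        · rw [if_neg hgq, add_zero]
          have hgq' : g p < g (q - 1) := lt_of_le_of_ne hpq (fun he => hgq he.symm)
          refine Finset.card_le_card ?_
          intro z hz
          rw [Finset.mem_filter]
          obtain ⟨hzK, ⟨hz1, hz2⟩, hz3⟩ := Finset.mem_filter.1 hz
          have hzx : z ≠ x := by
            rintro rfl
            rw [thx] at hz2
            omega
          rw [thz z hzx] at hz2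
          refine ⟨hzK, ⟨?_, hz2⟩, ?_⟩
          · by_cases hzy : z = y
            · rw [hzy]; omega
            · rw [tlz z hzy] at hz1; exact hz1
          · rintro ⟨h1, h2⟩
            apply hz3
            refine ⟨?_, ?_⟩
            · by_cases hzy : z = y
              · rw [hzy, ely]; omega
              · rw [elz z hzy]; split_ifs <;> omega
            · rw [ehz z hzx, if_pos (by omega)]; omega
      rw [e]
      exact hstep.trans (Nat.add_le_add hold le_rfl)
  · intro q hq
    have key : ∀ (s : ℤ), (∀ z ∈ K, R'.hi z = q → R.hi z = s ∧ z ≠ x) → g s = g (s + 1) →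
        (K.filter fun z => R'.hi z = q).card ≤ 1 := by
      intro s hs hg
      refine le_trans (Finset.card_le_card fun z hz => ?_) (h.uh s hg)
      obtain ⟨hzK, hz1⟩ := Finset.mem_filter.1 hz
      exact Finset.mem_filter.2 ⟨hzK, (hs z hzK hz1).1⟩
    rcases lt_trichotomy q p with hqp | hqp | hqp
    · rw [cg_le (by omega), cg_le (by omega)] at hq
      refine key q (fun z _ hz => ?_) hq
      have hzx : z ≠ x := by rintro rfl; omega
      rw [ehz z hzx] at hz
      refine ⟨?_, hzx⟩
      split_ifs at hz <;> omega
    · refine le_trans (Finset.card_le_card (t := {x}) fun z hz => ?_)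
        (by rw [Finset.card_singleton])
      obtain ⟨hzK, hz1⟩ := Finset.mem_filter.1 hz
      rw [Finset.mem_singleton]
      by_contra hzx
      rw [ehz z hzx] at hz1
      split_ifs at hz1 <;> omega
    · rw [cg_gt (by omega), cg_gt (by omega)] at hq
      refine key (q - 1) (fun z _ hz => ?_) (by rw [hq]; congr 1; ring)
      have hzx : z ≠ x := by rintro rfl; omega
      rw [ehz z hzx] at hz
      refine ⟨?_, hzx⟩
      split_ifs at hz <;> omega
  · intro q hq
    have key : ∀ (s : ℤ), (∀ z ∈ K, R'.lo z = q → R.lo z = s) → g (s - 1) = g s →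
        (K.filter fun z => R'.lo z = q).card ≤ 1 := by
      intro s hs hg
      refine le_trans (Finset.card_le_card fun z hz => ?_) (h.ul s hg)
      obtain ⟨hzK, hz1⟩ := Finset.mem_filter.1 hz
      exact Finset.mem_filter.2 ⟨hzK, hs z hzK hz1⟩
    rcases lt_trichotomy q (p + 1) with hqp | hqp | hqp
    · rw [cg_le (by omega), cg_le (by omega)] at hq
      refine key q (fun z _ hz => ?_) hq
      have hzy : z ≠ y := by rintro rfl; omega
      rw [elz z hzy] at hz
      split_ifs at hz <;> omega
    · refine le_trans (Finset.card_le_card (t := {y}) fun z hz => ?_)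
        (by rw [Finset.card_singleton])
      obtain ⟨hzK, hz1⟩ := Finset.mem_filter.1 hz
      rw [Finset.mem_singleton]
      by_contra hzy
      rw [elz z hzy] at hz1
      split_ifs at hz1 <;> omega
    · rw [cg_gt (by omega), cg_gt (by omega)] at hq
      refine key (q - 1) (fun z _ hz => ?_) hq
      have hzy : z ≠ y := by rintro rfl; omega
      rw [elz z hzy] at hz
      split_ifs at hz <;> omega

end Rg

end Pool.Agent.OCN
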