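import Pool.Agent.Lib_helper16.OCN.RgBase

/-!
# MP_aeb124_co: the region calculus, elementary moves
-/

set_option autoImplicit false

namespace Pool.Agent.OCN

variable {V : Type}

/-- the first gap of a region -/
theorem exists_first {g : ℤ → ℤ} {ρ a p : ℤ} (ha : g a < ρ) (hp : g p = ρ)
    (hm : Monotone g) : ∃ q, a < q ∧ q ≤ p ∧ g (q - 1) < ρ ∧ g q = ρ := by
  classical
  have hap : a < p := by
    by_contra h
    have := hm (show p ≤ a by omega)
    omega
  have hex : ∃ n : ℕ, ρ ≤ g (a + 1 + n) := by
    refine ⟨(p - a - 1).toNat, ?_⟩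
    have : a + 1 + ((p - a - 1).toNat : ℤ) = p := by omega
    rw [this, hp]
  set n := Nat.find hex with hn
  have h1 : ρ ≤ g (a + 1 + n) := Nat.find_spec hex
  have h2 : a + 1 + (n : ℤ) ≤ p := by
    by_contra h
    have h3 : (p - a - 1).toNat < n := by omega
    have h4 := Nat.find_min hex h3
    apply h4
    have : a + 1 + ((p - a - 1).toNat : ℤ) = p := by omega
    rw [this, hp]
  refine ⟨a + 1 + n, by omega, h2, ?_, ?_⟩
  · rcases Nat.eq_zero_or_pos n with h3 | h3
    · have : a + 1 + (n : ℤ) - 1 = a := by rw [h3]; simp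
      rw [this]
      exact ha
    · have h4 := Nat.find_min hex (show n - 1 < n by omega)
      have : a + 1 + (n : ℤ) - 1 = a + 1 + ((n - 1 : ℕ) : ℤ) := by omega
      rw [this]
      omega
  · have := hm h2
    omega

namespace Rg

variable {K : Finset V} {R : Rep V} {g : ℤ → ℤ} {j : ℤ → ℕ}

/-- raise the first gap of `z` to the first gap of a region -/
theorem raise (h : Rg K R g j) {z : V} {q : ℤ} (hq : g (q - 1) < g q) (h1 : q ≤ R.hi z)
    (h2 : R.lo z ≤ q) : Rg K (R.raise z q h1) g j := by
  classical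
  have hlo : ∀ w, w ≠ z → (R.raise z q h1).lo w = R.lo w := fun w hw => if_neg hw
  have hloz : (R.raise z q h1).lo z = q := if_pos rfl
  have hhi : ∀ w, (R.raise z q h1).hi w = R.hi w := fun w => rfl
  set R' := R.raise z q h1 with hR'
  have hfirst : ∀ p, p < q → g p < g q := fun p hp =>
    lt_of_le_of_lt (h.mono (show p ≤ q - 1 by omega)) hq
  refine ⟨h.mono, ?_, ?_, ?_⟩
  · intro p hp
    have hex : ∃ w ∈ K, R.Cr w p := by
      obtain ⟨w, hw, hc1, hc2⟩ := hp
      refine ⟨w, hw, ?_, by rw [hhi] at hc2; exact hc2⟩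
      by_cases hwz : w = z
      · rw [hwz, hloz] at hc1
        rw [hwz]
        omega
      · rw [hlo w hwz] at hc1
        exact hc1
    refine le_trans (Finset.card_le_card fun w hw => ?_) (h.cr p hex)
    rw [Finset.mem_filter] at hw ⊢
    obtain ⟨hwK, ⟨hw1, hw2⟩, hw3⟩ := hw
    rw [hhi] at hw2
    by_cases hwz : w = z
    · subst hwz
      rw [hloz] at hw1
      have hqp : q ≤ p := by
        by_contra hlt
        have := hfirst p (by omega)
        omega
      refine ⟨hwK, ⟨(h.mono (h2.trans hqp)), hw2⟩, ?_⟩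
      rintro ⟨h3, h4⟩
      exact hw3 ⟨by rw [hloz]; exact hqp, h4⟩
    · rw [hlo w hwz] at hw1
      refine ⟨hwK, ⟨hw1, hw2⟩, ?_⟩
      rintro ⟨h3, h4⟩
      exact hw3 ⟨by rw [hlo w hwz]; exact h3, h4⟩
  · exact h.uh
  · intro p hp
    refine le_trans (Finset.card_le_card fun w hw => ?_) (h.ul p hp)
    rw [Finset.mem_filter] at hw ⊢
    refine ⟨hw.1, ?_⟩
    by_cases hwz : w = z
    · rw [hwz, hloz] at hw
      rw [hw.2] at hq
      omega
    · rw [hlo w hwz] at hw
      exact hw.2

open scoped Classical in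
/-- the cost of raising -/
theorem raise_cost (h : Rg K R g j) {z : V} {q : ℤ} (hq : g (q - 1) < g q) :
    (K.filter fun a => R.lo z ≤ R.hi a ∧ R.hi a < q).card ≤
      (K.filter fun a => g (R.lo z) ≤ g (R.hi a) ∧ g (R.hi a) < g q).card := by
  refine Finset.card_le_card fun w hw => ?_
  rw [Finset.mem_filter] at hw ⊢
  refine ⟨hw.1, h.mono hw.2.1, lt_of_le_of_lt (h.mono (show R.hi w ≤ q - 1 by omega)) hq⟩

end Rg

/-! ### deletion of a first gap -/

/-- the representation without the gap `p`, if no element ends at `p` -/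
def Rep.del (R : Rep V) (p : ℤ) (h : ∀ z, R.hi z ≠ p) : Rep V where
  lo z := if p < R.lo z then R.lo z - 1 else R.lo z
  hi z := if p < R.hi z then R.hi z - 1 else R.hi z
  le z := by
    have := R.le z
    have := h z
    split_ifs <;> omega

/-- the regions without the gap `p` -/
def delg (g : ℤ → ℤ) (p : ℤ) : ℤ → ℤ := fun q => if q < p then g q else g (q + 1)

theorem Rep.rel_del (R : Rep V) (p : ℤ) (h : ∀ z, R.hi z ≠ p) (a b : V) :
    (R.del p h).rel a b ↔ R.rel a b := by
  have := h a
  unfold Rep.rel Rep.del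
  simp only
  split_ifs <;> omega

/-- a local position keeps its data if the representation changes outside of `K` -/
theorem Loc.congr {r : V → V → Prop} {K : Finset V} {R R' : Rep V} (h : Loc r K R)
    (hR : ∀ a ∈ K, ∀ b ∈ K, (R'.rel a b ↔ R.rel a b)) : Loc r K R' :=
  ⟨h.so, h.iso, fun a ha b hb => (h.eq a ha b hb).trans (hR a ha b hb).symm⟩

open scoped Classical in
/-- a representation with the same values on `K` -/
noncomputable def Rep.res (R : Rep V) (K : Finset V) (p : ℤ) : Rep V where
  lo z := if z ∈ K then R.lo z else p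
  hi z := if z ∈ K then R.hi z else p
  le z := by
    split_ifs
    · exact R.le z
    · exact le_rfl

section res
variable {K : Finset V} {R R' : Rep V} {g : ℤ → ℤ} {j : ℤ → ℕ}

theorem Rg.congr (h : Rg K R g j) (h1 : ∀ z ∈ K, R'.lo z = R.lo z)
    (h2 : ∀ z ∈ K, R'.hi z = R.hi z) : Rg K R' g j := by
  classical
  refine ⟨h.mono, ?_, ?_, ?_⟩
  · intro p hp
    have hex : ∃ w ∈ K, R.Cr w p := by
      obtain ⟨w, hw, hc1, hc2⟩ := hp
      rw [h1 w hw] at hc1
      rw [h2 w hw] at hc2
      exact ⟨w, hw, hc1, hc2⟩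
    refine le_trans (Finset.card_le_card fun w hw => ?_) (h.cr p hex)
    rw [Finset.mem_filter] at hw ⊢
    obtain ⟨hw, h3, h4⟩ := hw
    unfold Rep.Cr at h4 ⊢
    rw [h1 w hw, h2 w hw] at h3 h4
    exact ⟨hw, h3, h4⟩
  · intro p hp
    refine le_trans (Finset.card_le_card fun w hw => ?_) (h.uh p hp)
    rw [Finset.mem_filter] at hw ⊢
    exact ⟨hw.1, (h2 w hw.1) ▸ hw.2⟩
  · intro p hp
    refine le_trans (Finset.card_le_card fun w hw => ?_) (h.ul p hp)
    rw [Finset.mem_filter] at hw ⊢
    exact ⟨hw.1, (h1 w hw.1) ▸ hw.2⟩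

end res

theorem delg_mono {g : ℤ → ℤ} (h : Monotone g) (p : ℤ) : Monotone (delg g p) := by
  intro a b hab
  unfold delg
  split_ifs
  · exact h hab
  · exact h (by omega)
  · exact h (by omega)
  · exact h (by omega)

namespace Rg

variable {K : Finset V} {R : Rep V} {g : ℤ → ℤ} {j : ℤ → ℕ}

/-- deletion of the first gap of a region, if no element ends there -/
theorem del (h : Rg K R g j) {p : ℤ} (hp : ∀ z, R.hi z ≠ p) (h1 : g (p - 1) < g p)
    (h2 : g p = g (p + 1)) : Rg K (R.del p hp) (delg g p) j ∧
      (∀ z, delg g p ((R.del p hp).lo z) = g (R.lo z)) ∧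
      (∀ z, delg g p ((R.del p hp).hi z) = g (R.hi z)) := by
  classical
  have hm := h.mono
  have elo : ∀ z, (R.del p hp).lo z = if p < R.lo z then R.lo z - 1 else R.lo z := fun z => rfl
  have ehi : ∀ z, (R.del p hp).hi z = if p < R.hi z then R.hi z - 1 else R.hi z := fun z => rfl
  set R' := R.del p hp with hR'
  have tlo : ∀ z, delg g p (R'.lo z) = g (R.lo z) := by
    intro z
    rw [elo]
    unfold delg
    split_ifs with h3 h4 h5
    · omega
    · congr 1; ring
    · rfl
    · have : R.lo z = p := by omega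
      rw [this, h2]
  have thi : ∀ z, delg g p (R'.hi z) = g (R.hi z) := by
    intro z
    have h3 := hp z
    rw [ehi]
    unfold delg
    split_ifs with h4 h5 h6
    · omega
    · congr 1; ring
    · rfl
    · omega
  -- the old gap
  have key : ∀ q, ∃ s, delg g p q = g s ∧ (∀ z, R'.Cr z q ↔ R.Cr z s) := by
    intro q
    by_cases hq : q < p
    · refine ⟨q, if_pos hq, fun z => ?_⟩
      have h3 := hp z
      unfold Rep.Cr
      rw [elo, ehi]
      split_ifs <;> omega
    · refine ⟨q + 1, if_neg hq, fun z => ?_⟩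
      have h3 := hp z
      unfold Rep.Cr
      rw [elo, ehi]
      split_ifs <;> omega
  refine ⟨⟨delg_mono hm p, ?_, ?_, ?_⟩, tlo, thi⟩
  · intro q hq
    obtain ⟨s, hs1, hs2⟩ := key q
    have hex : ∃ w ∈ K, R.Cr w s := by
      obtain ⟨w, hw, hc⟩ := hq
      exact ⟨w, hw, (hs2 w).1 hc⟩
    have := h.cr s hex
    unfold ncr at this ⊢
    rw [hs1]
    refine le_trans (Finset.card_le_card fun w hw => ?_) this
    rw [Finset.mem_filter] at hw ⊢
    rw [tlo, thi, hs2] at hw
    exact hw
  · intro q hq
    by_cases hq1 : q < p - 1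
    · unfold delg at hq
      rw [if_pos (by omega), if_pos (by omega)] at hq
      refine le_trans (Finset.card_le_card fun w hw => ?_) (h.uh q hq)
      rw [Finset.mem_filter] at hw ⊢
      refine ⟨hw.1, ?_⟩
      have h3 := hw.2
      rw [ehi] at h3
      split_ifs at h3 <;> omega
    · by_cases hq2 : q = p - 1
      · exfalso
        subst hq2
        unfold delg at hq
        rw [if_pos (by omega), if_neg (by omega)] at hq
        have : p - 1 + 1 + 1 = p + 1 := by ring
        rw [this] at hq
        omega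
      · unfold delg at hq
        rw [if_neg (by omega), if_neg (by omega)] at hq
        refine le_trans (Finset.card_le_card fun w hw => ?_) (h.uh (q + 1) hq)
        rw [Finset.mem_filter] at hw ⊢
        refine ⟨hw.1, ?_⟩
        have h3 := hw.2
        rw [ehi] at h3
        have := hp w
        split_ifs at h3 <;> omega
  · intro q hq
    by_cases hq1 : q < p
    · unfold delg at hq
      rw [if_pos (by omega), if_pos (by omega)] at hq
      refine le_trans (Finset.card_le_card fun w hw => ?_) (h.ul q hq)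
      rw [Finset.mem_filter] at hw ⊢
      refine ⟨hw.1, ?_⟩
      have h3 := hw.2
      rw [elo] at h3
      split_ifs at h3 <;> omega
    · by_cases hq2 : q = p
      · exfalso
        subst hq2
        unfold delg at hq
        rw [if_pos (by omega), if_neg (by omega)] at hq
        omega
      · unfold delg at hq
        rw [if_neg (by omega), if_neg (by omega)] at hq
        have hq' : g (q + 1 - 1) = g (q + 1) := by
          have e1 : q - 1 + 1 = q + 1 - 1 := by ring
          rw [← e1]
          exact hq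
        refine le_trans (Finset.card_le_card fun w hw => ?_) (h.ul (q + 1) hq')
        rw [Finset.mem_filter] at hw ⊢
        refine ⟨hw.1, ?_⟩
        have h3 := hw.2
        rw [elo] at h3
        split_ifs at h3 <;> omega

end Rg

end Pool.Agent.OCN
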