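import Pool.Agent.Lib_helper16.OCN.Ops

/-!
# MP_aeb124_co: the terminal class (F3)
-/

set_option autoImplicit false

namespace Pool.Agent.OCN

variable {V : Type}

namespace Rep

theorem U_mono {R R' : Rep V} {K : Finset V}
    (h : ∀ a ∈ K, ∀ b ∈ K, R.rel a b → R'.rel a b) {x : V} (hx : x ∈ K) :
    R.U K x ≤ R'.U K x := by
  classical
  unfold U
  refine Finset.card_le_card fun z hz => ?_
  rw [Finset.mem_filter] at hz ⊢
  exact ⟨hz.1, h x hx z hz.1 hz.2⟩

theorem D_mono {R R' : Rep V} {K : Finset V}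
    (h : ∀ a ∈ K, ∀ b ∈ K, R.rel a b → R'.rel a b) {x : V} (hx : x ∈ K) :
    R.D K x ≤ R'.D K x := by
  classical
  unfold D
  refine Finset.card_le_card fun z hz => ?_
  rw [Finset.mem_filter] at hz ⊢
  exact ⟨hz.1, h z hz.1 x hx hz.2⟩

theorem two_le_N {R : Rep V} {K : Finset V} {p : ℤ} {x y : V} (hxy : x ≠ y) (hxK : x ∈ K)
    (hyK : y ∈ K) (hx : R.Cr x p) (hy : R.Cr y p) : 2 ≤ R.N K p := by
  classical
  unfold N
  have h1 : ({x, y} : Finset V) ⊆ K.filter fun z => R.Cr z p := by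
    intro z hz
    rw [Finset.mem_insert, Finset.mem_singleton] at hz
    rcases hz with rfl | rfl
    · exact Finset.mem_filter.2 ⟨hxK, hx⟩
    · exact Finset.mem_filter.2 ⟨hyK, hy⟩
  have h2 := Finset.card_le_card h1
  rwa [Finset.card_pair hxy] at h2

end Rep

/-- the terminal condition: every attack `u → v` inside of `K` is cheap -/
def Term (B : ℕ) (K : Finset V) (R : Rep V) : Prop :=
  ∀ u ∈ K, ∀ v ∈ K, u ≠ v → ¬ R.rel u v → ¬ R.rel v u →
    K.card ≤ B + R.U K u ∨ K.card ≤ B + R.D K v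

theorem Term.mono {B : ℕ} {K : Finset V} {R R' : Rep V} (h : Term B K R)
    (hR : ∀ a ∈ K, ∀ b ∈ K, R.rel a b → R'.rel a b) : Term B K R' := by
  intro u hu v hv huv h1 h2
  rcases h u hu v hv huv (fun h3 => h1 (hR _ hu _ hv h3)) (fun h3 => h2 (hR _ hv _ hu h3)) with
    h3 | h3
  · exact Or.inl (h3.trans (Nat.add_le_add_left (Rep.U_mono hR hu) B))
  · exact Or.inr (h3.trans (Nat.add_le_add_left (Rep.D_mono hR hv) B))

/-- (F3) the terminal class is closed -/
theorem term_ans [Fintype V] {B : ℕ} {K : Finset V} {R : Rep V} {r : V → V → Prop}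
    (h : Loc r K R) (hT : Term B K R) : Ans B (Cls (Term B)) r := by
  intro x y hxy h1 h2
  obtain ⟨hx, hy⟩ := h.mem hxy h1 h2
  rw [h.eq x hx y hy] at h1
  rw [h.eq y hy x hx] at h2
  obtain ⟨p, hp1, hp2⟩ := R.common h1 h2
  obtain ⟨r', h3, h4, h5, h6⟩ := op_cut h p x y hxy hx hy hp1 hp2
  refine ⟨r', ⟨K, _, h3, hT.mono fun a _ b _ hab =>
    (R.rel_cut p x y hxy hp1 hp2 a b).2 (Or.inl hab)⟩, h4, h5, ?_⟩
  have h7 := Rep.two_le_N hxy hx hy hp1 hp2
  rcases hT x hx y hy hxy h1 h2 with h8 | h8 <;> omega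

/-- the terminal class is closed -/
theorem term_closed [Fintype V] (B : ℕ) : ClosedR (V := V) B (Cls (Term B)) := by
  rintro r ⟨K, R, h, hT⟩
  exact term_ans h hT

end Pool.Agent.OCN
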