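import Pool.Agent.Lib_helper16.OCN.YClass

/-!
# MP_aeb124_co: the class Y is closed (F4)
-/

set_option autoImplicit false

namespace Pool.Agent.OCN

variable {V : Type}

/-- the class Y or terminal -/
def YT (B : ℕ) (K : Finset V) (R : Rep V) : Prop :=
  Term B K R ∨ ∃ F H a b, Yc B K R F H a b (min F.card H.card)

theorem Term.dual {B : ℕ} {K : Finset V} {R : Rep V} (h : Term B K R) : Term B K R.dual :=
  Yc.Term_dual (by rw [Rep.dual_dual]; exact h)

theorem YT.dual {B : ℕ} {K : Finset V} {R : Rep V} (h : YT B K R) : YT B K R.dual := by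
  rcases h with h | ⟨F, H, a, b, h⟩
  · exact Or.inl h.dual
  · refine Or.inr ⟨H, F, -b, -a, ?_⟩
    rw [min_comm]
    exact h.dual

theorem YT.flip {B : ℕ} : ∀ r ∈ Cls (YT (V := V) B), flip r ∈ Cls (YT B) := by
  rintro r ⟨K, R, h1, h2⟩
  exact ⟨K, R.dual, h1.flip, h2.dual⟩

namespace Yc

variable {B : ℕ} {K : Finset V} {R : Rep V} {F H : Finset V} {a b : ℤ} {m : ℕ}

theorem mono_m (h : Yc B K R F H a b m) {m' : ℕ} (hm : m' ≤ m) : Yc B K R F H a b m' :=
  ⟨h.FK, h.HK, h.FH, h.hF, h.hH, h.tri, h.ab, h.gL, h.gU, fun p h1 h2 => by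
    have := h.gN p h1 h2
    omega⟩

theorem yt (h : Yc B K R F H a b m) (hm : min F.card H.card ≤ m) : YT B K R :=
  Or.inr ⟨F, H, a, b, h.mono_m hm⟩

theorem card_LU (h : Yc B K R F H a b m) :
    (K.filter fun z => R.hi z < a).card + (K.filter fun z => b < R.lo z).card ≤ K.card := by
  classical
  rw [← Finset.card_union_of_disjoint]
  · exact Finset.card_le_card (Finset.union_subset (Finset.filter_subset _ _)
      (Finset.filter_subset _ _))
  · rw [Finset.disjoint_left]
    intro z hz hz'
    have h1 := (Finset.mem_filter.1 hz).2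
    have h2 := (Finset.mem_filter.1 hz').2
    have := R.le z
    have := h.ab
    omega

theorem U_ge (h : Yc B K R F H a b m) {x : V} (hx : R.hi x ≤ b) :
    (K.filter fun z => b < R.lo z).card ≤ R.U K x := by
  classical
  unfold Rep.U
  refine Finset.card_le_card fun z hz => ?_
  rw [Finset.mem_filter] at hz ⊢
  exact ⟨hz.1, lt_of_le_of_lt hx hz.2⟩

theorem D_ge (h : Yc B K R F H a b m) {y : V} (hy : a ≤ R.lo y) :
    (K.filter fun z => R.hi z < a).card ≤ R.D K y := by
  classical
  unfold Rep.D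
  refine Finset.card_le_card fun z hz => ?_
  rw [Finset.mem_filter] at hz ⊢
  exact ⟨hz.1, lt_of_lt_of_le hz.2 hy⟩

variable [Fintype V]

/-- attacks with lower end in `F` -/
theorem replyA {r : V → V → Prop} (hr : Loc r K R) (h : Yc B K R F H a b m)
    (hm : min F.card H.card ≤ m) {x y : V} (hxy : x ≠ y) (hx : x ∈ F) (hy : y ∈ K) :
    Reply B (Cls (YT B)) r x y := by
  classical
  obtain ⟨h1, h2, h3⟩ := h.hF x hx
  have hab := h.ab
  obtain ⟨r', h4, h5, h6, h7⟩ := op_closeMin hr x (h.FK hx) (fun z hz hzx => by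
    have := h3 z hz
    have := R.le z
    unfold Rep.rel at hzx
    omega)
  refine ⟨r', ⟨K.erase x, R, h4, (h.close hx).yt ?_⟩, h5, h6 y hy hxy.symm, ?_⟩
  · refine le_trans (min_le_min_right _ ?_) hm
    exact Finset.card_le_card (Finset.erase_subset _ _)
  · have := h.U_ge h1.le
    have := h.gU
    omega

/-- attacks from `Λ` to `F` -/
theorem replyB {r : V → V → Prop} (hr : Loc r K R) (h : Yc B K R F H a b m)
    (hm : min F.card H.card ≤ m) {x y : V} (hxK : x ∈ K) (hx : R.hi x < a) (hy : y ∈ F) :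
    Reply B (Cls (YT B)) r x y := by
  classical
  obtain ⟨h1, h2, h3⟩ := h.hF y hy
  have hab := h.ab
  have hq : a ≤ R.hi y := by omega
  obtain ⟨r', h4, h5, h6⟩ := op_raise hr y (h.FK hy) a hq h2
  refine ⟨r', ⟨K, _, h4, (h.raise hy hq).yt ?_⟩, h5, ?_, ?_⟩
  · refine le_trans (min_le_min_right _ ?_) hm
    exact Finset.card_le_card (Finset.erase_subset _ _)
  · rw [h4.eq x hxK y (h.FK hy), R.rel_raise y a hq h2]
    exact Or.inr ⟨rfl, hx⟩
  · have h7 : (K.filter fun z => R.lo y ≤ R.hi z ∧ R.hi z < a).card ≤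
        (K.filter fun z => R.hi z < a).card := by
      refine Finset.card_le_card fun z hz => ?_
      rw [Finset.mem_filter] at hz ⊢
      exact ⟨hz.1, hz.2.2⟩
    have := h.card_LU
    have := h.gU
    omega

/-- attacks inside of `Λ` -/
theorem replyC {r : V → V → Prop} (hr : Loc r K R) (h : Yc B K R F H a b m)
    (hm : min F.card H.card ≤ m) {x y : V} (hxy : x ≠ y) (hxK : x ∈ K) (hyK : y ∈ K)
    (hxa : R.hi x < a) (hya : R.hi y < a) (h1 : ¬ R.rel x y) (h2 : ¬ R.rel y x) :
    Reply B (Cls (YT B)) r x y := by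
  classical
  have hab := h.ab
  obtain ⟨p, hp1, hp2⟩ := R.common h1 h2
  obtain ⟨r', h3, h4, h5, h6⟩ := op_cut hr p x y hxy hxK hyK hp1 hp2
  refine ⟨r', ⟨K, _, h3, (h.cutL hxy hp1 hp2 hxK hyK hxa hya).yt hm⟩, h4, h5, ?_⟩
  have h7 := Rep.two_le_N hxy hxK hyK hp1 hp2
  have h8 := h.U_ge (x := x) (by omega)
  have := h.gU
  omega

/-- attacks in the middle -/
theorem replyD {r : V → V → Prop} (hr : Loc r K R) (h : Yc B K R F H a b m)
    (hm : min F.card H.card ≤ m) (hF : F.Nonempty) (hH : H.Nonempty) {x y : V} (hxy : x ≠ y)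
    (hxK : x ∈ K) (hyK : y ∈ K) (hxF : x ∉ F) (hyH : y ∉ H) (hxa : a ≤ R.lo x)
    (hyb : R.hi y ≤ b) (h1 : ¬ R.rel x y) (h2 : ¬ R.rel y x) :
    Reply B (Cls (YT B)) r x y := by
  classical
  have hab := h.ab
  obtain ⟨p, hp1, hp2⟩ := R.common h1 h2
  have hap : a ≤ p := hxa.trans hp1.1
  have hpb : p ≤ b := hp2.2.trans hyb
  obtain ⟨k, hk⟩ : ∃ k, min F.card H.card = k + 1 := by
    have h3 := Finset.card_pos.2 hF
    have h4 := Finset.card_pos.2 hH
    exact ⟨min F.card H.card - 1, by omega⟩
  have hgN := h.gN p hap hpb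
  obtain ⟨hc, hc1, hc2⟩ := (h.mono_m (hk ▸ hm : k + 1 ≤ m)).cutM hxy hp1 hp2 hxK hyK hxF hyH hap hpb
  obtain ⟨r1, g1, g2, g3, g4⟩ := op_cut hr p x y hxy hxK hyK hp1 hp2
  set R1 := R.cut p x y hxy hp1 hp2 with hR1
  set lam := (K.filter fun z => R.hi z < a).card with hlam
  set ups := (K.filter fun z => b < R.lo z).card with hups
  have hN1 : 1 ≤ R.N K p := by
    have := Rep.two_le_N hxy hxK hyK hp1 hp2
    omega
  -- the second step: one element of `F` is lifted
  obtain ⟨F2, R2, r2, k1, k2, k3, k4, k5, k6, k7⟩ : ∃ (F2 : Finset V) (R2 : Rep V)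
      (r2 : V → V → Prop), Yc B K R2 F2 (H.erase x) a (b + 1) k ∧ Loc r2 K R2 ∧
        (∀ a b, r1 a b → r2 a b) ∧ newP r1 r2 ≤ R.D K y ∧ F2.card + 1 ≤ F.card ∧
        (∀ z, z ∉ F → R2.lo z = R1.lo z) ∧ R2.hi = R1.hi := by
    by_cases hyF : y ∈ F
    · refine ⟨F.erase y, R1, r1, hc, g1, fun _ _ h => h, ?_, ?_, fun _ _ => rfl, rfl⟩
      · rw [newP_self]
        exact Nat.zero_le _
      · have := Finset.card_erase_of_mem hyF
        have := Finset.card_pos.2 ⟨y, hyF⟩
        omega
    · have hFe : F.erase y = F := Finset.erase_eq_of_notMem hyF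
      rw [hFe] at hc
      obtain ⟨f, hf⟩ := hF
      obtain ⟨f1, f2, f3⟩ := hc.hF f hf
      have hq : a ≤ R1.hi f := by omega
      obtain ⟨r2, k2, k3, k4⟩ := op_raise g1 f (h.FK hf) a hq f2
      refine ⟨F.erase f, _, r2, hc.raise hf hq, k2, k3, ?_, ?_, ?_, rfl⟩
      · rw [k4]
        have h7 : (K.filter fun z => R1.lo f ≤ R1.hi z ∧ R1.hi z < a).card ≤
            (K.filter fun z => R1.hi z < a).card := by
          refine Finset.card_le_card fun z hz => ?_
          rw [Finset.mem_filter] at hz ⊢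
          exact ⟨hz.1, hz.2.2⟩
        have h8 : a ≤ R.lo y := by
          rcases h.tri y hyK hyF hyH with h9 | h9 | h9
          · have := hp2.2
            omega
          · exact h9.1
          · omega
        have h9 := h.D_ge h8
        rw [hc1] at h7
        omega
      · have := Finset.card_erase_of_mem hf
        have := Finset.card_pos.2 ⟨f, hf⟩
        omega
      · intro z hz
        have hzf : z ≠ f := fun he => hz (he ▸ hf)
        exact if_neg hzf
  -- the third step: one element of `H` is lowered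
  obtain ⟨H3, R3, r3, l1, l2, l3, l4, l5⟩ : ∃ (H3 : Finset V) (R3 : Rep V)
      (r3 : V → V → Prop), Yc B K R3 F2 H3 a (b + 1) k ∧ Loc r3 K R3 ∧
        (∀ a b, r2 a b → r3 a b) ∧ newP r2 r3 ≤ R.U K x ∧ H3.card + 1 ≤ H.card := by
    by_cases hxH : x ∈ H
    · refine ⟨H.erase x, R2, r2, k1, k2, fun _ _ h => h, ?_, ?_⟩
      · rw [newP_self]
        exact Nat.zero_le _
      · have := Finset.card_erase_of_mem hxH
        have := Finset.card_pos.2 ⟨x, hxH⟩
        omega
    · have hHe : H.erase x = H := Finset.erase_eq_of_notMem hxH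
      rw [hHe] at k1
      obtain ⟨f, hf⟩ := hH
      obtain ⟨f1, f2, f3⟩ := k1.hH f hf
      have hq : R2.lo f ≤ b + 1 := by omega
      obtain ⟨r3, l2, l3, l4⟩ := op_lower k2 f (h.HK hf) (b + 1) hq (by omega)
      refine ⟨H.erase f, _, r3, k1.lower hf hq, l2, l3, ?_, ?_⟩
      · rw [l4]
        have h7 : (K.filter fun z => b + 1 < R2.lo z ∧ R2.lo z ≤ R2.hi f).card ≤
            (K.filter fun z => b + 1 < R1.lo z).card := by
          refine Finset.card_le_card fun z hz => ?_
          rw [Finset.mem_filter] at hz ⊢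
          refine ⟨hz.1, ?_⟩
          by_cases hzF : z ∈ F
          · -- elements of `F` start at the left of the middle
            exfalso
            have e1 := hz.2.1
            by_cases hz2 : z ∈ F2
            · have := (k1.hF z hz2).2.1
              omega
            · have e2 : R2.hi z ≤ b + 1 := by
                rw [k7]
                have e3 := (h.hF z hzF).1
                rw [hR1]
                unfold Rep.cut
                simp only
                split_ifs <;> omega
              have := R2.le z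
              omega
          · rw [← k6 z hzF]
            exact hz.2.1
        rw [hc2] at h7
        have h8 : R.hi x ≤ b := by
          rcases h.tri x hxK hxF hxH with h9 | h9 | h9
          · have := hp1.1
            omega
          · exact h9.2
          · have := hp1.1
            omega
        have h9 := h.U_ge h8
        omega
      · have := Finset.card_erase_of_mem hf
        have := Finset.card_pos.2 ⟨f, hf⟩
        omega
  refine ⟨r3, ⟨K, R3, l2, l1.yt (by omega)⟩, fun a b hab => l3 a b (k3 a b (g2 a b hab)),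
    l3 x y (k3 x y g3), ?_⟩
  have h10 := newP_trans (r := r) (r' := r1) (r'' := r3)
  have h11 := newP_trans (r := r1) (r' := r2) (r'' := r3)
  omega

end Yc

/-- (F4) the class Y (with the terminal positions) is closed -/
theorem yt_closed [Fintype V] (B : ℕ) : ClosedR (V := V) B (Cls (YT B)) := by
  rintro r ⟨K, R, hr, hT⟩ x y hxy h1 h2
  rcases hT with hT | ⟨F, H, a, b, hY⟩
  · exact Reply.mono (G := Cls (Term B)) (term_ans hr hT x y hxy h1 h2)
      (by rintro r ⟨K, R, h3, h4⟩; exact ⟨K, R, h3, Or.inl h4⟩)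
  obtain ⟨hx, hy⟩ := hr.mem hxy h1 h2
  have h1' := h1
  have h2' := h2
  rw [hr.eq x hx y hy] at h1
  rw [hr.eq y hy x hx] at h2
  by_cases hFe : F = ∅
  · exact Reply.mono (G := Cls (Term B)) (term_ans hr (hY.term_F hFe) x y hxy h1' h2')
      (by rintro r ⟨K, R, h3, h4⟩; exact ⟨K, R, h3, Or.inl h4⟩)
  by_cases hHe : H = ∅
  · exact Reply.mono (G := Cls (Term B)) (term_ans hr (hY.term_H hHe) x y hxy h1' h2')
      (by rintro r ⟨K, R, h3, h4⟩; exact ⟨K, R, h3, Or.inl h4⟩)
  have hF := Finset.nonempty_iff_ne_empty.2 hFe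
  have hH := Finset.nonempty_iff_ne_empty.2 hHe
  have hab := hY.ab
  have hlx := R.le x
  have hly := R.le y
  have hYd : Yc B K R.dual H F (-b) (-a) (min F.card H.card) := hY.dual
  by_cases hxF : x ∈ F
  · exact hY.replyA hr le_rfl hxy hxF hy
  by_cases hyH : y ∈ H
  · exact Reply.flip YT.flip (hYd.replyA hr.flip (by rw [min_comm]) hxy.symm hyH hx)
  have hxt : R.hi x < a ∨ a ≤ R.lo x := by
    by_cases hxH : x ∈ H
    · exact Or.inr (hY.hH x hxH).1.ge
    · rcases hY.tri x hx hxF hxH with h3 | h3 | h3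
      · exact Or.inl h3
      · exact Or.inr h3.1
      · exact Or.inr (by omega)
  have hyt : R.hi y ≤ b ∨ b < R.lo y := by
    by_cases hyF : y ∈ F
    · exact Or.inl (hY.hF y hyF).1.le
    · rcases hY.tri y hy hyF hyH with h3 | h3 | h3
      · exact Or.inl (by omega)
      · exact Or.inl h3.2
      · exact Or.inr h3
  rcases hxt with hxa | hxa
  · -- `x` in `Λ`
    by_cases hyF : y ∈ F
    · exact hY.replyB hr le_rfl hx hxa hyF
    · have hya : R.hi y < a := by
        unfold Rep.rel at h1
        rcases hY.tri y hy hyF hyH with h3 | h3 | h3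
        · exact h3
        · omega
        · omega
      exact hY.replyC hr le_rfl hxy hx hy hxa hya h1 h2
  · rcases hyt with hyb | hyb
    · exact hY.replyD hr le_rfl hF hH hxy hx hy hxF hyH hxa hyb h1 h2
    · -- `y` in `Υ`
      by_cases hxH : x ∈ H
      · exact Reply.flip YT.flip (hYd.replyB hr.flip (by rw [min_comm]) hy
          (by unfold Rep.dual; simp only; omega) hxH)
      · have hxb : b < R.lo x := by
          unfold Rep.rel at h1
          rcases hY.tri x hx hxF hxH with h3 | h3 | h3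
          · omega
          · omega
          · exact h3
        refine Reply.flip YT.flip (hYd.replyC hr.flip (by rw [min_comm]) hxy.symm hy hx
          (by unfold Rep.dual; simp only; omega) (by unfold Rep.dual; simp only; omega) ?_ ?_)
        · rw [Rep.rel_dual]; exact h1
        · rw [Rep.rel_dual]; exact h2

end Pool.Agent.OCN
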