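import Pool.Agent.Lib_helper16.OCN.Term

/-!
# MP_aeb124_co: the class Y (F4)
-/

set_option autoImplicit false

namespace Pool.Agent.OCN

variable {V : Type}

/-- `x → y` has a reply in `G` with at most `B` new pairs -/
def Reply [Fintype V] (B : ℕ) (G : Set (V → V → Prop)) (r : V → V → Prop) (x y : V) : Prop :=
  ∃ r' ∈ G, (∀ a b, r a b → r' a b) ∧ r' x y ∧ newP r r' ≤ B

theorem Reply.flip [Fintype V] {B : ℕ} {G : Set (V → V → Prop)}
    (hG : ∀ r ∈ G, flip r ∈ G) {r : V → V → Prop} {x y : V} (h : Reply B G (flip r) y x) :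
    Reply B G r x y := by
  obtain ⟨r', h1, h2, h3, h4⟩ := h
  refine ⟨_root_.flip r', hG r' h1, fun a b hab => h2 b a hab, h3, ?_⟩
  rw [← newP_flip]
  exact h4

theorem Reply.mono [Fintype V] {B : ℕ} {G G' : Set (V → V → Prop)} {r : V → V → Prop} {x y : V}
    (h : Reply B G r x y) (hG : G ⊆ G') : Reply B G' r x y := by
  obtain ⟨r', h1, h2⟩ := h
  exact ⟨r', hG h1, h2⟩

theorem Rep.ext' {R R' : Rep V} (h1 : R.lo = R'.lo) (h2 : R.hi = R'.hi) : R = R' := by
  cases R; cases R'
  simp only at h1 h2
  subst h1 h2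
  rfl

/-- the class Y: `Λ = {hi < a}`, `Υ = {b < lo}`, the gaps `a, ..., b` are the middle, `F` starts
at the left end and ends at `b`, `H` starts at `a` and ends at the right end -/
structure Yc (B : ℕ) (K : Finset V) (R : Rep V) (F H : Finset V) (a b : ℤ) (m : ℕ) : Prop where
  FK : F ⊆ K
  HK : H ⊆ K
  FH : Disjoint F H
  hF : ∀ f ∈ F, R.hi f = b ∧ R.lo f ≤ a ∧ ∀ z ∈ K, R.lo f ≤ R.lo z
  hH : ∀ h ∈ H, R.lo h = a ∧ b ≤ R.hi h ∧ ∀ z ∈ K, R.hi z ≤ R.hi h
  tri : ∀ z ∈ K, z ∉ F → z ∉ H → R.hi z < a ∨ (a ≤ R.lo z ∧ R.hi z ≤ b) ∨ b < R.lo z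
  ab : a ≤ b
  gL : K.card ≤ B + (K.filter fun z => R.hi z < a).card
  gU : K.card ≤ B + (K.filter fun z => b < R.lo z).card
  gN : ∀ p, a ≤ p → p ≤ b → K.card + 1 + m ≤ B + R.N K p

namespace Yc

variable {B : ℕ} {K : Finset V} {R : Rep V} {F H : Finset V} {a b : ℤ} {m : ℕ}

theorem dual (h : Yc B K R F H a b m) : Yc B K R.dual H F (-b) (-a) m where
  FK := h.HK
  HK := h.FK
  FH := h.FH.symm
  hF f hf := by
    obtain ⟨h1, h2, h3⟩ := h.hH f hf
    refine ⟨by unfold Rep.dual; simp only; omega, by unfold Rep.dual; simp only; omega, ?_⟩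
    intro z hz
    have := h3 z hz
    unfold Rep.dual
    simp only
    omega
  hH f hf := by
    obtain ⟨h1, h2, h3⟩ := h.hF f hf
    refine ⟨by unfold Rep.dual; simp only; omega, by unfold Rep.dual; simp only; omega, ?_⟩
    intro z hz
    have := h3 z hz
    unfold Rep.dual
    simp only
    omega
  tri z hz h1 h2 := by
    unfold Rep.dual
    simp only
    rcases h.tri z hz h2 h1 with h3 | h3 | h3
    · exact Or.inr (Or.inr (by omega))
    · exact Or.inr (Or.inl (by omega))
    · exact Or.inl (by omega)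
  ab := by have := h.ab; omega
  gL := by
    have h1 : (K.filter fun z => R.dual.hi z < -b) = K.filter fun z => b < R.lo z := by
      refine Finset.filter_congr fun z _ => ?_
      unfold Rep.dual
      simp only
      omega
    rw [h1]
    exact h.gU
  gU := by
    have h1 : (K.filter fun z => -a < R.dual.lo z) = K.filter fun z => R.hi z < a := by
      refine Finset.filter_congr fun z _ => ?_
      unfold Rep.dual
      simp only
      omega
    rw [h1]
    exact h.gL
  gN p h1 h2 := by
    have h3 := h.gN (-p) (by omega) (by omega)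
    have h4 := R.N_dual K (-p)
    rw [neg_neg] at h4
    rw [h4]
    exact h3

/-- without `F` the class is terminal -/
theorem term_F (h : Yc B K R F H a b m) (hF : F = ∅) : Term B K R := by
  classical
  intro u hu v hv huv h1 h2
  have hab := h.ab
  have hlu := R.le u
  have hlv := R.le v
  have hFn : ∀ z, z ∉ F := fun z => by rw [hF]; exact Finset.notMem_empty z
  by_cases hva : R.hi v < a
  · left
    refine h.gU.trans (Nat.add_le_add_left (Finset.card_le_card fun z hz => ?_) B)
    rw [Finset.mem_filter] at hz ⊢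
    refine ⟨hz.1, ?_⟩
    have hlo : R.lo u ≤ R.hi v := by
      unfold Rep.rel at h2
      omega
    have huH : u ∉ H := fun huH => by
      have := (h.hH u huH).1
      omega
    unfold Rep.rel
    rcases h.tri u hu (hFn u) huH with h3 | h3 | h3 <;> omega
  · right
    refine h.gL.trans (Nat.add_le_add_left (Finset.card_le_card fun z hz => ?_) B)
    rw [Finset.mem_filter] at hz ⊢
    refine ⟨hz.1, ?_⟩
    unfold Rep.rel
    by_cases hvH : v ∈ H
    · have := (h.hH v hvH).1
      omega
    · rcases h.tri v hv (hFn v) hvH with h3 | h3 | h3 <;> omega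

theorem Term_dual (h : Term B K R.dual) : Term B K R := by
  intro u hu v hv huv h1 h2
  rcases h v hv u hu huv.symm (by rw [Rep.rel_dual]; exact h1) (by rw [Rep.rel_dual]; exact h2)
    with h3 | h3
  · right
    rwa [Rep.U_dual] at h3
  · left
    rwa [Rep.D_dual] at h3

theorem term_H (h : Yc B K R F H a b m) (hH : H = ∅) : Term B K R :=
  Term_dual (h.dual.term_F hH)

/-- an element of `F` is closed -/
theorem close [DecidableEq V] (h : Yc B K R F H a b m) {f : V} (hf : f ∈ F) :
    Yc B (K.erase f) R (F.erase f) H a b m := by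
  classical
  obtain ⟨h1, h2, h3⟩ := h.hF f hf
  have hab := h.ab
  have hfK := h.FK hf
  have hfH : f ∉ H := Finset.disjoint_left.1 h.FH hf
  have hc := Finset.card_erase_of_mem hfK
  have hpos := Finset.card_pos.2 ⟨f, hfK⟩
  refine ⟨Finset.erase_subset_erase f h.FK, ?_, ?_, ?_, ?_, ?_, hab, ?_, ?_, ?_⟩
  · intro z hz
    exact Finset.mem_erase.2 ⟨fun he => hfH (he ▸ hz), h.HK hz⟩
  · exact Finset.disjoint_of_subset_left (Finset.erase_subset f F) h.FH
  · intro f' hf'
    obtain ⟨h4, h5, h6⟩ := h.hF f' (Finset.mem_of_mem_erase hf')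
    exact ⟨h4, h5, fun z hz => h6 z (Finset.mem_of_mem_erase hz)⟩
  · intro f' hf'
    obtain ⟨h4, h5, h6⟩ := h.hH f' hf'
    exact ⟨h4, h5, fun z hz => h6 z (Finset.mem_of_mem_erase hz)⟩
  · intro z hz h4 h5
    obtain ⟨h6, h7⟩ := Finset.mem_erase.1 hz
    exact h.tri z h7 (fun h8 => h4 (Finset.mem_erase.2 ⟨h6, h8⟩)) h5
  · have h4 : ((K.erase f).filter fun z => R.hi z < a) = K.filter fun z => R.hi z < a := by
      ext z
      rw [Finset.mem_filter, Finset.mem_filter, Finset.mem_erase]
      constructor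
      · rintro ⟨⟨_, h5⟩, h6⟩
        exact ⟨h5, h6⟩
      · rintro ⟨h5, h6⟩
        refine ⟨⟨?_, h5⟩, h6⟩
        rintro rfl
        omega
    rw [h4]
    have := h.gL
    omega
  · have h4 : ((K.erase f).filter fun z => b < R.lo z) = K.filter fun z => b < R.lo z := by
      ext z
      rw [Finset.mem_filter, Finset.mem_filter, Finset.mem_erase]
      constructor
      · rintro ⟨⟨_, h5⟩, h6⟩
        exact ⟨h5, h6⟩
      · rintro ⟨h5, h6⟩
        refine ⟨⟨?_, h5⟩, h6⟩
        rintro rfl
        omega
    rw [h4]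
    have := h.gU
    omega
  · intro p hp1 hp2
    have h4 : R.N (K.erase f) p + 1 = R.N K p := by
      unfold Rep.N
      rw [Finset.filter_erase, Finset.card_erase_of_mem]
      · have h5 : 0 < (K.filter fun z => R.Cr z p).card := Finset.card_pos.2
          ⟨f, Finset.mem_filter.2 ⟨hfK, by unfold Rep.Cr; omega⟩⟩
        omega
      · exact Finset.mem_filter.2 ⟨hfK, by unfold Rep.Cr; omega⟩
    have := h.gN p hp1 hp2
    omega

/-- an element of `F` is lifted above `Λ` -/
theorem raise [DecidableEq V] (h : Yc B K R F H a b m) {f : V} (hf : f ∈ F)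
    (hq : a ≤ R.hi f) : Yc B K (R.raise f a hq) (F.erase f) H a b m := by
  classical
  obtain ⟨h1, h2, h3⟩ := h.hF f hf
  have hab := h.ab
  have hfK := h.FK hf
  have hfH : f ∉ H := Finset.disjoint_left.1 h.FH hf
  have hlo : ∀ z, z ≠ f → (R.raise f a hq).lo z = R.lo z := fun z hz => if_neg hz
  have hlof : (R.raise f a hq).lo f = a := if_pos rfl
  have hhi : ∀ z, (R.raise f a hq).hi z = R.hi z := fun z => rfl
  refine ⟨(Finset.erase_subset f F).trans h.FK, h.HK,
    Finset.disjoint_of_subset_left (Finset.erase_subset f F) h.FH, ?_, ?_, ?_, hab, ?_, ?_, ?_⟩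
  · intro f' hf'
    obtain ⟨h7, h8⟩ := Finset.mem_erase.1 hf'
    obtain ⟨h4, h5, h6⟩ := h.hF f' h8
    rw [hhi, hlo f' h7]
    refine ⟨h4, h5, fun z hz => ?_⟩
    by_cases hzf : z = f
    · rw [hzf, hlof]; exact h5
    · rw [hlo z hzf]; exact h6 z hz
  · intro f' hf'
    obtain ⟨h4, h5, h6⟩ := h.hH f' hf'
    have h7 : f' ≠ f := fun he => hfH (he ▸ hf')
    rw [hhi, hlo f' h7]
    exact ⟨h4, h5, h6⟩
  · intro z hz h4 h5
    rw [hhi]
    by_cases hzf : z = f
    · rw [hzf, hlof]
      exact Or.inr (Or.inl ⟨le_rfl, h1.le⟩)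
    · rw [hlo z hzf]
      exact h.tri z hz (fun h8 => h4 (Finset.mem_erase.2 ⟨hzf, h8⟩)) h5
  · exact h.gL
  · have h4 : (K.filter fun z => b < (R.raise f a hq).lo z) = K.filter fun z => b < R.lo z := by
      refine Finset.filter_congr fun z _ => ?_
      by_cases hzf : z = f
      · rw [hzf, hlof]; omega
      · rw [hlo z hzf]
    rw [h4]
    exact h.gU
  · intro p hp1 hp2
    have h4 : (R.raise f a hq).N K p = R.N K p := by
      unfold Rep.N
      congr 1
      refine Finset.filter_congr fun z _ => ?_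
      unfold Rep.Cr
      rw [hhi]
      by_cases hzf : z = f
      · rw [hzf, hlof]
        constructor <;> rintro ⟨_, _⟩ <;> constructor <;> omega
      · rw [hlo z hzf]
    rw [h4]
    exact h.gN p hp1 hp2

theorem _root_.Pool.Agent.OCN.Rep.dual_lower (R : Rep V) (z : V) (q : ℤ) (h : R.lo z ≤ q) :
    (R.lower z q h).dual = R.dual.raise z (-q) (by unfold Rep.dual; simp only; omega) := by
  classical
  apply Rep.ext'
  · funext w
    unfold Rep.dual Rep.lower Rep.raise
    simp only
    by_cases hw : w = z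
    · rw [if_pos hw, if_pos hw]
    · rw [if_neg hw, if_neg hw]
  · rfl

/-- an element of `H` is lowered below `Υ` -/
theorem lower [DecidableEq V] (h : Yc B K R F H a b m) {f : V} (hf : f ∈ H)
    (hq : R.lo f ≤ b) : Yc B K (R.lower f b hq) F (H.erase f) a b m := by
  have h1 := (h.dual.raise hf (by unfold Rep.dual; simp only; omega)).dual
  rw [← Rep.dual_lower R f b hq, Rep.dual_dual] at h1
  simpa only [neg_neg] using h1

/-- a cut inside of `Λ` -/
theorem cutL [DecidableEq V] (h : Yc B K R F H a b m) {x y : V} {p : ℤ} (hxy : x ≠ y)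
    (hx : R.Cr x p) (hy : R.Cr y p) (hxK : x ∈ K) (hyK : y ∈ K) (hxa : R.hi x < a)
    (hya : R.hi y < a) : Yc B K (R.cut p x y hxy hx hy) F H (a + 1) (b + 1) m := by
  classical
  have hab := h.ab
  obtain ⟨hx1, hx2⟩ := id hx
  obtain ⟨hy1, hy2⟩ := id hy
  set R' := R.cut p x y hxy hx hy with hR'
  have hlo : ∀ z, R'.lo z = if z = y then p + 1 else if p < R.lo z then R.lo z + 1 else R.lo z :=
    fun z => by rw [hR']; unfold Rep.cut; simp only; split_ifs <;> rfl
  have hhi : ∀ z, R'.hi z = if z = x then p else if p ≤ R.hi z then R.hi z + 1 else R.hi z :=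
    fun z => by rw [hR']; unfold Rep.cut; simp only; split_ifs <;> rfl
  have hfx : ∀ f ∈ F, f ≠ x ∧ f ≠ y := fun f hf => by
    obtain ⟨h1, h2, h3⟩ := h.hF f hf
    constructor
    · rintro rfl; omega
    · rintro rfl; omega
  have hhx : ∀ f ∈ H, f ≠ x ∧ f ≠ y := fun f hf => by
    obtain ⟨h1, h2, h3⟩ := h.hH f hf
    have := R.le f
    constructor
    · rintro rfl; omega
    · rintro rfl; omega
  refine ⟨h.FK, h.HK, h.FH, ?_, ?_, ?_, by omega, ?_, ?_, ?_⟩
  · intro f hf
    obtain ⟨h1, h2, h3⟩ := h.hF f hf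
    obtain ⟨h4, h5⟩ := hfx f hf
    have h6 : R.lo f ≤ p := (h3 x hxK).trans hx1
    rw [hhi, hlo, if_neg h4, if_neg h5, if_neg (not_lt.2 h6), if_pos (by omega)]
    refine ⟨by omega, by omega, fun z hz => ?_⟩
    have := h3 z hz
    rw [hlo]
    split_ifs <;> omega
  · intro f hf
    obtain ⟨h1, h2, h3⟩ := h.hH f hf
    obtain ⟨h4, h5⟩ := hhx f hf
    rw [hhi, hlo, if_neg h4, if_neg h5, if_pos (by omega), if_pos (by omega)]
    refine ⟨by omega, by omega, fun z hz => ?_⟩
    have := h3 z hz
    rw [hhi]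
    split_ifs <;> omega
  · intro z hz h1 h2
    have hle := R.le z
    rw [hlo, hhi]
    rcases h.tri z hz h1 h2 with h3 | h3 | h3
    · left
      split_ifs <;> omega
    · right; left
      have h4 : z ≠ x := by rintro rfl; omega
      have h5 : z ≠ y := by rintro rfl; omega
      rw [if_neg h4, if_neg h5]
      split_ifs <;> omega
    · right; right
      have h4 : z ≠ x := by rintro rfl; omega
      have h5 : z ≠ y := by rintro rfl; omega
      rw [if_neg h5]
      split_ifs <;> omega
  · have h4 : (K.filter fun z => R'.hi z < a + 1) = K.filter fun z => R.hi z < a := by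
      refine Finset.filter_congr fun z _ => ?_
      rw [hhi]
      by_cases hzx : z = x
      · rw [if_pos hzx, hzx]; omega
      · rw [if_neg hzx]
        split_ifs <;> omega
    rw [h4]
    exact h.gL
  · have h4 : (K.filter fun z => b + 1 < R'.lo z) = K.filter fun z => b < R.lo z := by
      refine Finset.filter_congr fun z _ => ?_
      rw [hlo]
      by_cases hzy : z = y
      · rw [if_pos hzy, hzy]; omega
      · rw [if_neg hzy]
        split_ifs <;> omega
    rw [h4]
    exact h.gU
  · intro q hq1 hq2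
    have h4 : R'.N K q = R.N K (q - 1) := by
      unfold Rep.N
      congr 1
      refine Finset.filter_congr fun z _ => ?_
      unfold Rep.Cr
      rw [hhi, hlo]
      by_cases hzx : z = x
      · rw [if_pos hzx]
        have hzy : z ≠ y := fun he => hxy (hzx.symm.trans he)
        rw [if_neg hzy, hzx]
        constructor <;> rintro ⟨_, _⟩ <;> exfalso <;> omega
      · rw [if_neg hzx]
        by_cases hzy : z = y
        · rw [if_pos hzy, hzy, if_pos hy2]
          constructor <;> rintro ⟨_, _⟩ <;> exfalso <;> omega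
        · rw [if_neg hzy]
          split_ifs <;> constructor <;> rintro ⟨_, _⟩ <;> constructor <;> omega
    rw [h4]
    exact h.gN (q - 1) (by omega) (by omega)

/-- a cut in the middle -/
theorem cutM [DecidableEq V] (h : Yc B K R F H a b (m + 1)) {x y : V} {p : ℤ} (hxy : x ≠ y)
    (hx : R.Cr x p) (hy : R.Cr y p) (hxK : x ∈ K) (hyK : y ∈ K) (hxF : x ∉ F) (hyH : y ∉ H)
    (hap : a ≤ p) (hpb : p ≤ b) :
    Yc B K (R.cut p x y hxy hx hy) (F.erase y) (H.erase x) a (b + 1) m ∧
      (K.filter fun z => (R.cut p x y hxy hx hy).hi z < a).card =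
        (K.filter fun z => R.hi z < a).card ∧
      (K.filter fun z => b + 1 < (R.cut p x y hxy hx hy).lo z).card =
        (K.filter fun z => b < R.lo z).card := by
  classical
  have hab := h.ab
  obtain ⟨hx1, hx2⟩ := id hx
  obtain ⟨hy1, hy2⟩ := id hy
  set R' := R.cut p x y hxy hx hy with hR'
  have hlo : ∀ z, R'.lo z = if z = y then p + 1 else if p < R.lo z then R.lo z + 1 else R.lo z :=
    fun z => by rw [hR']; unfold Rep.cut; simp only; split_ifs <;> rfl
  have hhi : ∀ z, R'.hi z = if z = x then p else if p ≤ R.hi z then R.hi z + 1 else R.hi z :=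
    fun z => by rw [hR']; unfold Rep.cut; simp only; split_ifs <;> rfl
  have hL : (K.filter fun z => R'.hi z < a) = K.filter fun z => R.hi z < a := by
    refine Finset.filter_congr fun z _ => ?_
    rw [hhi]
    by_cases hzx : z = x
    · rw [if_pos hzx, hzx]; omega
    · rw [if_neg hzx]
      split_ifs <;> omega
  have hU : (K.filter fun z => b + 1 < R'.lo z) = K.filter fun z => b < R.lo z := by
    refine Finset.filter_congr fun z _ => ?_
    rw [hlo]
    by_cases hzy : z = y
    · rw [if_pos hzy, hzy]; omega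
    · rw [if_neg hzy]
      split_ifs <;> omega
  -- `x` and `y` are in the middle
  have hxm : x ∈ H ∨ (a ≤ R.lo x ∧ R.hi x ≤ b) := by
    by_cases hxH : x ∈ H
    · exact Or.inl hxH
    · right
      rcases h.tri x hxK hxF hxH with h3 | h3 | h3 <;> omega
  have hym : y ∈ F ∨ (a ≤ R.lo y ∧ R.hi y ≤ b) := by
    by_cases hyF : y ∈ F
    · exact Or.inl hyF
    · right
      rcases h.tri y hyK hyF hyH with h3 | h3 | h3 <;> omega
  have hxlo : a ≤ R.lo x := by
    rcases hxm with h1 | h1
    · have := (h.hH x h1).1; omega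
    · omega
  have hyhi : R.hi y ≤ b := by
    rcases hym with h1 | h1
    · have := (h.hF y h1).1; omega
    · omega
  refine ⟨⟨(Finset.erase_subset y F).trans h.FK, (Finset.erase_subset x H).trans h.HK,
    Finset.disjoint_of_subset_left (Finset.erase_subset y F)
      (Finset.disjoint_of_subset_right (Finset.erase_subset x H) h.FH), ?_, ?_, ?_, by omega,
      ?_, ?_, ?_⟩, by rw [hL], by rw [hU]⟩
  · intro f hf
    obtain ⟨hfy, hf⟩ := Finset.mem_erase.1 hf
    obtain ⟨h1, h2, h3⟩ := h.hF f hf
    have h4 : f ≠ x := fun he => hxF (he ▸ hf)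
    have h6 : ¬ p < R.lo f := by omega
    have h7 : p ≤ R.hi f := by omega
    rw [hhi, hlo, if_neg h4, if_neg hfy, if_neg h6, if_pos h7]
    refine ⟨by omega, h2, fun z hz => ?_⟩
    have := h3 z hz
    rw [hlo]
    split_ifs <;> omega
  · intro f hf
    obtain ⟨hfx, hf⟩ := Finset.mem_erase.1 hf
    obtain ⟨h1, h2, h3⟩ := h.hH f hf
    have h4 : f ≠ y := fun he => hyH (he ▸ hf)
    have h6 : ¬ p < R.lo f := by omega
    have h7 : p ≤ R.hi f := by omega
    rw [hhi, hlo, if_neg hfx, if_neg h4, if_neg h6, if_pos h7]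
    refine ⟨h1, by omega, fun z hz => ?_⟩
    have := h3 z hz
    rw [hhi]
    split_ifs <;> omega
  · intro z hz h1 h2
    have hle := R.le z
    rw [hlo, hhi]
    by_cases hzx : z = x
    · have hzy : z ≠ y := fun he => hxy (hzx.symm.trans he)
      right; left
      rw [if_neg hzy, if_pos hzx, hzx]
      constructor
      · split_ifs <;> omega
      · omega
    · by_cases hzy : z = y
      · right; left
        rw [if_pos hzy, if_neg hzx, hzy, if_pos hy2]
        omega
      · rw [if_neg hzx, if_neg hzy]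
        have h3 : z ∉ F := fun h3 => h1 (Finset.mem_erase.2 ⟨hzy, h3⟩)
        have h4 : z ∉ H := fun h3 => h2 (Finset.mem_erase.2 ⟨hzx, h3⟩)
        rcases h.tri z hz h3 h4 with h5 | h5 | h5
        · left; split_ifs <;> omega
        · right; left
          constructor <;> split_ifs <;> omega
        · right; right; split_ifs <;> omega
  · rw [hL]; exact h.gL
  · rw [hU]; exact h.gU
  · intro q hq1 hq2
    -- the height drops by at most one
    have h4 : R.N K (if q ≤ p then q else q - 1) ≤ R'.N K q + 1 := by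
      unfold Rep.N
      have h5 : (K.filter fun z => R.Cr z (if q ≤ p then q else q - 1)) ⊆
          insert (if q ≤ p then y else x) (K.filter fun z => R'.Cr z q) := by
        intro z hz
        rw [Finset.mem_insert, Finset.mem_filter]
        rw [Finset.mem_filter] at hz
        obtain ⟨hzK, hz1, hz2⟩ := hz
        by_cases hqp : q ≤ p
        · rw [if_pos hqp] at hz1 hz2 ⊢
          by_cases hzy : z = y
          · exact Or.inl hzy
          · refine Or.inr ⟨hzK, ?_⟩
            unfold Rep.Cr
            rw [hlo, hhi, if_neg hzy]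
            constructor
            · split_ifs <;> omega
            · split_ifs <;> omega
        · rw [if_neg hqp] at hz1 hz2 ⊢
          by_cases hzx : z = x
          · exact Or.inl hzx
          · refine Or.inr ⟨hzK, ?_⟩
            unfold Rep.Cr
            rw [hlo, hhi, if_neg hzx]
            constructor
            · split_ifs <;> omega
            · split_ifs <;> omega
      exact (Finset.card_le_card h5).trans (Finset.card_insert_le _ _)
    have h6 := h.gN (if q ≤ p then q else q - 1) (by split_ifs <;> omega)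
      (by split_ifs <;> omega)
    omega

end Yc

end Pool.Agent.OCN
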