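import Pool.Agent.Lib_helper16.OCN.YcL

/-!
# MP_aeb124_co: the class Yc, the closing (block C)

An attack on the right element `v` is answered at a gap `q` behind all undecided elements (or at
their last gap): `v` starts after `q`, everything which crosses `q` goes one start down.
-/

set_option autoImplicit false

namespace Pool.Agent.OCN.YC

variable {V : Type} {B : ℕ} {K : Finset V} {R : Rep V} {s m M q : ℤ} {x v : V}
  {ν cb : ℕ} {δ : V → ℕ}

/-- the data of the closing -/
structure Clo (K : Finset V) (R R' : Rep V) (s q : ℤ) (x v : V) : Prop where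
  sq : s ≤ q
  xq : R.Cr x q
  vs : s ≤ R.lo v
  vq : R.Cr v q
  vK : v ∈ K
  lv : R'.lo v = q + 1
  lw : ∀ w, w ≠ v → (q < R.lo w ∧ R'.lo w = R.lo w + 1) ∨ (R.lo w ≤ q ∧ R'.lo w = R.lo w)
  hl : ∀ w, R.hi w < q → R'.hi w = R.hi w
  hg : ∀ w, q ≤ R.hi w → q ≤ R'.hi w
  he : ∀ w ∈ K, w ≠ v → R.hi w = q → R'.hi w = q
  ge : ∀ w ∈ K, R.U K w ≤ R'.U K w
  up : ∀ w ∈ K, w ≠ v → R.lo v ≤ R.hi w → R.lo w ≤ q → R.U K w + 1 ≤ R'.U K w
  ua : ∀ p, p ≤ q → ua K R' p = ua K R p + if R.lo v ≤ p then 1 else 0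
  ir : InjS K R' s

/-- the closing as an answer -/
theorem op_clo [Fintype V] {r : V → V → Prop} (hr : Loc r K R) (hir : InjS K R s)
    (hsq : s ≤ q) (hxK : x ∈ K) (hxq : R.Cr x q) (hv : v ∈ Ts K R s) (hvq : R.Cr v q)
    (hxv : x ≠ v) :
    ∃ (r' : V → V → Prop) (R' : Rep V), Loc r' K R' ∧ (∀ a b, r a b → r' a b) ∧
      (∀ w ∈ K, (w = x ∨ R.hi w < q) → r' w v) ∧ newP r r' + R.U K x + R.D K v + 1 ≤ K.card ∧
      Clo K R R' s q x v := by
  classical
  obtain ⟨hvK, hvs⟩ := mem_Ts.1 hv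
  obtain ⟨r1, g1, g2, g3, g4⟩ := op_cut hr q x v hxv hxK hvK hxq hvq
  obtain ⟨R1, hR1⟩ : ∃ R1, R1 = R.cut q x v hxv hxq hvq := ⟨_, rfl⟩
  rw [← hR1] at g1
  have hlo1v : R1.lo v = q + 1 := by
    rw [hR1]
    exact lo_cut_y R q x v hxv hxq hvq
  have hlo1 : ∀ w, w ≠ v → (q < R.lo w ∧ R1.lo w = R.lo w + 1) ∨
      (R.lo w ≤ q ∧ R1.lo w = R.lo w) := by
    intro w hw
    rw [hR1]
    unfold Rep.cut
    simp only
    rw [if_neg hw]
    by_cases h1 : q < R.lo w
    · rw [if_pos h1]
      exact Or.inl ⟨h1, rfl⟩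
    · rw [if_neg h1]
      exact Or.inr ⟨by omega, rfl⟩
  have hhi1x : R1.hi x = q := by
    rw [hR1]
    exact hi_cut_x R q x v hxv hxq hvq
  have hhi1 : ∀ w, w ≠ x → q ≤ R.hi w → R1.hi w = R.hi w + 1 := fun w hw hw' => by
    rw [hR1]
    exact hi_cut_ge R q x v hxv hxq hvq w hw hw'
  have hhi1l : ∀ w, R.hi w < q → R1.hi w = R.hi w := fun w hw => by
    rw [hR1]
    exact hi_cut_lt R q x v hxv hxq hvq w hw
  have hir1 : InjS K R1 s := by
    rw [hR1]
    exact hir.cut K R s q x v hxv hxq hvq hsq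
  have hua1 : ∀ p, p ≤ q → ua K R1 p = ua K R p + if R.lo v ≤ p then 1 else 0 := fun p hp => by
    rw [hR1]
    exact ua_cut_le K R q x v hxv hxq hvq hvK p hp
  have hU1 : ∀ w, w ≠ x → q ≤ R.hi w → R1.U K w = R.U K w := fun w hw hw' => by
    rw [hR1]
    exact U_cut_ge K R q x v hxv hxq hvq w hw hw'
  have hU1l : ∀ w, R.hi w < q → R1.U K w = R.U K w + if R.lo v ≤ R.hi w then 1 else 0 :=
    fun w hw => by
      rw [hR1]
      exact U_cut_lt K R q x v hxv hxq hvq hvK w hw
  have hU1x : R1.U K x = ua K R q + 1 := by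
    rw [hR1]
    exact U_cut_x K R q x v hxv hxq hvq hvK
  obtain ⟨A, hA⟩ : ∃ A, A = K.filter fun a => a ≠ x ∧ a ≠ v ∧ R.Cr a q := ⟨_, rfl⟩
  have hmA : ∀ a, a ∈ A ↔ a ∈ K ∧ a ≠ x ∧ a ≠ v ∧ R.Cr a q := fun a => by
    rw [hA, Finset.mem_filter]
  obtain ⟨r2, R2, k1, k2, k3, k4⟩ := op_low g1 (hir1.mono hsq) A
    (fun a ha => ((hmA a).1 ha).1)
    (fun a ha => by
      obtain ⟨ha1, ha2, ha3, ha4, ha5⟩ := (hmA a).1 ha
      have h1 := hlo1 a ha3
      have h2 := hhi1 a ha2 ha5
      refine ⟨by omega, by omega, ?_⟩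
      rw [U_eq_ua]
      exact ua_lt hvK (by omega) (by omega))
  have hxA : x ∉ A := fun h => ((hmA x).1 h).2.1 rfl
  have hvA : v ∉ A := fun h => ((hmA v).1 h).2.2.1 rfl
  have hUge : ∀ w ∈ K, R.U K w ≤ R1.U K w := fun w hw => Rep.U_mono (fun a _ b _ hab => by
    rw [hR1]
    exact (R.rel_cut q x v hxv hxq hvq a b).2 (Or.inl hab)) hw
  refine ⟨r2, R2, k1, fun a b hab => k2 a b (g2 a b hab), ?_, ?_, ?_⟩
  · rintro w hw (rfl | hwq)
    · exact k2 _ _ g3
    · refine k2 _ _ ?_
      rw [g1.eq w hw v hvK]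
      unfold Rep.rel
      rw [hhi1l w hwq, hlo1v]
      omega
  · have h6 : A.card + 2 ≤ R.N K q := by
      have hvA' : v ∉ insert x A := fun h => by
        rcases Finset.mem_insert.1 h with h | h
        · exact hxv h.symm
        · exact hvA h
      have h7 : (insert v (insert x A)).card = A.card + 2 := by
        rw [Finset.card_insert_of_notMem hvA', Finset.card_insert_of_notMem hxA]
      rw [← h7]
      unfold Rep.N
      refine Finset.card_le_card fun a ha => ?_
      rw [Finset.mem_filter]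
      rcases Finset.mem_insert.1 ha with rfl | ha
      · exact ⟨hvK, hvq⟩
      rcases Finset.mem_insert.1 ha with rfl | ha
      · exact ⟨hxK, hxq⟩
      · exact ⟨((hmA a).1 ha).1, ((hmA a).1 ha).2.2.2⟩
    have h8 := newP_trans (r := r) (r' := r1) (r'' := r2)
    omega
  · exact
      { sq := hsq
        xq := hxq
        vs := hvs
        vq := hvq
        vK := hvK
        lv := by rw [k4.lo, hlo1v]
        lw := fun w hw => by
          rw [k4.lo]
          exact hlo1 w hw
        hl := fun w hw => by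
          rw [k4.nA w (fun h => by
            have := ((hmA w).1 h).2.2.2.2
            omega), hhi1l w hw]
        hg := fun w hw => by
          by_cases hwA : w ∈ A
          · exact k4.ge w hwA
          · rw [k4.nA w hwA]
            by_cases hwx : w = x
            · rw [hwx, hhi1x]
            · rw [hhi1 w hwx hw]
              omega
        he := fun w hwK hwv hwq => by
          by_cases hwx : w = x
          · rw [hwx, k4.nA x hxA, hhi1x]
          · have hwA : w ∈ A := (hmA w).2 ⟨hwK, hwx, hwv, by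
              have := R.le w
              omega, by omega⟩
            refine le_antisymm (k4.mn w hwA q le_rfl ?_) (k4.ge w hwA)
            rw [hua1 q le_rfl, hU1 w hwx (by omega), U_eq_ua, hwq, if_pos hvq.1]
        ge := fun w hw => (hUge w hw).trans (k4.U_le w)
        up := fun w hwK hwv h1 h2 => by
          by_cases hwA : w ∈ A
          · rw [k4.up w hwA]
            have := hUge w hwK
            omega
          · rw [k4.up' hwA]
            by_cases hwx : w = x
            · rw [hwx, hU1x]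
              have : R.U K x ≤ ua K R q := by
                rw [U_eq_ua]
                exact ua_anti K R hxq.2
              omega
            · have h3 : R.hi w < q := by
                by_contra h4
                exact hwA ((hmA w).2 ⟨hwK, hwx, hwv, h2, by omega⟩)
              rw [hU1l w h3, if_pos h1]
        ua := fun p hp => by
          rw [k4.ua]
          exact hua1 p hp
        ir := hir1.low k4 }

namespace Clo

variable {R' : Rep V}

theorem zs (h : Clo K R R' s q x v) (w : V) : w ∈ Zs K R' s ↔ w ∈ Zs K R s := by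
  rw [mem_Zs, mem_Zs]
  have h1 := h.sq
  have h2 := h.vs
  have h3 := h.vq.2
  have h4 := h.lv
  have h5 : (R'.lo w < s ↔ R.lo w < s) := by
    by_cases hw : w = v
    · rw [hw]
      constructor <;> intro <;> omega
    · have := h.lw w hw
      constructor <;> intro <;> omega
  have h6 : (s ≤ R'.hi w ↔ s ≤ R.hi w) := by
    by_cases hw : R.hi w < q
    · rw [h.hl w hw]
    · have := h.hg w (by omega)
      constructor <;> intro <;> omega
  rw [h5, h6]

theorem sameL (h : Clo K R R' s q x v) : SameL K R R' s (fun _ => False) := by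
  have h1 := h.sq
  have h2 := h.vs
  have h4 := h.lv
  refine ⟨fun w _ _ hw => ?_, fun w _ _ hw => ?_, fun w _ _ hw => h.hl w (by omega),
    fun w _ _ hw => ?_, fun w _ hw => hw.elim⟩
  · have hv : w ≠ v := by
      rintro rfl
      omega
    have := h.lw w hv
    omega
  · by_cases hv : w = v
    · rw [hv]
      omega
    · have := h.lw w hv
      omega
  · by_cases h5 : R.hi w < q
    · rw [h.hl w h5]
      exact hw
    · have := h.hg w (by omega)
      omega

theorem ts (h : Clo K R R' s q x v) (w : V) : w ∈ Ts K R' s ↔ w ∈ Ts K R s := by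
  rw [mem_Ts, mem_Ts]
  have h1 := h.sq
  have h2 := h.vs
  have h4 := h.lv
  by_cases hw : w = v
  · rw [hw]
    constructor <;> rintro ⟨h5, h6⟩ <;> exact ⟨h5, by omega⟩
  · have := h.lw w hw
    constructor <;> rintro ⟨h5, h6⟩ <;> exact ⟨h5, by omega⟩

theorem ts' (h : Clo K R R' s q x v) : Ts K R' s = Ts K R s := by
  ext w
  exact h.ts w

theorem bs (h : Clo K R R' s q x v) (w : V) : w ∈ Bs K R' s ↔ w ∈ Bs K R s ∧ w ≠ v := by
  rw [mem_Bs, mem_Bs]
  have h1 := h.sq
  have h2 := h.vs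
  have h4 := h.lv
  by_cases hw : w = v
  · rw [hw]
    constructor
    · rintro ⟨h5, h6⟩
      omega
    · rintro ⟨_, h6⟩
      exact absurd rfl h6
  · have := h.lw w hw
    constructor
    · rintro ⟨h5, h6⟩
      exact ⟨⟨h5, by omega⟩, hw⟩
    · rintro ⟨⟨h5, h6⟩, _⟩
      exact ⟨h5, by omega⟩

theorem ne (h : Clo K R R' s q x v) {w : V} {p : ℤ} (hp : p ≤ q) (hw : R'.Cr w p) : w ≠ v := by
  rintro rfl
  have := hw.1
  have := h.lv
  omega

theorem cr (h : Clo K R R' s q x v) {w : V} {p : ℤ} (hp : p ≤ q) :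
    R'.Cr w p ↔ R.Cr w p ∧ w ≠ v := by
  constructor
  · intro hw
    have h1 := h.ne hp hw
    obtain ⟨h2, h3⟩ := hw
    have h4 := h.lw w h1
    refine ⟨⟨by omega, ?_⟩, h1⟩
    by_cases h5 : R.hi w < q
    · rw [← h.hl w h5]
      exact h3
    · omega
  · rintro ⟨⟨h2, h3⟩, h1⟩
    have h4 := h.lw w h1
    refine ⟨by omega, ?_⟩
    by_cases h5 : R.hi w < q
    · rw [h.hl w h5]
      exact h3
    · have := h.hg w (by omega)
      omega

/-- the heights -/
theorem N_le (h : Clo K R R' s q x v) {p : ℤ} (hp : p ≤ q) :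
    R.N (Ts K R s) p ≤ R'.N (Ts K R' s) p + if R.lo v ≤ p then 1 else 0 := by
  classical
  rw [h.ts']
  unfold Rep.N
  by_cases hvp : R.lo v ≤ p
  · rw [if_pos hvp]
    have h7 : ((Ts K R s).filter fun w => R.Cr w p) ⊆
        insert v ((Ts K R s).filter fun w => R'.Cr w p) := by
      intro w hw
      rw [Finset.mem_filter] at hw
      rw [Finset.mem_insert, Finset.mem_filter]
      by_cases hwy : w = v
      · exact Or.inl hwy
      · exact Or.inr ⟨hw.1, (h.cr hp).2 ⟨hw.2, hwy⟩⟩
    exact (Finset.card_le_card h7).trans (Finset.card_insert_le _ _)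
  · rw [if_neg hvp, add_zero]
    refine Finset.card_le_card fun w hw => ?_
    rw [Finset.mem_filter] at hw ⊢
    refine ⟨hw.1, (h.cr hp).2 ⟨hw.2, ?_⟩⟩
    rintro rfl
    exact hvp hw.2.1

/-- the conditions of the elements -/
theorem key (h : Clo K R R' s q x v) {p : ℤ} (hp : p ≤ q) {t : V} (ht : t ∈ K)
    (htp : R'.Cr t p) :
    R.Cr t p ∧ R.N (Ts K R s) p + R.U K t ≤ R'.N (Ts K R' s) p + R'.U K t := by
  obtain ⟨h1, h2⟩ := (h.cr hp).1 htp
  refine ⟨h1, ?_⟩
  have h3 := h.N_le hp
  have h4 := h.ge t ht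
  by_cases hvp : R.lo v ≤ p
  · rw [if_pos hvp] at h3
    have h5 := h.up t ht h2 (hvp.trans h1.2) (h1.1.trans hp)
    omega
  · rw [if_neg hvp] at h3
    omega

theorem keyA (h : Clo K R R' s q x v) {p p' : ℤ} (hp : p ≤ p') (hp' : p' ≤ q) :
    R.N (Ts K R s) p + OCN.ua K R p' ≤ R'.N (Ts K R' s) p + OCN.ua K R' p' := by
  have h3 := h.N_le (hp.trans hp')
  have h4 := h.ua p' hp'
  by_cases hvp : R.lo v ≤ p
  · rw [if_pos hvp] at h3
    rw [if_pos (hvp.trans hp)] at h4
    omega
  · rw [if_neg hvp] at h3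
    split_ifs at h4 <;> omega

end Clo

/-- (block C) the closing; `x ∈ K` is any element which crosses `q` -/
theorem Yd.closing [Fintype V] (h : Yd B K R s m M ν cb δ) {r : V → V → Prop} (hr : Loc r K R)
    (hMq : M ≤ q) (hxK : x ∈ K) (hxq : R.Cr x q) (hv : v ∈ Ts K R s) (hvq : R.Cr v q)
    (hxv : x ≠ v) (hc : R.lo v ≤ m ∨ M = m) :
    ∃ (r' : V → V → Prop) (R' : Rep V), Loc r' K R' ∧ (∀ a b, r a b → r' a b) ∧
      (∀ w ∈ K, (w = x ∨ R.hi w < q) → r' w v) ∧ newP r r' + R.U K x + R.D K v + 1 ≤ K.card ∧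
      Yd B K R' s m M ν cb δ ∧
      (∀ w, w ∈ Zs K R' s ↔ w ∈ Zs K R s) ∧ (∀ w ∈ Zs K R s, R'.hi w = R.hi w) ∧
      (ua K R' m = ua K R m + if R.lo v ≤ m then 1 else 0) ∧
      (ua K R' M = ua K R M + if R.lo v ≤ M then 1 else 0) ∧
      (ua K R' s = ua K R s + if R.lo v ≤ s then 1 else 0) ∧
      (∀ w, w ∈ Bs K R' s ↔ w ∈ Bs K R s ∧ w ≠ v) ∧ SameL K R R' s (fun _ => False) := by
  have hsm := h.sm
  have hmM := h.mM
  obtain ⟨r', R', g1, g2, g3, g4, g5⟩ := op_clo hr h.ir (by omega) hxK hxq hv hvq hxv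
  have hvs := g5.vs
  have hlo : ∀ w, w ≠ v → R'.lo w ≤ M → R.lo w = R'.lo w := fun w hw h1 => by
    have := g5.lw w hw
    omega
  have hnv : ∀ w, R'.lo w ≤ M → w ≠ v := by
    rintro w h1 rfl
    have := g5.lv
    omega
  have hhi : ∀ w ∈ Zs K R s, R'.hi w = R.hi w := fun w hw => by
    have h1 := (mem_Zs.1 hw)
    have hwv : w ≠ v := by
      rintro rfl
      omega
    rcases lt_or_ge (R.hi w) q with h2 | h2
    · exact g5.hl w h2
    · have h3 : R.hi w = q := by
        rcases h.hz w hw with h4 | h4 <;> omega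
      rw [g5.he w h1.1 hwv h3, h3]
  refine ⟨r', R', g1, g2, g3, g4, ?_, g5.zs, hhi, g5.ua m (by omega), g5.ua M hMq,
    g5.ua s (by omega), g5.bs, g5.sameL⟩
  exact
    { gT := by rw [g5.ts']; exact h.gT
      ir := g5.ir
      sm := hsm
      mM := hmM
      hz := by
        intro z hz
        rw [hhi z ((g5.zs z).1 hz)]
        exact h.hz z ((g5.zs z).1 hz)
      zM := by
        intro p h1 h2
        have h3 := g5.keyA (p := p) (p' := M) (by omega) hMq
        have h4 := h.zM p h1 h2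
        omega
      zm := by
        intro p h1 h2
        have h3 := g5.keyA (p := p) (p' := m) (by omega) (by omega)
        have h4 := h.zm p h1 h2
        omega
      fr := by
        intro t ht h1 h2 p h3 h4
        have h5 := hlo t (hnv t (by omega)) (by omega)
        obtain ⟨h6, h7⟩ := g5.key (p := p) (by omega) ht h3
        have h8 := h.fr t ht (by omega) (by omega) p h6 h4
        omega
      ba := by
        intro t ht h1 p h3 h4
        have h5 := hlo t (hnv t (by omega)) (by omega)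
        obtain ⟨h6, h7⟩ := g5.key (p := p) (by omega) ht h3
        have h8 := h.ba t ht (by omega) p h6 h4
        omega
      wz := by
        intro p h1 h2
        have h3 := g5.keyA (p := p) (p' := M) h2 hMq
        have h4 := h.wz p h1 h2
        omega
      ws := by
        intro t ht h1 h2 p h3 h4
        have h5 := hlo t (hnv t (by omega)) (by omega)
        obtain ⟨h6, h7⟩ := g5.key (p := p) (by omega) ht h3
        have h8 := h.ws t ht (by omega) (by omega) p h6 h4
        omega }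

end Pool.Agent.OCN.YC
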