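import Pool.Agent.Lib_helper16.OCN.FrameE
import Pool.Agent.Lib_helper47.OCN.Lf

/-!
# MP_aeb124_co: the class Yc (definitions)

The boundaries are `s0 ≤ s`. The undecided elements start before `s0` and end at the gap `m`
(finished) or at the gap `M` (unfinished). `N` counts the elements of the right part, `ua K R p` the starts
after the gap `p`. All the height conditions are of the form
`K.card + const ≤ B + N p + (number of elements above)`.
-/

set_option autoImplicit false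

namespace Pool.Agent.OCN.YC

variable {V : Type}

open scoped Classical in
/-- the base elements: the elements of the right part which start at `s` -/
noncomputable def Bs (K : Finset V) (R : Rep V) (s : ℤ) : Finset V := K.filter fun t => R.lo t = s

open scoped Classical in
/-- the unfinished undecided elements -/
noncomputable def As (K : Finset V) (R : Rep V) (s m : ℤ) : Finset V :=
  (Zs K R s).filter fun z => m < R.hi z

theorem mem_Bs {K : Finset V} {R : Rep V} {s : ℤ} {t : V} :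
    t ∈ Bs K R s ↔ t ∈ K ∧ R.lo t = s := by
  classical
  exact Finset.mem_filter

theorem mem_As {K : Finset V} {R : Rep V} {s m : ℤ} {z : V} :
    z ∈ As K R s m ↔ z ∈ Zs K R s ∧ m < R.hi z := by
  classical
  exact Finset.mem_filter

/-- the right side of the class Yc -/
structure Yd (B : ℕ) (K : Finset V) (R : Rep V) (s m M : ℤ) (ν cb : ℕ) (δ : V → ℕ) :
    Prop where
  gT : K.card ≤ B + (Ts K R s).card
  ir : InjS K R s
  sm : s ≤ m
  mM : m ≤ M
  hz : ∀ z ∈ Zs K R s, R.hi z = m ∨ R.hi z = M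
  zM : ∀ p, s ≤ p → p ≤ m → K.card + 1 ≤ B + R.N (Ts K R s) p + ua K R M
  zm : ∀ p, s ≤ p → p ≤ m → K.card + 2 ≤ B + R.N (Ts K R s) p + ua K R m
  fr : ∀ t ∈ K, s < R.lo t → R.lo t ≤ m → ∀ p, R.Cr t p → p ≤ m →
    K.card + 1 ≤ B + R.N (Ts K R s) p + R.U K t
  ba : ∀ t ∈ K, R.lo t = s → ∀ p, R.Cr t p → p ≤ m →
    K.card ≤ B + R.N (Ts K R s) p + R.U K t + δ t
  wz : ∀ q, m < q → q ≤ M → K.card + ν ≤ B + R.N (Ts K R s) q + ua K R M
  ws : ∀ t ∈ K, m < R.lo t → R.lo t ≤ M → ∀ q, R.Cr t q → q ≤ M →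
    K.card + ν ≤ B + R.N (Ts K R s) q + R.U K t + cb

/-- the numbers of a position of the class Yc -/
structure St where
  /-- the undecided elements -/
  o : ℕ
  /-- the unfinished ones -/
  a : ℕ
  /-- the starts in the window -/
  r : ℕ
  /-- the starts after `m` -/
  u : ℕ
  /-- the starts of the main part -/
  μ : ℕ
  /-- the surplus of the heights in the window -/
  ν : ℕ
  /-- the deficit of the window start -/
  cb : ℕ
  /-- the deficits of the base elements -/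
  β : Multiset ℕ

/-- the numbers -/
structure Yn (K : Finset V) (R : Rep V) (s m M : ℤ) (δ : V → ℕ) (σ : St) : Prop where
  o : (Zs K R s).card = σ.o
  a : (As K R s m).card = σ.a
  u : ua K R m = σ.u
  r : σ.u = ua K R M + σ.r
  μ : ua K R s = σ.u + σ.μ
  β : (Bs K R s).val.map δ = σ.β

/-- the class Yc with the numbers `σ` (the left side is the class `Lf` of helper47) -/
def Yc (B W nl : ℕ) (K : Finset V) (R : Rep V) (σ : St) : Prop :=
  ∃ (s0 s m M : ℤ) (δ : V → ℕ), B + W ≤ K.card ∧ K.card ≤ B + (Ls K R s).card ∧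
    Lf B K R s0 s W ∧ nl ≤ ua K R.dual (1 - s0) ∧ Yd B K R s m M σ.ν σ.cb δ ∧
    Yn K R s m M δ σ

/-- a position of the class Yc has been reached which contains the answer to `x → y`, and `I` pairs
are left -/
def Got [Fintype V] (B W nl : ℕ) (r0 : V → V → Prop) (x y : V) (σ : St) (I : ℕ) : Prop :=
  ∃ (r' : V → V → Prop) (K : Finset V) (R : Rep V), Loc r' K R ∧ (∀ a b, r0 a b → r' a b) ∧
    r' x y ∧ newP r0 r' + I ≤ B ∧ Yc B W nl K R σ

/-- the payments (the last argument is the price) -/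
inductive Pay : St → St → ℕ → Prop
  /-- one unfinished element is finished -/
  | one (o a r u μ ν cb : ℕ) (β : Multiset ℕ) :
      Pay ⟨o, a + 1, r, u, μ, ν, cb, β⟩ ⟨o, a, r, u, μ, ν, cb, β⟩ r
  /-- all unfinished elements go one start down -/
  | all (o a r u μ ν cb : ℕ) (β : Multiset ℕ) :
      Pay ⟨o, a, r + 2, u, μ, ν, cb, β⟩ ⟨o, a, r + 1, u, μ, ν, cb, β⟩ a
  /-- the last start of the main part is opened -/
  | opn (o r u μ ν cb : ℕ) (β : Multiset ℕ) :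
      Pay ⟨o, 0, r, u, μ + 1, ν, cb, β⟩ ⟨o, o, 1, u + 1, μ, 1, 0, β⟩ 0
  /-- a base element becomes a start -/
  | conv (o r u ν cb j : ℕ) (γ : Multiset ℕ) :
      Pay ⟨o, 0, r, u, 0, ν, cb, j ::ₘ γ⟩ ⟨o, o, 1, u + 1, 0, 1, j + 1, γ.map (· + 1)⟩ 0
  /-- a base element goes one start down -/
  | base (o a r u μ ν cb j : ℕ) (γ : Multiset ℕ) :
      Pay ⟨o, a, r, u, μ, ν, cb, (j + 1) ::ₘ γ⟩ ⟨o, a, r, u, μ, ν, cb, j ::ₘ γ⟩ 1
  /-- a closed window has no data -/
  | nrm (o r u μ ν cb ν' cb' : ℕ) (β : Multiset ℕ) :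
      Pay ⟨o, 0, r, u, μ, ν, cb, β⟩ ⟨o, 0, 0, u, μ, ν', cb', β⟩ 0
  /-- weakening of a deficit -/
  | wkb (o a r u μ ν cb j j' : ℕ) (γ : Multiset ℕ) (h : j ≤ j') :
      Pay ⟨o, a, r, u, μ, ν, cb, j ::ₘ γ⟩ ⟨o, a, r, u, μ, ν, cb, j' ::ₘ γ⟩ 0
  /-- weakening of the data of the window -/
  | wkw (o a r u μ ν cb ν' cb' : ℕ) (β : Multiset ℕ) (h : ν' ≤ ν) (h' : cb + ν' ≤ cb' + ν) :
      Pay ⟨o, a, r, u, μ, ν, cb, β⟩ ⟨o, a, r, u, μ, ν', cb', β⟩ 0

/-- several payments -/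
inductive Pays : St → St → ℕ → Prop
  | refl (σ : St) : Pays σ σ 0
  | step {σ σ' σ'' : St} {c c' : ℕ} (h : Pays σ σ' c) (h' : Pay σ' σ'' c') : Pays σ σ'' (c + c')

/-- the attacks: the new numbers and the pairs which are left -/
inductive Att (W : ℕ) : St → St → ℕ → Prop
  /-- left attack (or attack of an undecided element), finished element -/
  | lR (o a r u μ ν cb : ℕ) (β : Multiset ℕ) (h : a ≤ o) :
      Att W ⟨o + 1, a, r, u, μ, ν, cb, β⟩ ⟨o, a, r, u, μ, ν, cb, β⟩ (o - (W - u))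
  /-- left attack (or attack of an undecided element), unfinished element -/
  | lA (o a r u μ ν cb : ℕ) (β : Multiset ℕ) :
      Att W ⟨o + 1, a + 1, r, u, μ, ν, cb, β⟩ ⟨o, a, r, u, μ, ν, cb, β⟩ (o - (W + r - u))
  /-- attack of a left element on a finished element -/
  | hR (o a r u μ ν cb : ℕ) (β : Multiset ℕ) (h : a ≤ o) :
      Att W ⟨o + 1, a, r, u, μ, ν, cb, β⟩ ⟨o, a, r, u, μ, ν, cb, 0 ::ₘ β⟩ (o + 1)
  /-- attack of a left element on an unfinished element -/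
  | hA (o a r u μ ν cb : ℕ) (β : Multiset ℕ) :
      Att W ⟨o + 1, a + 1, r, u, μ, ν, cb, β⟩ ⟨o, a, r, u, μ, ν, cb, 0 ::ₘ β⟩ (o + 1)
  /-- a base element attacks, window closed -/
  | b0 (o r u μ ν cb j : ℕ) (γ : Multiset ℕ) :
      Att W ⟨o + 1, 0, r, u, μ, ν, cb, j ::ₘ γ⟩ ⟨o, 0, r, u, μ + 1, ν, cb, 0 ::ₘ γ⟩ (o - j)
  /-- a base element attacks an unfinished element -/
  | bA (o a r u μ ν cb j : ℕ) (γ : Multiset ℕ) :
      Att W ⟨o + 1, a + 1, r, u, μ, ν, cb, j ::ₘ γ⟩ ⟨o, a, r, u, μ + 1, ν, cb, 0 ::ₘ γ⟩ (o - j)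
  /-- a base element attacks a finished element, the window is closed -/
  | bC (o a r u μ ν cb j : ℕ) (γ : Multiset ℕ) (h : r * a + j ≤ o) :
      Att W ⟨o + 1, a, r, u, μ, ν, cb, j ::ₘ γ⟩ ⟨o, 0, 0, u, μ + 1, ν, cb, 0 ::ₘ γ⟩
        (o - j - r * a)
  /-- a base element attacks a finished element, the window is not closed -/
  | bR (o a r u μ ν cb j : ℕ) (γ : Multiset ℕ) (h : o < r * a + j) :
      Att W ⟨o + 1, a, r, u, μ, ν + 1, cb, j ::ₘ γ⟩ ⟨o, a, r, u, μ + 1, ν, cb, 0 ::ₘ γ⟩ (o - j)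
  /-- a start of the main part attacks, window closed -/
  | f0 (o r u μ ν cb : ℕ) (β : Multiset ℕ) :
      Att W ⟨o + 1, 0, r, u, μ, ν, cb, β⟩ ⟨o, 0, r, u, μ + 1, ν, cb, β⟩ (o + 1)
  /-- a start of the main part attacks an unfinished element -/
  | fA (o a r u μ ν cb : ℕ) (β : Multiset ℕ) :
      Att W ⟨o + 1, a + 1, r, u, μ, ν, cb, β⟩ ⟨o, a, r, u, μ + 1, ν, cb, β⟩ (o + 1)
  /-- a start of the main part attacks a finished element -/
  | fC (o a r u μ ν cb : ℕ) (β : Multiset ℕ) (h : r * a ≤ o + 1) :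
      Att W ⟨o + 1, a, r, u, μ, ν, cb, β⟩ ⟨o, 0, 0, u, μ + 1, ν, cb, β⟩ (o + 1 - r * a)
  /-- a start of the window attacks, short window -/
  | ws (o a r u μ ν : ℕ) (β : Multiset ℕ) :
      Att W ⟨o + 1, a + 1, r, u, μ, ν, 0, β⟩ ⟨o, a, r + 1, u + 1, μ, ν, 0, β⟩ (a + ν)
  /-- the start of the window attacks, long window -/
  | wl (o a u μ ν cb : ℕ) (β : Multiset ℕ) (h : cb ≤ a + ν) :
      Att W ⟨o + 1, a + 1, 1, u, μ, ν, cb, β⟩ ⟨o, a, 2, u + 1, μ, ν, 0, β⟩ (a + ν - cb)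
  /-- attack on a right element after `m`: the window is closed -/
  | r4 (o a r u μ ν cb : ℕ) (β : Multiset ℕ) (h : r * a ≤ o + 1) :
      Att W ⟨o, a, r, u, μ, ν, cb, β⟩ ⟨o, 0, 0, u, μ, ν, cb, β⟩ (o + 1 - r * a)
  /-- attack on a long start of the main part -/
  | r5f (o a r u μ ν cb : ℕ) (β : Multiset ℕ) :
      Att W ⟨o, a, r, u, μ + 1, ν, cb, β⟩ ⟨o, a, r, u + 1, μ, ν, cb, β⟩ 0
  /-- attack on a long base element -/
  | r5b (o a r u μ ν cb j : ℕ) (γ : Multiset ℕ) :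
      Att W ⟨o, a, r, u, μ, ν, cb, j ::ₘ γ⟩ ⟨o, a, r, u + 1, μ, ν, cb, γ⟩ 0
  /-- nothing changes -/
  | nil (σ : St) : Att W σ σ 0

/-- the conditions which the attack theorem needs -/
structure Ok (W : ℕ) (σ : St) : Prop where
  /-- a closed window is empty -/
  n0 : σ.a = 0 → σ.r = 0
  /-- some element is undecided -/
  o1 : 1 ≤ σ.o
  /-- the left attacks can be paid -/
  eR : W - σ.u + 1 ≤ σ.o
  /-- the left attacks on unfinished elements can be paid -/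
  eA : 1 ≤ σ.a → W + σ.r - σ.u + 1 ≤ σ.o
  /-- the base attacks can be paid -/
  f1 : ∀ j ∈ σ.β, j + 1 ≤ σ.o
  /-- the window can be closed -/
  w1 : σ.r * σ.a ≤ σ.o
  /-- the window can be closed in a base attack, or it has a surplus -/
  w2 : 1 ≤ σ.ν ∨ ∀ j ∈ σ.β, σ.r * σ.a + j + 1 ≤ σ.o
  /-- long windows -/
  w3 : 1 ≤ σ.a → 1 ≤ σ.cb → σ.r = 1 ∧ σ.cb + 1 ≤ σ.a + σ.ν

end Pool.Agent.OCN.YC
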