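import Pool.Agent.Lib_helper16.OCN.YcX

/-!
# MP_aeb124_co: the class Yc, the entry (block E2)
-/

set_option autoImplicit false

namespace Pool.Agent.OCN.YC

variable {V : Type} {B W nl : ℕ} {K : Finset V} {R : Rep V}

/-- the undecided elements end at the last gap `b`, all the right heights are at least `c` -/
structure E2F (r : V → V → Prop) (B : ℕ) (K : Finset V) (R : Rep V) (s0 s b : ℤ)
    (W o l t c n : ℕ) : Prop where
  loc : Loc r K R
  lf : Lf B K R s0 s W
  zc : (Zs K R s).card = o
  lc : (Ls K R s).card = l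
  tc : (Ts K R s).card = t
  sb : s ≤ b
  z : ∀ z ∈ Zs K R s, R.hi z = b
  al : ∀ w ∈ K, R.hi w ≤ b
  nT : ∀ p, s ≤ p → p ≤ b → c ≤ R.N (Ts K R s) p
  ir : InjS K R s
  nl : n ≤ ua K R.dual (1 - s0)

section
variable {r : V → V → Prop} {s0 s b : ℤ} {o l t c n : ℕ}

theorem E2_card (K : Finset V) (R : Rep V) (s : ℤ) :
    (Bs K R s).card + ua K R s = (Ts K R s).card := by
  classical
  unfold ua
  rw [← Finset.card_union_of_disjoint]
  · congr 1
    ext w
    rw [Finset.mem_union, Finset.mem_filter, mem_Bs, mem_Ts]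
    constructor
    · rintro (h1 | h1)
      · exact ⟨h1.1, by omega⟩
      · exact ⟨h1.1, by omega⟩
    · rintro ⟨h1, h2⟩
      by_cases h3 : R.lo w = s
      · exact Or.inl ⟨h1, h3⟩
      · exact Or.inr ⟨h1, by omega⟩
  · rw [Finset.disjoint_left]
    intro w hw hw'
    rw [mem_Bs] at hw
    rw [Finset.mem_filter] at hw'
    omega

/-- a surplus long element of the right part gets an own start -/
theorem E2F.conv (h : E2F r B K R s0 s b W o l t c n) (hlt : ua K R s + c < t) :
    ∃ R' : Rep V, E2F r B K R' s0 s (b + 1) W o l t c n ∧ ua K R' s = ua K R s + 1 := by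
  classical
  have hXc := E2_card K R s
  rw [h.tc] at hXc
  obtain ⟨w, hw⟩ := Finset.card_pos.1 (show 0 < (Bs K R s).card by omega)
  obtain ⟨hwK, hws⟩ := mem_Bs.1 hw
  obtain ⟨R', hR'⟩ : ∃ R', R' = R.insL s (fun z => z ≠ w) := ⟨_, rfl⟩
  have hlo : ∀ z, (R.lo z < s ∧ R'.lo z = R.lo z) ∨ (R.lo z = s ∧ z ≠ w ∧ R'.lo z = s) ∨
      (s ≤ R.lo z ∧ (R.lo z = s → z = w) ∧ R'.lo z = R.lo z + 1) := by
    intro z
    rw [hR']
    unfold Rep.insL
    simp only
    by_cases h1 : R.lo z < s
    · rw [if_pos h1]
      exact Or.inl ⟨h1, rfl⟩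
    · rw [if_neg h1]
      by_cases h2 : R.lo z = s ∧ z ≠ w
      · rw [if_pos h2]
        exact Or.inr (Or.inl ⟨h2.1, h2.2, rfl⟩)
      · rw [if_neg h2]
        refine Or.inr (Or.inr ⟨by omega, fun h3 => ?_, rfl⟩)
        by_contra h4
        exact h2 ⟨h3, h4⟩
  have hhi : ∀ z, (R.hi z < s ∧ R'.hi z = R.hi z) ∨ (s ≤ R.hi z ∧ R'.hi z = R.hi z + 1) := by
    intro z
    rw [hR']
    unfold Rep.insL
    simp only
    by_cases h1 : R.hi z < s
    · rw [if_pos h1]
      exact Or.inl ⟨h1, rfl⟩
    · rw [if_neg h1]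
      exact Or.inr ⟨by omega, rfl⟩
  have hZ : Zs K R' s = Zs K R s := by
    ext z
    rw [mem_Zs, mem_Zs]
    have h1 := hlo z
    have h2 := hhi z
    constructor <;> rintro ⟨h3, h4, h5⟩ <;> refine ⟨h3, ?_, ?_⟩ <;> omega
  have hL : Ls K R' s = Ls K R s := by
    ext z
    rw [mem_Ls, mem_Ls]
    have h2 := hhi z
    constructor <;> rintro ⟨h3, h4⟩ <;> refine ⟨h3, ?_⟩ <;> omega
  have hT : Ts K R' s = Ts K R s := by
    ext z
    rw [mem_Ts, mem_Ts]
    have h1 := hlo z
    constructor <;> rintro ⟨h3, h4⟩ <;> refine ⟨h3, ?_⟩ <;> omega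
  have hsb := h.sb
  refine ⟨R', ⟨⟨h.loc.so, h.loc.iso, fun u hu v hv => ?_⟩, ?_, by rw [hZ]; exact h.zc,
    by rw [hL]; exact h.lc, by rw [hT]; exact h.tc, by omega, ?_, ?_, ?_, ?_, ?_⟩, ?_⟩
  · rw [h.loc.eq u hu v hv, hR', Rep.rel_insL]
  · refine h.lf.of_right ?_ ?_ ?_ ?_
    · intro z _ h1
      have := hlo z
      left
      omega
    · intro z _ h1
      have := hlo z
      omega
    · intro z _ h1
      have := hhi z
      omega
    · intro z _ h1
      have := hhi z
      omega
  · intro z hz
    rw [hZ] at hz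
    have h1 := h.z z hz
    have h4 := hhi z
    omega
  · intro z hz
    have h1 := h.al z hz
    have h4 := hhi z
    omega
  · -- the heights in the right part
    intro p hp hpb
    rw [hT]
    rcases lt_trichotomy p (s + 1) with hlt' | heq | hgt
    · -- the new gap
      have hps : p = s := by omega
      have h1 : (Bs K R s).erase w ⊆ (Ts K R s).filter fun z => R'.Cr z p := by
        intro z hz
        obtain ⟨hzw, hzX⟩ := Finset.mem_erase.1 hz
        obtain ⟨hzK, hzs⟩ := mem_Bs.1 hzX
        rw [Finset.mem_filter, mem_Ts]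
        refine ⟨⟨hzK, by omega⟩, ?_⟩
        have h3 := hlo z
        have h4 := hhi z
        have h5 := R.le z
        unfold Rep.Cr
        rcases h3 with h3 | h3 | h3
        · omega
        · omega
        · exact absurd (h3.2.1 hzs) hzw
      have h2 := Finset.card_le_card h1
      rw [Finset.card_erase_of_mem hw] at h2
      unfold Rep.N
      omega
    · subst heq
      refine (h.nT s le_rfl hsb).trans ?_
      unfold Rep.N
      refine Finset.card_le_card fun z hz => ?_
      rw [Finset.mem_filter, mem_Ts] at hz ⊢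
      refine ⟨hz.1, ?_⟩
      have h3 := hlo z
      have h4 := hhi z
      have h5 := hz.2
      have h6 := hz.1.2
      unfold Rep.Cr at h5 ⊢
      omega
    · refine (h.nT (p - 1) (by omega) (by omega)).trans ?_
      unfold Rep.N
      refine Finset.card_le_card fun z hz => ?_
      rw [Finset.mem_filter, mem_Ts] at hz ⊢
      refine ⟨hz.1, ?_⟩
      have h3 := hlo z
      have h4 := hhi z
      have h5 := hz.2
      have h6 := hz.1.2
      unfold Rep.Cr at h5 ⊢
      omega
  · intro u hu v hv h1 h2
    have h3 := hlo u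
    have h4 := hlo v
    by_cases hu' : R.lo u = s
    · have e1 : u = w := by
        rcases h3 with h3 | h3 | h3
        · omega
        · omega
        · exact h3.2.1 hu'
      have e2 : R.lo v = s := by
        rcases h3 with h3 | h3 | h3 <;> rcases h4 with h4 | h4 | h4 <;> omega
      have e3 : v = w := by
        rcases h4 with h4 | h4 | h4
        · omega
        · rcases h3 with h3 | h3 | h3 <;> omega
        · exact h4.2.1 e2
      rw [e1, e3]
    · have e1 : s < R.lo u ∧ R'.lo u = R.lo u + 1 := by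
        rcases h3 with h3 | h3 | h3 <;> omega
      have e2 : R.lo v = R.lo u := by
        rcases h4 with h4 | h4 | h4 <;> omega
      exact h.ir u hu v hv e1.1 e2.symm
  · refine h.nl.trans ?_
    unfold ua
    refine Finset.card_le_card fun z hz => ?_
    rw [Finset.mem_filter] at hz ⊢
    have h3 := hhi z
    have h5 := h.lf.le
    have h6 := hz.2
    unfold Rep.dual at h6 ⊢
    simp only at h6 ⊢
    exact ⟨hz.1, by omega⟩
  · unfold ua
    have h1 : (K.filter fun z => s < R'.lo z) = insert w (K.filter fun z => s < R.lo z) := by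
      ext z
      rw [Finset.mem_insert, Finset.mem_filter, Finset.mem_filter]
      have h3 := hlo z
      constructor
      · rintro ⟨h4, h5⟩
        by_cases hzw : z = w
        · exact Or.inl hzw
        · refine Or.inr ⟨h4, ?_⟩
          rcases h3 with h3 | h3 | h3
          · omega
          · omega
          · by_contra h6
            exact hzw (h3.2.1 (by omega))
      · rintro (rfl | ⟨h4, h5⟩)
        · refine ⟨hwK, ?_⟩
          rcases h3 with h3 | h3 | h3
          · omega
          · exact absurd rfl h3.2.1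
          · omega
        · exact ⟨h4, by omega⟩
    rw [h1, Finset.card_insert_of_notMem]
    rw [Finset.mem_filter]
    intro h2
    omega

theorem E2F.ua_le (h : E2F r B K R s0 s b W o l t c n) : ua K R s + c ≤ t := by
  classical
  have h1 := E2_card K R s
  rw [h.tc] at h1
  have h2 := h.nT s le_rfl h.sb
  have h3 : R.N (Ts K R s) s ≤ (Bs K R s).card := by
    unfold Rep.N
    refine Finset.card_le_card fun z hz => ?_
    rw [Finset.mem_filter, mem_Ts] at hz
    rw [mem_Bs]
    obtain ⟨⟨h4, h5⟩, h6, h7⟩ := hz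
    exact ⟨h4, by omega⟩
  omega

theorem E2F.convs (h : E2F r B K R s0 s b W o l t c n) :
    ∃ (R' : Rep V) (b' : ℤ), E2F r B K R' s0 s b' W o l t c n ∧ ua K R' s = t - c := by
  obtain ⟨k, hk⟩ : ∃ k, k = t - c - ua K R s := ⟨_, rfl⟩
  induction k generalizing R b with
  | zero =>
    have := h.ua_le
    exact ⟨R, b, h, by omega⟩
  | succ k ih =>
    obtain ⟨R', h1, h2⟩ := h.conv (by omega)
    exact ih h1 (by omega)

theorem E2F.entry (h : E2F r B K R s0 s b W o l t c nl) (hl : K.card ≤ B + l)
    (hW : B + W ≤ K.card) (hc : K.card + 2 ≤ B + c) (hua : ua K R s = t - c) :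
    Yc B W nl K R ⟨o, 0, 0, 0, t - c, 1, 0, Multiset.replicate c 0⟩ := by
  classical
  have hub : ua K R b = 0 := by
    unfold ua
    rw [Finset.card_eq_zero, Finset.filter_eq_empty_iff]
    intro w hw hw'
    have h1 := h.al w hw
    have h2 := R.le w
    omega
  have hct := h.ua_le
  refine ⟨s0, s, b, b, fun _ => 0, hW, by rw [h.lc]; exact hl, h.lf, h.nl, ?_, ?_⟩
  · refine ⟨by rw [h.tc]; omega, h.ir, h.sb, le_rfl, ?_, ?_, ?_, ?_, ?_, ?_, ?_⟩
    · intro z hz
      exact Or.inl (h.z z hz)
    · intro p h1 h2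
      have := h.nT p h1 h2
      omega
    · intro p h1 h2
      have := h.nT p h1 h2
      omega
    · intro w hw h1 h2 p h3 h4
      have := h.nT p (by have := h3.1; omega) h4
      omega
    · intro w hw h1 p h3 h4
      have := h.nT p (by have := h3.1; omega) h4
      omega
    · intro q h1 h2
      omega
    · intro w hw h1 h2
      omega
  · refine ⟨h.zc, ?_, hub, ?_, ?_, ?_⟩
    · show (As K R s b).card = 0
      rw [Finset.card_eq_zero, Finset.eq_empty_iff_forall_notMem]
      intro z hz
      obtain ⟨h1, h2⟩ := mem_As.1 hz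
      have := h.z z h1
      omega
    · show 0 = ua K R b + 0
      omega
    · show ua K R s = 0 + (t - c)
      omega
    · show (Bs K R s).val.map (fun _ => 0) = Multiset.replicate c 0
      have h1 := E2_card K R s
      rw [h.tc] at h1
      have h2 : (Bs K R s).card = c := by omega
      rw [Multiset.map_const', Finset.card_val, h2]

/-- the entry from a position with right heights at least `c` -/
theorem E2F.yc (h : E2F r B K R s0 s b W o l t c nl) (hl : K.card ≤ B + l)
    (hW : B + W ≤ K.card) (hc : K.card + 2 ≤ B + c) :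
    ∃ R' : Rep V, Loc r K R' ∧
      Yc B W nl K R' ⟨o, 0, 0, 0, t - c, 1, 0, Multiset.replicate c 0⟩ := by
  obtain ⟨R', b', h1, h2⟩ := h.convs
  exact ⟨R', h1.loc, h1.entry hl hW hc h2⟩

end

section
variable {r : V → V → Prop} {s a b : ℤ} {o l t y c : ℕ}

theorem E2_lf (h : Flat r K R s a b o l t y c) (hl : K.card ≤ B + l)
    (hy : K.card ≤ B + y + W) : Lf B K R s s W := by
  classical
  refine ⟨le_rfl, ?_, ?_, by rw [h.lc]; omega, ?_, h.il⟩
  · intro w hw
    have := R.le w
    omega
  · intro u hu v hv huv h1 h2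
    have := R.le u
    omega
  · intro p hp h2
    have hap : a ≤ p := by
      by_contra hcon
      have h3 : (K.filter fun z => R.Cr z p) = ∅ := by
        rw [Finset.filter_eq_empty_iff]
        intro w hw hw'
        have h4 := h.al w hw
        have h5 := hw'.1
        omega
      have h4 : R.N K p = (K.filter fun z => R.Cr z p).card := rfl
      rw [h3, Finset.card_empty] at h4
      omega
    have h3 := h.nL p hap hp
    have h4 : R.N (Ls K R s) p + (Zs K R s).card ≤ R.N K p := by
      unfold Rep.N
      rw [← Finset.card_union_of_disjoint]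
      · refine Finset.card_le_card fun w hw => ?_
        rw [Finset.mem_union, Finset.mem_filter, mem_Ls] at hw
        rw [Finset.mem_filter]
        rcases hw with hw | hw
        · exact ⟨hw.1.1, hw.2⟩
        · have h5 := h.z w hw
          have h6 := (mem_Zs.1 hw)
          refine ⟨h6.1, ?_⟩
          unfold Rep.Cr
          omega
      · rw [Finset.disjoint_left]
        intro w hw hw'
        rw [Finset.mem_filter, mem_Ls] at hw
        rw [mem_Zs] at hw'
        omega
    omega

end

/-- (block E2) the entry: the undecided elements are flat, all right heights are at least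
`#K - B + 2`. `o` undecided, `l` left, `t` right elements, left heights `≥ y` -/
theorem _root_.Pool.Agent.OCN.Flat.yc {r : V → V → Prop} {s a b : ℤ} {o l t y c : ℕ}
    (h : Flat r K R s a b o l t y c) (hl : K.card ≤ B + l) (hy : K.card ≤ B + y + W)
    (hW : B + W ≤ K.card) (hc : K.card + 2 ≤ B + c) (hct : c ≤ t)
    (hnl : nl + y ≤ l) :
    ∃ R' : Rep V, Loc r K R' ∧
      Yc B W nl K R' ⟨o, 0, 0, 0, t - c, 1, 0, Multiset.replicate c 0⟩ := by
  obtain ⟨R1, b1, h1, h2⟩ := h.dual.convs nl hnl
  have h3 := h1.dual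
  have e1 : (1 : ℤ) - (1 - s) = s := by ring
  rw [e1] at h3
  have h4 : Flat r K R1.dual s (-b1) (-(-b)) o l t y c := h3
  have h5 : E2F r B K R1.dual s s (-(-b)) W o l t c nl :=
    ⟨h4.loc, E2_lf h4 hl hy, h4.zc, h4.lc, h4.tc, h4.sb, fun z hz => (h4.z z hz).2,
      fun z hz => (h4.al z hz).2, h4.nT, h4.ir, by rw [Rep.dual_dual]; exact h2⟩
  exact h5.yc hl hW hc

end Pool.Agent.OCN.YC
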