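import Pool.Agent.Lib_helper16.OCN.YcDef

/-!
# MP_aeb124_co: the class Yc, the number game (block N)
-/

set_option autoImplicit false

namespace Pool.Agent.OCN.YC

/-- the exit -/
def Ex (W nl : ℕ) (σ : St) : Prop :=
  σ.o = 0 ∨ (1 ≤ σ.o ∧ σ.a = 0 ∧ W ≤ σ.u ∧ ∀ j ∈ σ.β, 2 * j + 1 ≤ σ.o ∧ j ≤ nl)

/-- a class of numbers in which all attacks can be answered -/
structure Game (W nl : ℕ) (G : St → Prop) : Prop where
  ok : ∀ σ, G σ → Ok W σ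
  st : ∀ σ, G σ → ∀ σ' I, Att W σ σ' I → ∃ σ'' c, Pays σ' σ'' c ∧ c ≤ I ∧ (G σ'' ∨ Ex W nl σ'')

end Pool.Agent.OCN.YC
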