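import Pool.Agent.Lib_helper16.OCN.YcX

/-!
# MP_aeb124_co: the class Yc, payments on right elements (block P2)
-/

set_option autoImplicit false

namespace Pool.Agent.OCN.YC

variable {V : Type} {B W nl : ℕ} {K : Finset V} {R : Rep V}
  {rr : V → V → Prop} {o a r u μ ν cb : ℕ} {β : Multiset ℕ}

/-- a multiset of values with a first element -/
theorem P2_pick {S : Finset V} {δ : V → ℕ} {j : ℕ} {γ : Multiset ℕ}
    (h : S.val.map δ = j ::ₘ γ) : ∃ t ∈ S, δ t = j ∧
      ∀ S' : Finset V, (∀ w, w ∈ S' ↔ w ∈ S ∧ w ≠ t) → S'.val.map δ = γ := by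
  classical
  have h1 : j ∈ S.val.map δ := by
    rw [h]
    exact Multiset.mem_cons_self _ _
  obtain ⟨t, ht, htj⟩ := Multiset.mem_map.1 h1
  refine ⟨t, ht, htj, fun S' hS' => ?_⟩
  have h2 : S' = S.erase t := by
    ext w
    rw [hS', Finset.mem_erase]
    exact and_comm
  have h3 : S.val = t ::ₘ (S.erase t).val := by
    rw [Finset.erase_val, Multiset.cons_erase ht]
  rw [h3, Multiset.map_cons, htj] at h
  rw [h2]
  exact (Multiset.cons_inj_right _).1 h

/-- (block P2a) a base element with deficit `j` becomes a start: the gap `s` is duplicated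
(`Rep.insL`, as in `Flat.conv`) -/
theorem Yc.pay_conv {j : ℕ} {γ : Multiset ℕ}
    (h : Yc B W nl K R ⟨o, 0, r, u, 0, ν, cb, j ::ₘ γ⟩) (hr : Loc rr K R) :
    ∃ R' : Rep V, Loc rr K R' ∧
      Yc B W nl K R' ⟨o, o, 1, u + 1, 0, 1, j + 1, γ.map (· + 1)⟩ := by
  classical
  obtain ⟨s0, s, m, M, δ, hBW, hgL, hLf, hnl, hY, hn⟩ := h
  have hno := hn.o
  have hnu := hn.u
  have hnμ := hn.μ
  have hna := hn.a
  simp only at hno hnu hnμ hna
  have hsm := hY.sm
  have hmM := hY.mM
  have hzm : ∀ z ∈ Zs K R s, R.hi z = m := by
    intro z hz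
    rcases hY.hz z hz with h1 | h1
    · exact h1
    · by_contra h3
      have h4 : z ∈ As K R s m := mem_As.2 ⟨hz, by omega⟩
      rw [Finset.card_eq_zero.1 hna] at h4
      exact absurd h4 (Finset.notMem_empty _)
  -- there is no start in `(s, m]`
  have hnone : ∀ t ∈ K, s < R.lo t → m < R.lo t := by
    intro t ht h4
    by_contra h5
    have := ua_lt (K := K) (R := R) (p := s) (q := m) ht h4 (by omega)
    omega
  obtain ⟨t, ht, htj, hmap⟩ := P2_pick hn.β
  obtain ⟨htK, hts⟩ := mem_Bs.1 ht
  obtain ⟨R', hR'⟩ : ∃ R', R' = R.insL s (fun z => z ≠ t) := ⟨_, rfl⟩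
  have hlo : ∀ z, (R.lo z < s ∧ R'.lo z = R.lo z) ∨ (R.lo z = s ∧ z ≠ t ∧ R'.lo z = s) ∨
      (s ≤ R.lo z ∧ (R.lo z = s → z = t) ∧ R'.lo z = R.lo z + 1) := by
    intro z
    rw [hR']
    unfold Rep.insL
    simp only
    by_cases h1 : R.lo z < s
    · rw [if_pos h1]
      exact Or.inl ⟨h1, rfl⟩
    · rw [if_neg h1]
      by_cases h2 : R.lo z = s ∧ z ≠ t
      · rw [if_pos h2]
        exact Or.inr (Or.inl ⟨h2.1, h2.2, rfl⟩)
      · rw [if_neg h2]
        refine Or.inr (Or.inr ⟨by omega, fun h3 => ?_, rfl⟩)
        by_contra h4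
        exact h2 ⟨h3, h4⟩
  have hhi : ∀ z, (R.hi z < s ∧ R'.hi z = R.hi z) ∨ (s ≤ R.hi z ∧ R'.hi z = R.hi z + 1) := by
    intro z
    rw [hR']
    unfold Rep.insL
    simp only
    by_cases h1 : R.hi z < s
    · rw [if_pos h1]
      exact Or.inl ⟨h1, rfl⟩
    · rw [if_neg h1]
      exact Or.inr ⟨by omega, rfl⟩
  have hlt : R'.lo t = s + 1 := by
    rcases hlo t with h1 | h1 | h1
    · omega
    · exact absurd rfl h1.2.1
    · omega
  have hrel : ∀ x y, R'.rel x y ↔ R.rel x y := fun x y => by rw [hR', Rep.rel_insL]
  have hL : SameL K R R' s (fun _ => False) :=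
    { lo := fun w _ _ h1 => by rcases hlo w with h2 | h2 | h2 <;> omega
      lo' := fun w _ _ h1 => by rcases hlo w with h2 | h2 | h2 <;> omega
      hi := fun w _ _ h1 => by rcases hhi w with h2 | h2 <;> omega
      hi' := fun w _ _ h1 => by rcases hhi w with h2 | h2 <;> omega
      ex := fun _ _ h => h.elim }
  have hZ : Zs K R' s = Zs K R s := by
    ext w
    rw [hL.zs]
    exact ⟨fun h => h.1, fun h => ⟨h, fun h => h⟩⟩
  have hT : Ts K R' s = Ts K R s := by
    ext w
    rw [hL.ts]
    exact ⟨fun h => h.elim id (fun h => h.2.elim), fun h => Or.inl h⟩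
  have hU : ∀ w, R'.U K w = R.U K w := fun w => by
    unfold Rep.U
    exact congrArg Finset.card (Finset.filter_congr fun z _ => hrel w z)
  have hN1 : ∀ q, s < q → R'.N (Ts K R' s) q = R.N (Ts K R s) (q - 1) := by
    intro q hq
    unfold Rep.N
    rw [hT]
    refine congrArg Finset.card (Finset.filter_congr fun w hw => ?_)
    have h1 := (mem_Ts.1 hw).2
    have h2 := R.le w
    unfold Rep.Cr
    rcases hlo w with h3 | h3 | h3 <;> rcases hhi w with h4 | h4 <;> omega
  have hN0 : R.N (Ts K R s) s ≤ R'.N (Ts K R' s) s + 1 := by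
    rw [hT]
    refine Rep.N_le_succ (w := t) fun w hw hwt hc => ?_
    have h1 := (mem_Ts.1 hw).2
    have h2 := R.le w
    unfold Rep.Cr at hc ⊢
    rcases hlo w with h3 | h3 | h3
    · omega
    · rcases hhi w with h4 | h4 <;> omega
    · exact absurd (h3.2.1 (by omega)) hwt
  have hu1 : ∀ q, s < q → ua K R' q = ua K R (q - 1) := by
    intro q hq
    unfold ua
    refine congrArg Finset.card (Finset.filter_congr fun w _ => ?_)
    rcases hlo w with h3 | h3 | h3 <;> omega
  have hu0 : ua K R' s = ua K R s + 1 := by
    unfold ua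
    have h1 : (K.filter fun z => s < R'.lo z) = insert t (K.filter fun z => s < R.lo z) := by
      ext z
      rw [Finset.mem_insert, Finset.mem_filter, Finset.mem_filter]
      have h3 := hlo z
      constructor
      · rintro ⟨h4, h5⟩
        by_cases hzt : z = t
        · exact Or.inl hzt
        · refine Or.inr ⟨h4, ?_⟩
          rcases h3 with h3 | h3 | h3
          · omega
          · omega
          · by_contra h6
            exact hzt (h3.2.1 (by omega))
      · rintro (rfl | ⟨h4, h5⟩)
        · exact ⟨htK, by omega⟩
        · refine ⟨h4, ?_⟩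
          rcases h3 with h3 | h3 | h3 <;> omega
    rw [h1, Finset.card_insert_of_notMem]
    rw [Finset.mem_filter]
    intro h2
    omega
  have hB : ∀ w, w ∈ Bs K R' s ↔ w ∈ Bs K R s ∧ w ≠ t := by
    intro w
    rw [mem_Bs, mem_Bs]
    constructor
    · rintro ⟨h1, h2⟩
      have hwt : w ≠ t := by
        rintro rfl
        omega
      rcases hlo w with h3 | h3 | h3
      · omega
      · exact ⟨⟨h1, h3.1⟩, hwt⟩
      · omega
    · rintro ⟨⟨h1, h2⟩, h3⟩
      refine ⟨h1, ?_⟩
      rcases hlo w with h4 | h4 | h4
      · omega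
      · exact h4.2.2
      · exact absurd (h4.2.1 h2) h3
  refine ⟨R', ⟨hr.so, hr.iso, fun x hx y hy => ?_⟩, s0, s, s, m + 1, fun w => δ w + 1, hBW,
    by rw [hL.ls]; exact hgL, hL.lf hLf, by rw [hL.ul hLf.le]; exact hnl, ?_, ?_⟩
  · rw [hr.eq x hx y hy, hrel]
  · exact
      { gT := by rw [hT]; exact hY.gT
        ir := by
          intro x hx y hy h1 h2
          have h3 := hlo x
          have h4 := hlo y
          by_cases hx' : R.lo x = s
          · have e1 : x = t := by
              rcases h3 with h3 | h3 | h3
              · omega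
              · omega
              · exact h3.2.1 hx'
            have e2 : R.lo y = s := by
              rcases h3 with h3 | h3 | h3 <;> rcases h4 with h4 | h4 | h4 <;> omega
            have e3 : y = t := by
              rcases h4 with h4 | h4 | h4
              · omega
              · rcases h3 with h3 | h3 | h3 <;> omega
              · exact h4.2.1 e2
            rw [e1, e3]
          · have e1 : s < R.lo x ∧ R'.lo x = R.lo x + 1 := by
              rcases h3 with h3 | h3 | h3 <;> omega
            have e2 : R.lo y = R.lo x := by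
              rcases h4 with h4 | h4 | h4 <;> omega
            exact hY.ir x hx y hy e1.1 e2.symm
        sm := le_rfl
        mM := by omega
        hz := fun w hw => by
          rw [hZ] at hw
          right
          have h1 := hzm w hw
          rcases hhi w with h2 | h2 <;> omega
        zM := fun p h1 h2 => by
          have h3 : p = s := by omega
          rw [h3, hu1 (m + 1) (by omega), add_sub_cancel_right]
          have := hY.zm s le_rfl hsm
          omega
        zm := fun p h1 h2 => by
          have h3 : p = s := by omega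
          rw [h3, hu0]
          have := hY.zm s le_rfl hsm
          omega
        fr := fun w _ h1 h2 => by omega
        ba := fun w hw h1 p h2 h3 => by
          have hwB := (hB w).1 (mem_Bs.2 ⟨hw, h1⟩)
          obtain ⟨hwB1, hwB2⟩ := mem_Bs.1 hwB.1
          have h4 : p = s := by have := h2.1; omega
          have h5 := hY.ba w hw hwB2 s ⟨by omega, by have := R.le w; omega⟩ hsm
          rw [h4, hU]
          omega
        wz := fun q h1 h2 => by
          rw [hN1 q h1, hu1 (m + 1) (by omega), add_sub_cancel_right]
          have := hY.zm (q - 1) (by omega) (by omega)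
          simp only
          omega
        ws := fun w hw h1 h2 q h3 h4 => by
          have hwt : w = t := by
            rcases hlo w with h5 | h5 | h5
            · omega
            · omega
            · by_contra h6
              have h7 : s < R.lo w := by
                rcases eq_or_lt_of_le h5.1 with h8 | h8
                · exact absurd (h5.2.1 h8.symm) h6
                · exact h8
              have := hnone w hw h7
              omega
          have hq1 : s < q := by have := h3.1; omega
          have hq2 : q - 1 ≤ R.hi t := by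
            have := h3.2
            rw [hwt] at this
            rcases hhi t with h5 | h5 <;> omega
          have h5 := hY.ba t htK hts (q - 1) ⟨by omega, hq2⟩ (by omega)
          rw [hwt, hU, hN1 q hq1]
          simp only
          omega }
  · refine
      { o := by rw [hZ]; exact hn.o
        a := ?_
        u := by rw [hu0]; simp only; omega
        r := by rw [hu1 (m + 1) (by omega), add_sub_cancel_right]; simp only; omega
        μ := by rw [hu0]; simp only; omega
        β := ?_ }
    · have h4 : As K R' s s = Zs K R s := by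
        ext z
        rw [mem_As, hZ]
        refine ⟨fun h => h.1, fun h => ⟨h, ?_⟩⟩
        have h1 := hzm z h
        rcases hhi z with h2 | h2 <;> omega
      rw [h4]
      exact hno
    · rw [← hmap _ hB, Multiset.map_map]
      rfl

end Pool.Agent.OCN.YC
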