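import Pool.Agent.Lib_helper16.OCN.YcX

/-!
# MP_aeb124_co: the class Yc, payments on right elements (block P2)
-/

set_option autoImplicit false

namespace Pool.Agent.OCN.YC

variable {V : Type} {B W nl : ℕ} {K : Finset V} {R : Rep V}
  {rr : V → V → Prop} {o a r u μ ν cb : ℕ} {β : Multiset ℕ}

/-- a multiset of values with a first element -/
theorem P3_pick {S : Finset V} {δ : V → ℕ} {j : ℕ} {γ : Multiset ℕ}
    (h : S.val.map δ = j ::ₘ γ) :
    ∃ t ∈ S, δ t = j ∧ ∀ δ' : V → ℕ, (∀ w ∈ S, w ≠ t → δ' w = δ w) →
      S.val.map δ' = δ' t ::ₘ γ := by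
  classical
  have h1 : j ∈ S.val.map δ := by
    rw [h]
    exact Multiset.mem_cons_self _ _
  obtain ⟨t, ht, htj⟩ := Multiset.mem_map.1 h1
  refine ⟨t, ht, htj, fun δ' hδ' => ?_⟩
  have h2 : S.val = t ::ₘ (S.erase t).val := by
    rw [Finset.erase_val, Multiset.cons_erase ht]
  rw [h2, Multiset.map_cons] at h ⊢
  rw [htj] at h
  have h3 := (Multiset.cons_inj_right _).1 h
  rw [← h3]
  congr 1
  refine Multiset.map_congr rfl fun w hw => ?_
  obtain ⟨hwt, hwS⟩ := Finset.mem_erase.1 (show w ∈ S.erase t from hw)
  exact hδ' w hwS hwt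

/-- (block P2b) a base element goes one start down. (If it has at least `ua K R M` elements above
it, the deficit is `0` for free by `zM`, otherwise it goes one step down by `op_low` with
`l = M`.) -/
theorem Yc.pay_base [Fintype V] {j : ℕ} {γ : Multiset ℕ}
    (h : Yc B W nl K R ⟨o, a, r, u, μ, ν, cb, (j + 1) ::ₘ γ⟩) (hr : Loc rr K R) :
    ∃ (r' : V → V → Prop) (R' : Rep V), Loc r' K R' ∧ (∀ a b, rr a b → r' a b) ∧
      newP rr r' ≤ 1 ∧ Yc B W nl K R' ⟨o, a, r, u, μ, ν, cb, j ::ₘ γ⟩ := by
  classical
  obtain ⟨s0, s, m, M, δ, hBW, hgL, hLf, hnl, hY, hn⟩ := h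
  obtain ⟨t, ht, htj, hmap⟩ := P3_pick hn.β
  have h1 := hmap (Function.update δ t j) (fun w _ hw => Function.update_of_ne hw _ _)
  rw [Function.update_self] at h1
  obtain ⟨htK, hts⟩ := mem_Bs.1 ht
  have hsm := hY.sm
  have hmM := hY.mM
  by_cases hU : ua K R M ≤ R.U K t
  · -- the deficit is zero
    refine ⟨rr, R, hr, fun _ _ h => h, by rw [newP_self]; omega, s0, s, m, M,
      Function.update δ t j, hBW, hgL, hLf, hnl, ?_,
      { o := hn.o, a := hn.a, u := hn.u, r := hn.r, μ := hn.μ, β := h1 }⟩
    exact { hY with
      ba := fun w hw h2 p h3 h4 => by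
        by_cases hwt : w = t
        · rw [hwt]
          rw [hwt] at h3
          have h5 := hY.zM p (by have := h3.1; omega) h4
          omega
        · rw [Function.update_of_ne hwt]
          exact hY.ba w hw h2 p h3 h4 }
  · have htM : M < R.hi t := by
      by_contra h2
      apply hU
      rw [U_eq_ua]
      exact ua_anti K R (by omega)
    have hirM : InjS K R M := hY.ir.mono (by omega)
    obtain ⟨r', R', g1, g2, g3, g4⟩ := op_low hr hirM {t}
      (Finset.singleton_subset_iff.2 htK)
      (fun w hw => by
        rw [Finset.mem_singleton.1 hw]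
        exact ⟨by omega, by omega, by omega⟩)
    have hlo := g4.lo
    have htt : t ∈ ({t} : Finset V) := Finset.mem_singleton_self t
    have hhi : ∀ w, w ≠ t → R'.hi w = R.hi w := fun w hw =>
      g4.nA w (fun h => hw (Finset.mem_singleton.1 h))
    have hhit : M ≤ R'.hi t := g4.ge t htt
    have hua : ∀ p, ua K R' p = ua K R p := g4.ua
    have hUt : R'.U K t = R.U K t + 1 := g4.up t htt
    have hUw : ∀ w, w ≠ t → R'.U K w = R.U K w := fun w hw =>
      g4.up' (fun h => hw (Finset.mem_singleton.1 h))
    have hL : SameL K R R' s (fun _ => False) :=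
      { lo := fun w _ _ _ => hlo w
        lo' := fun w _ _ h => by rw [hlo]; exact h
        hi := fun w _ _ h => hhi w (by rintro rfl; omega)
        hi' := fun w _ _ h => by
          by_cases hwt : w = t
          · rw [hwt]; omega
          · rw [hhi w hwt]; exact h
        ex := fun _ _ h => h.elim }
    have hZ : Zs K R' s = Zs K R s := by
      ext w
      rw [hL.zs]
      exact ⟨fun h => h.1, fun h => ⟨h, fun h => h⟩⟩
    have hT : Ts K R' s = Ts K R s := by
      ext w
      rw [hL.ts]
      exact ⟨fun h => h.elim id (fun h => h.2.elim), fun h => Or.inl h⟩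
    have hcr : ∀ w p, p ≤ M → (R'.Cr w p ↔ R.Cr w p) := by
      intro w p hp
      unfold Rep.Cr
      rw [hlo]
      by_cases hwt : w = t
      · rw [hwt]
        constructor <;> rintro ⟨h3, h4⟩ <;> exact ⟨h3, by omega⟩
      · rw [hhi w hwt]
    have hNt : ∀ p, p ≤ M → R'.N (Ts K R' s) p = R.N (Ts K R s) p := by
      intro p hp
      unfold Rep.N
      rw [hT]
      exact congrArg Finset.card (Finset.filter_congr fun w _ => hcr w p hp)
    have hA : As K R' s m = As K R s m := by
      ext w
      rw [mem_As, mem_As, hZ]
      refine and_congr_right fun hw => ?_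
      have hwt : w ≠ t := by
        rintro rfl
        have := (mem_Zs.1 hw).2.1
        omega
      rw [hhi w hwt]
    have hB : Bs K R' s = Bs K R s := by
      ext w
      rw [mem_Bs, mem_Bs, hlo]
    refine ⟨r', R', g1, g2, g3, s0, s, m, M, Function.update δ t j, hBW,
      by rw [hL.ls]; exact hgL, hL.lf hLf, by rw [hL.ul hLf.le]; exact hnl, ?_, ?_⟩
    · exact
        { gT := by rw [hT]; exact hY.gT
          ir := hY.ir.congr hlo
          sm := hY.sm
          mM := hY.mM
          hz := fun w hw => by
            rw [hZ] at hw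
            have hwt : w ≠ t := by
              rintro rfl
              have := (mem_Zs.1 hw).2.1
              omega
            rw [hhi w hwt]
            exact hY.hz w hw
          zM := fun p h2 h3 => by rw [hNt p (by omega), hua]; exact hY.zM p h2 h3
          zm := fun p h2 h3 => by rw [hNt p (by omega), hua]; exact hY.zm p h2 h3
          fr := fun w hw h2 h3 p h4 h5 => by
            rw [hlo] at h2 h3
            rw [hNt p (by omega), hUw w (by rintro rfl; omega)]
            exact hY.fr w hw h2 h3 p ((hcr w p (by omega)).1 h4) h5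
          ba := fun w hw h2 p h3 h4 => by
            rw [hlo] at h2
            have h5 := hY.ba w hw h2 p ((hcr w p (by omega)).1 h3) h4
            rw [hNt p (by omega)]
            by_cases hwt : w = t
            · rw [hwt] at h5 ⊢
              rw [Function.update_self, hUt]
              omega
            · rw [Function.update_of_ne hwt, hUw w hwt]
              exact h5
          wz := fun q h2 h3 => by rw [hNt q h3, hua]; exact hY.wz q h2 h3
          ws := fun w hw h2 h3 q h4 h5 => by
            rw [hlo] at h2 h3
            rw [hNt q h5, hUw w (by rintro rfl; omega)]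
            exact hY.ws w hw h2 h3 q ((hcr w q h5).1 h4) h5 }
    · exact
        { o := by rw [hZ]; exact hn.o
          a := by rw [hA]; exact hn.a
          u := by rw [hua]; exact hn.u
          r := by rw [hua]; exact hn.r
          μ := by rw [hua]; exact hn.μ
          β := by rw [hB]; exact h1 }

end Pool.Agent.OCN.YC
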