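import Pool.Agent.Lib_helper16.OCN.YcG2
import Pool.Agent.Lib_helper16.OCN.YcP2
import Pool.Agent.Lib_helper16.OCN.YcP3
import Pool.Agent.Lib_helper16.OCN.YcNum

/-!
# MP_aeb124_co: the class Yc is closed (glue)
-/

set_option autoImplicit false

namespace Pool.Agent.OCN.YC

variable {V : Type} [Fintype V] {B W nl : ℕ} {K : Finset V} {R : Rep V}
  {rr : V → V → Prop}

theorem Yc.pay {σ σ' : St} {c : ℕ} (h : Yc B W nl K R σ) (hr : Loc rr K R) (hp : Pay σ σ' c) :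
    ∃ (r' : V → V → Prop) (R' : Rep V), Loc r' K R' ∧ (∀ a b, rr a b → r' a b) ∧
      newP rr r' ≤ c ∧ Yc B W nl K R' σ' := by
  cases hp with
  | one o a r u μ ν cb β => exact h.pay_one hr
  | all o a r u μ ν cb β => exact h.pay_all hr
  | opn o r u μ ν cb β =>
    exact ⟨rr, R, hr, fun _ _ h => h, by rw [newP_self], h.pay_opn⟩
  | conv o r u ν cb j γ =>
    obtain ⟨R', h1, h2⟩ := h.pay_conv hr
    exact ⟨rr, R', h1, fun _ _ h => h, by rw [newP_self], h2⟩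
  | base o a r u μ ν cb j γ => exact h.pay_base hr
  | nrm o r u μ ν cb ν' cb' β =>
    exact ⟨rr, R, hr, fun _ _ h => h, by rw [newP_self], h.pay_nrm ν' cb'⟩
  | wkb o a r u μ ν cb j j' γ hj =>
    exact ⟨rr, R, hr, fun _ _ h => h, by rw [newP_self], h.pay_wkb hj⟩
  | wkw o a r u μ ν cb ν' cb' β h1 h2 =>
    exact ⟨rr, R, hr, fun _ _ h => h, by rw [newP_self], h.pay_wkw h1 h2⟩

theorem Yc.pays {σ σ' : St} {c : ℕ} (h : Yc B W nl K R σ) (hr : Loc rr K R)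
    (hp : Pays σ σ' c) :
    ∃ (r' : V → V → Prop) (R' : Rep V), Loc r' K R' ∧ (∀ a b, rr a b → r' a b) ∧
      newP rr r' ≤ c ∧ Yc B W nl K R' σ' := by
  induction hp with
  | refl => exact ⟨rr, R, hr, fun _ _ h => h, by rw [newP_self], h⟩
  | step h1 h2 ih =>
    obtain ⟨r1, R1, k1, k2, k3, k4⟩ := ih
    obtain ⟨r2, R2, l1, l2, l3, l4⟩ := k4.pay k1 h2
    refine ⟨r2, R2, l1, fun a b hab => l2 a b (k2 a b hab), ?_, l4⟩
    have := newP_trans (r := rr) (r' := r1) (r'' := r2)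
    omega

/-- (glue) the answers to all attacks -/
theorem Yc.attack {σ : St} (h : Yc B W nl K R σ) (hr : Loc rr K R) (hok : Ok W σ) {x y : V}
    (hxy : x ≠ y) (h1 : ¬ rr x y) (h2 : ¬ rr y x) :
    ∃ σ' I, Att W σ σ' I ∧ Got B W nl rr x y σ' I := by
  obtain ⟨s0, s, m, M, δ, hd⟩ := h.dt hok.n0
  obtain ⟨hxK, hyK⟩ := hr.mem hxy h1 h2
  exact hd.attack hr hok hxK hyK hxy (fun h3 => h1 ((hr.eq x hxK y hyK).2 h3))
    (fun h3 => h2 ((hr.eq y hyK x hxK).2 h3))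

/-- the class Yc with the numbers in `G` -/
def cYc (B W nl : ℕ) (G : St → Prop) : Set (V → V → Prop) :=
  {r | ∃ K R σ, Loc r K R ∧ Yc B W nl K R σ ∧ G σ}

/-- the class Yc is closed -/
theorem Game.closed {G : St → Prop} (hG : Game W nl G) {X : Set (V → V → Prop)}
    (hX : ClosedR B X)
    (hE : ∀ r K R σ, Loc r K R → Yc B W nl K R σ → Ex W nl σ → r ∈ X) :
    ClosedR (V := V) B (X ∪ cYc B W nl G) := by
  rintro r (hr | ⟨K, R, σ, hr, hY, hσ⟩) x y hxy h1 h2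
  · obtain ⟨r', g1, g2, g3, g4⟩ := hX r hr x y hxy h1 h2
    exact ⟨r', Or.inl g1, g2, g3, g4⟩
  · obtain ⟨σ', I, h3, r', K', R', g1, g2, g3, g4, g5⟩ := hY.attack hr (hG.ok σ hσ) hxy h1 h2
    obtain ⟨σ'', c, k1, k2, k3⟩ := hG.st σ hσ σ' I h3
    obtain ⟨r'', R'', l1, l2, l3, l4⟩ := g5.pays g1 k1
    have h4 := newP_trans (r := r) (r' := r') (r'' := r'')
    refine ⟨r'', ?_, fun a b hab => l2 a b (g2 a b hab), l2 _ _ g3, by omega⟩
    rcases k3 with k3 | k3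
    · exact Or.inr ⟨K', R'', σ'', l1, l4, k3⟩
    · exact Or.inl (hE _ _ _ _ l1 l4 k3)

end Pool.Agent.OCN.YC
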