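import Pool.Agent.Lib_helper16.OCN.YcL
import Pool.Agent.Lib_helper47.OCN.Lf3

/-!
# MP_aeb124_co: the class Yc, the left replies (block LR)
-/

set_option autoImplicit false

namespace Pool.Agent.OCN.YC

variable {V : Type} [Fintype V] {B W : ℕ} {K : Finset V} {R : Rep V} {s0 s : ℤ} {x y z0 : V}
  {r : V → V → Prop}

theorem sameR_of_LRep {r' : V → V → Prop} {R' : Rep V} {s0' : ℤ} (hz : z0 ∈ Zs K R s)
    (h : LRep B K R s0 s W r x y z0 r' R' s0' s) : SameR K R R' s (fun w => w = z0) := by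
  have e0 : ∀ w, R.dual.lo w = -R.hi w := fun w => rfl
  have e1 : ∀ w, R.dual.hi w = -R.lo w := fun w => rfl
  have e2 : ∀ w, R'.dual.lo w = -R'.hi w := fun w => rfl
  have e3 : ∀ w, R'.dual.hi w = -R'.lo w := fun w => rfl
  refine ⟨fun w hw hE h1 => ?_, fun w hw hE h1 => ?_, fun w hw hE h1 => ?_,
    fun w hw hE h1 => ?_, fun w hw hE => ?_⟩
  · rw [e0] at h1
    rw [e0, e2, h.hi w hE (by omega)]
    ring
  · rw [e0] at h1
    rw [e2]
    have := h.hl w (by omega)
    omega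
  · rw [e1] at h1
    rw [e1, e3, h.lo w (by omega)]
    ring
  · rw [e1] at h1
    rw [e3]
    have := h.ll w (by omega)
    omega
  · subst hE
    refine ⟨?_, ?_⟩
    · rw [mem_Zs, e0, e1]
      have := mem_Zs.1 hz
      exact ⟨hw, by omega, by omega⟩
    · rw [e2]
      have := h.hz
      omega

/-- (block LR) the answer to `x → y` on the left side: `x` is the undecided element `z0`, or `x` and
`y` are left elements (then `z0` is any undecided element, chosen beforehand). `z0` goes to the left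
side, the coordinates of the right side do not change. -/
theorem left_ans (h : Lf B K R s0 s W) (hr : Loc r K R) (hxK : x ∈ K) (hyK : y ∈ K) (hxy : x ≠ y)
    (h1 : ¬ R.rel x y) (h2 : ¬ R.rel y x) (hz : z0 ∈ Zs K R s)
    (hc : x = z0 ∨ (x ∈ Ls K R s ∧ y ∈ Ls K R s)) :
    ∃ (r' : V → V → Prop) (R' : Rep V) (s0' : ℤ), Loc r' K R' ∧ (∀ a b, r a b → r' a b) ∧
      r' x y ∧ Lf B K R' s0' s W ∧ ua K R.dual (1 - s0) ≤ ua K R'.dual (1 - s0') ∧
      newP r r' + R.U K z0 + (Zs K R s).card ≤ B + W + 1 ∧ SameR K R R' s (fun w => w = z0) := by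
  have key : ∃ r' R' s0', LRep B K R s0 s W r x y z0 r' R' s0' s := by
    rcases hc with rfl | ⟨h3, h4⟩
    · exact h.ans' hr hxy hz hyK h1 h2
    · exact h.ansC' hr hxy h3 h4 h1 h2 hz
  obtain ⟨r', R', s0', h5⟩ := key
  exact ⟨r', R', s0', h5.loc, h5.mono, h5.pair, h5.lf, h5.ue, h5.cost, sameR_of_LRep hz h5⟩

end Pool.Agent.OCN.YC
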