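import Pool.Agent.Lib_helper16.OCN.YcX

/-!
# MP_aeb124_co: the class Yc, payments on undecided elements (block P1)
-/

set_option autoImplicit false

namespace Pool.Agent.OCN.YC

variable {V : Type} {B W nl : ℕ} {K : Finset V} {R : Rep V}
  {rr : V → V → Prop} {o a r u μ ν cb : ℕ} {β : Multiset ℕ}

/-! ### auxiliary lemmas -/

theorem P1_sameL {R' : Rep V} {s : ℤ} (hlo : ∀ w, R'.lo w = R.lo w)
    (hhi : ∀ w ∈ K, R.hi w < s → R'.hi w = R.hi w) (hhi' : ∀ w ∈ K, s ≤ R.hi w → s ≤ R'.hi w) :
    SameL K R R' s (fun _ => False) where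
  lo w _ _ _ := hlo w
  lo' w _ _ h := by rw [hlo]; exact h
  hi w hw _ h := hhi w hw h
  hi' w hw _ h := hhi' w hw h
  ex _ _ h := h.elim

theorem P1_ua {R' : Rep V} (hlo : ∀ w, R'.lo w = R.lo w) (p : ℤ) : ua K R' p = ua K R p := by
  classical
  unfold ua
  refine congrArg Finset.card (Finset.filter_congr fun b _ => ?_)
  rw [hlo]

theorem P1_Bs {R' : Rep V} (hlo : ∀ w, R'.lo w = R.lo w) (s : ℤ) : Bs K R' s = Bs K R s := by
  ext t
  rw [mem_Bs, mem_Bs, hlo]

theorem P1_N {R' : Rep V} {s p : ℤ} (hT : Ts K R' s = Ts K R s)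
    (h : ∀ w ∈ Ts K R s, (R'.Cr w p ↔ R.Cr w p)) :
    R'.N (Ts K R' s) p = R.N (Ts K R s) p := by
  classical
  unfold Rep.N
  rw [hT]
  exact congrArg Finset.card (Finset.filter_congr h)

/-- a multiset of values with a first element -/
theorem P1_pick {S : Finset V} {δ : V → ℕ} {j : ℕ} {γ : Multiset ℕ}
    (h : S.val.map δ = j ::ₘ γ) :
    ∃ t ∈ S, δ t = j ∧ ∀ δ' : V → ℕ, (∀ w ∈ S, w ≠ t → δ' w = δ w) →
      S.val.map δ' = δ' t ::ₘ γ := by
  classical
  have h1 : j ∈ S.val.map δ := by
    rw [h]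
    exact Multiset.mem_cons_self _ _
  obtain ⟨t, ht, htj⟩ := Multiset.mem_map.1 h1
  refine ⟨t, ht, htj, fun δ' hδ' => ?_⟩
  have h2 : S.val = t ::ₘ (S.erase t).val := by
    rw [Finset.erase_val, Multiset.cons_erase ht]
  rw [h2, Multiset.map_cons] at h ⊢
  rw [htj] at h
  have h3 := (Multiset.cons_inj_right _).1 h
  rw [← h3]
  congr 1
  refine Multiset.map_congr rfl fun w hw => ?_
  obtain ⟨hwt, hwS⟩ := Finset.mem_erase.1 (show w ∈ S.erase t from hw)
  exact hδ' w hwS hwt

theorem P1_As_zero {s m M : ℤ} {ν cb : ℕ} {δ : V → ℕ} (h : Yd B K R s m M ν cb δ)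
    (ha : (As K R s m).card = 0) : ∀ z ∈ Zs K R s, R.hi z = m := by
  intro z hz
  rcases h.hz z hz with h1 | h1
  · exact h1
  · have h2 := h.mM
    by_contra h3
    have h4 : z ∈ As K R s m := mem_As.2 ⟨hz, by omega⟩
    rw [Finset.card_eq_zero.1 ha] at h4
    exact absurd h4 (Finset.notMem_empty _)

/-- the data of a closed window -/
theorem P1_close {s m M : ℤ} {ν cb : ℕ} {δ : V → ℕ} (h : Yd B K R s m M ν cb δ)
    (ha : (As K R s m).card = 0) (ν' cb' : ℕ) : Yd B K R s m m ν' cb' δ :=
  { gT := h.gT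
    ir := h.ir
    sm := h.sm
    mM := le_rfl
    hz := fun z hz => Or.inl (P1_As_zero h ha z hz)
    zM := fun p h1 h2 => by have := h.zm p h1 h2; omega
    zm := h.zm
    fr := h.fr
    ba := h.ba
    wz := fun q h1 h2 => by omega
    ws := fun t _ h1 h2 => by omega }

/-- (block P1a) one unfinished element is finished: the price is exactly the number of starts in
the window -/
theorem Yc.pay_one [Fintype V] (h : Yc B W nl K R ⟨o, a + 1, r, u, μ, ν, cb, β⟩)
    (hr : Loc rr K R) :
    ∃ (r' : V → V → Prop) (R' : Rep V), Loc r' K R' ∧ (∀ a b, rr a b → r' a b) ∧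
      newP rr r' ≤ r ∧ Yc B W nl K R' ⟨o, a, r, u, μ, ν, cb, β⟩ := by
  classical
  obtain ⟨s0, s, m, M, δ, hBW, hgL, hLf, hnl, hY, hn⟩ := h
  have hna := hn.a
  simp only at hna
  obtain ⟨z, hzA⟩ := Finset.card_pos.1 (show 0 < (As K R s m).card by omega)
  obtain ⟨hzZ, hzm⟩ := mem_As.1 hzA
  obtain ⟨hzK, hz1, hz2⟩ := mem_Zs.1 hzZ
  have hzM : R.hi z = M := by
    rcases hY.hz z hzZ with h1 | h1
    · omega
    · exact h1
  have hsm := hY.sm
  obtain ⟨r', g1, g2, g3⟩ := op_lower hr z hzK m (by omega) (by omega)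
  obtain ⟨R', hR'⟩ : ∃ R', R' = R.lower z m (by omega) := ⟨_, rfl⟩
  rw [← hR'] at g1
  have hlo : ∀ w, R'.lo w = R.lo w := fun w => by rw [hR']; rfl
  have hhi : ∀ w, w ≠ z → R'.hi w = R.hi w := fun w hw => by
    rw [hR']; unfold Rep.lower; simp only; rw [if_neg hw]
  have hhiz : R'.hi z = m := by rw [hR']; exact if_pos rfl
  have hL : SameL K R R' s (fun _ => False) := P1_sameL hlo
    (fun w hw h1 => hhi w (by rintro rfl; omega))
    (fun w hw h1 => by
      by_cases hwz : w = z
      · rw [hwz, hhiz]; exact hsm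
      · rw [hhi w hwz]; exact h1)
  have hZ : Zs K R' s = Zs K R s := by
    ext w
    rw [hL.zs]
    exact ⟨fun h => h.1, fun h => ⟨h, fun h => h⟩⟩
  have hT : Ts K R' s = Ts K R s := by
    ext w
    rw [hL.ts]
    exact ⟨fun h => h.elim id (fun h => h.2.elim), fun h => Or.inl h⟩
  have hNt : ∀ p, R'.N (Ts K R' s) p = R.N (Ts K R s) p := fun p => P1_N hT fun w hw => by
    have hwz : w ≠ z := by
      rintro rfl
      have := (mem_Ts.1 hw).2
      omega
    unfold Rep.Cr
    rw [hlo, hhi w hwz]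
  have hua : ∀ p, ua K R' p = ua K R p := P1_ua hlo
  have hU : ∀ t ∈ Ts K R s, R'.U K t = R.U K t := by
    intro t ht
    have htz : t ≠ z := by
      rintro rfl
      have := (mem_Ts.1 ht).2
      omega
    rw [U_eq_ua, U_eq_ua, hua, hhi t htz]
  have hcr : ∀ t ∈ Ts K R s, ∀ p, R'.Cr t p → R.Cr t p := by
    rintro t ht p ⟨h1, h2⟩
    have htz : t ≠ z := by
      rintro rfl
      have := (mem_Ts.1 ht).2
      omega
    rw [hlo] at h1
    rw [hhi t htz] at h2
    exact ⟨h1, h2⟩
  have hA : As K R' s m = (As K R s m).erase z := by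
    ext w
    rw [mem_As, hZ, Finset.mem_erase, mem_As]
    by_cases hwz : w = z
    · rw [hwz, hhiz]
      constructor
      · rintro ⟨_, h1⟩
        omega
      · rintro ⟨h1, _⟩
        exact absurd rfl h1
    · rw [hhi w hwz]
      exact ⟨fun h => ⟨hwz, h⟩, fun h => h.2⟩
  have hAc := Finset.card_erase_of_mem hzA
  refine ⟨r', R', g1, g2, ?_, s0, s, m, M, δ, hBW, by rw [hL.ls]; exact hgL, hL.lf hLf,
    by rw [hL.ul hLf.le]; exact hnl, ?_, ?_⟩
  · -- the price
    have h1 : (K.filter fun b => m < R.lo b ∧ R.lo b ≤ R.hi z).card + ua K R M ≤ ua K R m := by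
      unfold ua
      rw [← Finset.card_union_of_disjoint]
      · refine Finset.card_le_card fun b hb => ?_
        rw [Finset.mem_union, Finset.mem_filter, Finset.mem_filter] at hb
        rw [Finset.mem_filter]
        have := hY.mM
        rcases hb with hb | hb
        · exact ⟨hb.1, hb.2.1⟩
        · exact ⟨hb.1, by omega⟩
      · rw [Finset.disjoint_left]
        intro b hb hb'
        have h2 := (Finset.mem_filter.1 hb).2
        have h3 := (Finset.mem_filter.1 hb').2
        omega
    have h2 := hn.u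
    have h3 := hn.r
    simp only at h2 h3
    rw [g3]
    omega
  · exact
      { gT := by rw [hT]; exact hY.gT
        ir := hY.ir.congr hlo
        sm := hY.sm
        mM := hY.mM
        hz := fun w hw => by
          rw [hZ] at hw
          by_cases hwz : w = z
          · rw [hwz, hhiz]; exact Or.inl rfl
          · rw [hhi w hwz]; exact hY.hz w hw
        zM := fun p h1 h2 => by rw [hNt, hua]; exact hY.zM p h1 h2
        zm := fun p h1 h2 => by rw [hNt, hua]; exact hY.zm p h1 h2
        fr := fun t ht h1 h2 p h3 h4 => by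
          rw [hlo] at h1 h2
          have htT : t ∈ Ts K R s := mem_Ts.2 ⟨ht, by omega⟩
          rw [hNt, hU t htT]
          exact hY.fr t ht h1 h2 p (hcr t htT p h3) h4
        ba := fun t ht h1 p h3 h4 => by
          rw [hlo] at h1
          have htT : t ∈ Ts K R s := mem_Ts.2 ⟨ht, by omega⟩
          rw [hNt, hU t htT]
          exact hY.ba t ht h1 p (hcr t htT p h3) h4
        wz := fun q h1 h2 => by rw [hNt, hua]; exact hY.wz q h1 h2
        ws := fun t ht h1 h2 q h3 h4 => by
          rw [hlo] at h1 h2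
          have htT : t ∈ Ts K R s := mem_Ts.2 ⟨ht, by omega⟩
          rw [hNt, hU t htT]
          exact hY.ws t ht h1 h2 q (hcr t htT q h3) h4 }
  · exact
      { o := by rw [hZ]; exact hn.o
        a := by rw [hA]; simp only; omega
        u := by rw [hua]; exact hn.u
        r := by rw [hua]; exact hn.r
        μ := by rw [hua]; exact hn.μ
        β := by rw [P1_Bs hlo]; exact hn.β }

/-- (block P1b) all unfinished elements go one start down (`op_low` with `l = m`, all of them have
the same last gap `M`, hence the same new one) -/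
theorem Yc.pay_all [Fintype V] (h : Yc B W nl K R ⟨o, a, r + 2, u, μ, ν, cb, β⟩)
    (hr : Loc rr K R) :
    ∃ (r' : V → V → Prop) (R' : Rep V), Loc r' K R' ∧ (∀ a b, rr a b → r' a b) ∧
      newP rr r' ≤ a ∧ Yc B W nl K R' ⟨o, a, r + 1, u, μ, ν, cb, β⟩ := by
  classical
  obtain ⟨s0, s, m, M, δ, hBW, hgL, hLf, hnl, hY, hn⟩ := h
  have hna := hn.a
  have hnu := hn.u
  have hnr := hn.r
  simp only at hna hnu hnr
  have hsm := hY.sm
  have hmM := hY.mM
  have hirm : InjS K R m := hY.ir.mono hsm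
  -- the new last gap
  obtain ⟨v, v1, v2, v3, v4, v5⟩ := exists_step hirm hmM
  have v6 : ua K R v = ua K R M + 1 := v5 (by omega)
  have hvm : m < v := by
    rcases eq_or_lt_of_le v1 with h1 | h1
    · rw [← h1] at v6
      omega
    · exact h1
  have hUA : ∀ z ∈ As K R s m, R.U K z = ua K R M ∧ R.hi z = M ∧ R.lo z < s := by
    intro z hz
    obtain ⟨h1, h2⟩ := mem_As.1 hz
    have h3 : R.hi z = M := by
      rcases hY.hz z h1 with h4 | h4
      · omega
      · exact h4
    exact ⟨by rw [U_eq_ua, h3], h3, (mem_Zs.1 h1).2.1⟩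
  obtain ⟨r', R', g1, g2, g3, g4⟩ := op_low hr hirm (As K R s m)
    (fun z hz => (mem_Zs.1 (mem_As.1 hz).1).1)
    (fun z hz => by
      obtain ⟨h1, h2, h3⟩ := hUA z hz
      exact ⟨by omega, by omega, by omega⟩)
  have hlo := g4.lo
  have hhiA : ∀ z ∈ As K R s m, R'.hi z = v := by
    intro z hz
    obtain ⟨h1, h2, h3⟩ := hUA z hz
    refine le_antisymm (g4.mn z hz v (by omega) (by omega)) (v4 _ (g4.ge z hz) ?_)
    have h4 := g4.up z hz
    rw [U_eq_ua, g4.ua] at h4
    omega
  have hhi : ∀ w, w ∉ As K R s m → R'.hi w = R.hi w := g4.nA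
  have hL : SameL K R R' s (fun _ => False) := P1_sameL hlo
    (fun w hw h1 => hhi w (fun h => by
      have h2 := mem_As.1 h
      omega))
    (fun w hw h1 => by
      by_cases hwA : w ∈ As K R s m
      · rw [hhiA w hwA]; omega
      · rw [hhi w hwA]; exact h1)
  have hZ : Zs K R' s = Zs K R s := by
    ext w
    rw [hL.zs]
    exact ⟨fun h => h.1, fun h => ⟨h, fun h => h⟩⟩
  have hT : Ts K R' s = Ts K R s := by
    ext w
    rw [hL.ts]
    exact ⟨fun h => h.elim id (fun h => h.2.elim), fun h => Or.inl h⟩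
  have hTA : ∀ t ∈ Ts K R s, t ∉ As K R s m := by
    intro t ht hA
    have h1 := (mem_Ts.1 ht).2
    have h2 := (mem_Zs.1 (mem_As.1 hA).1).2.1
    omega
  have hNt : ∀ p, R'.N (Ts K R' s) p = R.N (Ts K R s) p := fun p => P1_N hT fun w hw => by
    unfold Rep.Cr
    rw [hlo, hhi w (hTA w hw)]
  have hua : ∀ p, ua K R' p = ua K R p := g4.ua
  have hU : ∀ t ∈ Ts K R s, R'.U K t = R.U K t := fun t ht => g4.up' (hTA t ht)
  have hcr : ∀ t ∈ Ts K R s, ∀ p, R'.Cr t p → R.Cr t p := by
    rintro t ht p ⟨h1, h2⟩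
    rw [hlo] at h1
    rw [hhi t (hTA t ht)] at h2
    exact ⟨h1, h2⟩
  have hA : As K R' s m = As K R s m := by
    ext w
    rw [mem_As, hZ]
    constructor
    · rintro ⟨h1, h2⟩
      by_contra h3
      rw [hhi w h3] at h2
      exact h3 (mem_As.2 ⟨h1, h2⟩)
    · intro h1
      exact ⟨(mem_As.1 h1).1, by rw [hhiA w h1]; exact hvm⟩
  refine ⟨r', R', g1, g2, by omega, s0, s, m, v, δ, hBW, by rw [hL.ls]; exact hgL, hL.lf hLf,
    by rw [hL.ul hLf.le]; exact hnl, ?_, ?_⟩
  · exact
      { gT := by rw [hT]; exact hY.gT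
        ir := hY.ir.congr hlo
        sm := hY.sm
        mM := hvm.le
        hz := fun w hw => by
          rw [hZ] at hw
          by_cases hwA : w ∈ As K R s m
          · exact Or.inr (hhiA w hwA)
          · rw [hhi w hwA]
            rcases hY.hz w hw with h1 | h1
            · exact Or.inl h1
            · left
              by_contra h2
              exact hwA (mem_As.2 ⟨hw, by omega⟩)
        zM := fun p h1 h2 => by
          rw [hNt, hua]
          have := hY.zM p h1 h2
          omega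
        zm := fun p h1 h2 => by rw [hNt, hua]; exact hY.zm p h1 h2
        fr := fun t ht h1 h2 p h3 h4 => by
          rw [hlo] at h1 h2
          have htT : t ∈ Ts K R s := mem_Ts.2 ⟨ht, by omega⟩
          rw [hNt, hU t htT]
          exact hY.fr t ht h1 h2 p (hcr t htT p h3) h4
        ba := fun t ht h1 p h3 h4 => by
          rw [hlo] at h1
          have htT : t ∈ Ts K R s := mem_Ts.2 ⟨ht, by omega⟩
          rw [hNt, hU t htT]
          exact hY.ba t ht h1 p (hcr t htT p h3) h4
        wz := fun q h1 h2 => by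
          rw [hNt, hua]
          have := hY.wz q h1 (by omega)
          simp only at this ⊢
          omega
        ws := fun t ht h1 h2 q h3 h4 => by
          rw [hlo] at h1 h2
          have htT : t ∈ Ts K R s := mem_Ts.2 ⟨ht, by omega⟩
          rw [hNt, hU t htT]
          exact hY.ws t ht h1 (by omega) q (hcr t htT q h3) (by omega) }
  · exact
      { o := by rw [hZ]; exact hn.o
        a := by rw [hA]; exact hn.a
        u := by rw [hua]; exact hn.u
        r := by rw [hua]; simp only; omega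
        μ := by rw [hua]; exact hn.μ
        β := by rw [P1_Bs hlo]; exact hn.β }

/-- (block P1c) a closed window: `M` becomes `m` -/
theorem Yc.pay_nrm (h : Yc B W nl K R ⟨o, 0, r, u, μ, ν, cb, β⟩) (ν' cb' : ℕ) :
    Yc B W nl K R ⟨o, 0, 0, u, μ, ν', cb', β⟩ := by
  obtain ⟨s0, s, m, M, δ, hBW, hgL, hLf, hnl, hY, hn⟩ := h
  exact ⟨s0, s, m, m, δ, hBW, hgL, hLf, hnl, P1_close hY hn.a ν' cb',
    { o := hn.o
      a := hn.a
      u := hn.u
      r := by have := hn.u; simp only at this ⊢; omega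
      μ := hn.μ
      β := hn.β }⟩

/-- (block P1d) a closed window, the data -/
theorem Yc.nrm_data {σ : St} (h : Yc B W nl K R σ) (h0 : σ.a = 0 → σ.r = 0) :
    ∃ (s0 s m M : ℤ) (δ : V → ℕ), B + W ≤ K.card ∧ K.card ≤ B + (Ls K R s).card ∧
      Lf B K R s0 s W ∧ nl ≤ ua K R.dual (1 - s0) ∧ Yd B K R s m M σ.ν σ.cb δ ∧
      Yn K R s m M δ σ ∧
      (σ.a = 0 → M = m) ∧ (∀ z ∈ Zs K R s, m < R.hi z ∨ R.hi z = m) ∧
      (∀ z, z ∈ As K R s m ↔ z ∈ Zs K R s ∧ (σ.a ≠ 0 ∧ R.hi z = M)) := by
  obtain ⟨s0, s, m, M, δ, hBW, hgL, hLf, hnl, hY, hn⟩ := h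
  by_cases ha : σ.a = 0
  · have hA := hn.a
    rw [ha] at hA
    refine ⟨s0, s, m, m, δ, hBW, hgL, hLf, hnl, P1_close hY hA σ.ν σ.cb,
      { o := hn.o
        a := hn.a
        u := hn.u
        r := by have := hn.u; have := h0 ha; omega
        μ := hn.μ
        β := hn.β }, fun _ => rfl,
      fun z hz => Or.inr (P1_As_zero hY hA z hz), fun z => ?_⟩
    rw [Finset.card_eq_zero.1 hA]
    constructor
    · exact fun h1 => absurd h1 (Finset.notMem_empty _)
    · exact fun h1 => absurd ha h1.2.1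
  · refine ⟨s0, s, m, M, δ, hBW, hgL, hLf, hnl, hY, hn, fun h1 => absurd h1 ha,
      fun z hz => ?_, fun z => ?_⟩
    · have := hY.mM
      rcases hY.hz z hz with h1 | h1 <;> omega
    · have hA := hn.a
      obtain ⟨z0, hz0⟩ := Finset.card_pos.1 (show 0 < (As K R s m).card by omega)
      obtain ⟨h1, h2⟩ := mem_As.1 hz0
      have hmM : m < M := by
        rcases hY.hz z0 h1 with h3 | h3 <;> omega
      rw [mem_As]
      constructor
      · rintro ⟨h3, h4⟩
        refine ⟨h3, ha, ?_⟩
        rcases hY.hz z h3 with h5 | h5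
        · omega
        · exact h5
      · rintro ⟨h3, _, h4⟩
        exact ⟨h3, by omega⟩

/-- (block P1e) weakening of a deficit -/
theorem Yc.pay_wkb {j j' : ℕ} {γ : Multiset ℕ}
    (h : Yc B W nl K R ⟨o, a, r, u, μ, ν, cb, j ::ₘ γ⟩) (hj : j ≤ j') :
    Yc B W nl K R ⟨o, a, r, u, μ, ν, cb, j' ::ₘ γ⟩ := by
  classical
  obtain ⟨s0, s, m, M, δ, hBW, hgL, hLf, hnl, hY, hn⟩ := h
  obtain ⟨t, ht, htj, hmap⟩ := P1_pick hn.β
  have h1 := hmap (Function.update δ t j') (fun w _ hw => Function.update_of_ne hw _ _)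
  rw [Function.update_self] at h1
  refine ⟨s0, s, m, M, Function.update δ t j', hBW, hgL, hLf, hnl, ?_,
    { o := hn.o, a := hn.a, u := hn.u, r := hn.r, μ := hn.μ, β := h1 }⟩
  exact { hY with
    ba := fun w hw h2 p h3 h4 => by
      have h5 := hY.ba w hw h2 p h3 h4
      by_cases hwt : w = t
      · rw [hwt] at h5 ⊢
        rw [Function.update_self]
        omega
      · rw [Function.update_of_ne hwt]
        exact h5 }

/-- (block P1f) weakening of the data of the window -/
theorem Yc.pay_wkw (h : Yc B W nl K R ⟨o, a, r, u, μ, ν, cb, β⟩) {ν' cb' : ℕ} (h1 : ν' ≤ ν)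
    (h2 : cb + ν' ≤ cb' + ν) : Yc B W nl K R ⟨o, a, r, u, μ, ν', cb', β⟩ := by
  obtain ⟨s0, s, m, M, δ, hBW, hgL, hLf, hnl, hY, hn⟩ := h
  refine ⟨s0, s, m, M, δ, hBW, hgL, hLf, hnl, ?_,
    { o := hn.o, a := hn.a, u := hn.u, r := hn.r, μ := hn.μ, β := hn.β }⟩
  exact { hY with
    wz := fun q h3 h4 => by
      have := hY.wz q h3 h4
      simp only at this ⊢
      omega
    ws := fun t ht h3 h4 q h5 h6 => by
      have := hY.ws t ht h3 h4 q h5 h6
      simp only at this ⊢
      omega }

/-- (block P1g) the last start of the main part is opened (the representation does not change) -/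
theorem Yc.pay_opn (h : Yc B W nl K R ⟨o, 0, r, u, μ + 1, ν, cb, β⟩) :
    Yc B W nl K R ⟨o, o, 1, u + 1, μ, 1, 0, β⟩ := by
  classical
  obtain ⟨s0, s, m, M, δ, hBW, hgL, hLf, hnl, hY, hn⟩ := h
  have hno := hn.o
  have hnu := hn.u
  have hnμ := hn.μ
  simp only at hno hnu hnμ
  have hsm := hY.sm
  have hzm := P1_As_zero hY hn.a
  -- the last start of the main part
  obtain ⟨q, ⟨q1, q2⟩, q3⟩ := Int.exists_least_of_bdd
    (P := fun v => s ≤ v ∧ ua K R v ≤ ua K R m) ⟨s, fun z hz => hz.1⟩ ⟨m, hsm, le_rfl⟩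
  have hqm : q ≤ m := q3 m ⟨hsm, le_rfl⟩
  have hqs : s < q := by
    rcases eq_or_lt_of_le q1 with h1 | h1
    · rw [← h1] at q2
      omega
    · exact h1
  have hirm : InjS K R s := hY.ir
  have h1 := ua_le_succ hirm hqs
  have h2 : ua K R m < ua K R (q - 1) := by
    by_contra h3
    have := q3 (q - 1) ⟨by omega, by omega⟩
    omega
  have h3 : ua K R q = ua K R m := le_antisymm q2 (ua_anti K R hqm)
  -- there is no start in `(q, m]`
  have hnone : ∀ t ∈ K, q < R.lo t → m < R.lo t := by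
    intro t ht h4
    by_contra h5
    have := ua_lt (K := K) (R := R) (p := q) (q := m) ht h4 (by omega)
    omega
  refine ⟨s0, s, q - 1, m, δ, hBW, hgL, hLf, hnl, ?_, ?_⟩
  · exact
      { gT := hY.gT
        ir := hY.ir
        sm := by omega
        mM := by omega
        hz := fun z hz => Or.inr (hzm z hz)
        zM := fun p h4 h5 => by have := hY.zm p h4 (by omega); omega
        zm := fun p h4 h5 => by have := hY.zm p h4 (by omega); omega
        fr := fun t ht h4 h5 p h6 h7 => hY.fr t ht h4 (by omega) p h6 (by omega)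
        ba := fun t ht h4 p h6 h7 => hY.ba t ht h4 p h6 (by omega)
        wz := fun p h4 h5 => by
          have := hY.zm p (by omega) h5
          simp only
          omega
        ws := fun t ht h4 h5 p h6 h7 => by
          have := hY.fr t ht (by omega) h5 p h6 h7
          omega }
  · refine
      { o := hn.o
        a := ?_
        u := ?_
        r := ?_
        μ := ?_
        β := hn.β }
    · have h4 : As K R s (q - 1) = Zs K R s := by
        ext z
        rw [mem_As]
        exact ⟨fun h => h.1, fun h => ⟨h, by rw [hzm z h]; omega⟩⟩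
      rw [h4]
      exact hno
    · simp only
      omega
    · simp only
      omega
    · simp only
      omega

end Pool.Agent.OCN.YC
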