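import Pool.Agent.Lib_helper16.OCN.YcL

/-!
# MP_aeb124_co: the class Yc, attack of a left element on an undecided element (block S)
-/

set_option autoImplicit false

namespace Pool.Agent.OCN.YC

variable {V : Type} [Fintype V] {B : ℕ} {K : Finset V} {R : Rep V} {s m M : ℤ} {x z : V}
  {ν cb : ℕ} {δ : V → ℕ} {r : V → V → Prop}

/-- `R'` is `R` with the start of the undecided element `z` moved to the boundary `s` -/
structure S1r (K : Finset V) (R R' : Rep V) (s : ℤ) (z : V) : Prop where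
  mz : z ∈ Zs K R s
  lz : R'.lo z = s
  lo : ∀ w, w ≠ z → R'.lo w = R.lo w
  hi : ∀ w, R'.hi w = R.hi w

theorem S1_op (hr : Loc r K R) (hz : z ∈ Zs K R s) :
    ∃ (r' : V → V → Prop) (R' : Rep V), Loc r' K R' ∧ (∀ a b, r a b → r' a b) ∧
      (∀ x ∈ Ls K R s, r' x z) ∧ newP r r' + R.D K z ≤ (Ls K R s).card ∧ S1r K R R' s z := by
  classical
  have hz' : z ∈ Zs K R.dual (1 - s) := by rw [Zs_dual]; exact hz
  obtain ⟨hzK, hz1, hz2⟩ := mem_Zs.1 hz'
  have hq : R.dual.lo z ≤ 1 - s - 1 := by omega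
  obtain ⟨r', g1, g2, g3⟩ := op_lower hr.flip z hzK (1 - s - 1) hq (by omega)
  refine ⟨flip r', (R.dual.lower z (1 - s - 1) hq).dual, g1.flip, fun a b hab => g2 b a hab,
    fun x hx => ?_, ?_, ⟨hz, ?_, fun w hw => ?_, fun w => ?_⟩⟩
  · obtain ⟨hxK, hx1⟩ := mem_Ls.1 hx
    have h0 : flip r' x z ↔ r' z x := Iff.rfl
    rw [h0, g1.eq z hzK x hxK, Rep.rel_lower _ z (1 - s - 1) hq (by omega)]
    refine Or.inr ⟨rfl, ?_⟩
    have h1 : R.dual.lo x = -R.hi x := rfl
    omega
  · have h0 : newP r (flip r') = newP (flip r) r' := newP_flip (flip r) r'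
    have h1 := lower_price K R.dual (1 - s) z hz2
    rw [Ts_dual, Rep.U_dual] at h1
    rw [h0, g3]
    exact h1
  · unfold Rep.dual Rep.lower
    simp only [if_true]
    omega
  · unfold Rep.dual Rep.lower
    simp only
    rw [if_neg hw]
    omega
  · unfold Rep.dual Rep.lower
    simp only
    omega

section
variable {R' : Rep V}

omit [Fintype V]

theorem S1r.sameL (e : S1r K R R' s z) : SameL K R R' s (fun w => w = z) where
  lo w _ hE _ := e.lo w hE
  lo' w _ hE h := by rw [e.lo w hE]; exact h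
  hi w _ _ _ := e.hi w
  hi' w _ _ h := by rw [e.hi w]; exact h
  ex w _ hE := by
    rw [hE, e.lz]
    exact ⟨e.mz, le_refl s⟩

/-- `s < lo w` does not change, and then `lo w` does not change -/
theorem S1r.lt_iff (e : S1r K R R' s z) (w : V) {p : ℤ} (hp : s ≤ p) :
    p < R'.lo w ↔ p < R.lo w := by
  by_cases hw : w = z
  · have h1 := (mem_Zs.1 e.mz).2.1
    rw [hw, e.lz]
    omega
  · rw [e.lo w hw]

theorem S1r.ua (e : S1r K R R' s z) {p : ℤ} (hp : s ≤ p) : ua K R' p = ua K R p := by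
  classical
  unfold OCN.ua
  congr 1
  ext w
  rw [Finset.mem_filter, Finset.mem_filter, e.lt_iff w hp]

theorem S1r.U (e : S1r K R R' s z) {w : V} (hw : s ≤ R.hi w) : R'.U K w = R.U K w := by
  rw [U_eq_ua, U_eq_ua, e.hi w, e.ua hw]

theorem S1r.cr (e : S1r K R R' s z) {w : V} {p : ℤ} (h : R'.Cr w p) : R.Cr w p := by
  obtain ⟨h1, h2⟩ := h
  rw [e.hi w] at h2
  by_cases hw : w = z
  · have h3 := (mem_Zs.1 e.mz).2.1
    rw [hw, e.lz] at h1
    rw [hw] at h2 ⊢
    exact ⟨by omega, h2⟩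
  · rw [e.lo w hw] at h1
    exact ⟨h1, h2⟩

theorem S1r.ts (e : S1r K R R' s z) (w : V) : w ∈ Ts K R' s ↔ w ∈ Ts K R s ∨ w = z := by
  rw [mem_Ts, mem_Ts]
  by_cases hw : w = z
  · rw [hw, e.lz]
    have := (mem_Zs.1 e.mz).1
    simp [this]
  · rw [e.lo w hw]
    simp [hw]

theorem S1r.zs (e : S1r K R R' s z) (w : V) : w ∈ Zs K R' s ↔ w ∈ Zs K R s ∧ w ≠ z := by
  rw [mem_Zs, mem_Zs, e.hi w]
  by_cases hw : w = z
  · rw [hw, e.lz]
    simp
  · rw [e.lo w hw]
    simp [hw]

theorem S1r.zs_erase [DecidableEq V] (e : S1r K R R' s z) : Zs K R' s = (Zs K R s).erase z := by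
  ext w
  rw [e.zs, Finset.mem_erase]
  exact and_comm

theorem S1r.N_z (e : S1r K R R' s z) {p : ℤ} (hs : s ≤ p) (hp : p ≤ R.hi z) :
    R'.N (Ts K R' s) p = R.N (Ts K R s) p + 1 := by
  classical
  have hz := mem_Zs.1 e.mz
  have hzT : z ∉ Ts K R s := by
    rw [mem_Ts]
    omega
  have h1 : ((Ts K R' s).filter fun w => R'.Cr w p) =
      insert z ((Ts K R s).filter fun w => R.Cr w p) := by
    ext w
    rw [Finset.mem_filter, Finset.mem_insert, Finset.mem_filter, e.ts]
    constructor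
    · rintro ⟨h2 | h2, h3⟩
      · exact Or.inr ⟨h2, e.cr h3⟩
      · exact Or.inl h2
    · rintro (h2 | ⟨h2, h3⟩)
      · subst h2
        refine ⟨Or.inr rfl, ?_, ?_⟩
        · rw [e.lz]
          exact hs
        · rw [e.hi]
          exact hp
      · refine ⟨Or.inl h2, ?_⟩
        have hw : w ≠ z := fun h => hzT (h ▸ h2)
        unfold Rep.Cr
        rw [e.lo w hw, e.hi w]
        exact h3
  unfold Rep.N
  rw [h1, Finset.card_insert_of_notMem]
  rw [Finset.mem_filter]
  exact fun h => hzT h.1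

theorem S1r.N_le (e : S1r K R R' s z) (p : ℤ) : R.N (Ts K R s) p ≤ R'.N (Ts K R' s) p := by
  classical
  have hz := mem_Zs.1 e.mz
  unfold Rep.N
  refine Finset.card_le_card fun w hw => ?_
  rw [Finset.mem_filter] at hw ⊢
  have hwz : w ≠ z := by
    rintro rfl
    have := (mem_Ts.1 hw.1).2
    omega
  refine ⟨(e.ts w).2 (Or.inl hw.1), ?_⟩
  unfold Rep.Cr
  rw [e.lo w hwz, e.hi w]
  exact hw.2

theorem S1r.ir (e : S1r K R R' s z) (h : InjS K R s) : InjS K R' s := by
  intro a ha b hb h1 h2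
  have h3 : a ≠ z := by
    rintro rfl
    rw [e.lz] at h1
    omega
  have h4 : b ≠ z := by
    rintro rfl
    rw [e.lz] at h2
    omega
  rw [e.lo a h3] at h1 h2
  rw [e.lo b h4] at h2
  exact h a ha b hb h1 h2

/-- the class after the change -/
theorem S1r.yd [DecidableEq V] (e : S1r K R R' s z) (h : Yd B K R s m M ν cb δ) :
    Yd B K R' s m M ν cb (Function.update δ z 0) := by
  have hz := mem_Zs.1 e.mz
  have hsm := h.sm
  have hmM := h.mM
  have hhz := h.hz z e.mz
  refine ⟨?_, e.ir h.ir, h.sm, h.mM, fun w hw => ?_, fun p h1 h2 => ?_,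
    fun p h1 h2 => ?_, fun t ht h1 h2 p h3 h4 => ?_, fun t ht h1 p h3 h4 => ?_,
    fun q h1 h2 => ?_, fun t ht h1 h2 q h3 h4 => ?_⟩
  · refine h.gT.trans (Nat.add_le_add_left (Finset.card_le_card fun w hw => ?_) B)
    exact (e.ts w).2 (Or.inl hw)
  · rw [e.hi]
    exact h.hz w ((e.zs w).1 hw).1
  · have := h.zM p h1 h2
    have := e.N_le p
    rw [e.ua (by omega)]
    omega
  · have := h.zm p h1 h2
    have := e.N_le p
    rw [e.ua (by omega)]
    omega
  · have htz : t ≠ z := by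
      rintro rfl
      rw [e.lz] at h1
      omega
    have h5 := e.cr h3
    rw [e.lo t htz] at h1 h2
    have := h.fr t ht h1 h2 p h5 h4
    have := e.N_le p
    have := R.le t
    rw [e.U (by omega)]
    omega
  · have h5 := e.cr h3
    have h6 := e.N_le p
    by_cases htz : t = z
    · subst htz
      have h7 : s ≤ p := by
        have := h3.1
        omega
      rw [Function.update_self, e.U (by omega), e.N_z h7 (by omega), U_eq_ua]
      rcases hhz with h8 | h8
      · rw [h8]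
        have := h.zm p h7 h4
        omega
      · rw [h8]
        have := h.zM p h7 h4
        omega
    · rw [Function.update_of_ne htz]
      rw [e.lo t htz] at h1
      have := R.le t
      rw [e.U (by omega)]
      have := h.ba t ht h1 p h5 h4
      omega
  · have := h.wz q h1 h2
    have := e.N_le q
    rw [e.ua (by omega)]
    omega
  · have htz : t ≠ z := by
      rintro rfl
      rw [e.lz] at h1
      omega
    have h5 := e.cr h3
    rw [e.lo t htz] at h1 h2
    have := h.ws t ht h1 h2 q h5 h4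
    have := e.N_le q
    have := R.le t
    rw [e.U (by omega)]
    omega

/-- the numbers after the change -/
theorem S1r.yn [DecidableEq V] (e : S1r K R R' s z) (hsm : s ≤ m) (hmM : m ≤ M)
    {σ σ' : St} (n : Yn K R s m M δ σ) (ho : σ'.o + 1 = σ.o)
    (ha : (m < R.hi z ∧ σ'.a + 1 = σ.a) ∨ (R.hi z ≤ m ∧ σ'.a = σ.a)) (hr' : σ'.r = σ.r)
    (hu : σ'.u = σ.u) (hμ : σ'.μ = σ.μ) (hβ : σ'.β = 0 ::ₘ σ.β) :
    Yn K R' s m M (Function.update δ z 0) σ' := by
  have hz := mem_Zs.1 e.mz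
  have hZ := e.zs_erase
  have hZp := Finset.card_pos.2 ⟨z, e.mz⟩
  refine ⟨?_, ?_, ?_, ?_, ?_, ?_⟩
  · rw [hZ, Finset.card_erase_of_mem e.mz]
    have := n.o
    omega
  · have h1 := n.a
    rcases ha with ⟨h2, h3⟩ | ⟨h2, h3⟩
    · have h4 : As K R' s m = (As K R s m).erase z := by
        ext w
        rw [mem_As, e.hi, e.zs, Finset.mem_erase, mem_As]
        constructor
        · rintro ⟨⟨h5, h6⟩, h7⟩
          exact ⟨h6, h5, h7⟩
        · rintro ⟨h6, h5, h7⟩
          exact ⟨⟨h5, h6⟩, h7⟩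
      have h5 : z ∈ As K R s m := mem_As.2 ⟨e.mz, h2⟩
      have h6 := Finset.card_pos.2 ⟨z, h5⟩
      rw [h4, Finset.card_erase_of_mem h5]
      omega
    · have h4 : As K R' s m = As K R s m := by
        ext w
        rw [mem_As, e.hi, e.zs, mem_As]
        constructor
        · rintro ⟨⟨h5, h6⟩, h7⟩
          exact ⟨h5, h7⟩
        · rintro ⟨h5, h7⟩
          refine ⟨⟨h5, ?_⟩, h7⟩
          rintro rfl
          omega
      rw [h4, h1, h3]
  · rw [e.ua hsm, n.u, hu]
  · rw [e.ua (by omega), hu, hr']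
    exact n.r
  · rw [e.ua (le_refl s), hu, hμ]
    exact n.μ
  · have hzB : z ∉ Bs K R s := by
      rw [mem_Bs]
      omega
    have h1 : Bs K R' s = insert z (Bs K R s) := by
      ext w
      rw [mem_Bs, Finset.mem_insert, mem_Bs]
      by_cases hw : w = z
      · rw [hw, e.lz]
        simp [hz.1]
      · rw [e.lo w hw]
        simp [hw]
    rw [h1, Finset.insert_val_of_notMem hzB, Multiset.map_cons, Function.update_self, hβ,
      ← n.β]
    congr 1
    refine Multiset.map_congr rfl fun w hw => ?_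
    have : w ≠ z := by
      rintro rfl
      exact hzB hw
    rw [Function.update_of_ne this]

end

/-- (block S) a left element (or an element of the chain) attacks an undecided element `z`: `z` goes
to the right side and starts at `s` (`op_raise`) -/
theorem Yd.attLZ (h : Yd B K R s m M ν cb δ) (hgL : K.card ≤ B + (Ls K R s).card)
    {σ σ' : St} (n : Yn K R s m M δ σ)
    (hr : Loc r K R) (hz : z ∈ Zs K R s) (hx : x ∈ Ls K R s) (ho : σ'.o + 1 = σ.o)
    (ha : (m < R.hi z ∧ σ'.a + 1 = σ.a) ∨ (R.hi z ≤ m ∧ σ'.a = σ.a)) (hr' : σ'.r = σ.r)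
    (hu : σ'.u = σ.u) (hμ : σ'.μ = σ.μ) (hβ : σ'.β = 0 ::ₘ σ.β) :
    ∃ (r' : V → V → Prop) (R' : Rep V) (δ' : V → ℕ), Loc r' K R' ∧ (∀ a b, r a b → r' a b) ∧
      r' x z ∧ newP r r' + σ.o ≤ B ∧ SameL K R R' s (fun w => w = z) ∧
      Yd B K R' s m M ν cb δ' ∧ Yn K R' s m M δ' σ' := by
  classical
  obtain ⟨r', R', g1, g2, g3, g4, g5⟩ := S1_op hr hz
  refine ⟨r', R', Function.update δ z 0, g1, g2, g3 x hx, ?_, g5.sameL, g5.yd h,
    g5.yn h.sm h.mM n ho ha hr' hu hμ hβ⟩
  have h1 := card_LTZ K R s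
  have h2 := h.gT
  have h3 := n.o
  omega

end Pool.Agent.OCN.YC
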