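import Pool.Agent.Lib_helper16.OCN.YcX

/-!
# MP_aeb124_co: the class Yc, attacks of the window (block W)
-/

set_option autoImplicit false

namespace Pool.Agent.OCN.YC

variable {V : Type} {B : ℕ} {K : Finset V} {R R' : Rep V} {s m M p : ℤ} {x y z0 : V}
  {ν cb : ℕ} {δ : V → ℕ}

open scoped Classical in
/-- the deficits after the exchange in the window -/
noncomputable def exw (δ : V → ℕ) (y z0 : V) : V → ℕ := fun w => if w = z0 then δ y else δ w

/-- three starts of the window are not possible if there is only one -/
theorem W_two (hx : x ∈ K) (hy : y ∈ K) (hxy : x ≠ y) (h1 : m < R.lo x) (h2 : R.lo x ≤ M)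
    (h3 : m < R.lo y) (h4 : R.lo y ≤ M) : ua K R M + 2 ≤ ua K R m := by
  classical
  unfold ua
  have h5 : (K.filter fun b => M < R.lo b) ∪ {x, y} ⊆ K.filter fun b => m < R.lo b := by
    intro b hb
    rw [Finset.mem_union, Finset.mem_filter, Finset.mem_insert, Finset.mem_singleton] at hb
    rw [Finset.mem_filter]
    rcases hb with hb | rfl | rfl
    · exact ⟨hb.1, by omega⟩
    · exact ⟨hx, h1⟩
    · exact ⟨hy, h3⟩
  have h6 : Disjoint (K.filter fun b => M < R.lo b) ({x, y} : Finset V) := by
    rw [Finset.disjoint_left]
    intro b hb hb'
    have h7 := (Finset.mem_filter.1 hb).2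
    rw [Finset.mem_insert, Finset.mem_singleton] at hb'
    rcases hb' with rfl | rfl <;> omega
  have h8 := Finset.card_le_card h5
  rw [Finset.card_union_of_disjoint h6, Finset.card_pair hxy] at h8
  exact h8

/-- (block W1) the exchange in the window -/
theorem Yd.exgW (h : Yd B K R s m M ν cb δ) (e : Exg K R R' s p x y z0) (hmp : m < p)
    (hpM : p ≤ M) (hx : m < R.lo x) (hz : R.hi z0 = M)
    (hy : y = z0 ∨ (R.lo y ≤ m ∧ R.hi y ≤ M))
    (hcb : cb = 0 ∨ ua K R m = ua K R M + 1) :
    Yd B K R' s m (M + 1) ν 0 (exw δ y z0) := by
  classical
  obtain ⟨hzK, hz1, hz2⟩ := mem_Zs.1 e.z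
  have hsm := h.sm
  have hL := e.sameL
  have hcx := e.cx
  have hcy := e.cy
  have hxM : R.lo x ≤ M := hcx.1.trans hpM
  have hxZ : ∀ z ∈ Zs K R s, z ≠ x := by
    rintro z hz' rfl
    have := (mem_Zs.1 hz').2.1
    omega
  have hu1 : ua K R' (M + 1) = ua K R M := by
    rw [e.ua_gt (by omega), add_sub_cancel_right]
  have hN : ∀ q, s ≤ q → q ≤ M + 1 →
      R.N (Ts K R s) (oldGap p q) ≤ R'.N (Ts K R' s) q := by
    intro q h1 h2
    refine e.N_ge h1 ?_
    rw [hz]
    unfold oldGap
    split_ifs <;> omega
  have hN0 : ∀ q, s ≤ q → q ≤ p → R.N (Ts K R s) q ≤ R'.N (Ts K R' s) q := by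
    intro q h1 h2
    have h3 := hN q h1 (by omega)
    unfold oldGap at h3
    rw [if_pos h2] at h3
    exact h3
  -- the new starts
  have hlz : y ≠ z0 → R'.lo z0 = R.lo y ∧ R'.lo y = p + 1 := by
    intro h1
    rcases e.lz with h2 | h2
    · exact absurd h2.1 h1
    · exact h2.2
  have hlz' : y = z0 → R'.lo z0 = p + 1 := by
    intro h1
    rcases e.lz with h2 | h2
    · exact h2.2
    · exact absurd h1 h2.1
  have hlo : ∀ w, w ≠ z0 → R'.lo w ≤ m → w ≠ y ∧ R.lo w = R'.lo w := by
    intro w hw1 hw
    have hwy : w ≠ y := by
      rintro rfl
      have := (hlz hw1).2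
      omega
    refine ⟨hwy, ?_⟩
    rcases e.lw w hw1 hwy with h1 | h1
    · omega
    · exact h1.2.symm
  have hcr : ∀ w, w ≠ z0 → ∀ q, q ≤ p → R'.Cr w q → R.Cr w q := by
    intro w hw q hq hc
    have h3 := e.cr hw hc
    unfold oldGap at h3
    rw [if_pos hq] at h3
    exact h3
  have hUz : R'.U K z0 = ua K R M := by
    rw [e.U_ge (Ne.symm e.xz) e.pz, U_eq_ua, hz]
  have hwz : ∀ q, p + 1 ≤ q → q ≤ M + 1 → K.card + ν ≤ B + R'.N (Ts K R' s) q + ua K R M := by
    intro q h1 h2
    have h3 := hN q (by omega) h2
    unfold oldGap at h3
    rw [if_neg (by omega)] at h3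
    have h4 := h.wz (q - 1) (by omega) (by omega)
    omega
  have hwz0 : ∀ q, m < q → q ≤ p → K.card + ν ≤ B + R'.N (Ts K R' s) q + ua K R M := by
    intro q h1 h2
    have h3 := hN0 q (by omega) h2
    have h4 := h.wz q h1 (by omega)
    omega
  refine
    { gT := by
        have h1 : Ts K R s ⊆ Ts K R' s := fun w hw => (hL.ts w).2 (Or.inl hw)
        have := Finset.card_le_card h1
        have := h.gT
        omega
      ir := e.ir h.ir
      sm := hsm
      mM := by omega
      hz := ?_
      zM := ?_
      zm := ?_
      fr := ?_
      ba := ?_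
      wz := ?_
      ws := ?_ }
  · intro z hz'
    obtain ⟨hz3, hz4⟩ := (hL.zs z).1 hz'
    rcases e.hw z (hxZ z hz3) with h1 | h1
    · right
      rcases h.hz z hz3 with h2 | h2
      · omega
      · omega
    · left
      rcases h.hz z hz3 with h2 | h2
      · omega
      · omega
  · intro q h1 h2
    have h3 := hN0 q h1 (by omega)
    have h4 := h.zM q h1 h2
    rw [hu1]
    omega
  · intro q h1 h2
    have h3 := hN0 q h1 (by omega)
    have h4 := h.zm q h1 h2
    rw [e.ua_le hsm (by omega)]
    omega
  · intro t htK h1 h2 q hq hqm
    by_cases htz : t = z0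
    · rw [htz] at h1 h2 hq ⊢
      have hqs : s ≤ q := by
        have := hq.1
        omega
      have h3 := hN0 q hqs (by omega)
      have h4 := h.zM q hqs hqm
      rw [hUz]
      omega
    · obtain ⟨hty, hlt⟩ := hlo t htz h2
      have h3 := hcr t htz q (by omega) hq
      have h4 := h.fr t htK (by omega) (by omega) q h3 hqm
      have hle := R.le t
      have hqs : s ≤ q := by
        have := h3.1
        omega
      have h5 := hN0 q hqs (by omega)
      have h6 := e.U_mono htK (by omega)
      omega
  · intro t htK h1 q hq hqm
    by_cases htz : t = z0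
    · rw [htz] at h1 hq ⊢
      have hqs : s ≤ q := by
        have := hq.1
        omega
      have h3 := hN0 q hqs (by omega)
      have h4 := h.zM q hqs hqm
      rw [hUz]
      omega
    · obtain ⟨hty, hlt⟩ := hlo t htz (by omega)
      have h3 := hcr t htz q (by omega) hq
      have h4 := h.ba t htK (by omega) q h3 hqm
      have hle := R.le t
      have hqs : s ≤ q := by
        have := h3.1
        omega
      have h5 := hN0 q hqs (by omega)
      have h6 := e.U_mono htK (by omega)
      unfold exw
      rw [if_neg htz]
      omega
  · intro q h1 h2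
    rw [hu1]
    by_cases hq : q ≤ p
    · exact hwz0 q h1 hq
    · exact hwz q (by omega) h2
  · intro t htK h1 h2 q hq hqM
    by_cases htx : t = x
    · rw [htx] at hq ⊢
      have h3 : R'.lo x = R.lo x := by
        rcases e.lw x e.xz e.xy with h3 | h3
        · have := hcx.1
          omega
        · exact h3.2
      have h4 : m < q := by
        have := hq.1
        omega
      have h5 : q ≤ p := by
        have := hq.2
        rw [e.hx] at this
        exact this
      have h6 := hwz0 q h4 h5
      have h7 := ua_anti K R hpM
      rw [e.U_x]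
      omega
    · by_cases htz : t = z0
      · rw [htz] at h1 h2 hq ⊢
        have h3 : R'.lo z0 = p + 1 := by
          by_cases hyz : y = z0
          · exact hlz' hyz
          · have h4 := (hlz hyz).1
            rcases hy with hy | hy
            · exact absurd hy hyz
            · omega
        have h4 := hq.1
        have h5 := hwz q (by omega) hqM
        rw [hUz]
        omega
      · by_cases hty : t = y
        · have hyz : y ≠ z0 := fun hyz => htz (hty.trans hyz)
          have h3 := (hlz hyz).2
          have h4 : R.hi y ≤ M := by
            rcases hy with hy | hy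
            · exact absurd hy hyz
            · exact hy.2
          rw [hty] at hq ⊢
          have h5 := hq.1
          have h6 := hwz q (by omega) hqM
          have h7 := ua_anti K R h4
          rw [e.U_ge (Ne.symm e.xy) hcy.2, U_eq_ua]
          omega
        · have h3 : m < R.lo t ∧ R.lo t ≤ M := by
            rcases e.lw t htz hty with h4 | h4 <;> omega
          have hcb0 : cb = 0 := by
            rcases hcb with hcb | hcb
            · exact hcb
            · have h4 := W_two e.xK htK (Ne.symm htx) hx hxM h3.1 h3.2
              omega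
          have h4 := e.cr htz hq
          have hle := R.le t
          have h5 : oldGap p q ≤ M := by
            unfold oldGap
            split_ifs <;> omega
          have h6 := h.ws t htK h3.1 h3.2 _ h4 h5
          have hqs : s ≤ q := by
            have := hq.1
            omega
          have h7 := hN q hqs hqM
          have h8 := e.U_mono htK (by omega)
          omega

/-- (block W2) the numbers of the exchange in the window -/
theorem Yd.exgWn (h : Yd B K R s m M ν cb δ) {σ σ' : St} (n : Yn K R s m M δ σ)
    (e : Exg K R R' s p x y z0) (hmp : m < p) (hpM : p ≤ M) (hx : m < R.lo x) (hz : R.hi z0 = M)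
    (hy : y = z0 ∨ (R.lo y ≤ m ∧ R.hi y ≤ M))
    (ho : σ'.o + 1 = σ.o) (ha : σ'.a + 1 = σ.a) (hr : σ'.r = σ.r + 1) (hu : σ'.u = σ.u + 1)
    (hμ : σ'.μ = σ.μ) (hβ : σ'.β = σ.β) :
    Yn K R' s m (M + 1) (exw δ y z0) σ' := by
  classical
  obtain ⟨hzK, hz1, hz2⟩ := mem_Zs.1 e.z
  have hsm := h.sm
  have hL := e.sameL
  have hxZ : ∀ z ∈ Zs K R s, z ≠ x := by
    rintro z hz' rfl
    have := (mem_Zs.1 hz').2.1
    omega
  have hZ : Zs K R' s = (Zs K R s).erase z0 := by
    ext w
    rw [hL.zs, Finset.mem_erase]
    exact and_comm
  have hA : As K R' s m = (As K R s m).erase z0 := by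
    ext w
    rw [mem_As, hZ, Finset.mem_erase, Finset.mem_erase, mem_As, and_assoc]
    refine and_congr_right fun _ => and_congr_right fun h2 => ?_
    rcases e.hw w (hxZ w h2) with h3 | h3
    · constructor
      · intro _
        omega
      · intro _
        omega
    · rw [h3.2]
  have hzA : z0 ∈ As K R s m := mem_As.2 ⟨e.z, by omega⟩
  have hc1 := Finset.card_erase_add_one e.z
  have hc2 := Finset.card_erase_add_one hzA
  have hno := n.o
  have hna := n.a
  have hnu := n.u
  have hnr := n.r
  have hnμ := n.μ
  refine ⟨?_, ?_, ?_, ?_, ?_, ?_⟩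
  · rw [hZ]
    omega
  · rw [hA]
    omega
  · rw [e.ua_le hsm (by omega)]
    omega
  · rw [e.ua_gt (by omega), add_sub_cancel_right]
    omega
  · rw [e.ua_le le_rfl (by omega)]
    omega
  · rw [hβ, ← n.β]
    have hzB : z0 ∉ Bs K R s := by
      intro h1
      have := (mem_Bs.1 h1).2
      omega
    by_cases hyz : y ≠ z0 ∧ R.lo y = s
    · obtain ⟨hyz, hys⟩ := hyz
      have hlz : R'.lo z0 = R.lo y ∧ R'.lo y = p + 1 := by
        rcases e.lz with h2 | h2
        · exact absurd h2.1 hyz
        · exact h2.2
      have hyB : y ∈ Bs K R s := mem_Bs.2 ⟨e.yK, hys⟩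
      have hB : Bs K R' s = insert z0 ((Bs K R s).erase y) := by
        ext w
        rw [Finset.mem_insert, Finset.mem_erase, mem_Bs, mem_Bs]
        by_cases hwz : w = z0
        · rw [hwz]
          constructor
          · intro _
            exact Or.inl rfl
          · intro _
            exact ⟨hzK, by omega⟩
        · by_cases hwy : w = y
          · rw [hwy, hlz.2]
            constructor
            · intro h1
              omega
            · rintro (h1 | h1)
              · exact absurd h1 hyz
              · exact absurd rfl h1.1
          · constructor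
            · rintro ⟨h1, h2⟩
              refine Or.inr ⟨hwy, h1, ?_⟩
              rcases e.lw w hwz hwy with h3 | h3 <;> omega
            · rintro (h1 | ⟨_, h1, h2⟩)
              · exact absurd h1 hwz
              · refine ⟨h1, ?_⟩
                rcases e.lw w hwz hwy with h3 | h3 <;> omega
      have hzB' : z0 ∉ (Bs K R s).erase y := fun h1 => hzB (Finset.mem_of_mem_erase h1)
      rw [hB, Finset.insert_val_of_notMem hzB', Multiset.map_cons]
      have h1 : exw δ y z0 z0 = δ y := by
        unfold exw
        rw [if_pos rfl]
      have h2 : ((Bs K R s).erase y).val.map (exw δ y z0) =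
          ((Bs K R s).erase y).val.map δ := by
        refine Multiset.map_congr rfl fun w hw => ?_
        unfold exw
        rw [if_neg]
        rintro rfl
        exact hzB' hw
      rw [h1, h2, Finset.erase_val, ← Multiset.map_cons, Multiset.cons_erase hyB]
    · have hB : Bs K R' s = Bs K R s := by
        ext w
        rw [mem_Bs, mem_Bs]
        refine and_congr_right fun _ => ?_
        by_cases hwz : w = z0
        · rw [hwz]
          rcases e.lz with h1 | h1
          · constructor
            · intro h2
              omega
            · intro h2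
              omega
          · constructor
            · intro h2
              exact absurd ⟨h1.1, by omega⟩ hyz
            · intro h2
              omega
        · by_cases hwy : w = y
          · rw [hwy]
            rw [hwy] at hwz
            rcases e.lz with h1 | h1
            · exact absurd h1.1 hwz
            · constructor
              · intro h2
                omega
              · intro h2
                exact absurd ⟨hwz, h2⟩ hyz
          · rcases e.lw w hwz hwy with h3 | h3
            · constructor
              · intro h2
                omega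
              · intro h2
                omega
            · rw [h3.2]
      rw [hB]
      refine Multiset.map_congr rfl fun w hw => ?_
      unfold exw
      rw [if_neg]
      rintro rfl
      exact hzB hw

end Pool.Agent.OCN.YC
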