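import Pool.Agent.Lib_helper16.OCN.YcM
import Pool.Agent.Lib_helper16.OCN.YcC
import Pool.Agent.Lib_helper16.OCN.YcW
import Pool.Agent.Lib_helper16.OCN.YcS1
import Pool.Agent.Lib_helper16.OCN.YcLR
import Pool.Agent.Lib_helper16.OCN.YcP1

/-!
# MP_aeb124_co: the class Yc, the answers (tools)
-/

set_option autoImplicit false

namespace Pool.Agent.OCN.YC

variable {V : Type} {B W nl : ℕ} {K : Finset V} {R R' : Rep V} {s0 s m M : ℤ} {δ : V → ℕ}
  {σ : St} {rr : V → V → Prop} {x y z : V} {ν cb : ℕ}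

/-- the data of the class Yc -/
structure Dt (B W nl : ℕ) (K : Finset V) (R : Rep V) (s0 s m M : ℤ) (δ : V → ℕ) (σ : St) :
    Prop where
  BW : B + W ≤ K.card
  gL : K.card ≤ B + (Ls K R s).card
  lf : Lf B K R s0 s W
  nl : nl ≤ ua K R.dual (1 - s0)
  yd : Yd B K R s m M σ.ν σ.cb δ
  yn : Yn K R s m M δ σ
  c0 : σ.a = 0 → M = m

theorem Dt.yc (h : Dt B W nl K R s0 s m M δ σ) : Yc B W nl K R σ :=
  ⟨s0, s, m, M, δ, h.BW, h.gL, h.lf, h.nl, h.yd, h.yn⟩

theorem Yc.dt (h : Yc B W nl K R σ) (h0 : σ.a = 0 → σ.r = 0) :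
    ∃ s0 s m M δ, Dt B W nl K R s0 s m M δ σ := by
  obtain ⟨s0, s, m, M, δ, h1, h2, h3, h4, h5, h6, h7, _⟩ := h.nrm_data h0
  exact ⟨s0, s, m, M, δ, h1, h2, h3, h4, h5, h6, h7⟩

/-- the class Yc after a change of the right side -/
theorem Dt.right {E : V → Prop} (h : Dt B W nl K R s0 s m M δ σ) (hL : SameL K R R' s E)
    {m' M' : ℤ} {δ' : V → ℕ} {σ' : St} (hY : Yd B K R' s m' M' σ'.ν σ'.cb δ')
    (hn : Yn K R' s m' M' δ' σ') : Yc B W nl K R' σ' :=
  ⟨s0, s, m', M', δ', h.BW, by rw [hL.ls]; exact h.gL, hL.lf h.lf, by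
    rw [hL.ul h.lf.le]
    exact h.nl, hY, hn⟩

/-- the class Yc after a change of the left side -/
theorem Dt.left {s0' : ℤ} (h : Dt B W nl K R s0 s m M δ σ) (hz : z ∈ Zs K R s)
    (hR : SameR K R R' s (fun w => w = z)) (hlf : Lf B K R' s0' s W)
    (hnl : ua K R.dual (1 - s0) ≤ ua K R'.dual (1 - s0')) {σ' : St} (ho : σ'.o + 1 = σ.o)
    (ha : (m < R.hi z ∧ σ'.a + 1 = σ.a) ∨ (R.hi z ≤ m ∧ σ'.a = σ.a)) (hr : σ'.r = σ.r)
    (hu : σ'.u = σ.u) (hμ : σ'.μ = σ.μ) (hν : σ'.ν = σ.ν) (hcb : σ'.cb = σ.cb)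
    (hβ : σ'.β = σ.β) : Yc B W nl K R' σ' := by
  refine ⟨s0', s, m, M, δ, h.BW, ?_, hlf, h.nl.trans hnl, ?_, ?_⟩
  · refine h.gL.trans (Nat.add_le_add_left (Finset.card_le_card fun w hw => ?_) B)
    exact (hR.ls w).2 (Or.inl hw)
  · rw [hν, hcb]
    exact hR.yd h.yd
  · exact hR.yn hz h.yd.sm h.yd.mM h.yn ho ha hr hu hμ hβ

theorem Dt.hz (h : Dt B W nl K R s0 s m M δ σ) (hz : z ∈ Zs K R s) :
    (R.hi z = m ∧ R.U K z = σ.u) ∨ (m < R.hi z ∧ R.hi z = M ∧ R.U K z + σ.r = σ.u ∧ 1 ≤ σ.a) := by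
  classical
  have h1 := h.yd.mM
  have h2 := h.yn.u
  have h3 := h.yn.r
  rcases Decidable.em (R.hi z = m) with h4 | h4
  · refine Or.inl ⟨h4, ?_⟩
    rw [U_eq_ua, h4]
    exact h2
  · have h5 : R.hi z = M := by
      rcases h.yd.hz z hz with h5 | h5
      · exact absurd h5 h4
      · exact h5
    refine Or.inr ⟨by omega, h5, ?_, ?_⟩
    · rw [U_eq_ua, h5]
      exact h3.symm
    · rw [← h.yn.a]
      exact Finset.card_pos.2 ⟨z, mem_As.2 ⟨hz, by omega⟩⟩

/-- the heights of the main part -/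
theorem N_main (h : Yd B K R s m M ν cb δ) {p : ℤ} (h1 : s ≤ p) (h2 : p ≤ m) :
    R.N (Ts K R s) p + (Zs K R s).card ≤ R.N K p := by
  classical
  unfold Rep.N
  rw [← Finset.card_union_of_disjoint]
  · refine Finset.card_le_card fun w hw => ?_
    rw [Finset.mem_union, Finset.mem_filter] at hw
    rw [Finset.mem_filter]
    rcases hw with ⟨h3, h4⟩ | h3
    · exact ⟨(mem_Ts.1 h3).1, h4⟩
    · obtain ⟨h4, h5, h6⟩ := mem_Zs.1 h3
      have := h.mM
      refine ⟨h4, by omega, ?_⟩
      rcases h.hz w h3 with h7 | h7 <;> omega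
  · rw [Finset.disjoint_left]
    intro w h3 h4
    have h5 := (mem_Ts.1 (Finset.mem_filter.1 h3).1).2
    have h6 := (mem_Zs.1 h4).2.1
    omega

/-- the heights of the window -/
theorem N_win (h : Yd B K R s m M ν cb δ) {p : ℤ} (h1 : m < p) (h2 : p ≤ M) :
    R.N (Ts K R s) p + (As K R s m).card ≤ R.N K p := by
  classical
  unfold Rep.N
  rw [← Finset.card_union_of_disjoint]
  · refine Finset.card_le_card fun w hw => ?_
    rw [Finset.mem_union, Finset.mem_filter] at hw
    rw [Finset.mem_filter]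
    rcases hw with ⟨h3, h4⟩ | h3
    · exact ⟨(mem_Ts.1 h3).1, h4⟩
    · obtain ⟨h8, h9⟩ := mem_As.1 h3
      obtain ⟨h4, h5, h6⟩ := mem_Zs.1 h8
      have := h.mM
      have := h.sm
      refine ⟨h4, by omega, ?_⟩
      rcases h.hz w h8 with h7 | h7 <;> omega
  · rw [Finset.disjoint_left]
    intro w h3 h4
    have h5 := (mem_Ts.1 (Finset.mem_filter.1 h3).1).2
    have h6 := (mem_Zs.1 (mem_As.1 h4).1).2.1
    omega

/-- the elements below a right element -/
theorem D_right {v : V} (hv : s ≤ R.lo v) :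
    (Ls K R s).card ≤ R.D K v := by
  classical
  unfold Rep.D
  refine Finset.card_le_card fun w hw => ?_
  obtain ⟨h1, h2⟩ := mem_Ls.1 hw
  rw [Finset.mem_filter]
  refine ⟨h1, ?_⟩
  unfold Rep.rel
  omega

theorem D_high (h : Yd B K R s m m ν cb δ) {v : V} (hv : m < R.lo v) :
    (Ls K R s).card + (Zs K R s).card ≤ R.D K v := by
  classical
  unfold Rep.D
  rw [← Finset.card_union_of_disjoint]
  · refine Finset.card_le_card fun w hw => ?_
    have h0 := h.sm
    rw [Finset.mem_union] at hw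
    rw [Finset.mem_filter]
    unfold Rep.rel
    rcases hw with hw | hw
    · obtain ⟨h1, h2⟩ := mem_Ls.1 hw
      exact ⟨h1, by omega⟩
    · refine ⟨(mem_Zs.1 hw).1, ?_⟩
      rcases h.hz w hw with h7 | h7 <;> omega
  · rw [Finset.disjoint_left]
    intro w h3 h4
    have h5 := (mem_Ls.1 h3).2
    have h6 := (mem_Zs.1 h4).2.2
    omega

/-- unfinished elements are finished -/
theorem closeA [Fintype V] (hY : Yd B K R s m M ν cb δ) (hr : Loc rr K R) (A : Finset V)
    (hA : A ⊆ As K R s m) :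
    ∃ (r' : V → V → Prop) (R' : Rep V), Loc r' K R' ∧ (∀ a b, rr a b → r' a b) ∧
      newP rr r' + A.card * ua K R M ≤ A.card * ua K R m ∧ (∀ w, R'.lo w = R.lo w) ∧
      (∀ w, w ∉ A → R'.hi w = R.hi w) ∧ (∀ w ∈ A, R'.hi w = m) := by
  classical
  have hsm := hY.sm
  have hmM := hY.mM
  induction A using Finset.induction_on with
  | empty => exact ⟨rr, R, hr, fun _ _ h => h, by rw [newP_self]; simp, fun _ => rfl,
      fun _ _ => rfl, fun w hw => absurd hw (Finset.notMem_empty w)⟩
  | insert z A hzA ih =>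
    obtain ⟨r1, R1, g1, g2, g3, g4, g5, g6⟩ := ih (fun w hw => hA (Finset.mem_insert_of_mem hw))
    obtain ⟨hzZ, hzm⟩ := mem_As.1 (hA (Finset.mem_insert_self z A))
    obtain ⟨hzK, hz1, hz2⟩ := mem_Zs.1 hzZ
    have hzM : R.hi z = M := by
      rcases hY.hz z hzZ with h1 | h1 <;> omega
    have h1z := g5 z hzA
    have h2z := g4 z
    obtain ⟨r2, k1, k2, k3⟩ := op_lower g1 z hzK m (by omega) (by omega)
    refine ⟨r2, R1.lower z m (by omega), k1, fun a b hab => k2 a b (g2 a b hab), ?_,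
      fun w => g4 w, ?_, ?_⟩
    · have h1 : (K.filter fun b => m < R1.lo b ∧ R1.lo b ≤ R1.hi z).card + ua K R M ≤
          ua K R m := by
        unfold ua
        rw [← Finset.card_union_of_disjoint]
        · refine Finset.card_le_card fun b hb => ?_
          rw [Finset.mem_union, Finset.mem_filter, Finset.mem_filter] at hb
          rw [Finset.mem_filter]
          rw [g4 b] at hb
          rcases hb with hb | hb
          · exact ⟨hb.1, hb.2.1⟩
          · exact ⟨hb.1, by omega⟩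
        · rw [Finset.disjoint_left]
          intro b hb hb'
          have h2 := (Finset.mem_filter.1 hb).2
          have h3 := (Finset.mem_filter.1 hb').2
          rw [g4 b] at h2
          omega
      have h2 := newP_trans (r := rr) (r' := r1) (r'' := r2)
      rw [Finset.card_insert_of_notMem hzA]
      have h3 : (A.card + 1) * ua K R M = A.card * ua K R M + ua K R M := by ring
      have h4 : (A.card + 1) * ua K R m = A.card * ua K R m + ua K R m := by ring
      rw [h3, h4]
      omega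
    · intro w hw
      rw [Finset.mem_insert, not_or] at hw
      have h1 : (R1.lower z m (by omega)).hi w = R1.hi w := by
        unfold Rep.lower
        simp only
        rw [if_neg hw.1]
      rw [h1, g5 w hw.2]
    · intro w hw
      by_cases hwz : w = z
      · rw [hwz]
        exact if_pos rfl
      · have h1 : (R1.lower z m (by omega)).hi w = R1.hi w := by
          unfold Rep.lower
          simp only
          rw [if_neg hwz]
        rw [h1]
        exact g6 w (Finset.mem_of_mem_insert_of_ne hw hwz)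

/-- the window is closed -/
theorem Dt.close [Fintype V] (h : Dt B W nl K R s0 s m M δ σ) (hr : Loc rr K R) :
    ∃ (r' : V → V → Prop) (R' : Rep V), Loc r' K R' ∧ (∀ a b, rr a b → r' a b) ∧
      newP rr r' ≤ σ.r * σ.a ∧ (∀ w, R'.lo w = R.lo w) ∧
      (∀ w, w ∉ As K R s m → R'.hi w = R.hi w) ∧ (∀ w ∈ Zs K R s, R'.hi w = m) ∧
      (∀ w, w ∈ Zs K R' s ↔ w ∈ Zs K R s) ∧ (∀ w, w ∈ Ts K R' s ↔ w ∈ Ts K R s) ∧
      Dt B W nl K R' s0 s m m δ ⟨σ.o, 0, 0, σ.u, σ.μ, σ.ν, σ.cb, σ.β⟩ := by
  classical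
  have hY := h.yd
  have hsm := hY.sm
  have hmM := hY.mM
  obtain ⟨r', R', g1, g2, g3, g4, g5, g6⟩ := closeA hY hr (As K R s m) (fun w hw => hw)
  have hAZ : ∀ w ∈ Zs K R s, R'.hi w = m := by
    intro w hw
    by_cases hA : w ∈ As K R s m
    · exact g6 w hA
    · rw [g5 w hA]
      rcases hY.hz w hw with h1 | h1
      · exact h1
      · by_contra h2
        exact hA (mem_As.2 ⟨hw, by omega⟩)
  have hTA : ∀ w, s ≤ R.lo w → R'.hi w = R.hi w := fun w hw => g5 w fun h1 => by
    have := (mem_Zs.1 (mem_As.1 h1).1).2.1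
    omega
  have hLA : ∀ w, R.hi w < s → R'.hi w = R.hi w := fun w hw => g5 w fun h1 => by
    have := (mem_Zs.1 (mem_As.1 h1).1).2.2
    omega
  have hL : SameL K R R' s (fun _ => False) := by
    refine ⟨fun w _ _ _ => g4 w, fun w _ _ hw => by rw [g4 w]; exact hw,
      fun w _ _ hw => hLA w hw, fun w hwK _ hw => ?_, fun w _ hw => hw.elim⟩
    by_cases h1 : s ≤ R.lo w
    · rw [hTA w h1]
      exact hw
    · rw [hAZ w (mem_Zs.2 ⟨hwK, by omega, hw⟩)]
      exact hsm
  have hZ : Zs K R' s = Zs K R s := by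
    ext w
    rw [hL.zs]
    exact ⟨fun h => h.1, fun h => ⟨h, fun h => h⟩⟩
  have hT : Ts K R' s = Ts K R s := by
    ext w
    rw [hL.ts]
    exact ⟨fun h => h.elim id (fun h => h.2.elim), fun h => Or.inl h⟩
  have hNt : ∀ p, R'.N (Ts K R' s) p = R.N (Ts K R s) p := fun p => by
    rw [hT]
    unfold Rep.N
    refine congrArg Finset.card (Finset.filter_congr fun w hw => ?_)
    unfold Rep.Cr
    rw [g4, hTA w (mem_Ts.1 hw).2]
  have hua : ∀ p, ua K R' p = ua K R p := fun p => by
    unfold ua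
    refine congrArg Finset.card (Finset.filter_congr fun b _ => ?_)
    rw [g4]
  have hU : ∀ w, s ≤ R.lo w → R'.U K w = R.U K w := fun w hw => by
    rw [U_eq_ua, U_eq_ua, hua, hTA w hw]
  have hcr : ∀ w, s ≤ R.lo w → ∀ p, R'.Cr w p → R.Cr w p := by
    rintro w hw p ⟨h1, h2⟩
    rw [g4] at h1
    rw [hTA w hw] at h2
    exact ⟨h1, h2⟩
  have hB : Bs K R' s = Bs K R s := by
    ext t
    rw [mem_Bs, mem_Bs, g4]
  have hA0 : As K R' s m = ∅ := by
    rw [Finset.eq_empty_iff_forall_notMem]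
    intro w hw
    obtain ⟨h1, h2⟩ := mem_As.1 hw
    rw [hZ] at h1
    have := hAZ w h1
    omega
  refine ⟨r', R', g1, g2, ?_, g4, g5, hAZ, fun w => by rw [hZ], fun w => by rw [hT], ?_⟩
  · have h2 := h.yn.u
    have h3 := h.yn.r
    have h4 := h.yn.a
    rw [h4, h2, h3] at g3
    have h5 : σ.a * (ua K R M + σ.r) = σ.a * ua K R M + σ.r * σ.a := by ring
    omega
  · exact
      { BW := h.BW
        gL := by rw [hL.ls]; exact h.gL
        lf := hL.lf h.lf
        nl := by rw [hL.ul h.lf.le]; exact h.nl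
        yd :=
          { gT := by rw [hT]; exact hY.gT
            ir := fun a ha b hb h1 h2 => hY.ir a ha b hb (by rw [← g4]; exact h1)
              (by rw [← g4, ← g4]; exact h2)
            sm := hsm
            mM := le_rfl
            hz := fun w hw => Or.inl (hAZ w (by rw [hZ] at hw; exact hw))
            zM := fun p h1 h2 => by
              rw [hNt, hua]
              have := hY.zm p h1 h2
              omega
            zm := fun p h1 h2 => by rw [hNt, hua]; exact hY.zm p h1 h2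
            fr := fun t ht h1 h2 p h3 h4 => by
              rw [g4] at h1 h2
              rw [hNt, hU t (by omega)]
              exact hY.fr t ht h1 h2 p (hcr t (by omega) p h3) h4
            ba := fun t ht h1 p h3 h4 => by
              rw [g4] at h1
              rw [hNt, hU t (by omega)]
              exact hY.ba t ht h1 p (hcr t (by omega) p h3) h4
            wz := fun q h1 h2 => by omega
            ws := fun t _ h1 h2 => by omega }
        yn :=
          { o := by rw [hZ]; exact h.yn.o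
            a := by rw [hA0]; rfl
            u := by rw [hua]; exact h.yn.u
            r := by rw [hua, h.yn.u]; rfl
            μ := by rw [hua]; exact h.yn.μ
            β := by rw [hB]; exact h.yn.β }
        c0 := fun _ => rfl }

end Pool.Agent.OCN.YC
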