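import Pool.Agent.Lib_helper16.OCN.YcG0

/-!
# MP_aeb124_co: the class Yc, the answers
-/

set_option autoImplicit false

namespace Pool.Agent.OCN.YC

variable {V : Type} [Fintype V] {B W nl : ℕ} {K : Finset V} {R R' : Rep V} {s0 s m M : ℤ}
  {δ : V → ℕ} {σ : St} {rr : V → V → Prop} {x y z : V}

/-- there is an answer -/
def RpG (B W nl : ℕ) (rr : V → V → Prop) (x y : V) (σ : St) : Prop :=
  ∃ σ' I, Att W σ σ' I ∧ Got B W nl rr x y σ' I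

theorem got_of {r' : V → V → Prop} {σ' : St} {I : ℕ} (g1 : Loc r' K R')
    (g2 : ∀ a b, rr a b → r' a b) (g3 : r' x y) (g4 : newP rr r' + I ≤ B)
    (g5 : Yc B W nl K R' σ') : Got B W nl rr x y σ' I := ⟨r', K, R', g1, g2, g3, g4, g5⟩

/-- left replies -/
theorem Dt.aL (h : Dt B W nl K R s0 s m M δ σ) (hr : Loc rr K R) (hok : Ok W σ) (hxK : x ∈ K)
    (hyK : y ∈ K) (hxy : x ≠ y) (h1 : ¬ R.rel x y) (h2 : ¬ R.rel y x) (hz : z ∈ Zs K R s)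
    (hc : x = z ∨ (x ∈ Ls K R s ∧ y ∈ Ls K R s)) : RpG B W nl rr x y σ := by
  classical
  obtain ⟨r', R', s0', g1, g2, g3, g4, g5, g6, g7⟩ := left_ans h.lf hr hxK hyK hxy h1 h2 hz hc
  have ho := h.yn.o
  obtain ⟨o, a, r, u, μ, ν, cb, β⟩ := σ
  simp only at ho
  have hZpos : 0 < (Zs K R s).card := Finset.card_pos.2 ⟨z, hz⟩
  obtain ⟨o, rfl⟩ : ∃ o', o = o' + 1 := ⟨o - 1, by omega⟩
  have hsm := h.yd.sm
  have hmM := h.yd.mM
  rcases h.hz hz with ⟨k1, k2⟩ | ⟨k1, k2, k3, k4⟩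
  · have ha : a ≤ o := by
      have h3 := h.yn.a
      simp only at h3
      have h4 : As K R s m ⊆ (Zs K R s).erase z := by
        intro w hw
        obtain ⟨h5, h6⟩ := mem_As.1 hw
        rw [Finset.mem_erase]
        refine ⟨?_, h5⟩
        rintro rfl
        omega
      have h5 := Finset.card_le_card h4
      rw [Finset.card_erase_of_mem hz] at h5
      omega
    refine ⟨_, _, Att.lR o a r u μ ν cb β ha, got_of g1 g2 g3 ?_ ?_⟩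
    · have h3 := hok.eR
      simp only at h3 k2
      omega
    · exact h.left hz g7 g4 g5 rfl (Or.inr ⟨k1.le, rfl⟩) rfl rfl rfl rfl rfl rfl
  · simp only at k3 k4
    obtain ⟨a, rfl⟩ : ∃ a', a = a' + 1 := ⟨a - 1, by omega⟩
    refine ⟨_, _, Att.lA o a r u μ ν cb β, got_of g1 g2 g3 ?_ ?_⟩
    · have h3 := hok.eA (by simp only; omega)
      simp only at h3
      omega
    · exact h.left hz g7 g4 g5 rfl (Or.inl ⟨k1, rfl⟩) rfl rfl rfl rfl rfl rfl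

/-- a left element attacks an undecided one -/
theorem Dt.aH (h : Dt B W nl K R s0 s m M δ σ) (hr : Loc rr K R) (hx : x ∈ Ls K R s)
    (hz : z ∈ Zs K R s) : RpG B W nl rr x z σ := by
  classical
  have ho := h.yn.o
  obtain ⟨o, a, r, u, μ, ν, cb, β⟩ := σ
  simp only at ho
  have hZpos : 0 < (Zs K R s).card := Finset.card_pos.2 ⟨z, hz⟩
  obtain ⟨o, rfl⟩ : ∃ o', o = o' + 1 := ⟨o - 1, by omega⟩
  rcases h.hz hz with ⟨k1, k2⟩ | ⟨k1, k2, k3, k4⟩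
  · have ha : a ≤ o := by
      have h3 := h.yn.a
      simp only at h3
      have h4 : As K R s m ⊆ (Zs K R s).erase z := by
        intro w hw
        obtain ⟨h5, h6⟩ := mem_As.1 hw
        rw [Finset.mem_erase]
        refine ⟨?_, h5⟩
        rintro rfl
        omega
      have h5 := Finset.card_le_card h4
      rw [Finset.card_erase_of_mem hz] at h5
      omega
    obtain ⟨r', R', δ', g1, g2, g3, g4, g5, g6, g7⟩ := h.yd.attLZ h.gL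
      (σ' := ⟨o, a, r, u, μ, ν, cb, 0 ::ₘ β⟩) h.yn hr hz hx rfl (Or.inr ⟨k1.le, rfl⟩) rfl rfl
      rfl rfl
    exact ⟨_, _, Att.hR o a r u μ ν cb β ha, got_of g1 g2 g3 g4 (h.right g5 g6 g7)⟩
  · simp only at k3 k4
    obtain ⟨a, rfl⟩ : ∃ a', a = a' + 1 := ⟨a - 1, by omega⟩
    obtain ⟨r', R', δ', g1, g2, g3, g4, g5, g6, g7⟩ := h.yd.attLZ h.gL
      (σ' := ⟨o, a, r, u, μ, ν, cb, 0 ::ₘ β⟩) h.yn hr hz hx rfl (Or.inl ⟨k1, rfl⟩) rfl rfl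
      rfl rfl
    exact ⟨_, _, Att.hA o a r u μ ν cb β, got_of g1 g2 g3 g4 (h.right g5 g6 g7)⟩

/-- the numbers of the base elements -/
theorem Dt.beta (h : Dt B W nl K R s0 s m M δ σ) (hx : x ∈ Bs K R s) :
    ∃ γ, σ.β = δ x ::ₘ γ := by
  classical
  rw [← h.yn.β]
  refine ⟨((Bs K R s).erase x).val.map δ, ?_⟩
  have h2 : (Bs K R s).val = x ::ₘ ((Bs K R s).erase x).val := by
    rw [Finset.erase_val, Multiset.cons_erase hx]
  rw [h2, Multiset.map_cons]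

/-- the exchange in the main part, fresh attacker -/
theorem Dt.exf (h : Dt B W nl K R s0 s m M δ σ) (hr : Loc rr K R)
    {p : ℤ} (hsp : s ≤ p) (hpm : p ≤ m) (hx : x ∈ Ts K R s) (hyK : y ∈ K) (hxy : x ≠ y)
    (hz : z ∈ Zs K R s) (hy0 : y = z ∨ y ∈ Ts K R s) (hy : y = z ∨ R.hi y ≤ M)
    (cx : R.Cr x p) (cy : R.Cr y p) (hxs : s < R.lo x) {σ' : St} (ho : σ'.o + 1 = σ.o)
    (ha : (m < R.hi z ∧ σ'.a + 1 = σ.a) ∨ (R.hi z ≤ m ∧ σ'.a = σ.a)) (hr' : σ'.r = σ.r)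
    (hu : σ'.u = σ.u) (hμ : σ'.μ = σ.μ + 1) (hν : σ'.ν ≤ σ.ν)
    (hν' : R.hi z = M ∨ σ'.ν + 1 ≤ σ.ν) (hcb : σ'.cb = σ.cb) (hβ : σ'.β = σ.β) :
    ∃ (r' : V → V → Prop) (R' : Rep V), Loc r' K R' ∧ (∀ a b, rr a b → r' a b) ∧ r' x y ∧
      newP rr r' + σ.o ≤ B ∧ Yc B W nl K R' σ' := by
  have hsm := h.yd.sm
  have hmM := h.yd.mM
  obtain ⟨hxK, _⟩ := mem_Ts.1 hx
  have hxz : x ≠ z := by
    rintro rfl
    have := (mem_Zs.1 hz).2.1
    omega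
  have hpz : p ≤ R.hi z := by
    rcases h.yd.hz z hz with h1 | h1 <;> omega
  obtain ⟨r', R', g1, g2, g3, g4, g5⟩ := op_exg hr hsp hxK hyK hxz hxy cx cy hz hpz hy0
  have ho' := h.yn.o
  have hN := N_main h.yd hsp hpm
  have hY := h.yd.exgM g5 hpm hx hy hν hν'
  have hfr := h.yd.fr x hxK hxs (by have := cx.1; omega) p cx hpm
  have hxB : x ∉ Bs K R s := fun h1 => by
    have := (mem_Bs.1 h1).2
    omega
  refine ⟨r', R', g1, g2, g3, by omega, h.right g5.sameL (by rw [hcb]; exact hY)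
    (h.yd.exgMn h.yn g5 hpm hx ho ha hr' hu hμ (Or.inl ⟨hxB, hβ⟩))⟩

/-- the exchange in the main part, the attacker is a base element -/
theorem Dt.exb (h : Dt B W nl K R s0 s m M δ σ) (hr : Loc rr K R)
    {p : ℤ} (hsp : s ≤ p) (hpm : p ≤ m) (hx : x ∈ Bs K R s) (hyK : y ∈ K) (hxy : x ≠ y)
    (hz : z ∈ Zs K R s) (hy0 : y = z ∨ y ∈ Ts K R s) (hy : y = z ∨ R.hi y ≤ M)
    (cx : R.Cr x p) (cy : R.Cr y p) {γ : Multiset ℕ} (hγ : σ.β = δ x ::ₘ γ) {σ' : St}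
    (ho : σ'.o + 1 = σ.o)
    (ha : (m < R.hi z ∧ σ'.a + 1 = σ.a) ∨ (R.hi z ≤ m ∧ σ'.a = σ.a)) (hr' : σ'.r = σ.r)
    (hu : σ'.u = σ.u) (hμ : σ'.μ = σ.μ + 1) (hν : σ'.ν ≤ σ.ν)
    (hν' : R.hi z = M ∨ σ'.ν + 1 ≤ σ.ν) (hcb : σ'.cb = σ.cb) (hβ : σ'.β = 0 ::ₘ γ) :
    ∃ (r' : V → V → Prop) (R' : Rep V), Loc r' K R' ∧ (∀ a b, rr a b → r' a b) ∧ r' x y ∧
      newP rr r' + σ.o ≤ B + 1 + δ x ∧ Yc B W nl K R' σ' := by
  have hsm := h.yd.sm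
  have hmM := h.yd.mM
  obtain ⟨hxK, hxlo⟩ := mem_Bs.1 hx
  have hxz : x ≠ z := by
    rintro rfl
    have := (mem_Zs.1 hz).2.1
    omega
  have hpz : p ≤ R.hi z := by
    rcases h.yd.hz z hz with h1 | h1 <;> omega
  have hxT : x ∈ Ts K R s := mem_Ts.2 ⟨hxK, hxlo.ge⟩
  obtain ⟨r', R', g1, g2, g3, g4, g5⟩ := op_exg hr hsp hxK hyK hxz hxy cx cy hz hpz hy0
  have ho' := h.yn.o
  have hN := N_main h.yd hsp hpm
  have hY := h.yd.exgM g5 hpm hxT hy hν hν'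
  have hba := h.yd.ba x hxK hxlo p cx hpm
  refine ⟨r', R', g1, g2, g3, by omega, h.right g5.sameL (by rw [hcb]; exact hY)
    (h.yd.exgMn h.yn g5 hpm hxT ho ha hr' hu hμ (Or.inr ⟨hx, γ, hγ, hβ⟩))⟩

theorem Dt.a_zero (h : Dt B W nl K R s0 s m m δ σ) : σ.a = 0 := by
  rw [← h.yn.a, Finset.card_eq_zero, Finset.eq_empty_iff_forall_notMem]
  intro w hw
  obtain ⟨h5, h6⟩ := mem_As.1 hw
  rcases h.yd.hz w h5 with h7 | h7 <;> omega

/-- the exchange in the main part, the window is closed or `z` is unfinished -/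
theorem Dt.aM (h : Dt B W nl K R s0 s m M δ σ) (hr : Loc rr K R) (hok : ∀ j ∈ σ.β, j + 1 ≤ σ.o)
    {p : ℤ} (hsp : s ≤ p) (hpm : p ≤ m) (hx : x ∈ Ts K R s) (hyK : y ∈ K) (hxy : x ≠ y)
    (hz : z ∈ Zs K R s) (hy0 : y = z ∨ y ∈ Ts K R s) (hy : y = z ∨ R.hi y ≤ M)
    (cx : R.Cr x p) (cy : R.Cr y p) (hM : R.hi z = M) : RpG B W nl rr x y σ := by
  classical
  have hsm := h.yd.sm
  have hmM := h.yd.mM
  obtain ⟨hxK, hxs⟩ := mem_Ts.1 hx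
  have ho := h.yn.o
  have hZpos : 0 < (Zs K R s).card := Finset.card_pos.2 ⟨z, hz⟩
  have hac : (m < R.hi z ∧ ∃ a, σ.a = a + 1) ∨ (R.hi z ≤ m ∧ σ.a = 0) := by
    rcases h.hz hz with ⟨k1, k2⟩ | ⟨k1, k2, k3, k4⟩
    · right
      refine ⟨k1.le, ?_⟩
      have : M = m := by omega
      subst this
      exact h.a_zero
    · exact Or.inl ⟨k1, σ.a - 1, by omega⟩
  obtain ⟨o, a, r, u, μ, ν, cb, β⟩ := σ
  simp only at ho hok hac
  obtain ⟨o, rfl⟩ : ∃ o', o = o' + 1 := ⟨o - 1, by omega⟩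
  by_cases hxB : x ∈ Bs K R s
  · obtain ⟨γ, hγ⟩ := h.beta hxB
    simp only at hγ
    have hj := hok (δ x) (by rw [hγ]; exact Multiset.mem_cons_self _ _)
    subst hγ
    rcases hac with ⟨k1, a, rfl⟩ | ⟨k1, rfl⟩
    · obtain ⟨r', R', g1, g2, g3, g4, g5⟩ := h.exb hr hsp hpm hxB hyK hxy hz hy0 hy cx cy rfl
        (σ' := ⟨o, a, r, u, μ + 1, ν, cb, 0 ::ₘ γ⟩) rfl (Or.inl ⟨k1, rfl⟩) rfl rfl rfl le_rfl
        (Or.inl hM) rfl rfl
      simp only at g4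
      exact ⟨_, _, Att.bA o a r u μ ν cb (δ x) γ, got_of g1 g2 g3 (by omega) g5⟩
    · obtain ⟨r', R', g1, g2, g3, g4, g5⟩ := h.exb hr hsp hpm hxB hyK hxy hz hy0 hy cx cy rfl
        (σ' := ⟨o, 0, r, u, μ + 1, ν, cb, 0 ::ₘ γ⟩) rfl (Or.inr ⟨k1, rfl⟩) rfl rfl rfl le_rfl
        (Or.inl hM) rfl rfl
      simp only at g4
      exact ⟨_, _, Att.b0 o r u μ ν cb (δ x) γ, got_of g1 g2 g3 (by omega) g5⟩
  · have hxlo : s < R.lo x := by
      rcases lt_or_eq_of_le hxs with h3 | h3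
      · exact h3
      · exact absurd (mem_Bs.2 ⟨hxK, h3.symm⟩) hxB
    rcases hac with ⟨k1, a, rfl⟩ | ⟨k1, rfl⟩
    · obtain ⟨r', R', g1, g2, g3, g4, g5⟩ := h.exf hr hsp hpm hx hyK hxy hz hy0 hy cx cy hxlo
        (σ' := ⟨o, a, r, u, μ + 1, ν, cb, β⟩) rfl (Or.inl ⟨k1, rfl⟩) rfl rfl rfl le_rfl
        (Or.inl hM) rfl rfl
      exact ⟨_, _, Att.fA o a r u μ ν cb β, got_of g1 g2 g3 g4 g5⟩
    · obtain ⟨r', R', g1, g2, g3, g4, g5⟩ := h.exf hr hsp hpm hx hyK hxy hz hy0 hy cx cy hxlo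
        (σ' := ⟨o, 0, r, u, μ + 1, ν, cb, β⟩) rfl (Or.inr ⟨k1, rfl⟩) rfl rfl rfl le_rfl
        (Or.inl hM) rfl rfl
      exact ⟨_, _, Att.f0 o r u μ ν cb β, got_of g1 g2 g3 g4 g5⟩

/-- a right element attacks a finished element, the window is open -/
theorem Dt.aR (h : Dt B W nl K R s0 s m M δ σ) (hr : Loc rr K R) (hok : Ok W σ) {p : ℤ}
    (hsp : s ≤ p) (hpm : p ≤ m) (hx : x ∈ Ts K R s) (hz : z ∈ Zs K R s) (cx : R.Cr x p)
    (hm : R.hi z = m) : RpG B W nl rr x z σ := by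
  classical
  have hsm := h.yd.sm
  have hmM := h.yd.mM
  obtain ⟨hxK, hxs⟩ := mem_Ts.1 hx
  obtain ⟨hzK, hz1, hz2⟩ := mem_Zs.1 hz
  have hxz : x ≠ z := by
    rintro rfl
    omega
  have ho := h.yn.o
  have hZpos : 0 < (Zs K R s).card := Finset.card_pos.2 ⟨z, hz⟩
  obtain ⟨r1, R1, c1, c2, c3, c4, c5, c6, c7, c8, c9⟩ := h.close hr
  have hx1 : x ∈ Ts K R1 s := (c8 x).2 hx
  have hz1' : z ∈ Zs K R1 s := (c7 z).2 hz
  have hxA : x ∉ As K R s m := fun h1 => by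
    have := (mem_Zs.1 (mem_As.1 h1).1).2.1
    omega
  have cx1 : R1.Cr x p := by
    unfold Rep.Cr
    rw [c4, c5 x hxA]
    exact cx
  have cz1 : R1.Cr z p := by
    unfold Rep.Cr
    rw [c4, c6 z hz]
    exact ⟨by omega, hpm⟩
  have hw1 := hok.w1
  have hw2 := hok.w2
  obtain ⟨o, a, r, u, μ, ν, cb, β⟩ := σ
  simp only at ho c3 c9 hw1 hw2
  obtain ⟨o, rfl⟩ : ∃ o', o = o' + 1 := ⟨o - 1, by omega⟩
  by_cases hxB : x ∈ Bs K R s
  · obtain ⟨γ, hγ⟩ := h.beta hxB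
    simp only at hγ
    subst hγ
    have hj := hok.f1 (δ x) (Multiset.mem_cons_self _ _)
    simp only at hj
    have hxB1 : x ∈ Bs K R1 s := by
      rw [mem_Bs, c4]
      exact mem_Bs.1 hxB
    by_cases hc : r * a + δ x ≤ o
    · obtain ⟨r', R', g1, g2, g3, g4, g5⟩ := c9.exb c1 hsp hpm hxB1 hzK hxz hz1' (Or.inl rfl)
        (Or.inl rfl) cx1 cz1 rfl
        (σ' := ⟨o, 0, 0, u, μ + 1, ν, cb, 0 ::ₘ γ⟩) rfl (Or.inr ⟨(c6 z hz).le, rfl⟩) rfl rfl rfl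
        le_rfl (Or.inl (c6 z hz)) rfl rfl
      simp only at g4
      have h2 := newP_trans (r := rr) (r' := r1) (r'' := r')
      exact ⟨_, _, Att.bC o a r u μ ν cb (δ x) γ hc,
        got_of g1 (fun a b hab => g2 a b (c2 a b hab)) g3 (by omega) g5⟩
    · have hν : 1 ≤ ν := by
        rcases hw2 with h3 | h3
        · exact h3
        · have := h3 (δ x) (Multiset.mem_cons_self _ _)
          omega
      obtain ⟨ν, rfl⟩ : ∃ ν', ν = ν' + 1 := ⟨ν - 1, by omega⟩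
      have cz : R.Cr z p := ⟨by omega, by omega⟩
      obtain ⟨r', R', g1, g2, g3, g4, g5⟩ := h.exb hr hsp hpm hxB hzK hxz hz (Or.inl rfl)
        (Or.inl rfl) cx cz rfl
        (σ' := ⟨o, a, r, u, μ + 1, ν, cb, 0 ::ₘ γ⟩) rfl (Or.inr ⟨hm.le, rfl⟩) rfl rfl rfl
        (Nat.le_succ ν) (Or.inr le_rfl) rfl rfl
      simp only at g4
      exact ⟨_, _, Att.bR o a r u μ ν cb (δ x) γ (by omega), got_of g1 g2 g3 (by omega) g5⟩
  · have hxlo : s < R.lo x := by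
      rcases lt_or_eq_of_le hxs with h3 | h3
      · exact h3
      · exact absurd (mem_Bs.2 ⟨hxK, h3.symm⟩) hxB
    obtain ⟨r', R', g1, g2, g3, g4, g5⟩ := c9.exf c1 hsp hpm hx1 hzK hxz hz1' (Or.inl rfl)
      (Or.inl rfl) cx1 cz1 (by rw [c4]; exact hxlo)
      (σ' := ⟨o, 0, 0, u, μ + 1, ν, cb, β⟩) rfl (Or.inr ⟨(c6 z hz).le, rfl⟩) rfl rfl rfl
      le_rfl (Or.inl (c6 z hz)) rfl rfl
    simp only at g4
    have h2 := newP_trans (r := rr) (r' := r1) (r'' := r')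
    exact ⟨_, _, Att.fC o a r u μ ν cb β (by omega),
      got_of g1 (fun a b hab => g2 a b (c2 a b hab)) g3 (by omega) g5⟩

/-- a start of the window attacks -/
theorem Dt.aW (h : Dt B W nl K R s0 s m M δ σ) (hr : Loc rr K R) (hok : Ok W σ) {p : ℤ}
    (hmp : m < p) (hpM : p ≤ M) (hx : x ∈ Ts K R s) (hxm : m < R.lo x) (hyK : y ∈ K)
    (hxy : x ≠ y) (hz : z ∈ Zs K R s) (hzM : R.hi z = M) (hy0 : y = z ∨ y ∈ Ts K R s)
    (hy : y = z ∨ (R.lo y ≤ m ∧ R.hi y ≤ M)) (cx : R.Cr x p) (cy : R.Cr y p) :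
    RpG B W nl rr x y σ := by
  classical
  have hsm := h.yd.sm
  have hmM := h.yd.mM
  obtain ⟨hxK, hxs⟩ := mem_Ts.1 hx
  obtain ⟨hzK, hz1, hz2⟩ := mem_Zs.1 hz
  have hxz : x ≠ z := by
    rintro rfl
    omega
  obtain ⟨r', R', g1, g2, g3, g4, g5⟩ := op_exg hr (by omega) hxK hyK hxz hxy cx cy hz
    (by omega) hy0
  have ho := h.yn.o
  have haa := h.yn.a
  have hru := h.yn.r
  have hum := h.yn.u
  have hN := N_win h.yd hmp hpM
  have hzA : z ∈ As K R s m := mem_As.2 ⟨hz, by omega⟩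
  have hAp : 0 < (As K R s m).card := Finset.card_pos.2 ⟨z, hzA⟩
  have hZpos : 0 < (Zs K R s).card := Finset.card_pos.2 ⟨z, hz⟩
  have hws := h.yd.ws x hxK hxm (by have := cx.1; omega) p cx hpM
  have hw3 := hok.w3
  obtain ⟨o, a, r, u, μ, ν, cb, β⟩ := σ
  simp only at ho haa hru hum hws hw3
  obtain ⟨o, rfl⟩ : ∃ o', o = o' + 1 := ⟨o - 1, by omega⟩
  obtain ⟨a, rfl⟩ : ∃ a', a = a' + 1 := ⟨a - 1, by omega⟩
  by_cases hcb : cb = 0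
  · subst hcb
    have hY := h.yd.exgW g5 hmp hpM hxm hzM hy (Or.inl rfl)
    refine ⟨_, _, Att.ws o a r u μ ν β, got_of g1 g2 g3 (by omega)
      (h.right (σ' := ⟨o, a, r + 1, u + 1, μ, ν, 0, β⟩) g5.sameL hY
        (h.yd.exgWn h.yn g5 hmp hpM hxm hzM hy rfl rfl rfl rfl rfl rfl))⟩
  · obtain ⟨k1, k2⟩ := hw3 (by omega) (by omega)
    subst k1
    have hY := h.yd.exgW g5 hmp hpM hxm hzM hy (Or.inr (by omega))
    refine ⟨_, _, Att.wl o a u μ ν cb β (by omega), got_of g1 g2 g3 (by omega)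
      (h.right (σ' := ⟨o, a, 2, u + 1, μ, ν, 0, β⟩) g5.sameL hY
        (h.yd.exgWn h.yn g5 hmp hpM hxm hzM hy rfl rfl rfl rfl rfl rfl))⟩

end Pool.Agent.OCN.YC
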