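import Pool.Agent.Lib_helper16.OCN.YcG1

/-!
# MP_aeb124_co: the class Yc, the answers (closings)
-/

set_option autoImplicit false

namespace Pool.Agent.OCN.YC

variable {V : Type} [Fintype V] {B W nl : ℕ} {K : Finset V} {R R' : Rep V} {s0 s m M : ℤ}
  {δ : V → ℕ} {σ : St} {rr : V → V → Prop} {x y z : V}

/-- attack on a right element which starts after `m`: the window is closed -/
theorem Dt.a4 (h : Dt B W nl K R s0 s m M δ σ) (hr : Loc rr K R) (hok : Ok W σ)
    (hx : x ∈ Ts K R s) (hy : y ∈ Ts K R s) (hxy : x ≠ y) (h1 : ¬ R.rel x y) (h2 : ¬ R.rel y x)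
    (hym : m < R.lo y) : RpG B W nl rr x y σ := by
  classical
  have hsm := h.yd.sm
  have hmM := h.yd.mM
  have ho := h.yn.o
  obtain ⟨hxK, hxs⟩ := mem_Ts.1 hx
  obtain ⟨hyK, hys⟩ := mem_Ts.1 hy
  obtain ⟨q, hq1, hq2⟩ := R.common h1 h2
  obtain ⟨r1, R1, c1, c2, c3, c4, c5, c6, c7, c8, c9⟩ := h.close hr
  have hT : ∀ w, s ≤ R.lo w → R1.hi w = R.hi w := fun w hw => c5 w fun h1 => by
    have := (mem_Zs.1 (mem_As.1 h1).1).2.1
    omega
  have hq1' : R1.Cr x q := by
    unfold Rep.Cr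
    rw [c4, hT x hxs]
    exact hq1
  have hq2' : R1.Cr y q := by
    unfold Rep.Cr
    rw [c4, hT y hys]
    exact hq2
  have hY1 := c9.yd
  simp only at hY1
  obtain ⟨r', R', g1, g2, g3, g4, g5, g6, g7, g8, g9, g10, g11, g12⟩ :=
    hY1.closing c1 (by have := hq2.1; omega) hxK hq1' ((c8 y).2 hy) hq2' hxy (Or.inr rfl)
  have hD := D_high hY1 (v := y) (by rw [c4]; exact hym)
  have hgL := c9.gL
  have hon := c9.yn.o
  simp only at hon
  have hw1 := hok.w1
  have hn := c9.yn
  rw [c4] at g8 g9 g10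
  have e1 : (if R.lo y ≤ m then 1 else 0) = 0 := if_neg (by omega)
  have e2 : (if R.lo y ≤ s then 1 else 0) = 0 := if_neg (by omega)
  rw [e1] at g8
  rw [e2] at g10
  have hZ : Zs K R' s = Zs K R1 s := by
    ext w
    exact g6 w
  have hA : As K R' s m = ∅ := by
    rw [Finset.eq_empty_iff_forall_notMem]
    intro w hw
    obtain ⟨h5, h6⟩ := mem_As.1 hw
    rw [hZ] at h5
    rw [g7 w h5] at h6
    rcases hY1.hz w h5 with h7 | h7 <;> omega
  have hB : Bs K R' s = Bs K R1 s := by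
    ext w
    rw [g11]
    refine ⟨fun h5 => h5.1, fun h5 => ⟨h5, ?_⟩⟩
    rintro rfl
    have h6 := (mem_Bs.1 h5).2
    rw [c4] at h6
    omega
  have h6 := newP_trans (r := rr) (r' := r1) (r'' := r')
  obtain ⟨o, a, r, u, μ, ν, cb, β⟩ := σ
  simp only at c3 hw1 hon
  refine ⟨_, _, Att.r4 o a r u μ ν cb β (by omega),
    got_of g1 (fun a b hab => g2 a b (c2 a b hab)) (g3 x hxK (Or.inl rfl)) (by omega)
    (c9.right g12 (m' := m) (M' := m) (δ' := δ) g5 ?_)⟩
  exact
    { o := by rw [hZ]; exact hn.o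
      a := by rw [hA]; rfl
      u := by rw [g8]; exact hn.u
      r := by rw [g8]; exact hn.r
      μ := by rw [g10]; exact hn.μ
      β := by rw [hB]; exact hn.β }

/-- attack on a long right element -/
theorem Dt.a5 (h : Dt B W nl K R s0 s m M δ σ) (hr : Loc rr K R) (ho1 : 1 ≤ σ.o)
    (hx : x ∈ Ts K R s) (hy : y ∈ Ts K R s) (hxy : x ≠ y) (h1 : ¬ R.rel x y) (h2 : ¬ R.rel y x)
    (hym : R.lo y ≤ m) (hyM : M ≤ R.hi y) : RpG B W nl rr x y σ := by
  classical
  have hsm := h.yd.sm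
  have hmM := h.yd.mM
  obtain ⟨hxK, hxs⟩ := mem_Ts.1 hx
  obtain ⟨hyK, hys⟩ := mem_Ts.1 hy
  -- the gap
  obtain ⟨q, x', hq, hx'K, hx'q, hyq, hx'y, hxq⟩ : ∃ (q : ℤ) (x' : V), M ≤ q ∧ x' ∈ K ∧
      R.Cr x' q ∧ R.Cr y q ∧ x' ≠ y ∧ (x = x' ∨ R.hi x < q) := by
    have hrel : R.lo x ≤ R.hi y := by
      unfold Rep.rel at h2
      omega
    have hxle := R.le x
    by_cases h3 : R.lo x ≤ M
    · by_cases h4 : M ≤ R.hi x
      · exact ⟨M, x, le_rfl, hxK, ⟨h3, h4⟩, ⟨by omega, hyM⟩, hxy, Or.inl rfl⟩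
      · obtain ⟨z, hz, hzM⟩ : ∃ z ∈ Zs K R s, R.hi z = M := by
          by_cases ha : σ.a = 0
          · have hM := h.c0 ha
            have hZ : 0 < (Zs K R s).card := by
              rw [h.yn.o]
              exact ho1
            obtain ⟨z, hz⟩ := Finset.card_pos.1 hZ
            exact ⟨z, hz, by rcases h.yd.hz z hz with h5 | h5 <;> omega⟩
          · have hA : 0 < (As K R s m).card := by
              rw [h.yn.a]
              omega
            obtain ⟨z, hz⟩ := Finset.card_pos.1 hA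
            obtain ⟨h5, h6⟩ := mem_As.1 hz
            exact ⟨z, h5, by rcases h.yd.hz z h5 with h7 | h7 <;> omega⟩
        obtain ⟨hzK, hz1, hz2⟩ := mem_Zs.1 hz
        refine ⟨M, z, le_rfl, hzK, ⟨by omega, hzM.ge⟩, ⟨by omega, hyM⟩, ?_, Or.inr (by omega)⟩
        rintro rfl
        omega
    · exact ⟨R.lo x, x, by omega, hxK, ⟨le_rfl, hxle⟩, ⟨by omega, hrel⟩, hxy, Or.inl rfl⟩
  obtain ⟨r', R', g1, g2, g3, g4, g5, g6, g7, g8, g9, g10, g11, g12⟩ :=
    h.yd.closing hr hq hx'K hx'q hy hyq hx'y (Or.inl hym)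
  have hD := D_right (K := K) (R := R) (v := y) hys
  have hgL := h.gL
  have hn := h.yn
  have e1 : (if R.lo y ≤ m then 1 else 0) = 1 := if_pos hym
  have e3 : (if R.lo y ≤ M then 1 else 0) = 1 := if_pos (by omega)
  rw [e1] at g8
  rw [e3] at g9
  have hZ : Zs K R' s = Zs K R s := by
    ext w
    exact g6 w
  have hA : As K R' s m = As K R s m := by
    ext w
    rw [mem_As, mem_As, hZ]
    constructor
    · rintro ⟨h5, h6⟩
      exact ⟨h5, by rw [← g7 w h5]; exact h6⟩
    · rintro ⟨h5, h6⟩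
      exact ⟨h5, by rw [g7 w h5]; exact h6⟩
  have hpair : r' x y := by
    rcases hxq with h5 | h5
    · exact g3 x hxK (Or.inl h5)
    · exact g3 x hxK (Or.inr h5)
  obtain ⟨o, a, r, u, μ, ν, cb, β⟩ := σ
  have hnu := hn.u
  have hnr := hn.r
  have hnμ := hn.μ
  simp only at hnu hnr hnμ
  by_cases hyB : y ∈ Bs K R s
  · have hylo := (mem_Bs.1 hyB).2
    have e2 : (if R.lo y ≤ s then 1 else 0) = 1 := if_pos (by omega)
    rw [e2] at g10
    have hB : Bs K R' s = (Bs K R s).erase y := by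
      ext w
      rw [g11, Finset.mem_erase]
      exact and_comm
    have h2' : (Bs K R s).val = y ::ₘ ((Bs K R s).erase y).val := by
      rw [Finset.erase_val, Multiset.cons_erase hyB]
    have hβ := hn.β
    rw [h2', Multiset.map_cons] at hβ
    simp only at hβ
    subst hβ
    refine ⟨_, _, Att.r5b o a r u μ ν cb (δ y) _, got_of g1 g2 hpair (by omega)
      (h.right g12 (m' := m) (M' := M) (δ' := δ) g5 ?_)⟩
    exact
      { o := by rw [hZ]; exact hn.o
        a := by rw [hA]; exact hn.a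
        u := by rw [g8, hnu]
        r := by simp only; omega
        μ := by simp only; omega
        β := by rw [hB] }
  · have hylo : s < R.lo y := by
      rcases lt_or_eq_of_le hys with h3 | h3
      · exact h3
      · exact absurd (mem_Bs.2 ⟨hyK, h3.symm⟩) hyB
    have e2 : (if R.lo y ≤ s then 1 else 0) = 0 := if_neg (by omega)
    rw [e2] at g10
    have hB : Bs K R' s = Bs K R s := by
      ext w
      rw [g11]
      refine ⟨fun h5 => h5.1, fun h5 => ⟨h5, ?_⟩⟩
      rintro rfl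
      exact hyB h5
    have hμ : 1 ≤ μ := by
      have h5 : ua K R m + 1 ≤ ua K R s := by
        unfold ua
        have h6 : insert y (K.filter fun b => m < R.lo b) ⊆ K.filter fun b => s < R.lo b := by
          intro w hw
          rw [Finset.mem_filter]
          rcases Finset.mem_insert.1 hw with rfl | hw
          · exact ⟨hyK, hylo⟩
          · obtain ⟨h7, h8⟩ := Finset.mem_filter.1 hw
            exact ⟨h7, by omega⟩
        have h7 := Finset.card_le_card h6
        rw [Finset.card_insert_of_notMem (fun h8 => by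
          have := (Finset.mem_filter.1 h8).2
          omega)] at h7
        exact h7
      omega
    obtain ⟨μ, rfl⟩ : ∃ μ', μ = μ' + 1 := ⟨μ - 1, by omega⟩
    refine ⟨_, _, Att.r5f o a r u μ ν cb β, got_of g1 g2 hpair (by omega)
      (h.right g12 (m' := m) (M' := M) (δ' := δ) g5 ?_)⟩
    exact
      { o := by rw [hZ]; exact hn.o
        a := by rw [hA]; exact hn.a
        u := by rw [g8, hnu]
        r := by simp only; omega
        μ := by simp only; omega
        β := by rw [hB]; exact hn.β }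

/-- the answers to all attacks -/
theorem Dt.attack (h : Dt B W nl K R s0 s m M δ σ) (hr : Loc rr K R) (hok : Ok W σ)
    (hxK : x ∈ K) (hyK : y ∈ K) (hxy : x ≠ y) (h1 : ¬ R.rel x y) (h2 : ¬ R.rel y x) :
    RpG B W nl rr x y σ := by
  classical
  have hsm := h.yd.sm
  have hmM := h.yd.mM
  have hxle := R.le x
  have hyle := R.le y
  -- an undecided element with the last gap `M`
  obtain ⟨z0, hz0, hz0M⟩ : ∃ z ∈ Zs K R s, R.hi z = M := by
    by_cases ha : σ.a = 0
    · have hM := h.c0 ha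
      have hZ : 0 < (Zs K R s).card := by
        rw [h.yn.o]
        exact hok.o1
      obtain ⟨z, hz⟩ := Finset.card_pos.1 hZ
      exact ⟨z, hz, by rcases h.yd.hz z hz with h5 | h5 <;> omega⟩
    · have hA : 0 < (As K R s m).card := by
        rw [h.yn.a]
        omega
      obtain ⟨z, hz⟩ := Finset.card_pos.1 hA
      obtain ⟨h5, h6⟩ := mem_As.1 hz
      exact ⟨z, h5, by rcases h.yd.hz z h5 with h7 | h7 <;> omega⟩
  obtain ⟨hz0K, hz01, hz02⟩ := mem_Zs.1 hz0
  by_cases hxL : R.hi x < s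
  · have hxL' : x ∈ Ls K R s := mem_Ls.2 ⟨hxK, hxL⟩
    by_cases hyL : R.hi y < s
    · exact h.aL hr hok hxK hyK hxy h1 h2 hz0 (Or.inr ⟨hxL', mem_Ls.2 ⟨hyK, hyL⟩⟩)
    · have hy0 : R.lo y < s := by
        unfold Rep.rel at h1
        omega
      exact h.aH hr hxL' (mem_Zs.2 ⟨hyK, hy0, by omega⟩)
  · by_cases hxs : s ≤ R.lo x
    · have hxT : x ∈ Ts K R s := mem_Ts.2 ⟨hxK, hxs⟩
      have hyL : s ≤ R.hi y := by
        unfold Rep.rel at h2
        omega
      have hxy' : R.lo x ≤ R.hi y := by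
        unfold Rep.rel at h2
        omega
      have hyx' : R.lo y ≤ R.hi x := by
        unfold Rep.rel at h1
        omega
      by_cases hys : s ≤ R.lo y
      · have hyT : y ∈ Ts K R s := mem_Ts.2 ⟨hyK, hys⟩
        by_cases hym : m < R.lo y
        · exact h.a4 hr hok hxT hyT hxy h1 h2 hym
        by_cases hyM : M ≤ R.hi y
        · exact h.a5 hr hok.o1 hxT hyT hxy h1 h2 (by omega) hyM
        by_cases hxm : R.lo x ≤ m
        · obtain ⟨p, hp⟩ : ∃ p, p = min (min (R.hi x) (R.hi y)) m := ⟨_, rfl⟩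
          exact h.aM hr hok.f1 (p := p) (by omega) (by omega) hxT hyK hxy hz0 (Or.inr hyT)
            (Or.inr (by omega)) ⟨by omega, by omega⟩ ⟨by omega, by omega⟩ hz0M
        · obtain ⟨p, hp⟩ : ∃ p, p = min (R.hi x) (R.hi y) := ⟨_, rfl⟩
          exact h.aW hr hok (p := p) (by omega) (by omega) hxT (by omega) hyK hxy hz0 hz0M
            (Or.inr hyT) (Or.inr ⟨by omega, by omega⟩) ⟨by omega, by omega⟩
            ⟨by omega, by omega⟩
      · have hyZ : y ∈ Zs K R s := mem_Zs.2 ⟨hyK, by omega, hyL⟩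
        by_cases hxm : R.lo x ≤ m
        · obtain ⟨p, hp⟩ : ∃ p, p = min (R.hi x) m := ⟨_, rfl⟩
          have hmy : m ≤ R.hi y := by
            rcases h.yd.hz y hyZ with h5 | h5 <;> omega
          rcases h.yd.hz y hyZ with h5 | h5
          · exact h.aR hr hok (p := p) (by omega) (by omega) hxT hyZ ⟨by omega, by omega⟩ h5
          · exact h.aM hr hok.f1 (p := p) (by omega) (by omega) hxT hyK hxy hyZ (Or.inl rfl)
              (Or.inl rfl) ⟨by omega, by omega⟩ ⟨by omega, by omega⟩ h5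
        · have h5 : R.hi y = M := by
            rcases h.yd.hz y hyZ with h5 | h5 <;> omega
          obtain ⟨p, hp⟩ : ∃ p, p = min (R.hi x) M := ⟨_, rfl⟩
          exact h.aW hr hok (p := p) (by omega) (by omega) hxT (by omega) hyK hxy hyZ h5
            (Or.inl rfl) (Or.inl rfl) ⟨by omega, by omega⟩ ⟨by omega, by omega⟩
    · have hxZ : x ∈ Zs K R s := mem_Zs.2 ⟨hxK, by omega, by omega⟩
      exact h.aL hr hok hxK hyK hxy h1 h2 hxZ (Or.inl rfl)

end Pool.Agent.OCN.YC
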