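import Pool.Agent.Lib_helper92.OCN.YcJR
import Pool.Agent.Lib_helper48.OCN.YcBs
import Pool.Agent.Lib_helper48.OCN.YcJ_T
import Pool.Agent.Lib_helper20.OCN.YcJ_T3
import Pool.Agent.Lib_helper92.OCN.YcJ_T4
import Pool.Agent.Lib_helper17.OCN.YcJ_T5
import Pool.Agent.Lib_helper28.OCN.YcJ_B
import Pool.Agent.Lib_helper28.OCN.YcB1
import Pool.Agent.Lib_helper28.OCN.YcZ6
import Pool.Agent.Lib_helper68.OCN.YcJ_Ref
import Pool.Agent.Lib_helper47.OCN.YcJ_Z2

/-!
# MP_aeb124_co: number game, all the steps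
-/

set_option autoImplicit false

namespace Pool.Agent.OCN.YC

theorem T4_succ (P : Par) (o : ℕ) : T4 P (o + 1) = T4 P o + 256 * P.K := by
  unfold T4; push_cast; ring

theorem TP_succ (P : Par) (o : ℕ) (v : Vd) : TP P (o + 1) v = TP P o v + 80 * P.K := by
  unfold TP; push_cast; ring

end Pool.Agent.OCN.YC
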