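import Pool.Agent.Lib_helper16.OCN.YcJT
import Pool.Agent.Lib_helper93.OCN.YcJ_S
import Pool.Agent.Lib_helper68.OCN.YcJ_L
import Pool.Agent.Lib_helper92.OCN.YcJ_W
import Pool.Agent.Lib_helper48.OCN.YcJ_C

/-!
# MP_aeb124_co: number game, states with money
-/

set_option autoImplicit false

namespace Pool.Agent.OCN.YC

variable {P : Par} {σ σ' : St} {I : ℕ} {v : Vd}

theorem hZ (P : Par) : HZ P := by
  intro σ I h
  obtain ⟨σ'', c, h1, h2, h3⟩ := zj_good h
  refine ⟨σ'', c, h1, h2, ?_⟩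
  rcases h3 with h3 | h3
  · exact Or.inl (Or.inr (Or.inr (Or.inr (Or.inr h3))))
  · exact Or.inr h3

theorem HC_zero (hZ : HZ P) : HC P 0 := by
  intro σ I v h hN
  refine hZ σ I (toZ_C h ?_)
  have := h.sn.hμ
  omega

theorem HC_all (P : Par) : ∀ N, HC P N := by
  intro N
  induction N with
  | zero => exact HC_zero (hZ P)
  | succ N ih => exact block_C (hZ P) N ih (block_S (hZ P) N ih) (block_L' (hZ P) N ih)

theorem gJC (h : JC P σ I v) : Good P σ I := HC_all P _ σ I v h le_rfl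

theorem gJS {k : ℕ} (h : JS P σ I v k) : Good P σ I :=
  block_S (hZ P) _ (HC_all P _) σ I v k h le_rfl

theorem gJL {ρ : ℤ} (h : JL P σ I v ρ) : Good P σ I :=
  block_L' (hZ P) _ (HC_all P _) σ I v ρ h le_rfl

theorem gJW (h : JW P σ I v) : Good P σ I := by
  have h1 := h.ws.E
  obtain ⟨N, hN⟩ : ∃ N, v.E = N + 1 := ⟨v.E - 1, by omega⟩
  exact block_W (hZ P) N (HC_all P _) (block_L' (hZ P) N (HC_all P _)) σ I v h (by omega)

end Pool.Agent.OCN.YC
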