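import Pool.Agent.Lib_helper30.OCN.YcJ_A1
import Pool.Agent.Lib_helper85.OCN.YcJ_A2
import Pool.Agent.Lib_helper83.OCN.YcJ_A3
import Pool.Agent.Lib_helper93.OCN.YcJ_A4

/-!
# MP_aeb124_co: number game, the game
-/

set_option autoImplicit false

namespace Pool.Agent.OCN.YC

variable {P : Par} {σ σ' : St} {I : ℕ} {v : Vd}

theorem att_ZR (h : ZR P σ) (ha : Att P.W σ σ' I) : Good P σ' I := by
  obtain ⟨φ, h1, h2⟩ := h
  have hR := P.hR
  obtain ⟨σ'', c, h3, h4, h5⟩ := h2.att (by omega) h1 ha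
  refine ⟨σ'', c, h3, h4, ?_⟩
  rcases h5 with h5 | h5
  · exact Or.inl (Or.inr (Or.inr (Or.inr (Or.inr ⟨φ, h1, h5⟩))))
  · exact Or.inr h5

/-- the game -/
theorem gm_game (P : Par) : Game P.W P.nl (Gm P) where
  ok := by
    rintro σ (⟨v, h⟩ | ⟨v, h⟩ | ⟨v, h⟩ | ⟨v, h⟩ | ⟨φ, _, h⟩)
    · exact ok_CL h
    · exact ok_WT h
    · exact ok_LO h
    · exact ok_SH h
    · exact h.ok
  st := by
    rintro σ (⟨v, h⟩ | ⟨v, h⟩ | ⟨v, h⟩ | ⟨v, h⟩ | h) σ' I ha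
    · exact att_CL h ha
    · exact att_WT h ha
    · exact att_LO h ha
    · exact att_SH h ha
    · exact att_ZR h ha

end Pool.Agent.OCN.YC
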