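import Pool.Agent.Lib_helper16.OCN.YcDef

/-!
# MP_aeb124_co: the class Yc, changes of one side (block L)
-/

set_option autoImplicit false

namespace Pool.Agent.OCN.YC

variable {V : Type} {K : Finset V} {R R' : Rep V} {s : ℤ} {E : V → Prop}

/-- `R'` agrees with `R` on the left side, except for the undecided elements in `E`, which have
gone to the right side -/
structure SameL (K : Finset V) (R R' : Rep V) (s : ℤ) (E : V → Prop) : Prop where
  lo : ∀ w ∈ K, ¬ E w → R.lo w < s → R'.lo w = R.lo w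
  lo' : ∀ w ∈ K, ¬ E w → s ≤ R.lo w → s ≤ R'.lo w
  hi : ∀ w ∈ K, ¬ E w → R.hi w < s → R'.hi w = R.hi w
  hi' : ∀ w ∈ K, ¬ E w → s ≤ R.hi w → s ≤ R'.hi w
  ex : ∀ w ∈ K, E w → w ∈ Zs K R s ∧ s ≤ R'.lo w

theorem L_not (h : SameL K R R' s E) {w : V} (hw : w ∈ K) (h1 : R'.lo w < s) :
    ¬ E w ∧ R.lo w < s ∧ R'.lo w = R.lo w := by
  have hE : ¬ E w := fun hE => by
    have := (h.ex w hw hE).2
    omega
  have h2 : R.lo w < s := by
    by_contra h3
    have := h.lo' w hw hE (by omega)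
    omega
  exact ⟨hE, h2, h.lo w hw hE h2⟩

theorem L_hi_iff (h : SameL K R R' s E) {w : V} (hw : w ∈ K) : R'.hi w < s ↔ R.hi w < s := by
  by_cases hE : E w
  · obtain ⟨h1, h2⟩ := h.ex w hw hE
    have h3 := (mem_Zs.1 h1).2
    have h4 := R'.le w
    constructor <;> intro <;> omega
  · constructor
    · intro h1
      by_contra h3
      have := h.hi' w hw hE (by omega)
      omega
    · intro h1
      have := h.hi w hw hE h1
      omega

theorem L_hi_eq (h : SameL K R R' s E) {w : V} (hw : w ∈ K) (h1 : R.hi w < s) :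
    R'.hi w = R.hi w := by
  refine h.hi w hw (fun hE => ?_) h1
  have h3 := (mem_Zs.1 (h.ex w hw hE).1).2
  omega

theorem SameL.zs (h : SameL K R R' s E) (w : V) : w ∈ Zs K R' s ↔ w ∈ Zs K R s ∧ ¬ E w := by
  rw [mem_Zs, mem_Zs]
  constructor
  · rintro ⟨hw, h1, h2⟩
    obtain ⟨h3, h4, _⟩ := L_not h hw h1
    have h5 := L_hi_iff h hw
    exact ⟨⟨hw, h4, by omega⟩, h3⟩
  · rintro ⟨⟨hw, h1, h2⟩, h3⟩
    have h4 := h.lo w hw h3 h1
    have h5 := L_hi_iff h hw
    exact ⟨hw, by omega, by omega⟩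

theorem SameL.ls (h : SameL K R R' s E) : Ls K R' s = Ls K R s := by
  ext w
  rw [mem_Ls, mem_Ls]
  constructor
  · rintro ⟨hw, h1⟩
    exact ⟨hw, (L_hi_iff h hw).1 h1⟩
  · rintro ⟨hw, h1⟩
    exact ⟨hw, (L_hi_iff h hw).2 h1⟩

theorem SameL.ts (h : SameL K R R' s E) (w : V) :
    w ∈ Ts K R' s ↔ w ∈ Ts K R s ∨ (w ∈ K ∧ E w) := by
  rw [mem_Ts, mem_Ts]
  constructor
  · rintro ⟨hw, h1⟩
    by_cases hE : E w
    · exact Or.inr ⟨hw, hE⟩
    · refine Or.inl ⟨hw, ?_⟩
      by_contra h2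
      have := h.lo w hw hE (by omega)
      omega
  · rintro (⟨hw, h1⟩ | ⟨hw, hE⟩)
    · by_cases hE : E w
      · exact ⟨hw, (h.ex w hw hE).2⟩
      · exact ⟨hw, h.lo' w hw hE h1⟩
    · exact ⟨hw, (h.ex w hw hE).2⟩

/-- the left side does not change -/
theorem SameL.lf (h : SameL K R R' s E) {B W : ℕ} {s0 : ℤ} (hl : Lf B K R s0 s W) :
    Lf B K R' s0 s W := by
  refine hl.of_right (fun w hw h1 => ?_) (fun w hw h1 => ?_) (fun w hw h1 => ?_)
    (fun w hw h1 => ?_)
  · by_cases hE : E w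
    · exact Or.inr (h.ex w hw hE)
    · exact Or.inl (h.lo w hw hE h1)
  · refine h.lo' w hw (fun hE => ?_) h1
    have := (mem_Zs.1 (h.ex w hw hE).1).2.1
    omega
  · refine h.hi w hw (fun hE => ?_) h1
    have := (mem_Zs.1 (h.ex w hw hE).1).2.2
    omega
  · by_cases hE : E w
    · have := (h.ex w hw hE).2
      have := R'.le w
      omega
    · exact h.hi' w hw hE h1

theorem SameL.ul (h : SameL K R R' s E) {s0 : ℤ} (h0 : s0 ≤ s) :
    ua K R'.dual (1 - s0) = ua K R.dual (1 - s0) := by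
  classical
  unfold ua
  congr 1
  refine Finset.filter_congr fun a ha => ?_
  have h3 : ∀ (R : Rep V) (w : V), R.dual.lo w = -R.hi w := fun R w => rfl
  rw [h3, h3]
  constructor
  · intro h1
    have := L_hi_eq h ha ((L_hi_iff h ha).1 (by omega))
    omega
  · intro h1
    have := L_hi_eq h ha (by omega)
    omega

/-- the same for the right side: the undecided elements in `E` have gone to the left side -/
def SameR (K : Finset V) (R R' : Rep V) (s : ℤ) (E : V → Prop) : Prop :=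
  SameL K R.dual R'.dual (1 - s) E

theorem SameR.zs (h : SameR K R R' s E) (w : V) : w ∈ Zs K R' s ↔ w ∈ Zs K R s ∧ ¬ E w := by
  have h1 := SameL.zs h w
  rw [Zs_dual, Zs_dual] at h1
  exact h1

theorem SameR.ls (h : SameR K R R' s E) (w : V) :
    w ∈ Ls K R' s ↔ w ∈ Ls K R s ∨ (w ∈ K ∧ E w) := by
  have h1 := SameL.ts h w
  rw [Ts_dual, Ts_dual] at h1
  exact h1

theorem SameR.ts (h : SameR K R R' s E) : Ts K R' s = Ts K R s := by
  have h1 := SameL.ls h
  rw [Ls_dual, Ls_dual] at h1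
  exact h1

theorem L_lo_iff (h : SameR K R R' s E) {w : V} (hw : w ∈ K) : s ≤ R'.lo w ↔ s ≤ R.lo w := by
  have h1 := L_hi_iff h hw
  have h3 : ∀ (R : Rep V) (w : V), R.dual.hi w = -R.lo w := fun R w => rfl
  rw [h3, h3] at h1
  constructor <;> intro <;> omega

theorem L_notE (h : SameR K R R' s E) {w : V} (hw : w ∈ K) (h1 : s ≤ R.lo w) : ¬ E w := by
  intro hE
  have h2 := (SameL.ex h w hw hE).1
  rw [Zs_dual, mem_Zs] at h2
  omega

theorem SameR.lo (h : SameR K R R' s E) {w : V} (hw : w ∈ K) (h1 : s ≤ R.lo w) :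
    R'.lo w = R.lo w := by
  have h2 : ∀ (R : Rep V) (w : V), R.dual.hi w = -R.lo w := fun R w => rfl
  have h3 := L_hi_eq h hw (by rw [h2]; omega)
  rw [h2, h2] at h3
  omega

theorem SameR.hi (h : SameR K R R' s E) {w : V} (hw : w ∈ K) (hE : ¬ E w) (h1 : s ≤ R.hi w) :
    R'.hi w = R.hi w := by
  have h2 : ∀ (R : Rep V) (w : V), R.dual.lo w = -R.hi w := fun R w => rfl
  have h3 := SameL.lo h w hw hE (by rw [h2]; omega)
  rw [h2, h2] at h3
  omega

theorem SameR.N (h : SameR K R R' s E) (p : ℤ) (hp : s ≤ p) :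
    R'.N (Ts K R' s) p = R.N (Ts K R s) p := by
  classical
  rw [h.ts]
  unfold Rep.N
  congr 1
  refine Finset.filter_congr fun w hw => ?_
  obtain ⟨hwK, hws⟩ := mem_Ts.1 hw
  have hle := R.le w
  have hE : ¬ E w := fun hE => by
    have h1 := (SameL.ex h w hwK hE).1
    rw [Zs_dual, mem_Zs] at h1
    omega
  unfold Rep.Cr
  rw [h.lo hwK hws, h.hi hwK hE (by omega)]

theorem SameR.ua (h : SameR K R R' s E) (p : ℤ) (hp : s ≤ p) : ua K R' p = ua K R p := by
  classical
  unfold OCN.ua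
  congr 1
  refine Finset.filter_congr fun a ha => ?_
  have h1 := L_lo_iff h ha
  constructor
  · intro h2
    have := h.lo ha (h1.1 (by omega))
    omega
  · intro h2
    have := h.lo ha (by omega)
    omega

theorem SameR.U (h : SameR K R R' s E) {w : V} (hw : w ∈ K) (hE : ¬ E w) (h1 : s ≤ R.hi w) :
    R'.U K w = R.U K w := by
  rw [U_eq_ua, U_eq_ua, h.hi hw hE h1, h.ua _ h1]

theorem SameR.ir (h : SameR K R R' s E) (hi : InjS K R s) : InjS K R' s := by
  intro a ha b hb h1 h2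
  have h3 := h.lo ha ((L_lo_iff h ha).1 (by omega))
  have h4 := h.lo hb ((L_lo_iff h hb).1 (by omega))
  exact hi a ha b hb (by omega) (by omega)

theorem SameR.bs (h : SameR K R R' s E) : Bs K R' s = Bs K R s := by
  ext t
  rw [mem_Bs, mem_Bs]
  refine and_congr_right fun ht => ?_
  constructor
  · intro h1
    have := h.lo ht ((L_lo_iff h ht).1 (by omega))
    omega
  · intro h1
    have := h.lo ht (by omega)
    omega

/-- the right side of the class Yc after a change of the left side -/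
theorem SameR.yd (h : SameR K R R' s E) {B ν cb : ℕ} {m M : ℤ} {δ : V → ℕ}
    (hY : Yd B K R s m M ν cb δ) : Yd B K R' s m M ν cb δ := by
  have key : ∀ t ∈ K, s ≤ R'.lo t → s ≤ R.lo t ∧ R'.lo t = R.lo t ∧ R'.hi t = R.hi t ∧
      R'.U K t = R.U K t := by
    intro t ht h1
    have h2 := (L_lo_iff h ht).1 h1
    have hle := R.le t
    have hE := L_notE h ht h2
    exact ⟨h2, h.lo ht h2, h.hi ht hE (by omega), h.U ht hE (by omega)⟩
  exact {
    gT := by rw [h.ts]; exact hY.gT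
    ir := h.ir hY.ir
    sm := hY.sm
    mM := hY.mM
    hz := fun z hz => by
      obtain ⟨h1, h2⟩ := (h.zs z).1 hz
      rw [h.hi (mem_Zs.1 h1).1 h2 (mem_Zs.1 h1).2.2]
      exact hY.hz z h1
    zM := fun p hp hpm => by
      rw [h.N p hp, h.ua M (hY.sm.trans hY.mM)]
      exact hY.zM p hp hpm
    zm := fun p hp hpm => by
      rw [h.N p hp, h.ua m hY.sm]
      exact hY.zm p hp hpm
    fr := fun t ht h1 h2 p hc hpm => by
      obtain ⟨k1, k2, k3, k4⟩ := key t ht (by omega)
      unfold Rep.Cr at hc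
      rw [k2, k3] at hc
      rw [k2] at h1 h2
      rw [h.N p (by omega), k4]
      exact hY.fr t ht h1 h2 p hc hpm
    ba := fun t ht h1 p hc hpm => by
      obtain ⟨k1, k2, k3, k4⟩ := key t ht (by omega)
      unfold Rep.Cr at hc
      rw [k2, k3] at hc
      rw [k2] at h1
      rw [h.N p (by omega), k4]
      exact hY.ba t ht h1 p hc hpm
    wz := fun q hq hqM => by
      rw [h.N q (by have := hY.sm; omega), h.ua M (hY.sm.trans hY.mM)]
      exact hY.wz q hq hqM
    ws := fun t ht h1 h2 q hc hqM => by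
      obtain ⟨k1, k2, k3, k4⟩ := key t ht (by have := hY.sm; omega)
      unfold Rep.Cr at hc
      rw [k2, k3] at hc
      rw [k2] at h1 h2
      rw [h.N q (by have := hY.sm; omega), k4]
      exact hY.ws t ht h1 h2 q hc hqM }

/-- the numbers after a change of the left side, one undecided element `z` has gone -/
theorem SameR.yn {z : V} (h : SameR K R R' s (fun w => w = z)) (hz : z ∈ Zs K R s) {m M : ℤ}
    (hsm : s ≤ m) (hmM : m ≤ M) {δ : V → ℕ} {σ σ' : St} (n : Yn K R s m M δ σ)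
    (ho : σ'.o + 1 = σ.o)
    (ha : (m < R.hi z ∧ σ'.a + 1 = σ.a) ∨ (R.hi z ≤ m ∧ σ'.a = σ.a)) (hr : σ'.r = σ.r)
    (hu : σ'.u = σ.u) (hμ : σ'.μ = σ.μ) (hβ : σ'.β = σ.β) : Yn K R' s m M δ σ' := by
  classical
  have hA : ∀ w, w ∈ As K R' s m ↔ w ∈ As K R s m ∧ w ≠ z := by
    intro w
    rw [mem_As, mem_As, h.zs]
    constructor
    · rintro ⟨⟨h1, h2⟩, h3⟩
      rw [h.hi (mem_Zs.1 h1).1 h2 (mem_Zs.1 h1).2.2] at h3
      exact ⟨⟨h1, h3⟩, h2⟩
    · rintro ⟨⟨h1, h3⟩, h2⟩
      refine ⟨⟨h1, h2⟩, ?_⟩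
      rw [h.hi (mem_Zs.1 h1).1 h2 (mem_Zs.1 h1).2.2]
      exact h3
  exact {
    o := by
      have h1 : Zs K R' s = (Zs K R s).erase z := by
        ext w
        rw [h.zs, Finset.mem_erase]
        exact and_comm
      have h2 := Finset.card_erase_of_mem hz
      have h3 := Finset.card_pos.2 ⟨z, hz⟩
      have h4 := n.o
      rw [h1]
      omega
    a := by
      have h4 := n.a
      rcases ha with ⟨h1, h2⟩ | ⟨h1, h2⟩
      · have hzA : z ∈ As K R s m := mem_As.2 ⟨hz, h1⟩
        have h5 : As K R' s m = (As K R s m).erase z := by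
          ext w
          rw [hA, Finset.mem_erase]
          exact and_comm
        have h6 := Finset.card_erase_of_mem hzA
        have h7 := Finset.card_pos.2 ⟨z, hzA⟩
        rw [h5]
        omega
      · have h5 : As K R' s m = As K R s m := by
          ext w
          rw [hA]
          refine ⟨fun h6 => h6.1, fun h6 => ⟨h6, ?_⟩⟩
          rintro rfl
          have := (mem_As.1 h6).2
          omega
        rw [h5]
        omega
    u := by rw [h.ua m hsm, n.u, hu]
    r := by rw [h.ua M (hsm.trans hmM), hu, hr]; exact n.r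
    μ := by rw [h.ua s le_rfl, n.μ, hu, hμ]
    β := by rw [h.bs, n.β, hβ] }

end Pool.Agent.OCN.YC
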