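import Pool.Agent.Lib_helper16.OCN.YcX

/-!
# MP_aeb124_co: the class Yc, attacks of the main part (block M)
-/

set_option autoImplicit false

namespace Pool.Agent.OCN.YC

variable {V : Type} {B : ℕ} {K : Finset V} {R R' : Rep V} {s m M p : ℤ} {x y z0 : V}
  {ν cb : ℕ} {δ : V → ℕ}

open scoped Classical in
/-- the deficits after the exchange -/
noncomputable def exd (δ : V → ℕ) (x y z0 : V) : V → ℕ := fun w =>
  if w = x then 0 else if w = z0 then δ y else δ w

theorem exgM_old (hs : s ≤ p) {q : ℤ} (hq : s ≤ q) : s ≤ oldGap p q := by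
  unfold oldGap
  split_ifs <;> omega

theorem exgM_old_le {q n : ℤ} (hp : p ≤ n) (hq : q ≤ n + 1) : oldGap p q ≤ n := by
  unfold oldGap
  split_ifs <;> omega

theorem exgM_old_lt {q : ℤ} (hq : p < q) : oldGap p q = q - 1 := by
  unfold oldGap
  rw [if_neg (by omega)]

theorem exgM_old_ge {q : ℤ} (hq : q ≤ p) : oldGap p q = q := by
  unfold oldGap
  rw [if_pos hq]

/-- `x` keeps its start -/
theorem Exg.exgM_lox (e : Exg K R R' s p x y z0) : R'.lo x = R.lo x := by
  have h1 := e.cx.1
  rcases e.lw x e.xz e.xy with h | h <;> omega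

/-- the undecided elements are not `x` -/
theorem Exg.exgM_zx (hx : x ∈ Ts K R s) {w : V} (hw : w ∈ Zs K R s) : w ≠ x := by
  rintro rfl
  rw [mem_Ts] at hx
  rw [mem_Zs] at hw
  omega

/-- the remaining undecided elements move by one gap -/
theorem Yd.exgM_hi (hsm : ∀ z ∈ Zs K R s, R.hi z = m ∨ R.hi z = M) (hmM : m ≤ M)
    (e : Exg K R R' s p x y z0) (hpm : p ≤ m) (hx : x ∈ Ts K R s) {w : V}
    (hw : w ∈ Zs K R s) : R'.hi w = R.hi w + 1 := by
  have h1 := hsm w hw
  have h2 := Exg.exgM_zx hx hw
  rcases e.hw w h2 with h | h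
  · exact h.2
  · rcases h1 with h1 | h1 <;> omega

/-- the heights in the main part, seen from an element which ends before `M` -/
theorem Yd.exgM_z (h : Yd B K R s m M ν cb δ) {q : ℤ} (h1 : s ≤ q) (h2 : q ≤ m) {w : V}
    (hw : R.hi w ≤ M) : K.card + 1 ≤ B + R.N (Ts K R s) q + R.U K w := by
  have h3 := h.zM q h1 h2
  rw [U_eq_ua]
  have h4 := ua_anti K R hw
  omega

/-- the data of an element which takes no part in the exchange -/
theorem Exg.exgM_w (e : Exg K R R' s p x y z0) {w : V} (hz : w ≠ z0) (hy : w ≠ y) :
    (p < R'.lo w ∧ p < R.lo w ∧ R'.lo w = R.lo w + 1) ∨ (R'.lo w ≤ p ∧ R.lo w = R'.lo w) := by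
  rcases e.lw w hz hy with h | h <;> omega

/-- (block M1) the exchange in the main part -/
theorem Yd.exgM (h : Yd B K R s m M ν cb δ) (e : Exg K R R' s p x y z0) (hpm : p ≤ m)
    (hx : x ∈ Ts K R s) (hy : y = z0 ∨ R.hi y ≤ M) {ν' : ℕ} (hν : ν' ≤ ν)
    (hν' : R.hi z0 = M ∨ ν' + 1 ≤ ν) :
    Yd B K R' s (m + 1) (M + 1) ν' cb (exd δ x y z0) := by
  have hps := e.ps
  have hmM := h.mM
  have hsm := h.sm
  have hz0 := mem_Zs.1 e.z
  have hx' := mem_Ts.1 hx
  have hz0m : m ≤ R.hi z0 := by rcases h.hz z0 e.z with h1 | h1 <;> omega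
  have hz0M : R.hi z0 ≤ M := by rcases h.hz z0 e.z with h1 | h1 <;> omega
  have hlx := e.exgM_lox
  have hyM : R.hi y ≤ M := by
    rcases hy with rfl | h1
    · exact hz0M
    · exact h1
  -- the heights in the main part
  have key : ∀ q, s ≤ q → q ≤ m + 1 → R.N (Ts K R s) (oldGap p q) ≤ R'.N (Ts K R' s) q :=
    fun q h1 h2 => e.N_ge h1 ((exgM_old_le hpm h2).trans hz0m)
  -- the heights in the window
  have keyw : ∀ q, m + 1 < q → q ≤ M + 1 →
      R.N (Ts K R s) (oldGap p q) + ν' ≤ R'.N (Ts K R' s) q + ν := by
    intro q h1 h2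
    have h3 := e.N_ge' (q := q) (by omega)
    rcases hν' with h4 | h4
    · have h5 := e.N_ge (q := q) (by omega) (by
        rw [exgM_old_lt (by omega)]
        omega)
      omega
    · omega
  have uM : ua K R' (M + 1) = ua K R M := by
    rw [e.ua_gt (by omega)]
    congr 1
    omega
  have um : ua K R' (m + 1) = ua K R m := by
    rw [e.ua_gt (by omega)]
    congr 1
    omega
  -- the element `x`
  have hxq : ∀ q, s ≤ q → R'.Cr x q → K.card + 1 ≤ B + R'.N (Ts K R' s) q + R'.U K x := by
    intro q h1 h2
    have h3 : q ≤ p := by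
      have := h2.2
      rw [e.hx] at this
      exact this
    rw [e.U_x]
    have h4 := key q h1 (by omega)
    rw [exgM_old_ge h3] at h4
    have h5 := h.zm q h1 (by omega)
    have h6 := ua_anti K R hpm
    omega
  -- the element `z0`
  have hzq : ∀ q, s ≤ q → q ≤ m + 1 → K.card + 1 ≤ B + R'.N (Ts K R' s) q + R'.U K z0 := by
    intro q h1 h2
    rw [e.U_ge (Ne.symm e.xz) e.pz]
    have h4 := key q h1 h2
    have h5 := h.exgM_z (exgM_old hps h1) (exgM_old_le hpm h2) hz0M
    omega
  -- the element `y`
  have hyq : ∀ q, s ≤ q → q ≤ m + 1 → K.card + 1 ≤ B + R'.N (Ts K R' s) q + R'.U K y := by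
    intro q h1 h2
    rw [e.U_ge (Ne.symm e.xy) e.cy.2]
    have h4 := key q h1 h2
    have h5 := h.exgM_z (exgM_old hps h1) (exgM_old_le hpm h2) hyM
    omega
  refine
    { gT := ?_
      ir := e.ir h.ir
      sm := by omega
      mM := by omega
      hz := ?_
      zM := ?_
      zm := ?_
      fr := ?_
      ba := ?_
      wz := ?_
      ws := ?_ }
  · refine h.gT.trans (Nat.add_le_add_left (Finset.card_le_card fun w hw => ?_) B)
    rw [e.sameL.ts]
    exact Or.inl hw
  · intro z hz
    have h1 := ((e.sameL.zs z).1 hz).1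
    rw [Yd.exgM_hi h.hz hmM e hpm hx h1]
    rcases h.hz z h1 with h2 | h2 <;> omega
  · intro q h1 h2
    rw [uM]
    have h3 := key q h1 h2
    have h4 := h.zM _ (exgM_old hps h1) (exgM_old_le hpm h2)
    omega
  · intro q h1 h2
    rw [um]
    have h3 := key q h1 h2
    have h4 := h.zm _ (exgM_old hps h1) (exgM_old_le hpm h2)
    omega
  · intro t ht h1 h2 q h3 h4
    have h5 : s ≤ q := by
      have := h3.1
      omega
    by_cases htx : t = x
    · subst htx
      exact hxq q h5 h3
    by_cases htz : t = z0
    · subst htz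
      exact hzq q h5 h4
    by_cases hty : t = y
    · subst hty
      exact hyq q h5 h4
    have h6 := e.cr htz h3
    have h7 := e.exgM_w htz hty
    have h8 := h.fr t ht (by omega) (by omega) _ h6 (exgM_old_le hpm h4)
    have h9 := key q h5 h4
    have h10 := e.U_mono ht (by have := R.le t; omega)
    omega
  · intro t ht h1 q h3 h4
    have h5 : s ≤ q := by
      have := h3.1
      omega
    by_cases htx : t = x
    · subst htx
      have := hxq q h5 h3
      omega
    by_cases htz : t = z0
    · subst htz
      have := hzq q h5 h4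
      omega
    by_cases hty : t = y
    · subst hty
      have := hyq q h5 h4
      omega
    have h6 := e.cr htz h3
    have h7 := e.exgM_w htz hty
    have h8 := h.ba t ht (by omega) _ h6 (exgM_old_le hpm h4)
    have h9 := key q h5 h4
    have h10 := e.U_mono ht (by have := R.le t; omega)
    have h11 : exd δ x y z0 t = δ t := by
      unfold exd
      rw [if_neg htx, if_neg htz]
    omega
  · intro q h1 h2
    rw [uM]
    have h3 := keyw q h1 h2
    have h4 := h.wz (oldGap p q) (by rw [exgM_old_lt (by omega)]; omega)
      (by rw [exgM_old_lt (by omega)]; omega)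
    omega
  · intro t ht h1 h2 q h3 h4
    have hq1 := h3.1
    have htx : t ≠ x := by
      rintro rfl
      have := e.cx.1
      omega
    have htz : t ≠ z0 := by
      rintro rfl
      rcases e.lz with h5 | h5
      · omega
      · have := e.cy.1
        omega
    have hty : t ≠ y := by
      rintro rfl
      rcases e.lz with h5 | h5
      · exact htz h5.1
      · omega
    have h6 := e.cr htz h3
    have h7 := e.exgM_w htz hty
    have h8 := h.ws t ht (by omega) (by omega) _ h6 (by rw [exgM_old_lt (by omega)]; omega)
    have h9 := keyw q (by omega) h4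
    have h10 := e.U_mono ht (by have := R.le t; omega)
    omega

/-- (block M2) the numbers of the exchange in the main part -/
theorem Yd.exgMn (h : Yd B K R s m M ν cb δ) {σ σ' : St} (n : Yn K R s m M δ σ)
    (e : Exg K R R' s p x y z0) (hpm : p ≤ m) (hx : x ∈ Ts K R s) (ho : σ'.o + 1 = σ.o)
    (ha : (m < R.hi z0 ∧ σ'.a + 1 = σ.a) ∨ (R.hi z0 ≤ m ∧ σ'.a = σ.a)) (hr : σ'.r = σ.r)
    (hu : σ'.u = σ.u) (hμ : σ'.μ = σ.μ + 1)
    (hβ : (x ∉ Bs K R s ∧ σ'.β = σ.β) ∨
      (x ∈ Bs K R s ∧ ∃ γ, σ.β = δ x ::ₘ γ ∧ σ'.β = 0 ::ₘ γ)) :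
    Yn K R' s (m + 1) (M + 1) (exd δ x y z0) σ' := by
  classical
  have hps := e.ps
  have hmM := h.mM
  have hsm := h.sm
  have hz0 := mem_Zs.1 e.z
  have hx' := mem_Ts.1 hx
  have hlx := e.exgM_lox
  have uM : ua K R' (M + 1) = ua K R M := by
    rw [e.ua_gt (by omega)]
    congr 1
    omega
  have um : ua K R' (m + 1) = ua K R m := by
    rw [e.ua_gt (by omega)]
    congr 1
    omega
  refine
    { o := ?_
      a := ?_
      u := ?_
      r := ?_
      μ := ?_
      β := ?_ }
  · have h1 : Zs K R' s = (Zs K R s).erase z0 := by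
      ext w
      rw [e.sameL.zs, Finset.mem_erase]
      exact and_comm
    have h2 := n.o
    have h3 := Finset.card_erase_add_one e.z
    rw [h1]
    omega
  · have h1 : As K R' s (m + 1) = (As K R s m).erase z0 := by
      ext w
      rw [mem_As, e.sameL.zs, Finset.mem_erase, mem_As]
      constructor
      · rintro ⟨⟨h1, h2⟩, h3⟩
        rw [Yd.exgM_hi h.hz hmM e hpm hx h1] at h3
        exact ⟨h2, h1, by omega⟩
      · rintro ⟨h2, h1, h3⟩
        refine ⟨⟨h1, h2⟩, ?_⟩
        rw [Yd.exgM_hi h.hz hmM e hpm hx h1]
        omega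
    rw [h1]
    have h2 := n.a
    rcases ha with ⟨h3, h4⟩ | ⟨h3, h4⟩
    · have h5 := Finset.card_erase_add_one (mem_As.2 ⟨e.z, h3⟩)
      omega
    · rw [Finset.erase_eq_of_notMem (fun h5 => by
        have := (mem_As.1 h5).2
        omega)]
      omega
  · rw [um, n.u, hu]
  · rw [uM, hu, hr]
    exact n.r
  · rw [e.ua_le le_rfl hps, n.μ, hu, hμ]
    omega
  · -- the base elements
    set δ1 : V → ℕ := fun w => if w = x then 0 else δ w with hδ1
    have hzB : z0 ∉ Bs K R s := by
      intro h1
      have := (mem_Bs.1 h1).2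
      omega
    have hd1 : ∀ w ∈ Bs K R s, exd δ x y z0 w = δ1 w := by
      intro w hw
      have hwz : w ≠ z0 := by
        rintro rfl
        exact hzB hw
      unfold exd
      rw [hδ1]
      simp only
      rw [if_neg hwz]
    have hmap : (Bs K R' s).val.map (exd δ x y z0) = (Bs K R s).val.map δ1 := by
      by_cases hyB : y ∈ Bs K R s
      · have hyz : y ≠ z0 := by
          rintro rfl
          exact hzB hyB
        have hly := (mem_Bs.1 hyB).2
        have h1 : Bs K R' s = insert z0 ((Bs K R s).erase y) := by
          ext w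
          rw [Finset.mem_insert, Finset.mem_erase, mem_Bs, mem_Bs]
          have hl : R'.lo z0 = R.lo y ∧ R'.lo y = p + 1 := by
            rcases e.lz with h1 | h1
            · exact absurd h1.1 hyz
            · exact h1.2
          by_cases hwz : w = z0
          · subst hwz
            constructor
            · intro _
              exact Or.inl rfl
            · intro _
              exact ⟨hz0.1, by omega⟩
          · by_cases hwy : w = y
            · subst hwy
              constructor
              · rintro ⟨_, h2⟩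
                omega
              · rintro (h2 | h2)
                · exact absurd h2 hwz
                · exact absurd rfl h2.1
            · have h7 := e.exgM_w hwz hwy
              constructor
              · rintro ⟨h2, h3⟩
                exact Or.inr ⟨hwy, h2, by omega⟩
              · rintro (h2 | h2)
                · exact absurd h2 hwz
                · exact ⟨h2.2.1, by omega⟩
        have hz1 : z0 ∉ (Bs K R s).erase y := fun h2 => hzB (Finset.mem_of_mem_erase h2)
        rw [h1, Finset.insert_val_of_notMem hz1, Multiset.map_cons]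
        have h2 : (Bs K R s).val = y ::ₘ ((Bs K R s).erase y).val := by
          rw [← Finset.insert_val_of_notMem (Finset.notMem_erase y (Bs K R s)),
            Finset.insert_erase hyB]
        rw [h2, Multiset.map_cons]
        have h3 : exd δ x y z0 z0 = δ1 y := by
          unfold exd
          rw [hδ1]
          simp only
          rw [if_neg (Ne.symm e.xz), if_neg (Ne.symm e.xy), if_pos trivial]
        rw [h3]
        congr 1
        exact Multiset.map_congr rfl fun w hw => hd1 w (Finset.mem_of_mem_erase hw)
      · have h1 : Bs K R' s = Bs K R s := by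
          ext w
          rw [mem_Bs, mem_Bs]
          by_cases hwz : w = z0
          · subst hwz
            constructor
            · rintro ⟨h2, h3⟩
              exfalso
              rcases e.lz with h4 | h4
              · omega
              · exact hyB (mem_Bs.2 ⟨e.yK, by omega⟩)
            · rintro ⟨_, h3⟩
              omega
          · by_cases hwy : w = y
            · subst hwy
              constructor
              · rintro ⟨_, h2⟩
                rcases e.lz with h4 | h4
                · exact absurd h4.1 hwz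
                · omega
              · intro h2
                exact absurd (mem_Bs.2 h2) hyB
            · have h7 := e.exgM_w hwz hwy
              constructor
              · rintro ⟨h2, h3⟩
                exact ⟨h2, by omega⟩
              · rintro ⟨h2, h3⟩
                exact ⟨h2, by omega⟩
        rw [h1]
        exact Multiset.map_congr rfl fun w hw => hd1 w hw
    rw [hmap]
    rcases hβ with ⟨h1, h2⟩ | ⟨h1, γ, h2, h3⟩
    · rw [h2, ← n.β]
      refine Multiset.map_congr rfl fun w hw => ?_
      rw [hδ1]
      simp only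
      rw [if_neg]
      rintro rfl
      exact h1 hw
    · have h4 : (Bs K R s).val = x ::ₘ ((Bs K R s).erase x).val := by
        rw [← Finset.insert_val_of_notMem (Finset.notMem_erase x (Bs K R s)),
          Finset.insert_erase h1]
      have h5 := n.β
      rw [h4, Multiset.map_cons, h2, Multiset.cons_inj_right] at h5
      rw [h4, Multiset.map_cons, h3, ← h5]
      have h6 : δ1 x = 0 := if_pos rfl
      rw [h6]
      congr 1
      refine Multiset.map_congr rfl fun w hw => ?_
      rw [hδ1]
      simp only
      rw [if_neg]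
      rintro rfl
      exact Finset.notMem_erase _ _ hw

end Pool.Agent.OCN.YC
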