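import Pool.Agent.Lib_helper16.OCN.YcL

/-!
# MP_aeb124_co: the class Yc, the exchange (block X)

The answer to an attack `x → y` at the gap `p` in which the undecided element `z0` goes to the right
side. Either `y = z0` (`z0` starts after the cut), or `y` is a right element, which starts after the
cut, and `z0` gets the old start of `y`.
-/

set_option autoImplicit false

namespace Pool.Agent.OCN.YC

variable {V : Type} {K : Finset V} {R R' : Rep V} {s p : ℤ} {x y z0 : V}

/-- the exchange -/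
structure Exg (K : Finset V) (R R' : Rep V) (s p : ℤ) (x y z0 : V) : Prop where
  ps : s ≤ p
  xK : x ∈ K
  yK : y ∈ K
  xz : x ≠ z0
  xy : x ≠ y
  cx : R.Cr x p
  cy : R.Cr y p
  z : z0 ∈ Zs K R s
  pz : p ≤ R.hi z0
  y0 : y = z0 ∨ y ∈ Ts K R s
  lz : (y = z0 ∧ R'.lo z0 = p + 1) ∨ (y ≠ z0 ∧ R'.lo z0 = R.lo y ∧ R'.lo y = p + 1)
  lw : ∀ w, w ≠ z0 → w ≠ y → (p < R.lo w ∧ R'.lo w = R.lo w + 1) ∨
    (R.lo w ≤ p ∧ R'.lo w = R.lo w)
  hx : R'.hi x = p
  hw : ∀ w, w ≠ x → (p ≤ R.hi w ∧ R'.hi w = R.hi w + 1) ∨ (R.hi w < p ∧ R'.hi w = R.hi w)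

/-- the data of a cut -/
theorem Exg.X_cut_lo (hxy : x ≠ y) (cx : R.Cr x p) (cy : R.Cr y p) (w : V) (hw : w ≠ y) :
    (p < R.lo w ∧ (R.cut p x y hxy cx cy).lo w = R.lo w + 1) ∨
      (R.lo w ≤ p ∧ (R.cut p x y hxy cx cy).lo w = R.lo w) := by
  unfold Rep.cut
  simp only
  rw [if_neg hw]
  by_cases h : p < R.lo w
  · rw [if_pos h]
    exact Or.inl ⟨h, rfl⟩
  · rw [if_neg h]
    exact Or.inr ⟨by omega, rfl⟩

theorem Exg.X_cut_hi (hxy : x ≠ y) (cx : R.Cr x p) (cy : R.Cr y p) (w : V) (hw : w ≠ x) :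
    (p ≤ R.hi w ∧ (R.cut p x y hxy cx cy).hi w = R.hi w + 1) ∨
      (R.hi w < p ∧ (R.cut p x y hxy cx cy).hi w = R.hi w) := by
  unfold Rep.cut
  simp only
  rw [if_neg hw]
  by_cases h : p ≤ R.hi w
  · rw [if_pos h]
    exact Or.inl ⟨h, rfl⟩
  · rw [if_neg h]
    exact Or.inr ⟨by omega, rfl⟩

/-- the exchange as an answer (a cut, then `z0` is raised) -/
theorem op_exg [Fintype V] {r : V → V → Prop} (hr : Loc r K R) (ps : s ≤ p) (xK : x ∈ K)
    (yK : y ∈ K) (xz : x ≠ z0) (xy : x ≠ y) (cx : R.Cr x p) (cy : R.Cr y p)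
    (z : z0 ∈ Zs K R s) (pz : p ≤ R.hi z0) (y0 : y = z0 ∨ y ∈ Ts K R s) :
    ∃ (r' : V → V → Prop) (R' : Rep V), Loc r' K R' ∧ (∀ a b, r a b → r' a b) ∧ r' x y ∧
      newP r r' + R.U K x + R.D K z0 + R.N K p ≤ K.card + 1 ∧ Exg K R R' s p x y z0 := by
  classical
  obtain ⟨hzK, hz1, hz2⟩ := mem_Zs.1 z
  obtain ⟨r1, g1, g2, g3, g4⟩ := op_cut hr p x y xy xK yK cx cy
  by_cases hyz : y = z0
  · refine ⟨r1, _, g1, g2, g3, ?_, ⟨ps, xK, yK, xz, xy, cx, cy, z, pz, y0, ?_, ?_, ?_, ?_⟩⟩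
    · rw [hyz] at g4
      omega
    · refine Or.inl ⟨hyz, ?_⟩
      rw [← hyz]
      exact lo_cut_y R p x y xy cx cy
    · intro w _ hwy
      exact Exg.X_cut_lo xy cx cy w hwy
    · exact hi_cut_x R p x y xy cx cy
    · intro w hwx
      exact Exg.X_cut_hi xy cx cy w hwx
  · have hyT : y ∈ Ts K R s := y0.resolve_left hyz
    have hys : s ≤ R.lo y := (mem_Ts.1 hyT).2
    have hyp : R.lo y ≤ p := cy.1
    have hzy : z0 ≠ y := fun h => hyz h.symm
    set R1 := R.cut p x y xy cx cy with hR1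
    have e1 : R1.lo z0 = R.lo z0 := lo_cut R p x y xy cx cy z0 hzy (by omega)
    have e2 : R1.hi z0 = R.hi z0 + 1 := hi_cut_ge R p x y xy cx cy z0 (fun h => xz h.symm) pz
    have h1 : R.lo y ≤ R1.hi z0 := by omega
    have h2 : R1.lo z0 ≤ R.lo y := by omega
    obtain ⟨r2, k1, k2, k3⟩ := op_raise g1 z0 hzK (R.lo y) h1 h2
    have hlo : ∀ w, w ≠ z0 → (R1.raise z0 (R.lo y) h1).lo w = R1.lo w := fun w hw => if_neg hw
    have hloz : (R1.raise z0 (R.lo y) h1).lo z0 = R.lo y := if_pos rfl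
    have hhi : ∀ w, (R1.raise z0 (R.lo y) h1).hi w = R1.hi w := fun w => rfl
    -- the price of raising
    have hD : newP r1 r2 + R.D K z0 ≤ R.D K y := by
      rw [k3]
      unfold Rep.D
      rw [← Finset.card_union_of_disjoint]
      · refine Finset.card_le_card fun a ha => ?_
        rw [Finset.mem_union, Finset.mem_filter, Finset.mem_filter] at ha
        rw [Finset.mem_filter]
        unfold Rep.rel at ha ⊢
        rcases ha with ⟨haK, ha1, ha2⟩ | ⟨haK, ha1⟩
        · refine ⟨haK, ?_⟩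
          have hax : a ≠ x := by
            rintro rfl
            have := hi_cut_x R p a y xy cx cy
            rw [← hR1] at this
            omega
          rcases Exg.X_cut_hi xy cx cy a hax with ⟨h3, h4⟩ | ⟨h3, h4⟩
          · rw [← hR1] at h4
            omega
          · rw [← hR1] at h4
            omega
        · exact ⟨haK, by omega⟩
      · rw [Finset.disjoint_left]
        intro a ha ha'
        rw [Finset.mem_filter] at ha ha'
        obtain ⟨_, ha1, ha2⟩ := ha
        have ha3 := ha'.2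
        unfold Rep.rel at ha3
        have hax : a ≠ x := by
          rintro rfl
          have := hi_cut_x R p a y xy cx cy
          rw [← hR1] at this
          omega
        rcases Exg.X_cut_hi xy cx cy a hax with ⟨h3, h4⟩ | ⟨h3, h4⟩
        · rw [← hR1] at h4
          omega
        · rw [← hR1] at h4
          omega
    have hT := newP_trans (r := r) (r' := r1) (r'' := r2)
    refine ⟨r2, _, k1, fun a b hab => k2 a b (g2 a b hab), k2 x y g3, by omega,
      ⟨ps, xK, yK, xz, xy, cx, cy, z, pz, y0, ?_, ?_, ?_, ?_⟩⟩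
    · refine Or.inr ⟨hyz, hloz, ?_⟩
      rw [hlo y hyz]
      exact lo_cut_y R p x y xy cx cy
    · intro w hwz hwy
      rw [hlo w hwz]
      exact Exg.X_cut_lo xy cx cy w hwy
    · rw [hhi]
      exact hi_cut_x R p x y xy cx cy
    · intro w hwx
      rw [hhi]
      exact Exg.X_cut_hi xy cx cy w hwx

theorem Exg.X_ly (e : Exg K R R' s p x y z0) : R'.lo y = p + 1 := by
  rcases e.lz with ⟨h1, h2⟩ | ⟨_, _, h3⟩
  · rw [h1]
    exact h2
  · exact h3

theorem Exg.X_lz (e : Exg K R R' s p x y z0) (h : z0 ≠ y) : R'.lo z0 = R.lo y := by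
  rcases e.lz with ⟨h1, _⟩ | ⟨_, h2, _⟩
  · exact absurd h1.symm h
  · exact h2

theorem Exg.X_hz (e : Exg K R R' s p x y z0) : R'.hi z0 = R.hi z0 + 1 := by
  have h1 := e.pz
  rcases e.hw z0 (fun h => e.xz h.symm) with ⟨_, h2⟩ | ⟨h2, _⟩
  · exact h2
  · omega

theorem Exg.X_yT (e : Exg K R R' s p x y z0) (h : z0 ≠ y) : y ∈ Ts K R s :=
  e.y0.resolve_left fun h1 => h h1.symm

theorem Exg.sameL (e : Exg K R R' s p x y z0) : SameL K R R' s (fun w => w = z0) := by
  have hly := e.X_ly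
  have hps := e.ps
  have hcx := e.cx
  have hx2 := hcx.2
  refine ⟨fun w hw hE h1 => ?_, fun w hw hE h1 => ?_, fun w hw hE h1 => ?_,
    fun w hw hE h1 => ?_, fun w hw hE => ?_⟩
  · have hwy : w ≠ y := by
      rintro rfl
      have h2 := (mem_Ts.1 (e.X_yT fun h => hE h.symm)).2
      omega
    rcases e.lw w hE hwy with ⟨h2, h3⟩ | ⟨h2, h3⟩
    · omega
    · exact h3
  · by_cases hwy : w = y
    · rw [hwy]
      omega
    · rcases e.lw w hE hwy with ⟨h2, h3⟩ | ⟨h2, h3⟩ <;> omega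
  · have hwx : w ≠ x := by
      rintro rfl
      omega
    rcases e.hw w hwx with ⟨h2, h3⟩ | ⟨h2, h3⟩
    · omega
    · exact h3
  · by_cases hwx : w = x
    · rw [hwx, e.hx]
      exact hps
    · rcases e.hw w hwx with ⟨h2, h3⟩ | ⟨h2, h3⟩ <;> omega
  · rw [hE]
    refine ⟨e.z, ?_⟩
    by_cases hzy : z0 = y
    · rw [hzy]
      omega
    · rw [e.X_lz hzy]
      exact (mem_Ts.1 (e.X_yT hzy)).2

theorem Exg.ir (e : Exg K R R' s p x y z0) (h : InjS K R s) : InjS K R' s := by
  have hly := e.X_ly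
  have hps := e.ps
  have hy1 := e.cy.1
  intro a ha b hb h1 h2
  by_cases hay : a = y
  · rw [hay, hly] at h2
    by_cases hby : b = y
    · rw [hay, hby]
    · exfalso
      by_cases hbz : b = z0
      · have hzy : z0 ≠ y := fun h => hby (hbz.trans h)
        rw [hbz, e.X_lz hzy] at h2
        omega
      · rcases e.lw b hbz hby with ⟨h3, h4⟩ | ⟨h3, h4⟩ <;> omega
  · by_cases hby : b = y
    · exfalso
      rw [hby, hly] at h2
      by_cases haz : a = z0
      · have hzy : z0 ≠ y := fun h => hay (haz.trans h)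
        rw [haz, e.X_lz hzy] at h2
        omega
      · rcases e.lw a haz hay with ⟨h3, h4⟩ | ⟨h3, h4⟩ <;> omega
    · by_cases haz : a = z0
      · by_cases hbz : b = z0
        · rw [haz, hbz]
        · exfalso
          have hzy : z0 ≠ y := fun h => hay (haz.trans h)
          rw [haz, e.X_lz hzy] at h1 h2
          rcases e.lw b hbz hby with ⟨h3, h4⟩ | ⟨h3, h4⟩
          · omega
          · exact hby (h b hb y e.yK (by omega) (by omega))
      · by_cases hbz : b = z0
        · exfalso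
          have hzy : z0 ≠ y := fun h => hby (hbz.trans h)
          rw [hbz, e.X_lz hzy] at h2
          rcases e.lw a haz hay with ⟨h3, h4⟩ | ⟨h3, h4⟩
          · omega
          · exact hay (h a ha y e.yK (by omega) (by omega))
        · rcases e.lw a haz hay with ⟨h3, h4⟩ | ⟨h3, h4⟩ <;>
            rcases e.lw b hbz hby with ⟨h5, h6⟩ | ⟨h5, h6⟩
          · exact h a ha b hb (by omega) (by omega)
          · omega
          · omega
          · exact h a ha b hb (by omega) (by omega)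

theorem Exg.ua_le (e : Exg K R R' s p x y z0) {q : ℤ} (hs : s ≤ q) (hq : q ≤ p) :
    ua K R' q = ua K R q + 1 := by
  classical
  have hly := e.X_ly
  have hy1 := e.cy.1
  obtain ⟨hzK, hz1, hz2⟩ := mem_Zs.1 e.z
  have hother : ∀ w, w ≠ z0 → w ≠ y → (q < R'.lo w ↔ q < R.lo w) := by
    intro w hwz hwy
    rcases e.lw w hwz hwy with ⟨h3, h4⟩ | ⟨h3, h4⟩ <;> rw [h4] <;> constructor <;> intro <;> omega
  unfold ua
  by_cases hzy : z0 = y
  · have h1 : (K.filter fun b => q < R'.lo b) = insert z0 (K.filter fun b => q < R.lo b) := by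
      ext b
      rw [Finset.mem_insert, Finset.mem_filter, Finset.mem_filter]
      by_cases hb : b = z0
      · rw [hb]
        have h2 : R'.lo z0 = p + 1 := by rw [hzy]; exact hly
        exact ⟨fun _ => Or.inl rfl, fun _ => ⟨hzK, by omega⟩⟩
      · rw [hother b hb (fun h => hb (h.trans hzy.symm))]
        exact ⟨fun h => Or.inr h, fun h => h.resolve_left hb⟩
    rw [h1, Finset.card_insert_of_notMem]
    rw [Finset.mem_filter]
    rintro ⟨_, h2⟩
    omega
  · have hlz := e.X_lz hzy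
    by_cases hqy : q < R.lo y
    · have h1 : (K.filter fun b => q < R'.lo b) = insert z0 (K.filter fun b => q < R.lo b) := by
        ext b
        rw [Finset.mem_insert, Finset.mem_filter, Finset.mem_filter]
        by_cases hb : b = z0
        · rw [hb]
          exact ⟨fun _ => Or.inl rfl, fun _ => ⟨hzK, by omega⟩⟩
        · by_cases hby : b = y
          · rw [hby]
            exact ⟨fun h => Or.inr ⟨h.1, hqy⟩, fun _ => ⟨e.yK, by omega⟩⟩
          · rw [hother b hb hby]
            exact ⟨fun h => Or.inr h, fun h => h.resolve_left hb⟩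
      rw [h1, Finset.card_insert_of_notMem]
      rw [Finset.mem_filter]
      rintro ⟨_, h2⟩
      omega
    · have h1 : (K.filter fun b => q < R'.lo b) = insert y (K.filter fun b => q < R.lo b) := by
        ext b
        rw [Finset.mem_insert, Finset.mem_filter, Finset.mem_filter]
        by_cases hb : b = y
        · rw [hb]
          exact ⟨fun _ => Or.inl rfl, fun _ => ⟨e.yK, by omega⟩⟩
        · by_cases hbz : b = z0
          · rw [hbz]
            constructor
            · rintro ⟨_, h2⟩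
              omega
            · rintro (h2 | ⟨_, h2⟩)
              · exact absurd h2 hzy
              · omega
          · rw [hother b hbz hb]
            exact ⟨fun h => Or.inr h, fun h => h.resolve_left hb⟩
      rw [h1, Finset.card_insert_of_notMem]
      rw [Finset.mem_filter]
      rintro ⟨_, h2⟩
      omega

theorem Exg.ua_gt (e : Exg K R R' s p x y z0) {q : ℤ} (hq : p < q) :
    ua K R' q = ua K R (q - 1) := by
  classical
  have hly := e.X_ly
  have hps := e.ps
  have hy1 := e.cy.1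
  obtain ⟨hzK, hz1, hz2⟩ := mem_Zs.1 e.z
  unfold ua
  congr 1
  refine Finset.filter_congr fun b _ => ?_
  by_cases hb : b = y
  · rw [hb, hly]
    constructor <;> intro <;> omega
  · by_cases hbz : b = z0
    · have hzy : z0 ≠ y := fun h => hb (hbz.trans h)
      rw [hbz, e.X_lz hzy]
      constructor <;> intro <;> omega
    · rcases e.lw b hbz hb with ⟨h3, h4⟩ | ⟨h3, h4⟩ <;> rw [h4] <;> constructor <;> intro <;>
        omega

theorem Exg.U_x (e : Exg K R R' s p x y z0) : R'.U K x = ua K R p + 1 := by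
  rw [U_eq_ua, e.hx]
  exact e.ua_le e.ps le_rfl

theorem Exg.U_ge (e : Exg K R R' s p x y z0) {w : V} (hw : w ≠ x) (hp : p ≤ R.hi w) :
    R'.U K w = R.U K w := by
  rcases e.hw w hw with ⟨h1, h2⟩ | ⟨h1, h2⟩
  · rw [U_eq_ua, h2, e.ua_gt (by omega), U_eq_ua]
    congr 1
    omega
  · omega

theorem Exg.U_mono (e : Exg K R R' s p x y z0) {w : V} (hw : w ∈ K) (hs : s ≤ R.hi w) :
    R.U K w ≤ R'.U K w := by
  by_cases hwx : w = x
  · rw [hwx, e.U_x, U_eq_ua]
    have := ua_anti K R (p := p) (q := R.hi x) e.cx.2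
    omega
  · rcases e.hw w hwx with ⟨h1, h2⟩ | ⟨h1, h2⟩
    · exact le_of_eq (e.U_ge hwx h1).symm
    · rw [U_eq_ua, U_eq_ua, h2, e.ua_le hs (by omega)]
      omega

theorem Exg.cr (e : Exg K R R' s p x y z0) {w : V} (hw : w ≠ z0) {q : ℤ} (h : R'.Cr w q) :
    R.Cr w (oldGap p q) := by
  have hle := R.le w
  obtain ⟨h1, h2⟩ := h
  have hcx := e.cx
  have hcy := e.cy
  obtain ⟨hx1, hx2⟩ := hcx
  obtain ⟨hy1, hy2⟩ := hcy
  unfold oldGap Rep.Cr
  by_cases hwy : w = y
  · have hwx : w ≠ x := fun he => e.xy (he.symm.trans hwy)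
    rw [hwy, e.X_ly] at h1
    rcases e.hw w hwx with ⟨h3, h4⟩ | ⟨h3, h4⟩
    · rw [if_neg (by omega), hwy]
      rw [hwy] at h2 h4
      constructor <;> omega
    · rw [hwy] at h3
      omega
  · by_cases hwx : w = x
    · rw [hwx, e.hx] at h2
      rw [if_pos h2]
      rcases e.lw w hw hwy with ⟨h3, h4⟩ | ⟨h3, h4⟩
      · rw [hwx] at h3
        omega
      · rw [hwx] at h1 h4 ⊢
        constructor <;> omega
    · rcases e.lw w hw hwy with ⟨h3, h4⟩ | ⟨h3, h4⟩ <;>
        rcases e.hw w hwx with ⟨h5, h6⟩ | ⟨h5, h6⟩ <;> split_ifs <;> constructor <;> omega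

/-- the heights under an injection -/
theorem Exg.X_inj (e : Exg K R R' s p x y z0) {q : ℤ} (c : V)
    (hz : R'.Cr z0 q) (h : ∀ w ∈ Ts K R s, w ≠ c → R.Cr w (oldGap p q) → R'.Cr w q) :
    R.N (Ts K R s) (oldGap p q) ≤ R'.N (Ts K R' s) q := by
  classical
  obtain ⟨hzK, hz1, hz2⟩ := mem_Zs.1 e.z
  have hzT : z0 ∉ Ts K R s := fun h1 => by
    have := (mem_Ts.1 h1).2
    omega
  have hS := e.sameL
  unfold Rep.N
  refine Finset.card_le_card_of_injOn (fun w => if w = c then z0 else w) ?_ ?_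
  · intro w hw
    rw [Finset.mem_coe, Finset.mem_filter] at hw
    rw [Finset.mem_coe, Finset.mem_filter]
    obtain ⟨hwT, hw1⟩ := hw
    obtain ⟨hwK, hws⟩ := mem_Ts.1 hwT
    by_cases hwc : w = c
    · simp only [hwc, if_true]
      exact ⟨mem_Ts.2 ⟨hzK, (hS.ex z0 hzK rfl).2⟩, hz⟩
    · simp only [hwc, if_false]
      have hwz : w ≠ z0 := fun h1 => hzT (h1 ▸ hwT)
      exact ⟨mem_Ts.2 ⟨hwK, hS.lo' w hwK hwz hws⟩, h w hwT hwc hw1⟩
  · intro a ha b hb hab
    rw [Finset.mem_coe, Finset.mem_filter] at ha hb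
    have haz : a ≠ z0 := fun h1 => hzT (h1 ▸ ha.1)
    have hbz : b ≠ z0 := fun h1 => hzT (h1 ▸ hb.1)
    simp only at hab
    by_cases hac : a = c
    · by_cases hbc : b = c
      · rw [hac, hbc]
      · rw [if_pos hac, if_neg hbc] at hab
        exact absurd hab.symm hbz
    · by_cases hbc : b = c
      · rw [if_neg hac, if_pos hbc] at hab
        exact absurd hab haz
      · rw [if_neg hac, if_neg hbc] at hab
        exact hab

theorem Exg.N_ge (e : Exg K R R' s p x y z0) {q : ℤ} (hs : s ≤ q)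
    (hq : oldGap p q ≤ R.hi z0) :
    R.N (Ts K R s) (oldGap p q) ≤ R'.N (Ts K R' s) q := by
  classical
  obtain ⟨hzK, hz1, hz2⟩ := mem_Zs.1 e.z
  have hzT : z0 ∉ Ts K R s := fun h1 => by
    have := (mem_Ts.1 h1).2
    omega
  have hhz := e.X_hz
  have hps := e.ps
  have hpz := e.pz
  obtain ⟨hx1, hx2⟩ := e.cx
  obtain ⟨hy1, hy2⟩ := e.cy
  by_cases hqp : q ≤ p
  · have eo : oldGap p q = q := if_pos hqp
    by_cases hyq : z0 ≠ y ∧ R.lo y ≤ q
    · refine e.X_inj y ⟨?_, by omega⟩ ?_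
      · rw [e.X_lz hyq.1]
        exact hyq.2
      · intro w hwT hwy hw
        rw [eo] at hw
        obtain ⟨h1, h2⟩ := hw
        have hwz : w ≠ z0 := fun h1 => hzT (h1 ▸ hwT)
        refine ⟨?_, ?_⟩
        · rcases e.lw w hwz hwy with ⟨h3, h4⟩ | ⟨h3, h4⟩ <;> omega
        · by_cases hwx : w = x
          · rw [hwx, e.hx]
            exact hqp
          · rcases e.hw w hwx with ⟨h3, h4⟩ | ⟨h3, h4⟩ <;> omega
    · -- nothing is lost
      rw [eo]
      have hS := e.sameL
      unfold Rep.N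
      refine Finset.card_le_card fun w hw => ?_
      rw [Finset.mem_filter] at hw ⊢
      obtain ⟨hwT, h1, h2⟩ := hw
      obtain ⟨hwK, hws⟩ := mem_Ts.1 hwT
      have hwz : w ≠ z0 := fun h1 => hzT (h1 ▸ hwT)
      have hwy : w ≠ y := by
        intro hwy
        apply hyq
        refine ⟨fun h3 => hwz (hwy.trans h3.symm), ?_⟩
        rw [← hwy]
        exact h1
      refine ⟨mem_Ts.2 ⟨hwK, hS.lo' w hwK hwz hws⟩, ?_, ?_⟩
      · rcases e.lw w hwz hwy with ⟨h3, h4⟩ | ⟨h3, h4⟩ <;> omega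
      · by_cases hwx : w = x
        · rw [hwx, e.hx]
          exact hqp
        · rcases e.hw w hwx with ⟨h3, h4⟩ | ⟨h3, h4⟩ <;> omega
  · have eo : oldGap p q = q - 1 := if_neg hqp
    rw [eo] at hq
    refine e.X_inj x ⟨?_, by omega⟩ ?_
    · by_cases hzy : z0 = y
      · rw [hzy, e.X_ly]
        omega
      · rw [e.X_lz hzy]
        omega
    · intro w hwT hwx hw
      rw [eo] at hw
      obtain ⟨h1, h2⟩ := hw
      have hwz : w ≠ z0 := fun h1 => hzT (h1 ▸ hwT)
      refine ⟨?_, ?_⟩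
      · by_cases hwy : w = y
        · rw [hwy, e.X_ly]
          omega
        · rcases e.lw w hwz hwy with ⟨h3, h4⟩ | ⟨h3, h4⟩ <;> omega
      · rcases e.hw w hwx with ⟨h3, h4⟩ | ⟨h3, h4⟩ <;> omega

theorem Exg.N_ge' (e : Exg K R R' s p x y z0) {q : ℤ} (hs : s ≤ q) :
    R.N (Ts K R s) (oldGap p q) ≤ R'.N (Ts K R' s) q + 1 := by
  classical
  by_cases hqp : q ≤ p
  · have eo : oldGap p q = q := if_pos hqp
    have h := e.N_ge hs (by rw [eo]; exact hqp.trans e.pz)
    omega
  · have eo : oldGap p q = q - 1 := if_neg hqp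
    obtain ⟨hzK, hz1, hz2⟩ := mem_Zs.1 e.z
    have hzT : z0 ∉ Ts K R s := fun h1 => by
      have := (mem_Ts.1 h1).2
      omega
    have hS := e.sameL
    obtain ⟨hy1, hy2⟩ := e.cy
    rw [eo]
    unfold Rep.N
    have h5 : ((Ts K R s).filter fun w => R.Cr w (q - 1)) ⊆
        insert x ((Ts K R' s).filter fun w => R'.Cr w q) := by
      intro w hw
      rw [Finset.mem_insert, Finset.mem_filter]
      rw [Finset.mem_filter] at hw
      obtain ⟨hwT, h1, h2⟩ := hw
      obtain ⟨hwK, hws⟩ := mem_Ts.1 hwT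
      by_cases hwx : w = x
      · exact Or.inl hwx
      · right
        have hwz : w ≠ z0 := fun h1 => hzT (h1 ▸ hwT)
        refine ⟨mem_Ts.2 ⟨hwK, hS.lo' w hwK hwz hws⟩, ?_, ?_⟩
        · by_cases hwy : w = y
          · rw [hwy, e.X_ly]
            omega
          · rcases e.lw w hwz hwy with ⟨h3, h4⟩ | ⟨h3, h4⟩ <;> omega
        · rcases e.hw w hwx with ⟨h3, h4⟩ | ⟨h3, h4⟩ <;> omega
    exact (Finset.card_le_card h5).trans (Finset.card_insert_le _ _)

end Pool.Agent.OCN.YC
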