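import Pool.Agent.Lib_helper16.OCN.YAns

/-!
# MP_aeb124_co: the class of helper28 (W, T)

`W` = elements that end at the latest at `b`; all others end after `b` and start exactly at `a` or
after `b`. At least `#K - B` elements end before `a`, at least `#K - B` start after `b`, and every
gap from `a` to `b` is crossed by at least `#K - B` elements of `W`. An element which starts before
`a` and ends after `a` starts at the left end.
-/

set_option autoImplicit false

namespace Pool.Agent.OCN

variable {V : Type}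

open scoped Classical in
/-- the class of helper28 -/
structure Zc (B : ℕ) (K : Finset V) (R : Rep V) (W : Finset V) (a b : ℤ) : Prop where
  WK : W ⊆ K
  hW : ∀ w ∈ W, R.hi w ≤ b
  hT : ∀ t ∈ K, t ∉ W → b < R.hi t ∧ (R.lo t = a ∨ b < R.lo t)
  hF : ∀ w ∈ W, R.lo w < a → a ≤ R.hi w → ∀ z ∈ K, R.lo w ≤ R.lo z
  ab : a ≤ b
  gL : K.card ≤ B + (K.filter fun z => R.hi z < a).card
  gU : K.card ≤ B + (K.filter fun z => b < R.lo z).card
  gW : ∀ q, a ≤ q → q ≤ b → K.card ≤ B + (W.filter fun z => R.Cr z q).card

/-- the final class: terminal, Z or dual Z -/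
def ZT (B : ℕ) (K : Finset V) (R : Rep V) : Prop :=
  Term B K R ∨ (∃ W a b, Zc B K R W a b) ∨ ∃ W a b, Zc B K R.dual W a b

theorem ZT.dual {B : ℕ} {K : Finset V} {R : Rep V} (h : ZT B K R) : ZT B K R.dual := by
  rcases h with h | ⟨W, a, b, h⟩ | ⟨W, a, b, h⟩
  · exact Or.inl h.dual
  · exact Or.inr (Or.inr ⟨W, a, b, by rw [Rep.dual_dual]; exact h⟩)
  · exact Or.inr (Or.inl ⟨W, a, b, h⟩)

theorem ZT.flip {B : ℕ} : ∀ r ∈ Cls (ZT (V := V) B), flip r ∈ Cls (ZT B) := by
  rintro r ⟨K, R, h1, h2⟩
  exact ⟨K, R.dual, h1.flip, h2.dual⟩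

/-- a component with at most `B` elements is terminal -/
theorem term_small {B : ℕ} {K : Finset V} {R : Rep V} (h : K.card ≤ B) : Term B K R :=
  fun _ _ _ _ _ _ _ => Or.inl (by omega)

namespace Zc

variable {B : ℕ} {K : Finset V} {R : Rep V} {W : Finset V} {a b : ℤ}

theorem zt (h : Zc B K R W a b) : ZT B K R := Or.inr (Or.inl ⟨W, a, b, h⟩)

theorem U_ge (_h : Zc B K R W a b) {x : V} (hx : R.hi x ≤ b) :
    (K.filter fun z => b < R.lo z).card ≤ R.U K x := by
  classical
  unfold Rep.U
  refine Finset.card_le_card fun z hz => ?_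
  rw [Finset.mem_filter] at hz ⊢
  exact ⟨hz.1, lt_of_le_of_lt hx hz.2⟩

theorem D_ge (_h : Zc B K R W a b) {y : V} (hy : a ≤ R.lo y) :
    (K.filter fun z => R.hi z < a).card ≤ R.D K y := by
  classical
  unfold Rep.D
  refine Finset.card_le_card fun z hz => ?_
  rw [Finset.mem_filter] at hz ⊢
  exact ⟨hz.1, lt_of_lt_of_le hz.2 hy⟩

theorem card_LU (h : Zc B K R W a b) :
    (K.filter fun z => R.hi z < a).card + (K.filter fun z => b < R.lo z).card ≤ K.card := by
  classical
  rw [← Finset.card_union_of_disjoint]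
  · exact Finset.card_le_card (Finset.union_subset (Finset.filter_subset _ _)
      (Finset.filter_subset _ _))
  · rw [Finset.disjoint_left]
    intro z hz hz'
    have h1 := (Finset.mem_filter.1 hz).2
    have h2 := (Finset.mem_filter.1 hz').2
    have := R.le z
    have := h.ab
    omega

theorem loW (h : Zc B K R W a b) {t : V} (ht : t ∈ K) (htW : t ∉ W) : a ≤ R.lo t := by
  have := h.ab
  rcases (h.hT t ht htW).2 with h1 | h1 <;> omega

/-- the new gap numbers of a cut -/
theorem cut_lo' [DecidableEq V] (R : Rep V) {x y : V} {p : ℤ} (hxy : x ≠ y) (hx : R.Cr x p)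
    (hy : R.Cr y p) (z : V) : (R.cut p x y hxy hx hy).lo z =
      if z = y then p + 1 else if p < R.lo z then R.lo z + 1 else R.lo z := by
  unfold Rep.cut
  simp only
  split_ifs <;> rfl

theorem cut_hi' [DecidableEq V] (R : Rep V) {x y : V} {p : ℤ} (hxy : x ≠ y) (hx : R.Cr x p)
    (hy : R.Cr y p) (z : V) : (R.cut p x y hxy hx hy).hi z =
      if z = x then p else if p ≤ R.hi z then R.hi z + 1 else R.hi z := by
  unfold Rep.cut
  simp only
  split_ifs <;> rfl

/-- a cut behind `b` -/
theorem cutTT (h : Zc B K R W a b) {x y : V} {p : ℤ} (hxy : x ≠ y)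
    (hx : R.Cr x p) (hy : R.Cr y p) (hxW : x ∉ W) (hyW : y ∉ W) (hp : b < p) :
    Zc B K (R.cut p x y hxy hx hy) W a b := by
  classical
  have hab := h.ab
  set R' := R.cut p x y hxy hx hy with hR'
  have hlo := cut_lo' R hxy hx hy
  have hhi := cut_hi' R hxy hx hy
  rw [← hR'] at hlo hhi
  have hWx : ∀ w ∈ W, w ≠ x ∧ w ≠ y := fun w hw =>
    ⟨fun he => hxW (he ▸ hw), fun he => hyW (he ▸ hw)⟩
  have hWhi : ∀ w ∈ W, R'.hi w = R.hi w := fun w hw => by
    have := h.hW w hw
    rw [hhi, if_neg (hWx w hw).1, if_neg (by omega)]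
  have hWlo : ∀ w ∈ W, R'.lo w = R.lo w := fun w hw => by
    have := h.hW w hw
    have := R.le w
    rw [hlo, if_neg (hWx w hw).2, if_neg (by omega)]
  refine ⟨h.WK, ?_, ?_, ?_, hab, ?_, ?_, ?_⟩
  · intro w hw
    rw [hWhi w hw]
    exact h.hW w hw
  · intro t ht htW
    obtain ⟨h1, h2⟩ := h.hT t ht htW
    constructor
    · rw [hhi]
      split_ifs <;> omega
    · rw [hlo]
      split_ifs <;> omega
  · intro w hw h1 h2 z hz
    rw [hWlo w hw] at h1 ⊢
    rw [hWhi w hw] at h2
    have h3 := h.hF w hw h1 h2 z hz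
    have h4 := h.hW w hw
    rw [hlo]
    split_ifs <;> omega
  · have h4 : (K.filter fun z => R'.hi z < a) = K.filter fun z => R.hi z < a := by
      refine Finset.filter_congr fun z _ => ?_
      rw [hhi]
      by_cases hzx : z = x
      · rw [if_pos hzx, hzx]
        have := hx.2
        omega
      · rw [if_neg hzx]
        split_ifs <;> omega
    rw [h4]
    exact h.gL
  · refine h.gU.trans (Nat.add_le_add_left (Finset.card_le_card fun z hz => ?_) B)
    rw [Finset.mem_filter] at hz ⊢
    refine ⟨hz.1, ?_⟩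
    rw [hlo]
    split_ifs <;> omega
  · intro q hq1 hq2
    refine (h.gW q hq1 hq2).trans (Nat.add_le_add_left (Finset.card_le_card fun z hz => ?_) B)
    rw [Finset.mem_filter] at hz ⊢
    refine ⟨hz.1, ?_⟩
    unfold Rep.Cr
    rw [hWlo z hz.1, hWhi z hz.1]
    exact hz.2

/-- the dangerous attack: `x` moves to `W` -/
theorem cutTW [DecidableEq V] (h : Zc B K R W a b) {x y : V} {p : ℤ} (hxy : x ≠ y)
    (hx : R.Cr x p) (hy : R.Cr y p) (hxK : x ∈ K) (hxW : x ∉ W) (hyW : y ∈ W) (hpb : p ≤ b) :
    Zc B K (R.cut p x y hxy hx hy) (insert x W) a (b + 1) := by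
  classical
  have hab := h.ab
  obtain ⟨hx1, hx2⟩ := id hx
  obtain ⟨hy1, hy2⟩ := id hy
  obtain ⟨hxT1, hxT2⟩ := h.hT x hxK hxW
  have hxa : R.lo x = a := by
    rcases hxT2 with h1 | h1
    · exact h1
    · omega
  have hyb := h.hW y hyW
  set R' := R.cut p x y hxy hx hy with hR'
  have hlo := cut_lo' R hxy hx hy
  have hhi := cut_hi' R hxy hx hy
  rw [← hR'] at hlo hhi
  refine ⟨Finset.insert_subset hxK h.WK, ?_, ?_, ?_, by omega, ?_, ?_, ?_⟩
  · intro w hw
    rw [hhi]
    by_cases hwx : w = x
    · rw [if_pos hwx]; omega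
    · rw [if_neg hwx]
      have := h.hW w (Finset.mem_of_mem_insert_of_ne hw hwx)
      split_ifs <;> omega
  · intro t ht htW
    have htx : t ≠ x := fun he => htW (he ▸ Finset.mem_insert_self _ _)
    have htW' : t ∉ W := fun h1 => htW (Finset.mem_insert_of_mem h1)
    have hty : t ≠ y := fun he => htW' (he ▸ hyW)
    obtain ⟨h1, h2⟩ := h.hT t ht htW'
    constructor
    · rw [hhi, if_neg htx]
      split_ifs <;> omega
    · rw [hlo, if_neg hty]
      split_ifs <;> omega
  · intro w hw h1 h2 z hz
    by_cases hwx : w = x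
    · exfalso
      subst hwx
      rw [hlo, if_neg hxy] at h1
      split_ifs at h1 <;> omega
    · have hwW := Finset.mem_of_mem_insert_of_ne hw hwx
      by_cases hwy : w = y
      · exfalso
        rw [hlo, if_pos hwy] at h1
        omega
      · rw [hlo, if_neg hwy] at h1
        rw [hhi, if_neg hwx] at h2
        have h3 : R.lo w < a := by
          split_ifs at h1 <;> omega
        have h4 : a ≤ R.hi w := by
          split_ifs at h2 <;> omega
        have h5 := h.hF w hwW h3 h4 z hz
        have h6 : ¬ p < R.lo w := by omega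
        rw [hlo, if_neg hwy, if_neg h6, hlo]
        split_ifs <;> omega
  · have h4 : (K.filter fun z => R'.hi z < a) = K.filter fun z => R.hi z < a := by
      refine Finset.filter_congr fun z _ => ?_
      rw [hhi]
      by_cases hzx : z = x
      · rw [if_pos hzx, hzx]; omega
      · rw [if_neg hzx]
        split_ifs <;> omega
    rw [h4]
    exact h.gL
  · have h4 : (K.filter fun z => b + 1 < R'.lo z) = K.filter fun z => b < R.lo z := by
      refine Finset.filter_congr fun z _ => ?_
      rw [hlo]
      by_cases hzy : z = y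
      · rw [if_pos hzy, hzy]; omega
      · rw [if_neg hzy]
        split_ifs <;> omega
    rw [h4]
    exact h.gU
  · intro q hq1 hq2
    by_cases hqp : q ≤ p
    · refine (h.gW q hq1 (by omega)).trans (Nat.add_le_add_left ?_ B)
      refine Finset.card_le_card_of_injOn (fun w => if w = y then x else w) ?_ ?_
      · intro w hw
        rw [Finset.mem_coe, Finset.mem_filter] at hw
        rw [Finset.mem_coe, Finset.mem_filter]
        obtain ⟨hwW, hw1, hw2⟩ := hw
        have hwx : w ≠ x := fun he => hxW (he ▸ hwW)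
        unfold Rep.Cr
        by_cases hwy : w = y
        · simp only [hwy, if_true]
          refine ⟨Finset.mem_insert_self _ _, ?_, ?_⟩
          · rw [hlo, if_neg hxy]
            split_ifs <;> omega
          · rw [hhi, if_pos rfl]
            exact hqp
        · simp only [hwy, if_false]
          refine ⟨Finset.mem_insert_of_mem hwW, ?_, ?_⟩
          · rw [hlo, if_neg hwy]
            split_ifs <;> omega
          · rw [hhi, if_neg hwx]
            split_ifs <;> omega
      · intro w hw w' hw' heq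
        rw [Finset.mem_coe, Finset.mem_filter] at hw hw'
        have hwx : w ≠ x := fun he => hxW (he ▸ hw.1)
        have hwx' : w' ≠ x := fun he => hxW (he ▸ hw'.1)
        simp only at heq
        by_cases h1 : w = y
        · by_cases h2 : w' = y
          · rw [h1, h2]
          · rw [if_pos h1, if_neg h2] at heq
            exact absurd heq.symm hwx'
        · by_cases h2 : w' = y
          · rw [if_neg h1, if_pos h2] at heq
            exact absurd heq hwx
          · rw [if_neg h1, if_neg h2] at heq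
            exact heq
    · refine (h.gW (q - 1) (by omega) (by omega)).trans
        (Nat.add_le_add_left (Finset.card_le_card fun w hw => ?_) B)
      rw [Finset.mem_filter] at hw ⊢
      obtain ⟨hwW, hw1, hw2⟩ := hw
      have hwx : w ≠ x := fun he => hxW (he ▸ hwW)
      refine ⟨Finset.mem_insert_of_mem hwW, ?_, ?_⟩
      · rw [hlo]
        split_ifs <;> omega
      · rw [hhi, if_neg hwx, if_pos (by omega)]
        omega

/-- raising an element of `T` behind `b` -/
theorem raiseT (h : Zc B K R W a b) {y : V} (hyW : y ∉ W) (hq : b + 1 ≤ R.hi y)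
    (hya : R.lo y ≤ b + 1) : Zc B K (R.raise y (b + 1) hq) W a b := by
  classical
  have hab := h.ab
  have hlo : ∀ z, z ≠ y → (R.raise y (b + 1) hq).lo z = R.lo z := fun z hz => if_neg hz
  have hlof : (R.raise y (b + 1) hq).lo y = b + 1 := if_pos rfl
  have hhi : ∀ z, (R.raise y (b + 1) hq).hi z = R.hi z := fun z => rfl
  have hWy : ∀ w ∈ W, w ≠ y := fun w hw he => hyW (he ▸ hw)
  refine ⟨h.WK, fun w hw => h.hW w hw, ?_, ?_, hab, h.gL, ?_, ?_⟩
  · intro t ht htW
    obtain ⟨h1, h2⟩ := h.hT t ht htW
    rw [hhi]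
    refine ⟨h1, ?_⟩
    by_cases hty : t = y
    · rw [hty, hlof]; omega
    · rw [hlo t hty]; exact h2
  · intro w hw h1 h2 z hz
    rw [hlo w (hWy w hw)] at h1 ⊢
    rw [hhi] at h2
    have h3 := h.hF w hw h1 h2 z hz
    by_cases hzy : z = y
    · rw [hzy, hlof]; omega
    · rw [hlo z hzy]; exact h3
  · refine h.gU.trans (Nat.add_le_add_left (Finset.card_le_card fun z hz => ?_) B)
    rw [Finset.mem_filter] at hz ⊢
    refine ⟨hz.1, ?_⟩
    by_cases hzy : z = y
    · rw [hzy, hlof]; omega
    · rw [hlo z hzy]; exact hz.2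
  · intro q hq1 hq2
    refine (h.gW q hq1 hq2).trans (Nat.add_le_add_left (Finset.card_le_card fun z hz => ?_) B)
    rw [Finset.mem_filter] at hz ⊢
    refine ⟨hz.1, ?_⟩
    unfold Rep.Cr
    rw [hlo z (hWy z hz.1)]
    exact hz.2

/-- raising an element of `W` to `a` -/
theorem raiseW (h : Zc B K R W a b) {y : V} (hyW : y ∈ W) (hq : a ≤ R.hi y)
    (hya : R.lo y ≤ a) : Zc B K (R.raise y a hq) W a b := by
  classical
  have hab := h.ab
  have hlo : ∀ z, z ≠ y → (R.raise y a hq).lo z = R.lo z := fun z hz => if_neg hz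
  have hlof : (R.raise y a hq).lo y = a := if_pos rfl
  have hhi : ∀ z, (R.raise y a hq).hi z = R.hi z := fun z => rfl
  have hyb := h.hW y hyW
  refine ⟨h.WK, fun w hw => h.hW w hw, ?_, ?_, hab, h.gL, ?_, ?_⟩
  · intro t ht htW
    have hty : t ≠ y := fun he => htW (he ▸ hyW)
    rw [hhi, hlo t hty]
    exact h.hT t ht htW
  · intro w hw h1 h2 z hz
    by_cases hwy : w = y
    · exfalso
      rw [hwy, hlof] at h1
      omega
    · rw [hlo w hwy] at h1 ⊢
      rw [hhi] at h2
      have h3 := h.hF w hw h1 h2 z hz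
      by_cases hzy : z = y
      · rw [hzy, hlof]; omega
      · rw [hlo z hzy]; exact h3
  · have h4 : (K.filter fun z => b < (R.raise y a hq).lo z) = K.filter fun z => b < R.lo z := by
      refine Finset.filter_congr fun z _ => ?_
      by_cases hzy : z = y
      · rw [hzy, hlof]; omega
      · rw [hlo z hzy]
    rw [h4]
    exact h.gU
  · intro q hq1 hq2
    refine (h.gW q hq1 hq2).trans (Nat.add_le_add_left (Finset.card_le_card fun z hz => ?_) B)
    rw [Finset.mem_filter] at hz ⊢
    refine ⟨hz.1, ?_⟩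
    unfold Rep.Cr
    by_cases hzy : z = y
    · rw [hzy, hlof, hhi]
      have := hz.2.2
      rw [hzy] at this
      exact ⟨hq1, this⟩
    · rw [hlo z hzy]
      exact hz.2

/-- an element of `W` is closed -/
theorem closeW [DecidableEq V] (h : Zc B K R W a b) {x : V} (hxW : x ∈ W) (hxa : a ≤ R.hi x) :
    Zc B (K.erase x) R (W.erase x) a b := by
  classical
  have hab := h.ab
  have hxK := h.WK hxW
  have hxb := h.hW x hxW
  have hlx := R.le x
  have hc := Finset.card_erase_of_mem hxK
  have hpos := Finset.card_pos.2 ⟨x, hxK⟩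
  refine ⟨Finset.erase_subset_erase x h.WK, fun w hw => h.hW w (Finset.mem_of_mem_erase hw),
    ?_, ?_, hab, ?_, ?_, ?_⟩
  · intro t ht htW
    obtain ⟨h1, h2⟩ := Finset.mem_erase.1 ht
    exact h.hT t h2 fun h3 => htW (Finset.mem_erase.2 ⟨h1, h3⟩)
  · intro w hw h1 h2 z hz
    exact h.hF w (Finset.mem_of_mem_erase hw) h1 h2 z (Finset.mem_of_mem_erase hz)
  · have h4 : ((K.erase x).filter fun z => R.hi z < a) = K.filter fun z => R.hi z < a := by
      ext z
      rw [Finset.mem_filter, Finset.mem_filter, Finset.mem_erase]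
      constructor
      · rintro ⟨⟨_, h5⟩, h6⟩
        exact ⟨h5, h6⟩
      · rintro ⟨h5, h6⟩
        refine ⟨⟨?_, h5⟩, h6⟩
        rintro rfl
        omega
    rw [h4]
    have := h.gL
    omega
  · have h4 : ((K.erase x).filter fun z => b < R.lo z) = K.filter fun z => b < R.lo z := by
      ext z
      rw [Finset.mem_filter, Finset.mem_filter, Finset.mem_erase]
      constructor
      · rintro ⟨⟨_, h5⟩, h6⟩
        exact ⟨h5, h6⟩
      · rintro ⟨h5, h6⟩
        refine ⟨⟨?_, h5⟩, h6⟩
        rintro rfl
        omega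
    rw [h4]
    have := h.gU
    omega
  · intro q hq1 hq2
    have h1 := h.gW q hq1 hq2
    have h2 : (W.filter fun z => R.Cr z q) ⊆ insert x ((W.erase x).filter fun z => R.Cr z q) := by
      intro z hz
      rw [Finset.mem_filter] at hz
      by_cases hzx : z = x
      · rw [hzx]; exact Finset.mem_insert_self _ _
      · exact Finset.mem_insert_of_mem (Finset.mem_filter.2
          ⟨Finset.mem_erase.2 ⟨hzx, hz.1⟩, hz.2⟩)
    have h3 := (Finset.card_le_card h2).trans (Finset.card_insert_le _ _)
    omega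

/-- a cut in the left region -/
theorem cutLL (h : Zc B K R W a b) {x y : V} {p : ℤ} (hxy : x ≠ y)
    (hx : R.Cr x p) (hy : R.Cr y p) (hxK : x ∈ K) (hyK : y ∈ K) (hxa : R.hi x < a)
    (hya : R.hi y < a) : Zc B K (R.cut p x y hxy hx hy) W (a + 1) (b + 1) := by
  classical
  have hab := h.ab
  obtain ⟨hx1, hx2⟩ := id hx
  obtain ⟨hy1, hy2⟩ := id hy
  set R' := R.cut p x y hxy hx hy with hR'
  have hlo := cut_lo' R hxy hx hy
  have hhi := cut_hi' R hxy hx hy
  rw [← hR'] at hlo hhi
  refine ⟨h.WK, ?_, ?_, ?_, by omega, ?_, ?_, ?_⟩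
  · intro w hw
    have := h.hW w hw
    rw [hhi]
    split_ifs <;> omega
  · intro t ht htW
    obtain ⟨h1, h2⟩ := h.hT t ht htW
    have h3 := h.loW ht htW
    have h4 : t ≠ x := by rintro rfl; omega
    have h5 : t ≠ y := by rintro rfl; omega
    rw [hhi, hlo, if_neg h4, if_neg h5]
    have h6 : p ≤ R.hi t := by omega
    have h7 : p < R.lo t := by omega
    rw [if_pos h6, if_pos h7]
    omega
  · intro w hw h1 h2 z hz
    have hlw := R.le w
    have hlz := R.le z
    have hwx : w ≠ x := by
      rintro rfl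
      rw [hhi, if_pos rfl] at h2
      omega
    have hwy : w ≠ y := by
      rintro rfl
      rw [hhi, if_neg hwx] at h2
      split_ifs at h2 <;> omega
    rw [hlo, if_neg hwy] at h1
    rw [hhi, if_neg hwx] at h2
    have h3 : R.lo w < a := by split_ifs at h1 <;> omega
    have h4 : a ≤ R.hi w := by split_ifs at h2 <;> omega
    have h5 := h.hF w hw h3 h4
    have h6 : R.lo w ≤ p := (h5 x hxK).trans hx1
    have h7 := h5 z hz
    rw [hlo, if_neg hwy, if_neg (not_lt.2 h6), hlo]
    split_ifs <;> omega
  · have h4 : (K.filter fun z => R'.hi z < a + 1) = K.filter fun z => R.hi z < a := by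
      refine Finset.filter_congr fun z _ => ?_
      rw [hhi]
      by_cases hzx : z = x
      · rw [if_pos hzx, hzx]; omega
      · rw [if_neg hzx]
        split_ifs <;> omega
    rw [h4]
    exact h.gL
  · have h4 : (K.filter fun z => b + 1 < R'.lo z) = K.filter fun z => b < R.lo z := by
      refine Finset.filter_congr fun z _ => ?_
      rw [hlo]
      by_cases hzy : z = y
      · rw [if_pos hzy, hzy]; omega
      · rw [if_neg hzy]
        split_ifs <;> omega
    rw [h4]
    exact h.gU
  · intro q hq1 hq2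
    refine (h.gW (q - 1) (by omega) (by omega)).trans
      (Nat.add_le_add_left (Finset.card_le_card fun z hz => ?_) B)
    rw [Finset.mem_filter] at hz ⊢
    obtain ⟨hzW, hz1, hz2⟩ := hz
    have hzx : z ≠ x := by rintro rfl; omega
    have hzy : z ≠ y := by rintro rfl; omega
    refine ⟨hzW, ?_, ?_⟩
    · rw [hlo, if_neg hzy]
      split_ifs <;> omega
    · rw [hhi, if_neg hzx, if_pos (by omega)]
      omega

/-- a cut in the zone, between elements of `W`, followed by the closing of a maximal element -/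
theorem cutWW [DecidableEq V] (h : Zc B K R W a b) {x y : V} {p : ℤ} (hxy : x ≠ y)
    (hx : R.Cr x p) (hy : R.Cr y p) (hxW : x ∈ W) (hyW : y ∈ W) (hap : a ≤ p) (hpb : p ≤ b)
    {z : V} (hz : z ∈ K) (hzb : b < R.lo z) :
    Zc B (K.erase z) (R.cut p x y hxy hx hy) W a (b + 1) := by
  classical
  have hab := h.ab
  obtain ⟨hx1, hx2⟩ := id hx
  obtain ⟨hy1, hy2⟩ := id hy
  have hxb := h.hW x hxW
  have hyb := h.hW y hyW
  set R' := R.cut p x y hxy hx hy with hR'
  have hlo := cut_lo' R hxy hx hy
  have hhi := cut_hi' R hxy hx hy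
  rw [← hR'] at hlo hhi
  have hc := Finset.card_erase_of_mem hz
  have hpos := Finset.card_pos.2 ⟨z, hz⟩
  have hlz := R.le z
  have hzW : z ∉ W := fun h1 => by have := h.hW z h1; omega
  refine ⟨fun w hw => Finset.mem_erase.2 ⟨fun he => hzW (he ▸ hw), h.WK hw⟩, ?_, ?_, ?_,
    by omega, ?_, ?_, ?_⟩
  · intro w hw
    have := h.hW w hw
    rw [hhi]
    split_ifs <;> omega
  · intro t ht htW
    have htK := Finset.mem_of_mem_erase ht
    have htx : t ≠ x := fun he => htW (he ▸ hxW)
    have hty : t ≠ y := fun he => htW (he ▸ hyW)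
    obtain ⟨h1, h2⟩ := h.hT t htK htW
    constructor
    · rw [hhi, if_neg htx]
      split_ifs <;> omega
    · rw [hlo, if_neg hty]
      split_ifs <;> omega
  · intro w hw h1 h2 t ht
    have htK := Finset.mem_of_mem_erase ht
    have hlw := R.le w
    have hwy : w ≠ y := by
      rintro rfl
      rw [hlo, if_pos rfl] at h1
      omega
    rw [hlo, if_neg hwy] at h1
    have h3 : R.lo w < a := by split_ifs at h1 <;> omega
    have h4 : a ≤ R.hi w := by
      rw [hhi] at h2
      by_cases hwx : w = x
      · rw [hwx]; omega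
      · rw [if_neg hwx] at h2
        split_ifs at h2 <;> omega
    have h5 := h.hF w hw h3 h4 t htK
    have h6 : ¬ p < R.lo w := by omega
    rw [hlo, if_neg hwy, if_neg h6, hlo]
    split_ifs <;> omega
  · have h4 : ((K.erase z).filter fun w => R'.hi w < a) = K.filter fun w => R.hi w < a := by
      ext w
      rw [Finset.mem_filter, Finset.mem_filter, Finset.mem_erase, hhi]
      constructor
      · rintro ⟨⟨_, h5⟩, h6⟩
        refine ⟨h5, ?_⟩
        split_ifs at h6 <;> omega
      · rintro ⟨h5, h6⟩
        have hwz : w ≠ z := by rintro rfl; omega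
        have hwx : w ≠ x := by rintro rfl; omega
        refine ⟨⟨hwz, h5⟩, ?_⟩
        rw [if_neg hwx]
        split_ifs <;> omega
    rw [h4]
    have := h.gL
    omega
  · have h4 : ((K.erase z).filter fun w => b + 1 < R'.lo w) =
        (K.filter fun w => b < R.lo w).erase z := by
      ext w
      rw [Finset.mem_filter, Finset.mem_erase, Finset.mem_erase, Finset.mem_filter, hlo]
      constructor
      · rintro ⟨⟨h5, h6⟩, h7⟩
        refine ⟨h5, h6, ?_⟩
        split_ifs at h7 <;> omega
      · rintro ⟨h5, h6, h7⟩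
        refine ⟨⟨h5, h6⟩, ?_⟩
        have hwy : w ≠ y := by
          have := R.le w
          rintro rfl
          omega
        rw [if_neg hwy, if_pos (by omega)]
        omega
    have h5 : z ∈ K.filter fun w => b < R.lo w := Finset.mem_filter.2 ⟨hz, hzb⟩
    rw [h4, Finset.card_erase_of_mem h5]
    have := h.gU
    have := Finset.card_pos.2 ⟨z, h5⟩
    omega
  · intro q hq1 hq2
    have h6 := h.gW (if q ≤ p then q else q - 1) (by split_ifs <;> omega)
      (by split_ifs <;> omega)
    have h5 : (W.filter fun w => R.Cr w (if q ≤ p then q else q - 1)) ⊆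
        insert (if q ≤ p then y else x) (W.filter fun w => R'.Cr w q) := by
      intro w hw
      rw [Finset.mem_insert, Finset.mem_filter]
      rw [Finset.mem_filter] at hw
      obtain ⟨hwK, hw1, hw2⟩ := hw
      by_cases hqp : q ≤ p
      · rw [if_pos hqp] at hw1 hw2 ⊢
        by_cases hwy : w = y
        · exact Or.inl hwy
        · refine Or.inr ⟨hwK, ?_⟩
          unfold Rep.Cr
          rw [hlo, hhi, if_neg hwy]
          constructor
          · split_ifs <;> omega
          · split_ifs <;> omega
      · rw [if_neg hqp] at hw1 hw2 ⊢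
        by_cases hwx : w = x
        · exact Or.inl hwx
        · refine Or.inr ⟨hwK, ?_⟩
          unfold Rep.Cr
          rw [hlo, hhi, if_neg hwx]
          constructor
          · split_ifs <;> omega
          · split_ifs <;> omega
    have h7 := (Finset.card_le_card h5).trans (Finset.card_insert_le _ _)
    omega

end Zc

end Pool.Agent.OCN
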